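import Pool.Agent.CLN.C2Defs

/-!
# CLN / BinP: the forms in `P = (f_0, f_1)`, `f_0 = diag a'`, `f_1 = diag a`

An element of `P` is `u f_0 + v f_1`; take the homogeneous component of degree `d`
(`homogeneousComponent` of a product with a form) to see that a form of degree `d` in `P` is
`u f_0 + v f_1` with forms `u, v` of degree `d - 3` (zero for `d < 3`; forms of degree one are `lf`,
`CLU.exists_lf`).  `mult P (diag c) = 1`: it is in `P`, and `∂_j (diag c) = 3 c_j x_j^2 ∉ P` for `j` with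
`c_j ≠ 0` (`CLU.vanTo_iff`, `CLU.vanTo_succ`, `P` prime).  `mult P F = 0` for `F ∉ P`.
-/

set_option autoImplicit false

namespace Pool.Agent.CLN

open MvPolynomial Pool.Agent.CLU

private theorem hc_mul (u f : S) (hf : f.IsHomogeneous 3) (n : ℕ) :
    homogeneousComponent n (u * f) = if 3 ≤ n then homogeneousComponent (n - 3) u * f else 0 := by
  have hu : u * f = ∑ i ∈ Finset.range (u.totalDegree + 1), homogeneousComponent i u * f := by
    rw [← Finset.sum_mul, sum_homogeneousComponent]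
  rw [hu, map_sum]
  have e : ∀ i, homogeneousComponent n (homogeneousComponent i u * f) =
      if n = i + 3 then homogeneousComponent i u * f else 0 := fun i =>
    homogeneousComponent_of_mem ((homogeneousComponent_isHomogeneous i u).mul hf)
  rw [Finset.sum_congr rfl fun i _ => e i]
  by_cases hn : 3 ≤ n
  · rw [if_pos hn]
    have e2 : ∀ i, (n = i + 3) = (n - 3 = i) := by
      intro i
      refine propext ⟨fun h => by omega, fun h => by omega⟩
    simp only [e2]
    rw [Finset.sum_ite_eq]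
    split_ifs with h
    · rfl
    · rw [homogeneousComponent_eq_zero, zero_mul]
      rw [Finset.mem_range] at h
      omega
  · rw [if_neg hn]
    refine Finset.sum_eq_zero fun i _ => ?_
    rw [if_neg (by omega)]

theorem diag_hom (a : Fin 4 → ℂ) : (diag a).IsHomogeneous 3 := by
  unfold diag
  refine IsHomogeneous.sum _ _ _ fun i _ => ?_
  have h := (isHomogeneous_C (Fin 4) (a i)).mul ((isHomogeneous_X ℂ i).pow 3)
  rwa [zero_add, one_mul] at h

private theorem form_mem {a' a : Fin 4 → ℂ} (F : S) (d : ℕ) (hF : F.IsHomogeneous d)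
    (hFP : F ∈ Ideal.span {diag a', diag a}) :
    (d < 3 → F = 0) ∧ (3 ≤ d → ∃ u v : S, F = homogeneousComponent (d - 3) u * diag a' +
      homogeneousComponent (d - 3) v * diag a) := by
  obtain ⟨u, v, huv⟩ := Ideal.mem_span_pair.1 hFP
  have h1 : F = homogeneousComponent d (u * diag a') + homogeneousComponent d (v * diag a) := by
    rw [← map_add, huv, homogeneousComponent_eq_self hF]
  rw [hc_mul u _ (diag_hom a'), hc_mul v _ (diag_hom a)] at h1
  constructor
  · intro hd
    rw [if_neg (by omega), if_neg (by omega), add_zero] at h1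
    exact h1
  · intro hd
    rw [if_pos hd, if_pos hd] at h1
    exact ⟨u, v, h1⟩

theorem not_mem_of_small {a' a : Fin 4 → ℂ} (F : S) (d : ℕ) (hF : F.IsHomogeneous d) (hd : d < 3)
    (hF0 : F ≠ 0) : F ∉ Ideal.span {diag a', diag a} :=
  fun h => hF0 ((form_mem F d hF h).1 hd)

theorem mem_cubic {a' a : Fin 4 → ℂ} (F : S) (hF : F.IsHomogeneous 3)
    (hFP : F ∈ Ideal.span {diag a', diag a}) : ∃ u v : ℂ, F = diag (u • a' + v • a) := by
  obtain ⟨u, v, h⟩ := (form_mem F 3 hF hFP).2 le_rfl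
  rw [Nat.sub_self, homogeneousComponent_zero, homogeneousComponent_zero] at h
  refine ⟨coeff 0 u, coeff 0 v, ?_⟩
  rw [h]
  unfold diag
  rw [Finset.mul_sum, Finset.mul_sum, ← Finset.sum_add_distrib]
  refine Finset.sum_congr rfl fun i _ => ?_
  rw [Pi.add_apply, Pi.smul_apply, Pi.smul_apply, smul_eq_mul, smul_eq_mul, map_add, map_mul,
    map_mul]
  ring

theorem mem_quartic {a' a : Fin 4 → ℂ} (F : S) (hF : F.IsHomogeneous 4)
    (hFP : F ∈ Ideal.span {diag a', diag a}) :
    ∃ p q : Fin 4 → ℂ, F = lf p * diag a' + lf q * diag a := by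
  obtain ⟨u, v, h⟩ := (form_mem F 4 hF hFP).2 (by norm_num)
  obtain ⟨p, hp⟩ := exists_lf _ (homogeneousComponent_isHomogeneous (4 - 3) u)
  obtain ⟨q, hq⟩ := exists_lf _ (homogeneousComponent_isHomogeneous (4 - 3) v)
  exact ⟨p, q, by rw [h, hp, hq]⟩

theorem pderiv_diag (a : Fin 4 → ℂ) (j : Fin 4) : pderiv j (diag a) = C (3 * a j) * X j ^ 2 := by
  unfold diag
  rw [map_sum]
  have e : ∀ i : Fin 4, pderiv j (C (a i) * X i ^ 3 : S) =
      if i = j then C (3 * a j) * X j ^ 2 else 0 := by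
    intro i
    rw [pderiv_C_mul, Derivation.leibniz_pow, pderiv_X]
    by_cases h : i = j
    · subst h
      rw [if_pos rfl, Pi.single_eq_same, map_mul]
      simp only [smul_eq_mul, mul_one, nsmul_eq_mul, Nat.cast_ofNat, map_ofNat]
      ring
    · rw [if_neg h, Pi.single_eq_of_ne h]
      simp
  rw [Finset.sum_congr rfl fun i _ => e i, Finset.sum_ite_eq' Finset.univ j,
    if_pos (Finset.mem_univ j)]

theorem X_not_mem {a' a : Fin 4 → ℂ} (j : Fin 4) :
    (X j : S) ∉ Ideal.span {diag a', diag a} :=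
  not_mem_of_small (X j) 1 (isHomogeneous_X _ _) (by norm_num) (X_ne_zero j)

theorem mult_diag {a' a : Fin 4 → ℂ} (P : Ideal S) (hP : P = Ideal.span {diag a', diag a})
    (hprime : P.IsPrime) (c : Fin 4 → ℂ) (hc : c ≠ 0) (hcP : diag c ∈ P) :
    mult P (diag c) = 1 := by
  have h1 := one_le_mult P (diag c) hcP
  obtain ⟨j, hj⟩ := Function.ne_iff.1 hc
  rw [Pi.zero_apply] at hj
  have h2 : ¬ ((2 : ℕ) : ℕ∞) ≤ mult P (diag c) := by
    intro h
    have h3 := ((vanTo_succ P 1 (diag c)).1 ((vanTo_iff P 2 (diag c)).2 h)).2 j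
    have h4 := ((vanTo_succ P 0 _).1 h3).1
    rw [pderiv_diag] at h4
    have hX : (X j : S) ∉ P := by
      rw [hP]
      exact X_not_mem j
    rcases hprime.mem_or_mem h4 with h5 | h5
    · have hu : IsUnit (C (3 * c j) : S) :=
        (IsUnit.mk0 (3 * c j) (mul_ne_zero (by norm_num) hj)).map C
      exact hprime.ne_top (Ideal.eq_top_of_isUnit_mem P h5 hu)
    · exact hX (hprime.mem_of_pow_mem 2 h5)
  refine le_antisymm ?_ h1
  rw [not_le] at h2
  exact Order.le_of_lt_add_one (by
    have e : ((2 : ℕ) : ℕ∞) = 1 + 1 := by norm_num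
    rwa [e] at h2)

theorem mult_lf {a' a : Fin 4 → ℂ} (P : Ideal S) (hP : P = Ideal.span {diag a', diag a})
    (hprime : P.IsPrime) (l : Fin 4 → ℂ) (hl : l ≠ 0) : mult P (lf l) = 0 := by
  have hne : lf l ≠ 0 := fun h => hl (lf_inj (by rw [h, map_zero]))
  have hmem : lf l ∉ P := by
    rw [hP]
    exact not_mem_of_small (lf l) 1 (lf_hom l) (by norm_num) hne
  have h1 : ¬ ((1 : ℕ) : ℕ∞) ≤ mult P (lf l) := fun h =>
    hmem ((vanTo_succ P 0 _).1 ((vanTo_iff P 1 (lf l)).2 h)).1
  rw [not_le, Nat.cast_one] at h1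
  exact Order.lt_one_iff.1 h1

end Pool.Agent.CLN
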