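import Pool.Agent.CLN.ExtD
import Pool.Agent.CLN.BinP

/-!
# CLN / BMem: the form `b` is in `P`

`f_0 = diag a'`, `f_1 = diag a`.  `mult P (X i) = 0`, `mult P f_0 = 1`, `mult P f_1 = 1`
(`mult_diag`; `NonDeg` implies `a ≠ 0`, `a' ≠ 0`), so `α = (f_0 / x_3^3, f_1 / f_0, x_0 / x_3)` are in
`blowRing P` (`CLU.blowRing_eq`, `CLU.excRing`), hence `det(θ_j α_i)` is (`h.blow`).
By `det_ratio` with `z = x_3`: `x_3 det(θ_j α_i) = J b`,
`J = Jac(x_3, f_0/x_3^3, f_1/f_0, x_0/x_3) = Jac4(x_3, f_0, f_1, x_0) / (x_3^4 f_0)`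
`= ± 9 (a'_1 a_2 - a'_2 a_1) x_1^2 x_2^2 / (x_3^4 f_0)` (row operations).
So `b x_1^2 x_2^2 / (x_3^5 f_0) ∈ blowRing P`: with `CLU.mult_mul`, `CLU.mult_ne_top`
`mult P (b x_1^2 x_2^2) ≥ mult P (x_3^5 f_0) = 1`, so `b x_1^2 x_2^2 ∈ P`, `b ∈ P` (`P` prime,
`X_not_mem`).
-/

set_option autoImplicit false

namespace Pool.Agent.CLN

open MvPolynomial Pool.Agent.CLU

private theorem bm_mult_zero (P : Ideal S) [P.IsPrime] (F : S) (hF : F ∉ P) : mult P F = 0 := by
  by_contra h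
  have h1 : 1 ≤ mult P F := Order.one_le_iff_ne_zero.2 h
  exact hF ((succ_le_mult_iff P 0 F).1 (by simpa using h1)).1

private theorem bm_ne {a : S} (h : a ≠ 0) : algebraMap S L a ≠ 0 := by simpa using h

private theorem bm_det (M : Matrix (Fin 4) (Fin 4) L) (h0 : M 0 0 = 0) (h1 : M 0 1 = 0)
    (h2 : M 0 2 = 0) (h3 : M 0 3 = 1) (h4 : M 3 1 = 0) (h5 : M 3 2 = 0) :
    M.det = -(M 3 0 * (M 1 1 * M 2 2 - M 1 2 * M 2 1)) := by
  rw [Matrix.det_succ_row_zero]
  simp only [Fin.sum_univ_four, Matrix.det_fin_three, Matrix.submatrix_apply, h0, h1, h2, h3]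
  simp [Fin.succAbove, h4, h5]
  ring

private theorem bm_ratio (dL : Derivation ℂ L L) (A B : L) (hB : B ≠ 0) :
    dL (A / B) = (B * dL A - A * dL B) / B ^ 2 := by
  rw [Derivation.leibniz_div, smul_eq_mul, smul_eq_mul, smul_eq_mul, inv_pow, div_eq_inv_mul]

/-- quotients of two forms of the same degree as elements of the function field -/
private theorem bm_mk {d : ℕ} {A B : S} (hA : A.IsHomogeneous d) (hB : B.IsHomogeneous d)
    (hB0 : B ≠ 0) : ∃ α : K3, (α : L) = algebraMap S L A / algebraMap S L B :=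
  ⟨⟨algebraMap S L A / algebraMap S L B, d, A, B, hA, hB, hB0, rfl⟩, rfl⟩

theorem b_mem {a' a : Fin 4 → ℂ} (hnd : NonDeg a' a) {P : Ideal S}
    (hP : P = Ideal.span {diag a', diag a}) (hprime : P.IsPrime) {t : Fin 3 → K3}
    {θ : Fin 3 → Derivation ℂ K3 K3} (h : ClusterData P t θ) {b : S} (hb : IsB θ b) : b ∈ P := by
  have hpr : P.IsPrime := hprime
  obtain ⟨dL, hdL⟩ := exists_partial
  obtain ⟨-, hb0, Θ, hΘ3, hΘ, hdet⟩ := hb
  -- the two cubics
  have ha'0 : a' ≠ 0 := by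
    rintro rfl
    have := hnd 0 1 (by decide)
    simp at this
  have hf0P : diag a' ∈ P := by
    rw [hP]
    exact Ideal.subset_span (by simp)
  have hf1P : diag a ∈ P := by
    rw [hP]
    exact Ideal.subset_span (by simp)
  have hm0 : mult P (diag a') = 1 := mult_diag P hP hprime a' ha'0 hf0P
  have hm1 : 1 ≤ mult P (diag a) := one_le_mult P _ hf1P
  have hX : ∀ j, mult P (X j) = 0 := fun j => bm_mult_zero P _ (by rw [hP]; exact X_not_mem j)
  have hF0 : diag a' ≠ 0 := by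
    intro h0
    have h1 : (C (3 * a' 0) * X 0 ^ 2 : S) = 0 := by rw [← pderiv_diag, h0, map_zero]
    have h1' : (C (3 * a' 1) * X 1 ^ 2 : S) = 0 := by rw [← pderiv_diag, h0, map_zero]
    have h2 : ∀ j : Fin 4, (X j : S) ^ 2 ≠ 0 := fun j => pow_ne_zero _ (X_ne_zero j)
    have h3 : a' 0 = 0 := by
      have := (mul_eq_zero.1 h1).resolve_right (h2 0)
      rw [C_eq_zero] at this
      simpa using this
    have h4 : a' 1 = 0 := by
      have := (mul_eq_zero.1 h1').resolve_right (h2 1)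
      rw [C_eq_zero] at this
      simpa using this
    have := hnd 0 1 (by decide)
    rw [h3, h4] at this
    simp at this
  have hX3 : (X 3 : S) ^ 3 ≠ 0 := pow_ne_zero _ (X_ne_zero 3)
  have hX3h : ((X 3 : S) ^ 3).IsHomogeneous 3 := by
    have := (isHomogeneous_X ℂ (3 : Fin 4)).pow 3
    simpa using this
  obtain ⟨α0, hα0⟩ := bm_mk (diag_hom a') hX3h hX3
  obtain ⟨α1, hα1⟩ := bm_mk (diag_hom a) (diag_hom a') hF0
  obtain ⟨α2, hα2⟩ := bm_mk (isHomogeneous_X ℂ (0 : Fin 4)) (isHomogeneous_X ℂ (3 : Fin 4))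
    (X_ne_zero 3)
  have hmem : ∀ i, (![α0, α1, α2] : Fin 3 → K3) i ∈ blowRing P := by
    intro i
    rw [blowRing_eq]
    fin_cases i
    · refine ⟨3, diag a', X 3 ^ 3, diag_hom a', hX3h, hX3, ?_, hα0⟩
      rw [pow_succ, pow_two, mult_mul, mult_mul, hX]
      simp
    · exact ⟨3, diag a, diag a', diag_hom a, diag_hom a', hF0, by rw [hm0]; exact hm1, hα1⟩
    · refine ⟨1, X 0, X 3, isHomogeneous_X _ _, isHomogeneous_X _ _, X_ne_zero 3, ?_, hα2⟩
      rw [hX]
      simp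
  have hδ := h.blow _ hmem
  rw [blowRing_eq] at hδ
  obtain ⟨d, A, B, -, -, hB0, hAB, hδ'⟩ := hδ
  have hr := det_ratio θ Θ hΘ dL hdL (X 3) (isHomogeneous_X _ _) ![α0, α1, α2]
  rw [hdet, hδ'] at hr
  -- the Jacobian determinant
  have z0 : algebraMap S L (X 3) ≠ 0 := bm_ne (X_ne_zero 3)
  have F0 : algebraMap S L (diag a') ≠ 0 := bm_ne hF0
  have hd3 : ∀ j : Fin 4, j ≠ 3 → dL j (algebraMap S L (X 3)) = 0 := by
    intro j hj
    rw [hdL, pderiv_X_of_ne (Ne.symm hj), map_zero]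
  have hd33 : dL 3 (algebraMap S L (X 3)) = 1 := by
    rw [hdL, pderiv_X_self, map_one]
  have hd0 : ∀ j : Fin 4, j ≠ 0 → dL j (algebraMap S L (X 0)) = 0 := by
    intro j hj
    rw [hdL, pderiv_X_of_ne (Ne.symm hj), map_zero]
  have hd00 : dL 0 (algebraMap S L (X 0)) = 1 := by
    rw [hdL, pderiv_X_self, map_one]
  have hz3 : ∀ j : Fin 4, j ≠ 3 → dL j (algebraMap S L (X 3 ^ 3)) = 0 := by
    intro j hj
    rw [hdL, Derivation.leibniz_pow, pderiv_X_of_ne (Ne.symm hj)]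
    simp
  have e1 : ∀ j : Fin 4, j ≠ 3 → dL j (α0 : L) =
      algebraMap S L (pderiv j (diag a')) / algebraMap S L (X 3) ^ 3 := by
    intro j hj
    rw [hα0, bm_ratio _ _ _ (bm_ne hX3), hz3 j hj, hdL, map_pow]
    field_simp
    ring
  have e2 : ∀ j : Fin 4, dL j (α1 : L) =
      (algebraMap S L (diag a') * algebraMap S L (pderiv j (diag a)) -
        algebraMap S L (diag a) * algebraMap S L (pderiv j (diag a'))) /
          algebraMap S L (diag a') ^ 2 := by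
    intro j
    rw [hα1, bm_ratio _ _ _ F0, hdL, hdL]
  have e3 : ∀ j : Fin 4, j ≠ 3 → dL j (α2 : L) =
      dL j (algebraMap S L (X 0)) / algebraMap S L (X 3) := by
    intro j hj
    rw [hα2, bm_ratio _ _ _ z0, hd3 j hj]
    field_simp
    ring
  have hJ := bm_det (Matrix.of fun i j : Fin 4 => dL j ((Fin.cons (algebraMap S L (X 3))
    (fun i => ((![α0, α1, α2] : Fin 3 → K3) i : L)) : Fin 4 → L) i))
    (hd3 0 (by decide)) (hd3 1 (by decide)) (hd3 2 (by decide)) hd33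
    (show dL 1 (α2 : L) = 0 by rw [e3 1 (by decide), hd0 1 (by decide), zero_div])
    (show dL 2 (α2 : L) = 0 by rw [e3 2 (by decide), hd0 2 (by decide), zero_div])
  have hJ' : (Matrix.of fun i j : Fin 4 => dL j ((Fin.cons (algebraMap S L (X 3))
      (fun i => ((![α0, α1, α2] : Fin 3 → K3) i : L)) : Fin 4 → L) i)).det =
      -(dL 0 (α2 : L) * (dL 1 (α0 : L) * dL 2 (α1 : L) - dL 2 (α0 : L) * dL 1 (α1 : L))) := hJ
  rw [hJ', e3 0 (by decide), hd00, e1 1 (by decide), e1 2 (by decide), e2 1, e2 2,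
    pderiv_diag, pderiv_diag, pderiv_diag, pderiv_diag] at hr
  have B0 : algebraMap S L B ≠ 0 := bm_ne hB0
  have key : algebraMap S L (C (9 * (a 1 * a' 2 - a 2 * a' 1)) * (X 1 ^ 2 * X 2 ^ 2) * b * B) =
      algebraMap S L (X 3 ^ 5 * diag a' * A) := by
    simp only [map_mul, map_pow, map_sub, map_ofNat] at hr ⊢
    field_simp at hr
    apply mul_right_cancel₀ F0
    linear_combination (-1 : L) * hr
  have key' := IsFractionRing.injective S L key
  have hm := congrArg (mult P) key'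
  have hc : (9 * (a 1 * a' 2 - a 2 * a' 1) : ℂ) ≠ 0 :=
    mul_ne_zero (by norm_num) (hnd 1 2 (by decide))
  simp only [mult_mul, mult_C P _ hc, pow_succ, pow_zero, one_mul, hX, hm0, zero_add,
    add_zero] at hm
  -- multiplicities
  by_contra hbP
  rw [bm_mult_zero P b hbP, zero_add] at hm
  have hBt := mult_ne_top P B hB0
  obtain ⟨nB, hnB⟩ := ENat.ne_top_iff_exists.1 hBt
  rw [← hnB] at hm hAB
  have h5 : (1 : ℕ∞) + nB ≤ nB := by
    calc (1 : ℕ∞) + nB ≤ 1 + mult P A := by gcongr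
      _ = nB := hm.symm
  have h6 : 1 + nB ≤ nB := by exact_mod_cast h5
  omega

end Pool.Agent.CLN
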