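import Pool.Agent.CLN.C2Defs

/-!
# CLN / C2Alg: the algebra on the quartic surface

`W_i := Jac4(h_0, h_1, X_i, b)(x)`, `τ = h_0(x) / h_1(x)`, `l_i = p_i - τ q_i`, `c_i = a_i + τ a'_i`.
`b(x) = 0`, `h_1(x) ≠ 0`: `f_1(x) = - τ f_0(x)`, so `∑ c_i x_i^3 = 0`, `∑ l_i x_i = 0`.
`∇b(x) = 3 h_1(x) g + f_0(x) p + f_1(x) q`, `g_k = c_k x_k^2`; the last two terms and `τ q` drop out of the
determinant: `W_i = 3 h_1 det(l, q, e_i, g)`.
Cramer type identity (`i, j, k, m` distinct, `s` the sign, any `x`):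
`x_i det(l, q, e_j, g) - x_j det(l, q, e_i, g) = s ((q·x)(l_k g_m - l_m g_k) - (l·x)(q_k g_m - q_m g_k)
- (g·x)(l_k q_m - l_m q_k))` (up to the signs of the last two terms, which are irrelevant as
`l·x = g·x = 0`).  The statement of `W_identity` has been checked numerically for all `24`
permutations.
-/

set_option autoImplicit false

namespace Pool.Agent.CLN

open MvPolynomial Pool.Agent.CLU

private theorem c2_det1 {R : Type*} [CommRing R] (P Q B : Fin 4 → R) :
    (Matrix.of ![P, Q, Pi.single 1 1, B]).det =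
      -(P 0 * (Q 2 * B 3 - Q 3 * B 2) - P 2 * (Q 0 * B 3 - Q 3 * B 0) +
        P 3 * (Q 0 * B 2 - Q 2 * B 0)) := by
  rw [Matrix.det_succ_row_zero]
  simp only [Fin.sum_univ_four, Matrix.det_fin_three, Matrix.submatrix_apply]
  simp [Fin.succAbove]
  ring

private theorem c2_det0 {R : Type*} [CommRing R] (P Q B : Fin 4 → R) :
    (Matrix.of ![P, Q, Pi.single 0 1, B]).det =
      P 1 * (Q 2 * B 3 - Q 3 * B 2) - P 2 * (Q 1 * B 3 - Q 3 * B 1) +
        P 3 * (Q 1 * B 2 - Q 2 * B 1) := by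
  rw [Matrix.det_succ_row_zero]
  simp only [Fin.sum_univ_four, Matrix.det_fin_three, Matrix.submatrix_apply]
  simp [Fin.succAbove]
  ring

private theorem c2_perm {R : Type*} [CommRing R] (P Q B : Fin 4 → R) (σ : Equiv.Perm (Fin 4))
    (i : Fin 4) :
    (Matrix.of ![P, Q, Pi.single (σ i) 1, B]).det =
      (((Equiv.Perm.sign σ : ℤˣ) : ℤ) : R) *
        (Matrix.of ![P ∘ σ, Q ∘ σ, Pi.single i 1, B ∘ σ]).det := by
  have h : (Matrix.of ![P ∘ σ, Q ∘ σ, Pi.single i 1, B ∘ σ]) =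
      (Matrix.of ![P, Q, Pi.single (σ i) 1, B]).submatrix id σ := by
    ext r j
    fin_cases r
    · simp
    · simp
    · simp [Pi.single_apply]
    · simp
  rw [h, Matrix.det_permute', ← mul_assoc, ← Int.cast_mul, ← Units.val_mul, Int.units_mul_self]
  simp

private theorem c2_alg {R : Type*} [CommRing R] (l q c x : Fin 4 → R) (τ f0 f1 h1 : R)
    (hl : ∑ i, l i * x i = 0) (hc : ∑ i, c i * x i ^ 3 = 0) (hq : ∑ i, q i * x i = h1) :
    x 0 * (Matrix.of ![fun j => l j + τ * q j, q, Pi.single 1 1,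
        fun j => (l j + τ * q j) * f0 + q j * f1 + 3 * h1 * (c j * x j ^ 2)]).det -
      x 1 * (Matrix.of ![fun j => l j + τ * q j, q, Pi.single 0 1,
        fun j => (l j + τ * q j) * f0 + q j * f1 + 3 * h1 * (c j * x j ^ 2)]).det =
      3 * h1 ^ 2 * (l 2 * (c 3 * x 3 ^ 2) - l 3 * (c 2 * x 2 ^ 2)) := by
  rw [c2_det1, c2_det0]
  rw [Fin.sum_univ_four] at hl hc hq
  linear_combination (-(3 * h1 * (q 2 * (c 3 * x 3 ^ 2) - q 3 * (c 2 * x 2 ^ 2)))) * hl -
    3 * h1 * (l 2 * q 3 - l 3 * q 2) * hc +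
    3 * h1 * (l 2 * (c 3 * x 3 ^ 2) - l 3 * (c 2 * x 2 ^ 2)) * hq

private theorem c2_jac {M : Type} [Field M] [Algebra ℂ M] (x : Fin 4 → M)
    (a' a p q : Fin 4 → ℂ) (i : Fin 4) :
    aeval x (Jac4 ![lf p, lf q, X i, lf p * diag a' + lf q * diag a]) =
      (Matrix.of ![fun j => algebraMap ℂ M (p j), fun j => algebraMap ℂ M (q j), Pi.single i 1,
        fun j => algebraMap ℂ M (p j) * aeval x (diag a') + algebraMap ℂ M (q j) * aeval x (diag a)
          + aeval x (lf p) * (3 * algebraMap ℂ M (a' j) * x j ^ 2) +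
            aeval x (lf q) * (3 * algebraMap ℂ M (a j) * x j ^ 2)]).det := by
  have hlf : ∀ (v : Fin 4 → ℂ) (j : Fin 4), pderiv j (lf v) = C (v j) := by
    intro v j
    rw [lf_apply, map_sum, Finset.sum_eq_single j]
    · simp [Derivation.leibniz]
    · intro k _ hk
      simp [Derivation.leibniz, pderiv_X_of_ne hk]
    · simp
  have hdg : ∀ (v : Fin 4 → ℂ) (j : Fin 4), pderiv j (diag v) = C (3 * v j) * X j ^ 2 := by
    intro v j
    rw [diag, map_sum, Finset.sum_eq_single j]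
    · have h3 : (C 3 : S) = 3 := map_ofNat _ 3
      simp [Derivation.leibniz, Derivation.leibniz_pow, h3]
      ring
    · intro k _ hk
      simp [Derivation.leibniz, Derivation.leibniz_pow, pderiv_X_of_ne hk]
    · simp
  rw [Jac4, AlgHom.map_det]
  congr 1
  ext r j
  fin_cases r
  · simp [hlf]
  · simp [hlf]
  · by_cases h : j = i
    · subst h
      simp
    · simp [pderiv_X_of_ne (Ne.symm h), h]
  · have h3 : algebraMap ℂ M 3 = 3 := map_ofNat _ 3
    simp [hlf, hdg, Derivation.leibniz, h3]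
    ring

theorem W_identity {b : S} {w1 w2 : ℝ →+ ℂ} {x : Fin 4 → HH} {a' a p q : Fin 4 → ℂ}
    (h : C2Data b w1 w2 x a' a p q) (hq : aeval x (lf q) ≠ 0) (τ : HH)
    (hτ : aeval x (lf p) = τ * aeval x (lf q)) (l c : Fin 4 → HH)
    (hl : ∀ i, l i = algebraMap ℂ HH (p i) - τ * algebraMap ℂ HH (q i))
    (hc : ∀ i, c i = algebraMap ℂ HH (a i) + τ * algebraMap ℂ HH (a' i)) :
    (∑ i, l i * x i = 0) ∧ (∑ i, c i * x i ^ 3 = 0) ∧
    ∀ σ : Equiv.Perm (Fin 4),
      x (σ 0) * aeval x (Jac4 ![lf p, lf q, X (σ 1), b]) -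
          x (σ 1) * aeval x (Jac4 ![lf p, lf q, X (σ 0), b]) =
        3 * aeval x (lf q) ^ 2 * ((((Equiv.Perm.sign σ : ℤˣ) : ℤ) : HH) *
          (l (σ 2) * (c (σ 3) * x (σ 3) ^ 2) - l (σ 3) * (c (σ 2) * x (σ 2) ^ 2))) := by
  have hP : aeval x (lf p) = ∑ i, algebraMap ℂ HH (p i) * x i := by
    rw [lf_apply, map_sum]
    exact Finset.sum_congr rfl fun i _ => by simp
  have hQ : aeval x (lf q) = ∑ i, algebraMap ℂ HH (q i) * x i := by
    rw [lf_apply, map_sum]
    exact Finset.sum_congr rfl fun i _ => by simp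
  have hF0 : aeval x (diag a') = ∑ i, algebraMap ℂ HH (a' i) * x i ^ 3 := by
    rw [diag, map_sum]
    exact Finset.sum_congr rfl fun i _ => by simp
  have hF1 : aeval x (diag a) = ∑ i, algebraMap ℂ HH (a i) * x i ^ 3 := by
    rw [diag, map_sum]
    exact Finset.sum_congr rfl fun i _ => by simp
  have hb0 : aeval x b = 0 := (h.surf.van 4 b h.hom).2 dvd_rfl
  have hf : aeval x (diag a) = - τ * aeval x (diag a') := by
    rw [h.eq, map_add, map_mul, map_mul, hτ] at hb0
    apply mul_left_cancel₀ hq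
    linear_combination hb0
  have s1 : ∑ i, l i * x i = 0 := by
    have : ∑ i, l i * x i = aeval x (lf p) - τ * aeval x (lf q) := by
      rw [hP, hQ, Finset.mul_sum, ← Finset.sum_sub_distrib]
      exact Finset.sum_congr rfl fun i _ => by rw [hl i]; ring
    rw [this, hτ, sub_self]
  have s2 : ∑ i, c i * x i ^ 3 = 0 := by
    have : ∑ i, c i * x i ^ 3 = aeval x (diag a) + τ * aeval x (diag a') := by
      rw [hF0, hF1, Finset.mul_sum, ← Finset.sum_add_distrib]
      exact Finset.sum_congr rfl fun i _ => by rw [hc i]; ring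
    rw [this, hf]
    ring
  refine ⟨s1, s2, fun σ => ?_⟩
  have hp : (fun j => algebraMap ℂ HH (p j)) = fun j => l j + τ * algebraMap ℂ HH (q j) := by
    funext j
    rw [hl j]
    ring
  have hg : (fun j => algebraMap ℂ HH (p j) * aeval x (diag a') +
        algebraMap ℂ HH (q j) * aeval x (diag a) +
          aeval x (lf p) * (3 * algebraMap ℂ HH (a' j) * x j ^ 2) +
            aeval x (lf q) * (3 * algebraMap ℂ HH (a j) * x j ^ 2)) =
      fun j => (l j + τ * algebraMap ℂ HH (q j)) * aeval x (diag a') +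
        algebraMap ℂ HH (q j) * aeval x (diag a) + 3 * aeval x (lf q) * (c j * x j ^ 2) := by
    funext j
    rw [hτ, hl j, hc j]
    ring
  have e1 := Equiv.sum_comp σ (fun i => l i * x i)
  have e2 := Equiv.sum_comp σ (fun i => c i * x i ^ 3)
  have e3 := Equiv.sum_comp σ (fun i => algebraMap ℂ HH (q i) * x i)
  rw [s1] at e1
  rw [s2] at e2
  rw [← hQ] at e3
  have key := c2_alg (l ∘ σ) ((fun j => algebraMap ℂ HH (q j)) ∘ σ) (c ∘ σ) (x ∘ σ) τ
    (aeval x (diag a')) (aeval x (diag a)) (aeval x (lf q)) e1 e2 e3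
  rw [h.eq, c2_jac, c2_jac, hp, hg, c2_perm _ _ _ σ 1, c2_perm _ _ _ σ 0]
  simp only [Function.comp_apply, Function.comp_def] at key ⊢
  linear_combination (((Equiv.Perm.sign σ : ℤˣ) : ℤ) : HH) * key

end Pool.Agent.CLN
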