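import Pool.Agent.CLN.C2Defs

/-!
# CLN / C2Ne: nonvanishing on the quartic surface

`h_1(x)^2` times the expression is the value at `x` of the quartic form
`Q = (p_i h_1 - q_i h_0)(a_j h_1 + a'_j h_0) X_j^2 - (p_j h_1 - q_j h_0)(a_i h_1 + a'_i h_0) X_i^2`,
`h_0 = lf p`, `h_1 = lf q`.  By `Surf.van` we need `¬ b ∣ Q`.  `Q` has degree `4`, so `b ∣ Q` means
`Q = κ b` (`κ` constant).  Restrict to the line `X_i = X_j = 0` (coordinates `X_k, X_m`): `Q ↦ 0`, the
coefficients of `X_k^4` and `X_k^3 X_m ...` of `b`: `p_k a'_k + q_k a_k` (`X_k^4`) and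
`p_k a'_m + q_k a_m` (`X_k X_m^3`); if both vanish, `(p_k, q_k) = 0` by `NonDeg`.  So `κ = 0`, `Q = 0`.
`Q = 0`: the linear form `p_i h_1 - q_i h_0` is not zero (`li`, `pq`) and has no `X_i` term, and
`a_j h_1 + a'_j h_0 ≠ 0` (`(a_j, a'_j) ≠ 0` by `NonDeg`).  From
`(p_i h_1 - q_i h_0)(a_j h_1 + a'_j h_0) X_j^2 = (p_j h_1 - q_j h_0)(a_i h_1 + a'_i h_0) X_i^2`
`X_i^2` divides the product of the two linear forms on the left (`X_i` prime, `X_i ∤ X_j`), so each of
them is a multiple of `X_i` (or use degrees: both are divisible by `X_i`); but `p_i h_1 - q_i h_0` has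
no `X_i` term, contradiction.
-/

set_option autoImplicit false

namespace Pool.Agent.CLN

open MvPolynomial Pool.Agent.CLU

/-- the first term of the quartic form -/
private noncomputable def FF (a' a p q : Fin 4 → ℂ) (i j : Fin 4) : S :=
  lf (p i • q - q i • p) * lf (a j • q + a' j • p) * X j ^ 2

private theorem FF_hom (a' a p q : Fin 4 → ℂ) (i j : Fin 4) :
    (FF a' a p q i j).IsHomogeneous 4 := by
  have h1 := ((lf_hom (p i • q - q i • p)).mul (lf_hom (a j • q + a' j • p))).mul
    ((isHomogeneous_X ℂ j).pow 2)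
  exact h1

private theorem FF_aeval (x : Fin 4 → HH) (a' a p q : Fin 4 → ℂ) (τ : HH)
    (hτ : aeval x (lf p) = τ * aeval x (lf q)) (l c : Fin 4 → HH)
    (hl : ∀ i, l i = algebraMap ℂ HH (p i) - τ * algebraMap ℂ HH (q i))
    (hc : ∀ i, c i = algebraMap ℂ HH (a i) + τ * algebraMap ℂ HH (a' i)) (i j : Fin 4) :
    aeval x (FF a' a p q i j) = aeval x (lf q) ^ 2 * (l i * (c j * x j ^ 2)) := by
  have hs : ∀ (u v : Fin 4 → ℂ) (r s : ℂ), lf (r • u + s • v) = C r * lf u + C s * lf v := by
    intro u v r s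
    rw [map_add, map_smul, map_smul, smul_eq_C_mul, smul_eq_C_mul]
  have hs' : ∀ (u v : Fin 4 → ℂ) (r s : ℂ), lf (r • u - s • v) = C r * lf u - C s * lf v := by
    intro u v r s
    rw [map_sub, map_smul, map_smul, smul_eq_C_mul, smul_eq_C_mul]
  rw [FF, hs, hs', hl, hc]
  simp only [map_mul, map_sub, map_add, map_pow, aeval_X, aeval_C, hτ]
  ring

private theorem ex_km : ∀ i j : Fin 4, i ≠ j →
    ∃ k m : Fin 4, k ≠ m ∧ k ≠ i ∧ k ≠ j ∧ m ≠ i ∧ m ≠ j := by decide

/-- the substitution `X_i = 0` -/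
private noncomputable def sb (i : Fin 4) : S →ₐ[ℂ] S :=
  aeval fun n => if n = i then (0 : S) else X n

private theorem sb_lf (i : Fin 4) (v : Fin 4 → ℂ) : sb i (lf v) = lf (Function.update v i 0) := by
  rw [lf_apply, lf_apply, map_sum]
  refine Finset.sum_congr rfl fun n _ => ?_
  rw [map_mul, sb, aeval_X, aeval_C]
  by_cases h : n = i
  · subst h
    rw [if_pos rfl, Function.update_self, mul_zero, map_zero, zero_mul]
  · rw [if_neg h, Function.update_of_ne h]
    rfl

private theorem FF_eq {a' a p q : Fin 4 → ℂ} (li : LinearIndependent ℂ ![p, q])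
    (pq : ∀ i, p i ≠ 0 ∨ q i ≠ 0) {i j : Fin 4} (hij : i ≠ j)
    (h : FF a' a p q i j = FF a' a p q j i) (n : Fin 4) (hn : n ≠ i) :
    a j * q n + a' j * p n = 0 := by
  have h1 := congrArg (sb i) h
  have e1 : sb i (X j) = X j := by rw [sb, aeval_X, if_neg (Ne.symm hij)]
  have e2 : sb i (X i) = 0 := by rw [sb, aeval_X, if_pos rfl]
  rw [FF, FF, map_mul, map_mul, map_mul, map_mul, map_pow, map_pow, e1, e2, zero_pow two_ne_zero,
    mul_zero, mul_eq_zero, mul_eq_zero] at h1
  rcases h1 with (h1 | h1) | h1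
  · exfalso
    rw [sb_lf] at h1
    have h2 : Function.update (p i • q - q i • p) i 0 = 0 := lf_inj (by rw [h1, map_zero])
    have h3 : -(q i) • p + p i • q = 0 := by
      funext k
      have h4 := congrFun h2 k
      by_cases hk : k = i
      · subst hk
        simp only [Pi.add_apply, Pi.smul_apply, smul_eq_mul, Pi.zero_apply]
        ring
      · rw [Function.update_of_ne hk] at h4
        simp only [Pi.sub_apply, Pi.add_apply, Pi.smul_apply, smul_eq_mul, Pi.zero_apply] at h4 ⊢
        linear_combination h4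
    obtain ⟨h5, h6⟩ := LinearIndependent.pair_iff.1 li _ _ h3
    rcases pq i with h7 | h7
    · exact h7 h6
    · exact h7 (neg_eq_zero.1 h5)
  · rw [sb_lf] at h1
    have h2 : Function.update (a j • q + a' j • p) i 0 = 0 := lf_inj (by rw [h1, map_zero])
    have h4 := congrFun h2 n
    rw [Function.update_of_ne hn] at h4
    exact h4
  · exact absurd (pow_eq_zero_iff two_ne_zero |>.1 h1) (X_ne_zero j)

private theorem eval_two (a' a p q : Fin 4 → ℂ) {k m : Fin 4} (hkm : k ≠ m) (s t : ℂ) :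
    eval (Pi.single k s + Pi.single m t) (lf p * diag a' + lf q * diag a) =
      (p k * s + p m * t) * (a' k * s ^ 3 + a' m * t ^ 3) +
        (q k * s + q m * t) * (a k * s ^ 3 + a m * t ^ 3) := by
  have hd : ∀ c : Fin 4 → ℂ, eval (Pi.single k s + Pi.single m t) (diag c) =
      c k * s ^ 3 + c m * t ^ 3 := by
    intro c
    have h1 : ∀ n, ((Pi.single k s + Pi.single m t : Fin 4 → ℂ) n) ^ 3 =
        (Pi.single k (s ^ 3) + Pi.single m (t ^ 3) : Fin 4 → ℂ) n := by
      intro n
      by_cases hk : n = k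
      · subst hk
        simp [Pi.add_apply, Pi.single_eq_of_ne hkm]
      · by_cases hm : n = m
        · subst hm
          simp [Pi.add_apply, Pi.single_eq_of_ne hk]
        · simp [Pi.add_apply, Pi.single_eq_of_ne hk, Pi.single_eq_of_ne hm]
    have h2 : eval (Pi.single k s + Pi.single m t) (diag c) =
        c ⬝ᵥ (Pi.single k (s ^ 3) + Pi.single m (t ^ 3) : Fin 4 → ℂ) := by
      rw [diag, map_sum, dotProduct]
      refine Finset.sum_congr rfl fun n _ => ?_
      rw [map_mul, map_pow, eval_C, eval_X, h1]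
    rw [h2, dotProduct_add, dotProduct_single, dotProduct_single]
  have hl : ∀ c : Fin 4 → ℂ, eval (Pi.single k s + Pi.single m t) (lf c) =
      c k * s + c m * t := by
    intro c
    rw [eval_lf, dotProduct_add, dotProduct_single, dotProduct_single]
  rw [map_add, map_mul, map_mul, hd, hd, hl, hl]

private theorem pq_zero {u v u' v' p q : ℂ} (hd : u * v' - v * u' ≠ 0)
    (h1 : p * u' + q * u = 0) (h2 : p * v' + q * v = 0) : p = 0 ∧ q = 0 := by
  constructor
  · refine (mul_eq_zero.1 ?_).resolve_right hd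
    linear_combination u * h2 - v * h1
  · refine (mul_eq_zero.1 ?_).resolve_right hd
    linear_combination v' * h1 - u' * h2

theorem Y_ne {b : S} {w1 w2 : ℝ →+ ℂ} {x : Fin 4 → HH} {a' a p q : Fin 4 → ℂ}
    (h : C2Data b w1 w2 x a' a p q) (hq : aeval x (lf q) ≠ 0) (τ : HH)
    (hτ : aeval x (lf p) = τ * aeval x (lf q)) (l c : Fin 4 → HH)
    (hl : ∀ i, l i = algebraMap ℂ HH (p i) - τ * algebraMap ℂ HH (q i))
    (hc : ∀ i, c i = algebraMap ℂ HH (a i) + τ * algebraMap ℂ HH (a' i)) (i j : Fin 4)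
    (hij : i ≠ j) : l i * (c j * x j ^ 2) - l j * (c i * x i ^ 2) ≠ 0 := by
  intro h0
  have hQx : aeval x (FF a' a p q i j - FF a' a p q j i) = 0 := by
    rw [map_sub, FF_aeval x a' a p q τ hτ l c hl hc, FF_aeval x a' a p q τ hτ l c hl hc,
      ← mul_sub, h0, mul_zero]
  have hQhom : (FF a' a p q i j - FF a' a p q j i).IsHomogeneous 4 :=
    (FF_hom a' a p q i j).sub (FF_hom a' a p q j i)
  obtain ⟨R, hR⟩ := (h.surf.van 4 _ hQhom).1 hQx
  obtain ⟨k, m, hkm, hki, hkj, hmi, hmj⟩ := ex_km i j hij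
  by_cases hQ0 : FF a' a p q i j - FF a' a p q j i = 0
  · have e1 := FF_eq h.li h.pq hij (sub_eq_zero.1 hQ0) k hki
    have e2 := FF_eq h.li h.pq (Ne.symm hij) (sub_eq_zero.1 hQ0).symm k hkj
    obtain ⟨e3, e4⟩ := pq_zero (u := a j) (v := a i) (u' := a' j) (v' := a' i) (p := p k)
      (q := q k) (h.nondeg j i (Ne.symm hij)) (by linear_combination e1)
      (by linear_combination e2)
    rcases h.pq k with h7 | h7
    · exact h7 e3
    · exact h7 e4
  · have hb0 : b ≠ 0 := h.irr.ne_zero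
    have hR0 : R ≠ 0 := by
      rintro rfl
      exact hQ0 (by rw [hR, mul_zero])
    have hdeg := congrArg totalDegree hR
    rw [hQhom.totalDegree hQ0, totalDegree_mul_of_isDomain hb0 hR0, h.hom.totalDegree hb0] at hdeg
    have hRd : R.totalDegree = 0 := by omega
    have hRC := totalDegree_eq_zero_iff_eq_C.1 hRd
    have hκ : coeff 0 R ≠ 0 := by
      intro h1
      rw [h1, map_zero] at hRC
      exact hR0 hRC
    have hE : ∀ s t : ℂ, (p k * s + p m * t) * (a' k * s ^ 3 + a' m * t ^ 3) +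
        (q k * s + q m * t) * (a k * s ^ 3 + a m * t ^ 3) = 0 := by
      intro s t
      have h1 := congrArg (eval (Pi.single k s + Pi.single m t)) hR
      rw [hRC, map_mul, eval_C, h.eq, eval_two a' a p q hkm] at h1
      have e1 : (Pi.single k s + Pi.single m t : Fin 4 → ℂ) i = 0 := by
        simp [Pi.add_apply, Pi.single_eq_of_ne (Ne.symm hki), Pi.single_eq_of_ne (Ne.symm hmi)]
      have e2 : (Pi.single k s + Pi.single m t : Fin 4 → ℂ) j = 0 := by
        simp [Pi.add_apply, Pi.single_eq_of_ne (Ne.symm hkj), Pi.single_eq_of_ne (Ne.symm hmj)]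
      have e3 : eval (Pi.single k s + Pi.single m t : Fin 4 → ℂ)
          (FF a' a p q i j - FF a' a p q j i) = 0 := by
        rw [FF, FF, map_sub, map_mul, map_pow, eval_X, e2, map_mul _ _ (X i ^ 2), map_pow, eval_X,
          e1, zero_pow two_ne_zero, mul_zero, mul_zero, sub_zero]
      rw [e3] at h1
      exact (mul_eq_zero.1 h1.symm).resolve_right hκ
    have h10 := hE 1 0
    have h01 := hE 0 1
    have h11 := hE 1 1
    have h12 := hE 1 2
    have c1 : p k * a' k + q k * a k = 0 := by linear_combination h10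
    have c2 : p k * a' m + q k * a m = 0 := by
      linear_combination (1 / 6) * h12 - (1 / 3) * h11 + (1 / 6) * h10 - (7 / 3) * h01
    obtain ⟨e3, e4⟩ := pq_zero (h.nondeg k m hkm) c1 c2
    rcases h.pq k with h7 | h7
    · exact h7 e3
    · exact h7 e4

end Pool.Agent.CLN
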