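import Pool.Agent.CLN.C2Basis
import Pool.Agent.CLN.C2Alg
import Pool.Agent.CLN.C2Ne

/-!
# CLN / C2Main: the structure `CaseII` from the data

Take the basis of `exists_basis`; `h_0 = aeval x (lf p)`, `h_1 = aeval x (lf q)`, `τ = h_0 / h_1`,
`n = τ.order > 0`, `l_i = p_i - τ q_i`, `c_i = a_i + τ a'_i`.  Let `k` be the constant of
`h.surf.star`.  `D g := (3 k)⁻¹ (D_1 τ D_2 g - D_2 τ D_1 g)` (a derivation: multiples by elements of
`HH` of `DD w1`, `DD w2`).  `D τ = 0`, so `D l_i = D c_i = 0`; `Dge` by `Ge.mul`, `Ge.DD`, `Ge τ`.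
`Y`: `star` for `(lf p, lf q, X_i)` (degrees `1`) is
`det (h_0, D_1 h_0, D_2 h_0; h_1, ..; x_i, ..) = k W_i`, `W_i = Jac4(lf p, lf q, X_i, b)(x)`; expand:
`h_1^2 (D_1 τ D_2 x_i - D_2 τ D_1 x_i) = - k W_i + x_i (D_1 h_0 D_2 h_1 - D_2 h_0 D_1 h_1)`, so
`3 h_1^2 (x_j D x_i - x_i D x_j) = x_i W_j - x_j W_i`; use `W_identity`.
Orders: `l_i = p_i - τ q_i` has order `0` if `p_i ≠ 0` and `n` if `p_i = 0` (then `q_i ≠ 0`);
`c_i = a_i + τ a'_i` likewise; `a_i = a_j = 0` is excluded by `NonDeg`; `p ≠ 0` by `li`.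
`x_i ≠ 0`: `b ∤ X_i`.
-/

set_option autoImplicit false

namespace Pool.Agent.CLN

open MvPolynomial Pool.Agent.CLU

/-- The order of `u + τ v` for constants `u`, `v`. -/
private theorem order_lin {τ : HH} (hτ0 : τ ≠ 0) (hn : 0 < τ.order) (u v : ℂ)
    (huv : u ≠ 0 ∨ v ≠ 0) :
    algebraMap ℂ HH u + τ * algebraMap ℂ HH v ≠ 0 ∧
    (u ≠ 0 → (algebraMap ℂ HH u + τ * algebraMap ℂ HH v).order = 0) ∧
    (u = 0 → (algebraMap ℂ HH u + τ * algebraMap ℂ HH v).order = τ.order) := by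
  have inj : ∀ z : ℂ, z ≠ 0 → algebraMap ℂ HH z ≠ 0 := fun z hz h0 =>
    hz ((map_eq_zero (algebraMap ℂ HH)).1 h0)
  by_cases hu : u = 0
  · have hv : v ≠ 0 := huv.resolve_left (fun h => h hu)
    subst hu
    rw [map_zero, zero_add]
    refine ⟨mul_ne_zero hτ0 (inj v hv), fun h => absurd rfl h, fun _ => ?_⟩
    rw [HahnSeries.order_mul hτ0 (inj v hv), order_algebraMap, add_zero]
  · have hG : Ge τ.order (τ * algebraMap ℂ HH v) := by
      have := (ge_order τ).mul (ge_algebraMap v)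
      rwa [add_zero] at this
    have := order_add_of_Ge (inj u hu) (v := τ.order) (by rw [order_algebraMap]; exact hn) hG
    refine ⟨this.2, fun _ => ?_, fun h => absurd h hu⟩
    rw [this.1, order_algebraMap]

/-- The derivation `D`. -/
private noncomputable def dt (k : ℂ) (D1 D2 : Derivation ℂ HH HH) (τ : HH) : Derivation ℂ HH HH :=
  (3 * k)⁻¹ • (D1 τ • D2 - D2 τ • D1)

private theorem dt_apply (k : ℂ) (D1 D2 : Derivation ℂ HH HH) (τ g : HH) :
    dt k D1 D2 τ g = (3 * k)⁻¹ • (D1 τ * D2 g - D2 τ * D1 g) := rfl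

private theorem dt_self (k : ℂ) (D1 D2 : Derivation ℂ HH HH) (τ : HH) : dt k D1 D2 τ τ = 0 := by
  rw [dt_apply, mul_comm (D1 τ), sub_self, smul_zero]

private theorem dt_lin (k : ℂ) (D1 D2 : Derivation ℂ HH HH) (τ : HH) (u v : ℂ) :
    dt k D1 D2 τ (algebraMap ℂ HH u + τ * algebraMap ℂ HH v) = 0 := by
  rw [map_add, Derivation.leibniz, Derivation.map_algebraMap, Derivation.map_algebraMap, dt_self]
  simp

private theorem dt_ge (k : ℂ) (w1 w2 : ℝ →+ ℂ) (τ : HH) (v : ℝ) (g : HH) (hg : Ge v g) :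
    Ge (v + τ.order) (dt k (DD w1) (DD w2) τ g) := by
  rw [dt_apply, add_comm]
  exact Ge.smul _ ((ge_order τ).br w1 w2 hg)

/-- The expansion of the determinant. -/
private theorem det_star {k : ℂ} (hk : k ≠ 0) (D1 D2 : Derivation ℂ HH HH) (τ h0 h1 z W : HH)
    (hτ : h0 = τ * h1)
    (hdet : (Matrix.of ![![h0, D1 h0, D2 h0], ![h1, D1 h1, D2 h1], ![z, D1 z, D2 z]]).det =
      algebraMap ℂ HH k * W) :
    W = 3 * h1 * z * dt k D1 D2 τ h1 - 3 * h1 ^ 2 * dt k D1 D2 τ z := by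
  have hk' : algebraMap ℂ HH k ≠ 0 := fun h => hk ((map_eq_zero (algebraMap ℂ HH)).1 h)
  have h3 : (3 : HH) ≠ 0 := by
    have : (3 : HH) = algebraMap ℂ HH 3 := (map_ofNat (algebraMap ℂ HH) 3).symm
    rw [this]
    exact fun h => three_ne_zero ((map_eq_zero (algebraMap ℂ HH)).1 h)
  have hsm : ∀ g : HH, (3 * k)⁻¹ • g = (3 * algebraMap ℂ HH k)⁻¹ * g := by
    intro g
    have h5 : (3 * k)⁻¹ • g = algebraMap ℂ HH ((3 * k)⁻¹) * g := by
      rw [algebraMap_HH, HahnSeries.C_mul_eq_smul]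
    rw [h5, map_inv₀, map_mul, map_ofNat]
  rw [Matrix.det_fin_three] at hdet
  simp only [Matrix.of_apply, Matrix.cons_val', Matrix.cons_val_zero, Matrix.cons_val_one,
    Matrix.cons_val_two, Matrix.empty_val', Matrix.cons_val_fin_one, Matrix.head_cons,
    Matrix.tail_cons, Matrix.head_fin_const] at hdet
  rw [dt_apply, dt_apply, hsm, hsm]
  rw [hτ, Derivation.leibniz, Derivation.leibniz] at hdet
  simp only [smul_eq_mul] at hdet
  have h3k : (3 * algebraMap ℂ HH k) ≠ 0 := mul_ne_zero h3 hk'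
  have key : (3 * algebraMap ℂ HH k) * (W - (3 * h1 * z * ((3 * algebraMap ℂ HH k)⁻¹ *
      (D1 τ * D2 h1 - D2 τ * D1 h1)) - 3 * h1 ^ 2 * ((3 * algebraMap ℂ HH k)⁻¹ *
      (D1 τ * D2 z - D2 τ * D1 z)))) = 0 := by
    have hinv : (3 * algebraMap ℂ HH k) * (3 * algebraMap ℂ HH k)⁻¹ = 1 := mul_inv_cancel₀ h3k
    linear_combination (-3 : HH) * hdet - (3 * h1 * z * (D1 τ * D2 h1 - D2 τ * D1 h1) -
      3 * h1 ^ 2 * (D1 τ * D2 z - D2 τ * D1 z)) * hinv
  have := (mul_eq_zero.1 key).resolve_left h3k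
  exact sub_eq_zero.1 this

theorem exists_caseII {b : S} {w1 w2 : ℝ →+ ℂ} {x : Fin 4 → HH} {a' a p q : Fin 4 → ℂ}
    (h : C2Data b w1 w2 x a' a p q) : ∃ (l c : Fin 4 → HH) (D : Derivation ℂ HH HH) (n : ℝ),
      CaseII x l c D n := by
  obtain ⟨a', a, p, q, h, hlt⟩ := exists_basis h
  have hp0 : p ≠ 0 := by
    have := h.li.ne_zero 0
    simpa using this
  have hq0 : q ≠ 0 := by
    have := h.li.ne_zero 1
    simpa using this
  have H0 := aeval_lf_ne_zero h p hp0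
  have H1 := aeval_lf_ne_zero h q hq0
  set h0 := aeval x (lf p) with hh0
  set h1 := aeval x (lf q) with hh1
  obtain ⟨τ, hτ⟩ : ∃ τ : HH, h0 = τ * h1 := ⟨h0 / h1, (div_mul_cancel₀ h0 H1).symm⟩
  have hτ0 : τ ≠ 0 := by
    rintro rfl
    rw [zero_mul] at hτ
    exact H0 hτ
  have hn : 0 < τ.order := by
    have := HahnSeries.order_mul hτ0 H1
    rw [← hτ] at this
    linarith
  obtain ⟨k, hk, hstar⟩ := h.surf.star
  set l : Fin 4 → HH := fun i => algebraMap ℂ HH (p i) - τ * algebraMap ℂ HH (q i) with hl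
  set c : Fin 4 → HH := fun i => algebraMap ℂ HH (a i) + τ * algebraMap ℂ HH (a' i) with hc
  have hl' : ∀ i, l i = algebraMap ℂ HH (p i) + τ * algebraMap ℂ HH (-(q i)) := by
    intro i
    simp only [hl, map_neg]
    ring
  have hlo : ∀ i, _ := fun i => order_lin hτ0 hn (p i) (-(q i))
    ((h.pq i).imp id (fun h => neg_ne_zero.2 h))
  have haa : ∀ i, a i ≠ 0 ∨ a' i ≠ 0 := by
    intro i
    by_contra hcon
    rw [not_or, not_not, not_not] at hcon
    obtain ⟨j, hj⟩ : ∃ j : Fin 4, i ≠ j := ⟨i + 1, by fin_cases i <;> decide⟩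
    exact h.nondeg i j hj (by rw [hcon.1, hcon.2]; ring)
  have hco : ∀ i, _ := fun i => order_lin hτ0 hn (a i) (a' i) (haa i)
  have W := W_identity h H1 τ hτ l c (fun i => rfl) (fun i => rfl)
  have hx : ∀ i, x i ≠ 0 := by
    intro i
    have := aeval_lf_ne_zero h (Pi.single i 1) (by
      intro h0
      have := congrFun h0 i
      simp at this)
    rw [lf_apply] at this
    simpa [Pi.single_apply, Finset.sum_ite_eq] using this
  have h3 : (3 : HH) ≠ 0 := by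
    have : (3 : HH) = algebraMap ℂ HH 3 := (map_ofNat (algebraMap ℂ HH) 3).symm
    rw [this]
    exact fun h => three_ne_zero ((map_eq_zero (algebraMap ℂ HH)).1 h)
  have hW : ∀ i, aeval x (Jac4 ![lf p, lf q, X i, b]) = 3 * h1 * x i * dt k (DD w1) (DD w2) τ h1
      - 3 * h1 ^ 2 * dt k (DD w1) (DD w2) τ (x i) := by
    intro i
    refine det_star hk (DD w1) (DD w2) τ h0 h1 (x i) _ hτ ?_
    have := hstar ![lf p, lf q, X i] ![1, 1, 1] (by
      intro j
      fin_cases j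
      · exact lf_hom p
      · exact lf_hom q
      · exact isHomogeneous_X _ _)
    rw [one_mul] at this
    refine Eq.trans ?_ this
    congr 1
    ext1 r s
    fin_cases r <;> fin_cases s <;> simp [hh0, hh1]
  refine ⟨l, c, dt k (DD w1) (DD w2) τ, τ.order, ?_⟩
  refine ⟨hn, hx, ?_, ?_, ?_, ?_, ?_, W.1, ?_, ?_, ?_, ?_, ?_, ?_⟩
  · intro i
    rw [hl' i]
    exact (hlo i).1
  · intro i
    exact (hco i).1
  · intro v g hg
    exact dt_ge k w1 w2 τ v g hg
  · intro i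
    rw [hl' i]
    exact dt_lin _ _ _ _ _ _
  · intro i
    exact dt_lin _ _ _ _ _ _
  · intro σ
    have h2 := W.2.2 σ
    rw [hW, hW] at h2
    have h4 : (3 * h1 ^ 2 : HH) ≠ 0 := mul_ne_zero h3 (pow_ne_zero 2 H1)
    refine mul_left_cancel₀ h4 ?_
    rw [← h2]
    ring
  · intro i j hij
    exact Y_ne h H1 τ hτ l c (fun i => rfl) (fun i => rfl) i j hij
  · intro i
    rw [hl' i]
    by_cases hi : p i = 0
    · exact Or.inr ((hlo i).2.2 hi)
    · exact Or.inl ((hlo i).2.1 hi)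
  · intro i
    by_cases hi : a i = 0
    · exact Or.inr ((hco i).2.2 hi)
    · exact Or.inl ((hco i).2.1 hi)
  · intro i j hij
    by_cases hi : a i = 0
    · by_cases hj : a j = 0
      · exact absurd (by rw [hi, hj]; ring) (h.nondeg i j hij)
      · exact Or.inr ((hco j).2.1 hj)
    · exact Or.inl ((hco i).2.1 hi)
  · obtain ⟨i, hi⟩ : ∃ i, p i ≠ 0 := by
      by_contra hcon
      push Not at hcon
      exact hp0 (funext hcon)
    refine ⟨i, ?_⟩
    rw [hl' i]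
    exact (hlo i).2.1 hi

end Pool.Agent.CLN
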