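import Pool.Agent.CLN.C2Ineq
import Pool.Agent.CLN.C2Main

/-!
# CLN / C2Fin: case II is impossible

By `caseII_sum`, `l_ord`, `c_ord`, `c_one`, `l_ex`: exactly one `l_e` has order `0`, the three others
order `n`, exactly one `c_f` has order `n`.  From `∑ l_i x_i = 0`: `V(x_e) ≥ n + v`,
`v := min (V(x_i))_{i ≠ e}`.  Let `m ≠ e` with `V(x_m) = v`, `{i, j}` the two other indices.
`caseII_Y` with `(σ 0, σ 1, σ 2, σ 3) = (i, j, e, m)`:
`V(l_e c_m x_m^2 - l_m c_e x_e^2) ≥ V(x_i) + V(x_j) + n`; the second product has order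
`≥ n + 2 (n + v)`, the first one `V(c_m) + 2 v`.  So the order of the difference is `V(c_m) + 2 v`.
If `V(c_m) = 0`: `2 v ≥ V(x_i) + V(x_j) + n > 2 v`, contradiction.  So `V(c_m) = n`, `m = f`; the same
holds for every `m ≠ e` with `V(x_m) = v`, so `V(x_i), V(x_j) > v`:
`n + 2 v ≥ V(x_i) + V(x_j) + n > 2 v + n`, contradiction.
-/

set_option autoImplicit false

namespace Pool.Agent.CLN

open MvPolynomial Pool.Agent.CLU

theorem c2f_perm (e m : Fin 4) (hem : m ≠ e) :
    ∃ σ : Equiv.Perm (Fin 4), σ 2 = e ∧ σ 3 = m := by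
  let τ : Equiv.Perm (Fin 4) := Equiv.swap 2 e
  have hτ : τ 2 = e := Equiv.swap_apply_left 2 e
  have h1 : τ.symm m ≠ 2 := by
    intro h
    apply hem
    rw [← hτ, ← h, Equiv.apply_symm_apply]
  refine ⟨(Equiv.swap 3 (τ.symm m)).trans τ, ?_, ?_⟩
  · rw [Equiv.trans_apply, Equiv.swap_apply_of_ne_of_ne (by decide) (Ne.symm h1), hτ]
  · rw [Equiv.trans_apply, Equiv.swap_apply_left, Equiv.apply_symm_apply]

theorem c2f_order_mul3 {a b y : HH} (ha : a ≠ 0) (hb : b ≠ 0) (hy : y ≠ 0) :
    (a * (b * y ^ 2)).order = a.order + b.order + 2 * y.order := by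
  rw [HahnSeries.order_mul ha (mul_ne_zero hb (pow_ne_zero 2 hy)),
    HahnSeries.order_mul hb (pow_ne_zero 2 hy), sq, HahnSeries.order_mul hy hy]
  ring

/-- The key step: `e = σ 2`, `m = σ 3`. -/
theorem c2f_key {x l c : Fin 4 → HH} {D : Derivation ℂ HH HH} {n : ℝ}
    (h : CaseII x l c D n) (σ : Equiv.Perm (Fin 4)) (he : (l (σ 2)).order = 0)
    (hm : (l (σ 3)).order = n) (hx : n + (x (σ 3)).order ≤ (x (σ 2)).order)
    (h0 : (x (σ 3)).order ≤ (x (σ 0)).order) (h1 : (x (σ 3)).order ≤ (x (σ 1)).order) :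
    (c (σ 3)).order = n ∧ (x (σ 0)).order = (x (σ 3)).order := by
  have hn := h.npos
  have hY := caseII_Y h σ
  have hA : l (σ 2) * (c (σ 3) * x (σ 3) ^ 2) ≠ 0 :=
    mul_ne_zero (h.l_ne _) (mul_ne_zero (h.c_ne _) (pow_ne_zero 2 (h.x_ne _)))
  have hAo := c2f_order_mul3 (h.l_ne (σ 2)) (h.c_ne (σ 3)) (h.x_ne (σ 3))
  have hBo := c2f_order_mul3 (h.l_ne (σ 3)) (h.c_ne (σ 2)) (h.x_ne (σ 2))
  have hC3 := h.c_ord (σ 3)
  have hC2 := h.c_ord (σ 2)
  have hC2' : 0 ≤ (c (σ 2)).order := by
    rcases hC2 with h2 | h2 <;> rw [h2]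
    exact hn.le
  have hC3' : (c (σ 3)).order ≤ n := by
    rcases hC3 with h2 | h2 <;> rw [h2]
    exact hn.le
  have hlt : (l (σ 2) * (c (σ 3) * x (σ 3) ^ 2)).order <
      (l (σ 3) * (c (σ 2) * x (σ 2) ^ 2)).order := by
    rw [hAo, hBo, he, hm]
    linarith
  obtain ⟨h3, h4⟩ := order_add_of_Ge hA hlt (ge_order _).neg
  rw [← sub_eq_add_neg] at h3 h4
  have h5 := hY.le_order h4
  rw [h3, hAo, he] at h5
  rcases hC3 with h6 | h6
  · exfalso
    rw [h6] at h5
    linarith
  · refine ⟨h6, ?_⟩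
    rw [h6] at h5
    linarith

theorem caseII_false {x l c : Fin 4 → HH} {D : Derivation ℂ HH HH} {n : ℝ}
    (h : CaseII x l c D n) : False := by
  have hn := h.npos
  obtain ⟨e, he⟩ := h.l_ex
  obtain ⟨m, hm, hmin⟩ := Finset.exists_min_image (Finset.univ.erase e)
    (fun i => (x i).order) (by
      refine Finset.card_pos.1 ?_
      rw [Finset.card_erase_of_mem (Finset.mem_univ _)]
      simp)
  have hme : m ≠ e := Finset.ne_of_mem_erase hm
  obtain ⟨σ, h2, h3⟩ := c2f_perm e m hme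
  have hlb : ∀ i, (l i).order ≤ n := by
    intro i
    rcases h.l_ord i with h4 | h4 <;> rw [h4]
    exact hn.le
  -- the sum of the orders of the `c_i` is at most `n`
  have hc : ∑ i, (c i).order ≤ n := by
    by_cases hex : ∃ i, (c i).order = n
    · obtain ⟨i, hi⟩ := hex
      rw [← Finset.add_sum_erase _ _ (Finset.mem_univ i), hi]
      have h5 : ∑ j ∈ Finset.univ.erase i, (c j).order = 0 := by
        refine Finset.sum_eq_zero fun j hj => ?_
        rcases h.c_one i j (Finset.ne_of_mem_erase hj).symm with h6 | h6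
        · rw [hi] at h6
          exact absurd h6 hn.ne'
        · exact h6
      rw [h5, add_zero]
    · push Not at hex
      have h5 : ∑ j, (c j).order = 0 := by
        refine Finset.sum_eq_zero fun j _ => ?_
        rcases h.c_ord j with h6 | h6
        · exact h6
        · exact absurd h6 (hex j)
      rw [h5]
      exact hn.le
  have hs := caseII_sum h
  -- all other `l_i` have order `n`
  have hl : ∀ i, i ≠ e → (l i).order = n := by
    intro i hie
    refine le_antisymm (hlb i) ?_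
    have h5 : ∑ j, (l j).order = (l e).order + ((l i).order +
        ∑ j ∈ (Finset.univ.erase e).erase i, (l j).order) := by
      rw [Finset.add_sum_erase (Finset.univ.erase e) (fun j => (l j).order)
          (Finset.mem_erase.2 ⟨hie, Finset.mem_univ i⟩),
        Finset.add_sum_erase Finset.univ (fun j => (l j).order) (Finset.mem_univ e)]
    have h6 : ∑ j ∈ (Finset.univ.erase e).erase i, (l j).order ≤ 2 * n := by
      refine (Finset.sum_le_card_nsmul _ _ n fun j _ => hlb j).trans ?_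
      rw [Finset.card_erase_of_mem (Finset.mem_erase.2 ⟨hie, Finset.mem_univ i⟩),
        Finset.card_erase_of_mem (Finset.mem_univ _)]
      simp
    rw [he] at h5
    linarith
  -- the order of `x_e`
  have hxe : n + (x m).order ≤ (x e).order := by
    have h5 : l e * x e = - ∑ i ∈ Finset.univ.erase e, l i * x i := by
      have h6 := h.sum_l
      rw [← Finset.add_sum_erase _ _ (Finset.mem_univ e)] at h6
      exact eq_neg_of_add_eq_zero_left h6
    have h6 : Ge (n + (x m).order) (l e * x e) := by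
      rw [h5]
      refine (Ge.sum _ _ _ fun i hi => ?_).neg
      have h7 := (ge_order (l i)).mul (ge_order (x i))
      refine h7.mono ?_
      rw [hl i (Finset.ne_of_mem_erase hi)]
      have h8 := hmin i hi
      linarith
    have h7 := h6.le_order (mul_ne_zero (h.l_ne e) (h.x_ne e))
    rw [HahnSeries.order_mul (h.l_ne e) (h.x_ne e), he, zero_add] at h7
    exact h7
  have hne0 : σ 0 ≠ e := by
    rw [← h2]
    exact fun hh => absurd (σ.injective hh) (by decide)
  have hne1 : σ 1 ≠ e := by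
    rw [← h2]
    exact fun hh => absurd (σ.injective hh) (by decide)
  have hmin' : ∀ i, i ≠ e → (x m).order ≤ (x i).order := fun i hi =>
    hmin i (Finset.mem_erase.2 ⟨hi, Finset.mem_univ i⟩)
  have k1 := c2f_key h σ (by rw [h2, he]) (by rw [h3]; exact hl m hme)
    (by rw [h3, h2]; exact hxe) (by rw [h3]; exact hmin' _ hne0) (by rw [h3]; exact hmin' _ hne1)
  rw [h3] at k1
  let σ' : Equiv.Perm (Fin 4) := (Equiv.swap 0 3).trans σ
  have s0 : σ' 0 = m := by
    show σ (Equiv.swap 0 3 0) = m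
    rw [Equiv.swap_apply_left, h3]
  have s1 : σ' 1 = σ 1 := by
    show σ (Equiv.swap 0 3 1) = σ 1
    rw [Equiv.swap_apply_of_ne_of_ne (by decide) (by decide)]
  have s2 : σ' 2 = e := by
    show σ (Equiv.swap 0 3 2) = e
    rw [Equiv.swap_apply_of_ne_of_ne (by decide) (by decide), h2]
  have s3 : σ' 3 = σ 0 := by
    show σ (Equiv.swap 0 3 3) = σ 0
    rw [Equiv.swap_apply_right]
  have k2 := c2f_key h σ' (by rw [s2, he]) (by rw [s3]; exact hl _ hne0)
    (by rw [s3, s2, k1.2]; exact hxe) (by rw [s3, s0, k1.2])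
    (by rw [s3, s1, k1.2]; exact hmin' _ hne1)
  rw [s3] at k2
  have hm0 : m ≠ σ 0 := by
    rw [← h3]
    exact fun hh => absurd (σ.injective hh) (by decide)
  rcases h.c_one m (σ 0) hm0 with h6 | h6
  · rw [k1.1] at h6
    exact hn.ne' h6
  · rw [k2.1] at h6
    exact hn.ne' h6

theorem no_C2Data {b : S} {w1 w2 : ℝ →+ ℂ} {x : Fin 4 → HH} {a' a p q : Fin 4 → ℂ}
    (h : C2Data b w1 w2 x a' a p q) : False := by
  obtain ⟨l, c, D, n, h1⟩ := exists_caseII h
  exact caseII_false h1

end Pool.Agent.CLN
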