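import Pool.Agent.CLN.BinP
import Pool.Agent.KSF.Homg

/-!
# CLN / Dich: the two possible shapes of `b`

`b = h_0 f_0 + h_1 f_1`, `h_0 = lf p`, `h_1 = lf q` (`mem_quartic`), `f_0 = diag a'`, `f_1 = diag a`.
Invariance: `f_0, f_1` are invariant under `x_m ↦ ω x_m`; if `p_m = q_m = 0`, then `b` is; so
`(p_m, q_m) ≠ 0` for all `m`.
If `p, q` are linearly dependent: `h_0 = u h`, `h_1 = v h`, `(u, v) ≠ 0`, `b = h (u f_0 + v f_1)
= lf l * diag c`, `c = u a' + v a`, all `l_m ≠ 0`; choose `c1` with `P = (diag c, diag c1)`: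
if `u ≠ 0` take `c1 = a`, otherwise `c1 = a'`; the minors get multiplied by `± u` (`± v`).
If `p, q` are independent: `b` is irreducible.  `b = U V`, both forms (`KSF.homog_of_mul`), `P` prime,
so say `U ∈ P`, `deg U ≥ 3` (`not_mem_of_small`); if `deg U = 4`, `V` is a constant; if `deg U = 3`,
`U = diag (u a' + v a)` (`mem_cubic`), `V = h` linear: `(h_0 - u h) f_0 = -(h_1 - v h) f_1`; `f_0, f_1`
have no common factor (`irred_member`: members are irreducible, `f_0 ∤ f_1` by `NonDeg`), so
`h_0 = u h`, `h_1 = v h`, contradiction to independence.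
`irred_member`: `diag c = U V` forms; `U ∈ P` say, so `deg U = 3`.  (`c ≠ 0`.)
-/

set_option autoImplicit false

namespace Pool.Agent.CLN

open MvPolynomial Pool.Agent.CLU

private theorem eval_diag42 (a : Fin 4 → ℂ) (i : Fin 4) :
    eval (Pi.single i 1) (diag a) = a i := by
  unfold diag
  rw [map_sum, Finset.sum_eq_single i]
  · simp
  · intro j _ hj
    simp [Pi.single_eq_of_ne hj]
  · intro h
    exact absurd (Finset.mem_univ _) h

private theorem diag_add42 (a b : Fin 4 → ℂ) : diag (a + b) = diag a + diag b := by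
  unfold diag
  rw [← Finset.sum_add_distrib]
  refine Finset.sum_congr rfl fun i _ => ?_
  rw [Pi.add_apply, C_add, add_mul]

private theorem diag_smul42 (u : ℂ) (a : Fin 4 → ℂ) : diag (u • a) = C u * diag a := by
  unfold diag
  rw [Finset.mul_sum]
  refine Finset.sum_congr rfl fun i _ => ?_
  rw [Pi.smul_apply, smul_eq_mul, C_mul, mul_assoc]

theorem diag_injective : Function.Injective diag := by
  intro a b h
  funext i
  rw [← eval_diag42 a i, h, eval_diag42]

private theorem diag_ne42 {a : Fin 4 → ℂ} (h : a ≠ 0) : diag a ≠ 0 := by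
  intro h0
  refine h (diag_injective ?_)
  rw [h0]
  have h1 := diag_smul42 0 (0 : Fin 4 → ℂ)
  rw [zero_smul, C_0, zero_mul] at h1
  exact h1.symm

private theorem unit42 {F : S} (h : F.IsHomogeneous 0) (h0 : F ≠ 0) :
    ∃ k : ℂ, k ≠ 0 ∧ F = C k := by
  have h1 : F.totalDegree = 0 := h.totalDegree h0
  rw [totalDegree_eq_zero_iff_eq_C] at h1
  refine ⟨coeff 0 F, fun h2 => h0 ?_, h1⟩
  rw [h1, h2, C_0]

private theorem isUnit42 {F : S} (h : F.IsHomogeneous 0) (h0 : F ≠ 0) : IsUnit F := by
  obtain ⟨k, hk, rfl⟩ := unit42 h h0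
  exact (isUnit_iff_ne_zero.2 hk).map C

private theorem deg42 {a' a : Fin 4 → ℂ} {P : Ideal S} (hP : P = Ideal.span {diag a', diag a})
    {F : S} {d : ℕ} (hF : F.IsHomogeneous d) (hF0 : F ≠ 0) (hFP : F ∈ P) : 3 ≤ d := by
  by_contra hd
  rw [hP] at hFP
  exact not_mem_of_small F d hF (by omega) hF0 hFP

private theorem not_unit42 {P : Ideal S} (hprime : P.IsPrime) {F : S} (hF : F ∈ P) :
    ¬ IsUnit F := fun h => hprime.ne_top (Ideal.eq_top_of_isUnit_mem _ hF h)

theorem irred_member {a' a : Fin 4 → ℂ} {P : Ideal S} (hP : P = Ideal.span {diag a', diag a})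
    (hprime : P.IsPrime) (c : Fin 4 → ℂ) (hc : c ≠ 0) (hcP : diag c ∈ P) :
    Irreducible (diag c) := by
  have hc0 := diag_ne42 hc
  refine ⟨not_unit42 hprime hcP, fun U V hUV => ?_⟩
  obtain ⟨i, j, hij, hU, hV⟩ := Pool.Agent.KSF.homog_of_mul U V 3 (by
    rw [← hUV]
    exact diag_hom c) (by
    rw [← hUV]
    exact hc0)
  have hU0 : U ≠ 0 := by
    rintro rfl
    rw [zero_mul] at hUV
    exact hc0 hUV
  have hV0 : V ≠ 0 := by
    rintro rfl
    rw [mul_zero] at hUV
    exact hc0 hUV
  rw [hUV] at hcP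
  rcases hprime.mem_or_mem hcP with h | h
  · right
    have h3 := deg42 hP hU hU0 h
    have hj : j = 0 := by omega
    subst hj
    exact isUnit42 hV hV0
  · left
    have h3 := deg42 hP hV hV0 h
    have hi : i = 0 := by omega
    subst hi
    exact isUnit42 hU hU0

private theorem inv42 {p q a' a : Fin 4 → ℂ} {b : S}
    (hb : b = lf p * diag a' + lf q * diag a)
    (hinv : ∀ (m : Fin 4) (ω : ℂ), ω ^ 3 = 1 → ω ≠ 1 →
      (aeval (fun i => if i = m then C ω * X i else (X i : S)) b : S) ≠ b) (m : Fin 4) :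
    p m ≠ 0 ∨ q m ≠ 0 := by
  by_contra hcon
  push Not at hcon
  obtain ⟨hp, hq⟩ := hcon
  have hω := Complex.isPrimitiveRoot_exp 3 (by norm_num)
  set ω : ℂ := Complex.exp (2 * Real.pi * Complex.I / (3 : ℕ)) with hωd
  have h3 : ω ^ 3 = 1 := hω.pow_eq_one
  have h1 : ω ≠ 1 := hω.ne_one (by norm_num)
  refine hinv m ω h3 h1 ?_
  have e1 : ∀ p : Fin 4 → ℂ, p m = 0 →
      (aeval (fun i => if i = m then C ω * X i else (X i : S)) (lf p) : S) = lf p := by
    intro p hp
    rw [lf_apply, map_sum]
    refine Finset.sum_congr rfl fun j _ => ?_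
    rw [map_mul, aeval_X, algHom_C]
    by_cases hj : j = m
    · subst hj
      rw [hp, C_0, zero_mul, map_zero, zero_mul]
    · rw [if_neg hj]
      rfl
  have e2 : ∀ a : Fin 4 → ℂ,
      (aeval (fun i => if i = m then C ω * X i else (X i : S)) (diag a) : S) = diag a := by
    intro a
    unfold diag
    rw [map_sum]
    refine Finset.sum_congr rfl fun j _ => ?_
    rw [map_mul, map_pow, aeval_X, algHom_C]
    by_cases hj : j = m
    · rw [if_pos hj, mul_pow, ← C_pow, h3, C_1, one_mul]
      rfl
    · rw [if_neg hj]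
      rfl
  rw [hb, map_add, map_mul, map_mul, e1 p hp, e1 q hq, e2, e2]

private theorem irr42 {a' a : Fin 4 → ℂ} (hnd : NonDeg a' a) {P : Ideal S}
    (hP : P = Ideal.span {diag a', diag a}) (hprime : P.IsPrime) {b : S}
    (hb0 : b ≠ 0) {p q : Fin 4 → ℂ} (hb : b = lf p * diag a' + lf q * diag a)
    (hli : LinearIndependent ℂ ![p, q]) {U V : S} (hUV : b = U * V) {i j : ℕ} (hij : i + j = 4)
    (hU : U.IsHomogeneous i) (hV : V.IsHomogeneous j) (hUP : U ∈ P) : IsUnit V := by
  have hU0 : U ≠ 0 := by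
    rintro rfl
    rw [zero_mul] at hUV
    exact hb0 hUV
  have hV0 : V ≠ 0 := by
    rintro rfl
    rw [mul_zero] at hUV
    exact hb0 hUV
  have h3 := deg42 hP hU hU0 hUP
  have ha' : a' ≠ 0 := by
    rintro rfl
    have := hnd 0 1 (by decide)
    simp at this
  have hf0P : diag a' ∈ P := by
    rw [hP]
    exact Ideal.subset_span (by simp)
  by_cases hj : j = 0
  · subst hj
    exact isUnit42 hV hV0
  exfalso
  have hj1 : j = 1 := by omega
  have hi3 : i = 3 := by omega
  subst hj1 hi3
  rw [hP] at hUP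
  obtain ⟨u, v, rfl⟩ := mem_cubic U hU hUP
  obtain ⟨h, rfl⟩ := exists_lf V hV
  rw [diag_add42, diag_smul42, diag_smul42] at hUV
  have key : lf (p - u • h) * diag a' = lf (v • h - q) * diag a := by
    rw [map_sub, map_sub, map_smul, map_smul, smul_eq_C_mul, smul_eq_C_mul]
    rw [hb] at hUV
    linear_combination hUV
  have hirr : Irreducible (diag a') := irred_member hP hprime a' ha' hf0P
  have hpr : Prime (diag a') := hirr.prime
  have hdvd : diag a' ∣ lf (v • h - q) * diag a := ⟨lf (p - u • h), by rw [← key]; ring⟩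
  have hq : lf (v • h - q) = 0 := by
    rcases hpr.dvd_or_dvd hdvd with h1 | h1
    · by_contra h2
      have h4 : lf (v • h - q) ∈ P := Ideal.mem_of_dvd _ h1 hf0P
      have := deg42 hP (lf_hom _) h2 h4
      omega
    · exfalso
      obtain ⟨g, hg⟩ := h1
      have ha : a ≠ 0 := by
        rintro rfl
        have := hnd 0 1 (by decide)
        simp at this
      obtain ⟨i, j, hij', hi, hj⟩ := Pool.Agent.KSF.homog_of_mul (diag a') g 3 (by
        rw [← hg]
        exact diag_hom a) (by
        rw [← hg]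
        exact diag_ne42 ha)
      have hi3 : i = 3 := hi.inj_right (diag_hom a') (diag_ne42 ha')
      have hj0 : j = 0 := by omega
      subst hj0
      have hg0 : g ≠ 0 := by
        rintro rfl
        rw [mul_zero] at hg
        exact diag_ne42 ha hg
      obtain ⟨k, hk, rfl⟩ := unit42 hj hg0
      rw [mul_comm, ← diag_smul42] at hg
      have h5 := diag_injective hg
      refine hnd 0 1 (by decide) ?_
      rw [h5]
      simp only [Pi.smul_apply, smul_eq_mul]
      ring
  rw [hq, zero_mul] at key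
  have hp : lf (p - u • h) = 0 := (mul_eq_zero.1 key).resolve_right (diag_ne42 ha')
  have hq' : v • h - q = 0 := lf_inj (by rw [hq, map_zero])
  have hp' : p - u • h = 0 := lf_inj (by rw [hp, map_zero])
  rw [sub_eq_zero] at hq' hp'
  rw [LinearIndependent.pair_iff] at hli
  have h6 := hli v (-u) (by
    rw [hp', ← hq', smul_smul, smul_smul, ← add_smul]
    rw [show v * u + -u * v = 0 by ring, zero_smul])
  have hu : u = 0 := neg_eq_zero.1 h6.2
  have h7 := hli 1 0 (by
    rw [hp', hu, zero_smul, smul_zero, zero_smul, add_zero])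
  exact one_ne_zero h7.1

theorem dichotomy {a' a : Fin 4 → ℂ} (hnd : NonDeg a' a) {P : Ideal S}
    (hP : P = Ideal.span {diag a', diag a}) (hprime : P.IsPrime) {b : S}
    (hb4 : b.IsHomogeneous 4) (hb0 : b ≠ 0) (hbP : b ∈ P)
    (hinv : ∀ (m : Fin 4) (ω : ℂ), ω ^ 3 = 1 → ω ≠ 1 →
      (aeval (fun i => if i = m then C ω * X i else (X i : S)) b : S) ≠ b) :
    (∃ p q : Fin 4 → ℂ, LinearIndependent ℂ ![p, q] ∧ (∀ i, p i ≠ 0 ∨ q i ≠ 0) ∧
      b = lf p * diag a' + lf q * diag a ∧ Irreducible b) ∨
    (∃ c c1 l : Fin 4 → ℂ, NonDeg c c1 ∧ P = Ideal.span {diag c, diag c1} ∧ (∀ i, l i ≠ 0) ∧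
      b = diag c * lf l ∧ Irreducible (diag c)) := by
  have hbP' := hbP
  rw [hP] at hbP'
  obtain ⟨p, q, hb⟩ := mem_quartic b hb4 hbP'
  have hpq := inv42 hb hinv
  by_cases hli : LinearIndependent ℂ ![p, q]
  · left
    refine ⟨p, q, hli, hpq, hb, not_unit42 hprime hbP, fun U V hUV => ?_⟩
    obtain ⟨i, j, hij, hU, hV⟩ := Pool.Agent.KSF.homog_of_mul U V 4 (by
      rw [← hUV]
      exact hb4) (by
      rw [← hUV]
      exact hb0)
    have hUVP := hbP
    rw [hUV] at hUVP
    rcases hprime.mem_or_mem hUVP with h | h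
    · right
      exact irr42 hnd hP hprime hb0 hb hli hUV hij hU hV h
    · left
      exact irr42 hnd hP hprime hb0 hb hli (by rw [hUV, mul_comm]) (by omega) hV hU h
  · right
    rw [LinearIndependent.pair_iff] at hli
    push Not at hli
    obtain ⟨s, t, hst, hne⟩ := hli
    by_cases ht : t = 0
    · -- `p = 0`
      have hs : s ≠ 0 := fun hs => hne hs ht
      rw [ht, zero_smul, add_zero] at hst
      have hp : p = 0 := (smul_eq_zero.1 hst).resolve_left hs
      have hcP : diag a ∈ P := by
        rw [hP]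
        exact Ideal.subset_span (by simp)
      have ha : a ≠ 0 := by
        rintro rfl
        have := hnd 0 1 (by decide)
        simp at this
      refine ⟨a, a', q, ?_, ?_, ?_, ?_, irred_member hP hprime a ha hcP⟩
      · intro i j hij h1
        refine hnd i j hij ?_
        linear_combination -h1
      · rw [hP, Ideal.span_pair_comm]
      · intro i
        rcases hpq i with h1 | h1
        · rw [hp] at h1
          exact absurd rfl h1
        · exact h1
      · rw [hb, hp, map_zero, zero_mul, zero_add, mul_comm]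
    · obtain ⟨v, hv⟩ : ∃ v : ℂ, q = v • p := by
        refine ⟨-(s / t), ?_⟩
        have h1 : t • q = -(s • p) := eq_neg_of_add_eq_zero_right hst
        have h2 : q = t⁻¹ • (t • q) := by rw [smul_smul, inv_mul_cancel₀ ht, one_smul]
        rw [h2, h1, smul_neg, smul_smul, neg_smul]
        congr 2
        ring
      have hcd : diag (a' + v • a) = diag a' + diag a * C v := by
        rw [diag_add42, diag_smul42, mul_comm (C v)]
      have hcP : diag (a' + v • a) ∈ P := by
        rw [hcd, hP]
        exact Ideal.add_mem _ (Ideal.subset_span (by simp))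
          (Ideal.mul_mem_right _ _ (Ideal.subset_span (by simp)))
      have hnd' : NonDeg (a' + v • a) a := by
        intro i j hij h1
        refine hnd i j hij ?_
        simp only [Pi.add_apply, Pi.smul_apply, smul_eq_mul] at h1
        linear_combination h1
      have hc : a' + v • a ≠ 0 := by
        intro h0
        have h1 := hnd' 0 1 (by decide)
        rw [h0] at h1
        simp at h1
      refine ⟨a' + v • a, a, p, hnd', ?_, ?_, ?_, irred_member hP hprime _ hc hcP⟩
      · rw [hcd, hP, Ideal.span_pair_add_right_mul]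
      · intro i
        rcases hpq i with h1 | h1
        · exact h1
        · intro h2
          refine h1 ?_
          rw [hv, Pi.smul_apply, h2, smul_zero]
      · rw [hb, hcd, hv, map_smul, smul_eq_C_mul]
        ring

end Pool.Agent.CLN
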