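import Pool.Agent.CLN.ExtD
import Pool.Agent.KSF.Homg

/-!
# CLN / BForm: the quartic form `b`

Let `Θ_j` be the extensions of `θ_j` to `L` (`exists_extD`) and `κ ∈ L` the determinant of the matrix
with rows `(x_i, Θ_0 x_i, Θ_1 x_i, Θ_2 x_i)`.
(1) For every `k`, `κ = ± x_k^4 det(θ_j (x_i / x_k))_{i ≠ k}` (`Θ_j x_i - (x_i/x_k) Θ_j x_k =
x_k θ_j(x_i/x_k)`; or `det_ratio` with `z = x_k`, `a = (x_i/x_k)`, whose Jacobian is `± x_k^-3`).
(2) Let `G` be an irreducible form; some `x_k` is not divisible by `G` (`G` cannot divide two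
different variables); all `x_i / x_k ∈ surfRing G`, so by `h.surf` `κ = x_k^4 A / B` with forms
`A, B` of the same degree, `G ∤ B`.
(3) Write `κ = N / M` in `L` with `N, M` forms without common factor (cancel common factors; factors
of forms are forms: `KSF.homog_of_mul`), `deg N = deg M + 4`.  If `M` is not a constant, take an
irreducible factor `G` (a form); by (2) `N B = M x_k^4 A`, so `G ∣ N B`, contradiction.
(4) `κ ≠ 0`: `det (θ_j t_i) = t_0 t_1 t_2 ≠ 0`, use `det_ratio` for `a = t`, `z = x_3`.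
-/

set_option autoImplicit false

namespace Pool.Agent.CLN

open MvPolynomial Pool.Agent.CLU

theorem det_theta_t {P : Ideal S} {t : Fin 3 → K3} {θ : Fin 3 → Derivation ℂ K3 K3}
    (h : ClusterData P t θ) : (Matrix.of fun i j => θ j (t i)).det = t 0 * t 1 * t 2 := by
  have h1 : (Matrix.of fun i j => θ j (t i)) = Matrix.diagonal t := by
    ext1 i j
    rw [Matrix.of_apply, h.eig, Matrix.diagonal_apply]
  rw [h1, Matrix.det_diagonal, Fin.prod_univ_three]

/-- The quotients `x_i / x_k`, `i ≠ k`. -/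
private noncomputable def quo (k : Fin 4) (i : Fin 3) : K3 :=
  ⟨algebraMap S L (X (k.succAbove i)) / algebraMap S L (X k),
    1, X (k.succAbove i), X k, isHomogeneous_X _ _, isHomogeneous_X _ _, X_ne_zero _, rfl⟩

private theorem quo_coe (k : Fin 4) (i : Fin 3) :
    ((quo k i : K3) : L) = algebraMap S L (X (k.succAbove i)) / algebraMap S L (X k) := rfl

private theorem quo_mem (k : Fin 4) (G : S) (hG : ¬ G ∣ X k) (i : Fin 3) :
    quo k i ∈ surfRing G :=
  ⟨1, X (k.succAbove i), X k, isHomogeneous_X _ _, isHomogeneous_X _ _, hG, rfl⟩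

private theorem algebraMap_X_ne (k : Fin 4) : algebraMap S L (X k) ≠ 0 := by
  intro h0
  rw [FaithfulSMul.algebraMap_eq_zero_iff] at h0
  exact X_ne_zero _ h0

/-- The Jacobian of `x_k` and the quotients `x_i / x_k`. -/
private theorem jac_quo (dL : Fin 4 → Derivation ℂ L L)
    (hdL : ∀ (j : Fin 4) (F : S), dL j (algebraMap S L F) = algebraMap S L (pderiv j F))
    (k : Fin 4) :
    (Matrix.of fun i j : Fin 4 => dL j ((Fin.cons (algebraMap S L (X k))
        (fun i => ((quo k i : K3) : L)) : Fin 4 → L) i)).det * algebraMap S L (X k) ^ 3 =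
      (-1) ^ (k : ℕ) := by
  have hk := algebraMap_X_ne k
  have hX : ∀ i j : Fin 4, dL j (algebraMap S L (X i)) = if i = j then 1 else 0 := by
    intro i j
    rw [hdL, pderiv_X]
    by_cases hij : i = j
    · subst hij
      rw [Pi.single_eq_same, if_pos rfl, map_one]
    · rw [Pi.single_eq_of_ne hij, if_neg hij, map_zero]
  rw [Matrix.det_succ_row_zero, Finset.sum_eq_single k]
  · have h1 : ((Matrix.of fun i j : Fin 4 => dL j ((Fin.cons (algebraMap S L (X k))
        (fun i => ((quo k i : K3) : L)) : Fin 4 → L) i)).submatrix Fin.succ k.succAbove) =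
        Matrix.diagonal (fun _ => (algebraMap S L (X k))⁻¹) := by
      ext1 i j
      rw [Matrix.submatrix_apply, Matrix.of_apply, Fin.cons_succ, quo_coe, Matrix.diagonal_apply,
        Derivation.leibniz_div, hX, hX]
      have h2 : k ≠ k.succAbove j := (Fin.succAbove_ne k j).symm
      rw [if_neg h2]
      by_cases hij : i = j
      · subst hij
        rw [if_pos rfl, if_pos rfl]
        simp only [smul_eq_mul, mul_one, mul_zero, sub_zero]
        field_simp
      · have h3 : k.succAbove i ≠ k.succAbove j := fun h => hij (Fin.succAbove_right_injective h)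
        rw [if_neg h3, if_neg hij]
        simp
    rw [h1, Matrix.det_diagonal, Finset.prod_const, Finset.card_univ, Fintype.card_fin,
      Matrix.of_apply, Fin.cons_zero, hX, if_pos rfl, mul_one, mul_assoc, ← mul_pow,
      inv_mul_cancel₀ hk, one_pow, mul_one]
  · intro j _ hj
    rw [Matrix.of_apply, Fin.cons_zero, hX, if_neg (Ne.symm hj), mul_zero, zero_mul]
  · intro h
    exact absurd (Finset.mem_univ _) h

/-- `κ = ± x_k^4 det (θ_j (x_i / x_k))`. -/
private theorem kappa_quo (θ : Fin 3 → Derivation ℂ K3 K3) (Θ : Fin 3 → Derivation ℂ L L)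
    (hΘ : ∀ j (a : K3), Θ j (a : L) = ((θ j a : K3) : L)) (k : Fin 4) :
    (thMat Θ (fun i => algebraMap S L (X i)) (fun i => algebraMap S L (X i))).det =
      (-1) ^ (k : ℕ) * algebraMap S L (X k) ^ 4 *
        (((Matrix.of fun i j => θ j (quo k i)).det : K3) : L) := by
  obtain ⟨dL, hdL⟩ := exists_partial
  have h1 := det_ratio θ Θ hΘ dL hdL (X k) (isHomogeneous_X _ _) (quo k)
  have h2 := jac_quo dL hdL k
  have h3 : ((-1 : L) ^ (k : ℕ)) * (-1) ^ (k : ℕ) = 1 := by
    rw [← mul_pow]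
    norm_num
  generalize ((-1 : L) ^ (k : ℕ)) = s at h2 h3 ⊢
  linear_combination (-(s * algebraMap S L (X k) ^ 3)) * h1 +
    (-(s * (thMat Θ (fun i => algebraMap S L (X i)) (fun i => algebraMap S L (X i))).det)) * h2 +
    (-(thMat Θ (fun i => algebraMap S L (X i)) (fun i => algebraMap S L (X i))).det) * h3

/-- An irreducible polynomial does not divide all the variables. -/
private theorem exists_not_dvd_X (G : S) (hG : Irreducible G) : ∃ k, ¬ G ∣ X k := by
  by_contra hcon
  push Not at hcon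
  have h0 : Irreducible (X 0 : S) := (X_prime (R := ℂ) (i := (0 : Fin 4))).irreducible
  have h1 : Associated G (X 0 : S) := hG.associated_of_dvd h0 (hcon 0)
  have h2 : (X 0 : S) ∣ X 1 := h1.symm.dvd.trans (hcon 1)
  obtain ⟨c, hc⟩ := h2
  have h3 := congrArg (eval (fun i : Fin 4 => if i = 1 then (1 : ℂ) else 0)) hc
  rw [map_mul, eval_X, eval_X] at h3
  norm_num at h3

/-- For every irreducible form `G` the denominator of `κ` is prime to `G`. -/
private theorem kappa_frac {P : Ideal S} {t : Fin 3 → K3} {θ : Fin 3 → Derivation ℂ K3 K3}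
    (h : ClusterData P t θ) (Θ : Fin 3 → Derivation ℂ L L)
    (hΘ : ∀ j (a : K3), Θ j (a : L) = ((θ j a : K3) : L)) (e : ℕ) (G : S) (hG : Irreducible G)
    (hGe : G.IsHomogeneous e) :
    ∃ (d : ℕ) (A B : S), A.IsHomogeneous (d + 4) ∧ B.IsHomogeneous d ∧ ¬ G ∣ B ∧
      (thMat Θ (fun i => algebraMap S L (X i)) (fun i => algebraMap S L (X i))).det *
        algebraMap S L B = algebraMap S L A := by
  obtain ⟨k, hk⟩ := exists_not_dvd_X G hG
  obtain ⟨d, A, B, hA, hB, hGB, hAB⟩ := h.surf e G hG hGe (quo k) (quo_mem k G hk)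
  have hB0 : algebraMap S L B ≠ 0 := by
    intro h0
    rw [FaithfulSMul.algebraMap_eq_zero_iff] at h0
    rw [h0] at hGB
    exact hGB (dvd_zero _)
  refine ⟨d, C ((-1) ^ (k : ℕ)) * (A * X k ^ 4), B, ?_, hB, hGB, ?_⟩
  · have h1 : (C ((-1 : ℂ) ^ (k : ℕ)) * (A * X k ^ 4) : S).IsHomogeneous (0 + (d + 1 * 4)) :=
      (isHomogeneous_C _ _).mul (hA.mul ((isHomogeneous_X _ _).pow 4))
    have h2 : 0 + (d + 1 * 4) = d + 4 := by omega
    rwa [h2] at h1
  · rw [kappa_quo θ Θ hΘ k, hAB]
    have h3 : algebraMap S L (C ((-1 : ℂ) ^ (k : ℕ)) * (A * X k ^ 4)) =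
        (-1) ^ (k : ℕ) * (algebraMap S L A * algebraMap S L (X k) ^ 4) := by
      simp only [map_mul, map_pow, map_neg, map_one]
    rw [h3]
    field_simp

theorem exists_b {P : Ideal S} {t : Fin 3 → K3} {θ : Fin 3 → Derivation ℂ K3 K3}
    (h : ClusterData P t θ) : ∃ b, IsB θ b := by
  classical
  have hext : ∀ j, ∃ Θ : Derivation ℂ L L, Θ (algebraMap S L (X 3)) = 0 ∧
      ∀ a : K3, Θ (a : L) = ((θ j a : K3) : L) := fun j => exists_extD (θ j)
  choose Θ hΘ3 hΘ using hext
  set κ : L := (thMat Θ (fun i => algebraMap S L (X i)) (fun i => algebraMap S L (X i))).det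
    with hκ
  -- `κ ≠ 0`
  have hκ0 : κ ≠ 0 := by
    intro h0
    obtain ⟨dL, hdL⟩ := exists_partial
    have h1 := det_ratio θ Θ hΘ dL hdL (X 3) (isHomogeneous_X _ _) t
    rw [← hκ, h0, mul_zero, det_theta_t h] at h1
    rcases mul_eq_zero.1 h1 with h2 | h2
    · exact algebraMap_X_ne 3 h2
    · have h3 : (t 0 * t 1 * t 2 : K3) = 0 := by
        apply Subtype.ext
        exact h2
      exact mul_ne_zero (mul_ne_zero (h.t_ne 0) (h.t_ne 1)) (h.t_ne 2) h3
  -- the reduced fraction
  set n : S := IsFractionRing.num S κ with hn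
  set m : S := ((IsFractionRing.den S κ : nonZeroDivisors S) : S) with hm
  have hred : IsRelPrime n m := IsFractionRing.num_den_reduced S κ
  have hmn : algebraMap S L n / algebraMap S L m = κ := IsFractionRing.mk'_num_den' S κ
  have hm0 : m ≠ 0 := nonZeroDivisors.ne_zero (IsFractionRing.den S κ).2
  have hm0' : algebraMap S L m ≠ 0 := by
    intro h0
    rw [FaithfulSMul.algebraMap_eq_zero_iff] at h0
    exact hm0 h0
  have key : ∀ (e : ℕ) (G : S), Irreducible G → G.IsHomogeneous e →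
      ∃ (d : ℕ) (A B : S), A.IsHomogeneous (d + 4) ∧ B.IsHomogeneous d ∧ ¬ G ∣ B ∧
        n * B = A * m := by
    intro e G hG hGe
    obtain ⟨d, A, B, hA, hB, hGB, hAB⟩ := kappa_frac h Θ hΘ e G hG hGe
    refine ⟨d, A, B, hA, hB, hGB, ?_⟩
    apply FaithfulSMul.algebraMap_injective S L
    rw [map_mul, map_mul, ← hAB, ← hκ, ← hmn]
    field_simp
  have hX0 : Irreducible (X 0 : S) := (X_prime (R := ℂ) (i := (0 : Fin 4))).irreducible
  obtain ⟨d₀, A₀, B₀, hA₀, hB₀, hGB₀, hAB₀⟩ := key 1 (X 0) hX0 (isHomogeneous_X _ _)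
  have hB₀0 : B₀ ≠ 0 := by
    intro h0
    rw [h0] at hGB₀
    exact hGB₀ (dvd_zero _)
  have hmB : m ∣ B₀ := by
    refine hred.symm.dvd_of_dvd_mul_left ?_
    rw [hAB₀]
    exact dvd_mul_left _ _
  -- the denominator is a unit
  have hmu : IsUnit m := by
    by_contra hmu
    obtain ⟨G, hG, hGm⟩ := WfDvdMonoid.exists_irreducible_factor hmu hm0
    obtain ⟨c, hc⟩ := hGm.trans hmB
    obtain ⟨i, j, -, hGi, -⟩ := KSF.homog_of_mul G c d₀ (by rw [← hc]; exact hB₀)
      (by rw [← hc]; exact hB₀0)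
    obtain ⟨d, A, B, -, -, hGB, hAB⟩ := key i G hG hGi
    have h1 : G ∣ n * B := by
      rw [hAB]
      exact dvd_mul_of_dvd_right hGm _
    rcases hG.prime.dvd_or_dvd h1 with h2 | h2
    · exact hG.not_isUnit (hred h2 hGm)
    · exact hGB h2
  obtain ⟨u, hu⟩ := hmu
  set b : S := n * ((u⁻¹ : Sˣ) : S) with hb
  have hbm : b * m = n := by
    rw [hb, ← hu, mul_assoc, Units.inv_mul, mul_one]
  have hbκ : κ = algebraMap S L b := by
    rw [← hmn, ← hbm, map_mul]
    field_simp
  have hb0 : b ≠ 0 := by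
    intro h0
    rw [hbκ, h0, map_zero] at hκ0
    exact hκ0 rfl
  have hbB : b * B₀ = A₀ := by
    have h1 : (b * B₀) * m = A₀ * m := by
      rw [← hAB₀, ← hbm]
      ring
    exact mul_right_cancel₀ hm0 h1
  obtain ⟨i, j, hij, hbi, hBj⟩ := KSF.homog_of_mul b B₀ (d₀ + 4) (by rw [hbB]; exact hA₀)
    (mul_ne_zero hb0 hB₀0)
  have hj : j = d₀ := hBj.inj_right hB₀ hB₀0
  have hi : i = 4 := by omega
  subst hi
  exact ⟨b, hbi, hb0, Θ, hΘ3, hΘ, hbκ⟩

end Pool.Agent.CLN
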