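import Pool.Agent.CLN.HahnV

/-!
# CLN / HahnDet: leading coefficient of a determinant `det (D_j f_i)`

Expand the `3 × 3` determinant (`Matrix.det_fin_three`); each entry `DD (w j) (f i)` satisfies
`Ge (f i).order` and has the coefficient `w j (f i).order * (f i).leadingCoeff` at `(f i).order`
(`HahnV.order_DD`); use `coeff_mul_of_Ge` twice for each of the six products.
-/

set_option autoImplicit false

namespace Pool.Agent.CLN

private theorem ent (w : ℝ →+ ℂ) (f : HH) :
    (DD w f).coeff f.order = w f.order * f.leadingCoeff := by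
  by_cases hf : f = 0
  · subst hf
    simp
  · exact order_DD w hf

private theorem prod3 (w0 w1 w2 : ℝ →+ ℂ) (f0 f1 f2 : HH) :
    (DD w0 f0 * DD w1 f1 * DD w2 f2).coeff (f0.order + f1.order + f2.order) =
      (w0 f0.order * w1 f1.order * w2 f2.order) *
        (f0.leadingCoeff * f1.leadingCoeff * f2.leadingCoeff) := by
  have h0 := (ge_order f0).DD w0
  have h1 := (ge_order f1).DD w1
  have h2 := (ge_order f2).DD w2
  rw [coeff_mul_of_Ge (h0.mul h1) h2, coeff_mul_of_Ge h0 h1, ent, ent, ent]
  ring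

theorem coeff_det (w : Fin 3 → (ℝ →+ ℂ)) (f : Fin 3 → HH) :
    ((Matrix.of fun i j => DD (w j) (f i)).det : HH).coeff
        ((f 0).order + (f 1).order + (f 2).order) =
      (Matrix.of fun i j => w j (f i).order).det *
        ((f 0).leadingCoeff * (f 1).leadingCoeff * (f 2).leadingCoeff) := by
  rw [Matrix.det_fin_three, Matrix.det_fin_three]
  simp only [Matrix.of_apply]
  simp only [HahnSeries.coeff_add, HahnSeries.coeff_sub]
  have p : ∀ a b c : Fin 3, (DD (w a) (f 0) * DD (w b) (f 1) * DD (w c) (f 2)).coeff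
      ((f 0).order + (f 1).order + (f 2).order) =
      (w a (f 0).order * w b (f 1).order * w c (f 2).order) *
        ((f 0).leadingCoeff * (f 1).leadingCoeff * (f 2).leadingCoeff) :=
    fun a b c => prod3 _ _ _ _ _ _
  rw [p, p, p, p, p, p]
  ring

/-- If the determinant is `κ ∏ f_i` with a constant `κ`, then `κ = det (w_j (V f_i))`. -/
theorem det_eq (w : Fin 3 → (ℝ →+ ℂ)) (f : Fin 3 → HH) (hf : ∀ i, f i ≠ 0) (κ : ℂ)
    (h : ((Matrix.of fun i j => DD (w j) (f i)).det : HH) =
      algebraMap ℂ HH κ * (f 0 * f 1 * f 2)) :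
    κ = (Matrix.of fun i j => w j (f i).order).det := by
  have h1 := coeff_det w f
  rw [h] at h1
  have hl : ∀ g : HH, g.coeff g.order = g.leadingCoeff :=
    fun g => HahnSeries.leadingCoeff_eq.symm
  have h2 : (algebraMap ℂ HH κ * (f 0 * f 1 * f 2)).coeff
      ((f 0).order + (f 1).order + (f 2).order) =
      κ * ((f 0).leadingCoeff * (f 1).leadingCoeff * (f 2).leadingCoeff) := by
    have h3 := coeff_mul_of_Ge (ge_algebraMap κ) (((ge_order (f 0)).mul (ge_order (f 1))).mul
      (ge_order (f 2)))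
    rw [zero_add] at h3
    rw [h3, coeff_mul_of_Ge ((ge_order (f 0)).mul (ge_order (f 1))) (ge_order (f 2)),
      coeff_mul_of_Ge (ge_order (f 0)) (ge_order (f 1)), hl, hl, hl, algebraMap_HH]
    simp
  rw [h2] at h1
  have hne : (f 0).leadingCoeff * (f 1).leadingCoeff * (f 2).leadingCoeff ≠ 0 :=
    mul_ne_zero (mul_ne_zero (HahnSeries.leadingCoeff_ne_zero.mpr (hf 0))
      (HahnSeries.leadingCoeff_ne_zero.mpr (hf 1))) (HahnSeries.leadingCoeff_ne_zero.mpr (hf 2))
  exact mul_right_cancel₀ hne h1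

end Pool.Agent.CLN
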