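import Pool.Agent.CLN.HahnV

/-!
# CLN / Reals: `ℚ`-linearly independent reals, dual additive maps, monomials in `HH`

`exists_reals`: `Module.rank ℚ ℝ` is infinite (`Real.rank_rat_real`), so there is a linearly
independent family `r : Fin 3 → ℝ` over `ℚ`; the `ℚ`-linear maps `ℝ → ℚ` with `r_i ↦ δ_ij` exist
(extend from the span, e.g. `Basis.extend` / `LinearMap.exists_extend`), compose with `ℚ → ℂ`.
`ee_injective`: the monomial `T^m` goes to `ee (∑ r_i m_i)`; the exponents are distinct
(`w_j (∑ r_i m_i) = m_j`), so a polynomial with a nonzero coefficient has a nonzero image.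
`ee_neg`: for `-r`, use `-w`.
-/

set_option autoImplicit false

namespace Pool.Agent.CLN

open MvPolynomial

theorem exists_reals : ∃ (r : Fin 3 → ℝ) (w : Fin 3 → (ℝ →+ ℂ)),
    ∀ i j, w j (r i) = if i = j then 1 else 0 := by
  classical
  let b := Module.Basis.ofVectorSpace ℚ ℝ
  have hinf : Infinite (Module.Basis.ofVectorSpaceIndex ℚ ℝ) := by
    rw [Cardinal.infinite_iff, b.mk_eq_rank'', Real.rank_rat_real]
    exact Cardinal.aleph0_le_continuum
  let e : Fin 3 → Module.Basis.ofVectorSpaceIndex ℚ ℝ := fun i =>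
    Infinite.natEmbedding (Module.Basis.ofVectorSpaceIndex ℚ ℝ) (i : ℕ)
  have he : Function.Injective e := by
    intro i j h
    exact Fin.ext ((Infinite.natEmbedding (Module.Basis.ofVectorSpaceIndex ℚ ℝ)).injective h)
  refine ⟨fun i => b (e i), fun j => (algebraMap ℚ ℂ).toAddMonoidHom.comp
    (b.coord (e j)).toAddMonoidHom, ?_⟩
  intro i j
  show algebraMap ℚ ℂ (b.coord (e j) (b (e i))) = _
  rw [Module.Basis.coord_apply, Module.Basis.repr_self, Finsupp.single_apply]
  by_cases h : i = j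
  · subst h
    simp
  · rw [if_neg h, if_neg (fun h' => h (he h')), map_zero]

theorem DD_ee (w : ℝ →+ ℂ) (a : ℝ) : DD w (ee a) = w a • ee a := by
  ext g
  rw [DD_coeff, HahnSeries.coeff_smul, ee, smul_eq_mul]
  by_cases h : g = a
  · subst h; rfl
  · rw [HahnSeries.coeff_single_of_ne h, mul_zero, mul_zero]

theorem DD_ee' (w : ℝ →+ ℂ) (a : ℝ) : DD w (ee a) = algebraMap ℂ HH (w a) * ee a := by
  rw [DD_ee, algebraMap_HH, HahnSeries.C_mul_eq_smul]

theorem ee_mul (a b : ℝ) : ee a * ee b = ee (a + b) := by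
  rw [ee, ee, ee, HahnSeries.single_mul_single, mul_one]

theorem ee_order (a : ℝ) : (ee a).order = a :=
  HahnSeries.order_single one_ne_zero

theorem ee_ne_zero (a : ℝ) : ee a ≠ 0 :=
  HahnSeries.single_ne_zero one_ne_zero

private theorem ee_zero : ee 0 = 1 := rfl

private theorem ee_pow (a : ℝ) (k : ℕ) : ee a ^ k = ee (a * k) := by
  induction k with
  | zero => simp [ee_zero]
  | succ k ih =>
    rw [pow_succ, ih, ee_mul]
    congr 1
    push_cast
    ring

private theorem ee_sum (s : Finset (Fin 3)) (g : Fin 3 → ℝ) : ∏ i ∈ s, ee (g i) = ee (∑ i ∈ s, g i) := by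
  classical
  induction s using Finset.induction_on with
  | empty => simp [ee_zero]
  | insert a s ha ih => rw [Finset.prod_insert ha, Finset.sum_insert ha, ih, ee_mul]

private theorem exp_eq (r : Fin 3 → ℝ) (w : Fin 3 → (ℝ →+ ℂ))
    (hw : ∀ i j, w j (r i) = if i = j then 1 else 0) (m : Fin 3 →₀ ℕ) (j : Fin 3) :
    w j (∑ i, r i * (m i : ℝ)) = (m j : ℂ) := by
  rw [map_sum]
  have h : ∀ i, w j (r i * (m i : ℝ)) = (m i : ℂ) * if i = j then 1 else 0 := by
    intro i
    rw [mul_comm, ← nsmul_eq_mul, map_nsmul, hw, nsmul_eq_mul]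
  simp only [h, mul_ite, mul_one, mul_zero, Finset.sum_ite_eq', Finset.mem_univ, if_true]

private theorem exp_inj (r : Fin 3 → ℝ) (w : Fin 3 → (ℝ →+ ℂ))
    (hw : ∀ i j, w j (r i) = if i = j then 1 else 0) {m u : Fin 3 →₀ ℕ}
    (h : ∑ i, r i * (m i : ℝ) = ∑ i, r i * (u i : ℝ)) : m = u := by
  ext j
  have := congrArg (w j) h
  rw [exp_eq r w hw, exp_eq r w hw] at this
  exact_mod_cast this

/-- The coefficients of the image of a polynomial under `T_i ↦ ee (r_i)`. -/
theorem coeff_aeval_ee (r : Fin 3 → ℝ) (w : Fin 3 → (ℝ →+ ℂ))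
    (hw : ∀ i j, w j (r i) = if i = j then 1 else 0) (p : MvPolynomial (Fin 3) ℂ)
    (m : Fin 3 →₀ ℕ) :
    (aeval (fun i => ee (r i)) p : HH).coeff (∑ i, r i * (m i : ℝ)) = coeff m p := by
  classical
  induction p using MvPolynomial.induction_on' with
  | monomial u c =>
    rw [aeval_monomial, Finsupp.prod_fintype _ _ (fun i => pow_zero _), coeff_monomial]
    simp only [ee_pow]
    rw [ee_sum, algebraMap_HH, HahnSeries.C_mul_eq_smul, HahnSeries.coeff_smul, smul_eq_mul, ee]
    by_cases h : u = m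
    · subst h
      rw [HahnSeries.coeff_single_same, if_pos rfl, mul_one]
    · rw [if_neg h, HahnSeries.coeff_single_of_ne (fun h' => h (exp_inj r w hw h'.symm)), mul_zero]
  | add p q hp hq =>
    rw [map_add, HahnSeries.coeff_add, hp, hq, coeff_add]

theorem ee_injective (r : Fin 3 → ℝ) (w : Fin 3 → (ℝ →+ ℂ))
    (hw : ∀ i j, w j (r i) = if i = j then 1 else 0) :
    Function.Injective (aeval (fun i => ee (r i)) : MvPolynomial (Fin 3) ℂ →ₐ[ℂ] HH) := by
  intro p q h
  ext m
  rw [← coeff_aeval_ee r w hw p m, ← coeff_aeval_ee r w hw q m, h]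

end Pool.Agent.CLN
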