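import Pool.Agent.CLN.Indep
import Pool.Agent.CLN.Reals

/-!
# CLN / SymA: the embedding of `K3` in `HH`

`exists_iota`: `exists_reals`, `ee_injective`, `injective_aeval`, `exists_emb`, `emb_der` (with
`DD_ee'`).  `order_iota`: `a = p(t)/q(t)`; the order of `aeval (ee r) p` is an exponent
`∑ r_i m_i` (`coeff_aeval_ee`: every exponent is of this form, e.g. `aeval (ee r) p` is the sum of
`coeff m p • ee (∑ r_i m_i)`).
-/

set_option autoImplicit false

namespace Pool.Agent.CLN

open MvPolynomial Pool.Agent.CLU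

theorem exists_iota {P : Ideal S} {t : Fin 3 → K3} {θ : Fin 3 → Derivation ℂ K3 K3}
    (h : ClusterData P t θ) (r : Fin 3 → ℝ) (w : Fin 3 → (ℝ →+ ℂ))
    (hw : ∀ i j, w j (r i) = if i = j then 1 else 0) :
    ∃ ι : K3 →ₐ[ℂ] HH, (∀ i, ι (t i) = ee (r i)) ∧ ∀ j a, DD (w j) (ι a) = ι (θ j a) := by
  obtain ⟨ι, hι⟩ := exists_emb t (injective_aeval t θ h.t_ne h.eig) h.gen (M := HH)
    (fun i => ee (r i)) (ee_injective r w hw)
  refine ⟨ι, hι, fun j a => ?_⟩
  refine emb_der t h.gen ι (θ j) (DD (w j)) ?_ a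
  intro i
  rw [hι, DD_ee', hw, h.eig]
  by_cases hij : i = j
  · rw [if_pos hij, if_pos hij, map_one, one_mul, hι]
  · rw [if_neg hij, if_neg hij, map_zero, zero_mul, map_zero]

private theorem exp_form (r : Fin 3 → ℝ) (p : MvPolynomial (Fin 3) ℂ) :
    ∀ g : ℝ, (aeval (fun i => ee (r i)) p : HH).coeff g ≠ 0 →
      ∃ m : Fin 3 →₀ ℕ, g = ∑ i, r i * (m i : ℝ) := by
  classical
  have epow : ∀ (a : ℝ) (k : ℕ), ee a ^ k = ee (a * k) := by
    intro a k
    induction k with
    | zero =>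
      rw [pow_zero, Nat.cast_zero, mul_zero]
      rfl
    | succ k ih =>
      rw [pow_succ, ih, ee_mul]
      congr 1
      push_cast
      ring
  induction p using MvPolynomial.induction_on' with
  | monomial u c =>
    intro g hg
    refine ⟨u, ?_⟩
    rw [aeval_monomial, Finsupp.prod_fintype _ _ (fun i => pow_zero _), Fin.prod_univ_three] at hg
    simp only [epow, ee_mul] at hg
    rw [algebraMap_HH, HahnSeries.C_mul_eq_smul, HahnSeries.coeff_smul, smul_eq_mul, ee] at hg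
    rw [Fin.sum_univ_three]
    by_contra hne
    exact hg (by rw [HahnSeries.coeff_single_of_ne hne, mul_zero])
  | add p q hp hq =>
    intro g hg
    rw [map_add, HahnSeries.coeff_add] at hg
    by_cases h0 : (aeval (fun i => ee (r i)) p : HH).coeff g = 0
    · rw [h0, zero_add] at hg
      exact hq g hg
    · exact hp g h0

theorem order_iota {P : Ideal S} {t : Fin 3 → K3} {θ : Fin 3 → Derivation ℂ K3 K3}
    (h : ClusterData P t θ) (r : Fin 3 → ℝ) (w : Fin 3 → (ℝ →+ ℂ))
    (hw : ∀ i j, w j (r i) = if i = j then 1 else 0)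
    (ι : K3 →ₐ[ℂ] HH) (hι : ∀ i, ι (t i) = ee (r i)) (a : K3) (ha : a ≠ 0) :
    ∃ n : Fin 3 → ℤ, (ι a).order = ∑ i, r i * (n i : ℝ) := by
  have hmem : a ∈ IntermediateField.adjoin ℂ (Set.range t) := by
    rw [h.gen]
    exact IntermediateField.mem_top
  obtain ⟨p, q, hpq⟩ := (IntermediateField.mem_adjoin_range_iff (F := ℂ) t a).1 hmem
  have hq0 : (aeval t q : K3) ≠ 0 := by
    intro h0
    rw [h0, div_zero] at hpq
    exact ha hpq
  have hp0 : (aeval t p : K3) ≠ 0 := by
    intro h0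
    rw [h0, zero_div] at hpq
    exact ha hpq
  have hc : ∀ f : MvPolynomial (Fin 3) ℂ, ι (aeval t f) = aeval (fun i => ee (r i)) f := by
    intro f
    have h1 := comp_aeval_apply t ι f
    have h2 : (fun i => ι (t i)) = fun i => ee (r i) := funext hι
    rw [h2] at h1
    exact h1
  have hinj : ∀ b : K3, b ≠ 0 → ι b ≠ 0 := fun b hb => (map_ne_zero ι).2 hb
  have hpι : ι (aeval t p) ≠ 0 := hinj _ hp0
  have hqι : ι (aeval t q) ≠ 0 := hinj _ hq0
  have haι : ι a ≠ 0 := hinj _ ha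
  have hmul : ι a * ι (aeval t q) = ι (aeval t p) := by
    rw [← map_mul, hpq, div_mul_cancel₀ _ hq0]
  have hord : (ι a).order + (ι (aeval t q)).order = (ι (aeval t p)).order := by
    rw [← HahnSeries.order_mul haι hqι, hmul]
  have hco : ∀ f : MvPolynomial (Fin 3) ℂ, ι (aeval t f) ≠ 0 →
      ∃ m : Fin 3 →₀ ℕ, (ι (aeval t f)).order = ∑ i, r i * (m i : ℝ) := by
    intro f hf
    refine exp_form r f _ ?_
    rw [← hc f]
    exact HahnSeries.coeff_order_eq_zero.not.2 hf
  obtain ⟨m, hm⟩ := hco p hpι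
  obtain ⟨m', hm'⟩ := hco q hqι
  refine ⟨fun i => (m i : ℤ) - (m' i : ℤ), ?_⟩
  have e : (ι a).order = (ι (aeval t p)).order - (ι (aeval t q)).order := by linarith
  rw [e, hm, hm', ← Finset.sum_sub_distrib]
  refine Finset.sum_congr rfl fun i _ => ?_
  push_cast
  ring

end Pool.Agent.CLN
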