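import Pool.Agent.CLN.ExtD
import Pool.Agent.CLN.SymA
import Pool.Agent.CLN.HahnDet
import Pool.Agent.CLN.BForm

/-!
# CLN / Sym: the form `b` has no symmetry `x_m ↦ ω x_m`

`not_invariant`: let `ζ : S → S` be `X_m ↦ ω X_m`, `σ` its extension to `L`; it maps `K3` to `K3`.
For `z = x_3`, `α : Fin 3 → K3`: `det_ratio` gives `z det(θ_j α_i) = J(z, α) b`, and
`J(σ z, σ α) = ω σ(J(z, α))` (chain rule: `∂_k (σ F) = ω^{δ_km} σ(∂_k F)`).  If `σ b = b` then
`σ z det(θ_j σ α_i) = J(σ z, σ α) b = ω σ(J(z, α) b) = ω σ(z) σ(det(θ_j α_i))`.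
For `α = t`: `det(θ_j σ t_i) = ω ∏ σ t_i` (`det (θ_j t_i) = ∏ t_i`).  Apply `ι : K3 → HH`:
`HahnDet.det_eq` gives `ω = det(w_j (V ι σ t_i))`, an integer by `order_iota`; but `ω^3 = 1`, `ω ≠ 1`.
-/

set_option autoImplicit false

namespace Pool.Agent.CLN

open MvPolynomial Pool.Agent.CLU

/-- the factors -/
private noncomputable def uu (m : Fin 4) (ω : ℂ) (i : Fin 4) : S := if i = m then C ω else 1

/-- the substitution -/
private noncomputable def zeta (m : Fin 4) (ω : ℂ) : S →ₐ[ℂ] S :=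
  aeval (fun i => if i = m then C ω * X i else (X i : S))

private theorem zeta_X (m : Fin 4) (ω : ℂ) (i : Fin 4) : zeta m ω (X i) = uu m ω i * X i := by
  unfold zeta uu
  rw [aeval_X]
  split_ifs
  · rfl
  · rw [one_mul]

private theorem zeta_C (m : Fin 4) (ω c : ℂ) : zeta m ω (C c) = C c := by
  have h : (C c : S) = algebraMap ℂ S c := rfl
  rw [h, AlgHom.commutes]

private theorem zeta_inj (m : Fin 4) {ω : ℂ} (hω : ω ≠ 0) : Function.Injective (zeta m ω) := by
  have h : (zeta m ω⁻¹).comp (zeta m ω) = AlgHom.id ℂ S := by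
    apply MvPolynomial.algHom_ext
    intro i
    rw [AlgHom.comp_apply, zeta_X, map_mul, zeta_X, AlgHom.id_apply]
    unfold uu
    by_cases hi : i = m
    · rw [if_pos hi, if_pos hi, zeta_C, ← mul_assoc, ← C_mul, mul_inv_cancel₀ hω, C_1, one_mul]
    · rw [if_neg hi, if_neg hi, map_one, one_mul, one_mul]
  intro x y hxy
  have h1 := congrArg (zeta m ω⁻¹) hxy
  have h2 : ∀ x, zeta m ω⁻¹ (zeta m ω x) = x := fun x => DFunLike.congr_fun h x
  rwa [h2, h2] at h1

private theorem zeta_homog (m : Fin 4) (ω : ℂ) {d : ℕ} {A : S} (hA : A.IsHomogeneous d) :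
    (zeta m ω A).IsHomogeneous d := by
  have h := hA.aeval (fun i => if i = m then C ω * X i else (X i : S)) (n := 1) (fun i => by
    by_cases hi : i = m
    · rw [if_pos hi]
      have := (isHomogeneous_C (Fin 4) ω).mul (isHomogeneous_X ℂ i)
      rwa [zero_add] at this
    · rw [if_neg hi]
      exact isHomogeneous_X ℂ i)
  rw [one_mul] at h
  exact h

private theorem pderiv_zeta (m : Fin 4) (ω : ℂ) (k : Fin 4) (F : S) :
    pderiv k (zeta m ω F) = uu m ω k * zeta m ω (pderiv k F) := by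
  have hu : ∀ i, pderiv k (uu m ω i) = 0 := by
    intro i
    unfold uu
    split_ifs
    · exact pderiv_C
    · exact Derivation.map_one_eq_zero _
  induction F using MvPolynomial.induction_on with
  | C a => rw [zeta_C, pderiv_C, map_zero, mul_zero]
  | add p q hp hq => rw [map_add, map_add, map_add, map_add, hp, hq, mul_add]
  | mul_X p i hp =>
    rw [map_mul, Derivation.leibniz, Derivation.leibniz, zeta_X, Derivation.leibniz, hu, hp]
    simp only [smul_eq_mul, map_add, map_mul, mul_zero, add_zero, zeta_X]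
    by_cases hi : i = k
    · subst hi
      rw [pderiv_X_self, map_one]
      ring
    · rw [pderiv_X_of_ne hi, map_zero]
      ring

private theorem comp_inj (m : Fin 4) {ω : ℂ} (hω : ω ≠ 0) :
    Function.Injective ((algebraMap S L).comp (zeta m ω : S →+* S)) :=
  (IsFractionRing.injective S L).comp (zeta_inj m hω)

/-- the extension of the substitution to the field of fractions -/
private noncomputable def sig (m : Fin 4) {ω : ℂ} (hω : ω ≠ 0) : L →+* L :=
  IsFractionRing.lift (A := S) (K := L) (L := L) (comp_inj m hω)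

private theorem sig_alg (m : Fin 4) {ω : ℂ} (hω : ω ≠ 0) (F : S) :
    sig m hω (algebraMap S L F) = algebraMap S L (zeta m ω F) :=
  IsFractionRing.lift_algebraMap (A := S) (K := L) (L := L) (comp_inj m hω) F

private theorem sig_K3 (m : Fin 4) {ω : ℂ} (hω : ω ≠ 0) (a : K3) : sig m hω (a : L) ∈ K3 := by
  obtain ⟨d, A, B, hA, hB, hB0, hab⟩ := a.2
  refine ⟨d, zeta m ω A, zeta m ω B, zeta_homog m ω hA, zeta_homog m ω hB, ?_, ?_⟩
  · intro h
    exact hB0 (zeta_inj m hω (h.trans (map_zero _).symm))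
  · rw [hab, map_div₀, sig_alg, sig_alg]

private theorem der_div (D : Derivation ℂ L L) (a b : L) (hb : b ≠ 0) :
    D (a / b) = (b * D a - a * D b) / b ^ 2 := by
  rw [Derivation.leibniz_div]
  simp only [smul_eq_mul]
  field_simp

private theorem der_sig (m : Fin 4) {ω : ℂ} (hω : ω ≠ 0) (dL : Fin 4 → Derivation ℂ L L)
    (hdL : ∀ (j : Fin 4) (F : S), dL j (algebraMap S L F) = algebraMap S L (pderiv j F))
    (k : Fin 4) (x : L) :
    dL k (sig m hω x) = algebraMap S L (uu m ω k) * sig m hω (dL k x) := by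
  obtain ⟨a, b, hb, rfl⟩ := IsFractionRing.div_surjective (A := S) x
  have hb0 : b ≠ 0 := nonZeroDivisors.ne_zero hb
  have hb1 : algebraMap S L b ≠ 0 := by simpa using hb0
  have hb2 : zeta m ω b ≠ 0 := fun h => hb0 (zeta_inj m hω (h.trans (map_zero _).symm))
  have hb3 : algebraMap S L (zeta m ω b) ≠ 0 := by simpa using hb2
  rw [map_div₀, sig_alg, sig_alg, der_div _ _ _ hb3, der_div _ _ _ hb1, map_div₀, map_sub,
    map_mul, map_mul, map_pow, hdL, hdL, hdL, hdL, pderiv_zeta, pderiv_zeta, sig_alg, sig_alg,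
    sig_alg, sig_alg, map_mul, map_mul]
  ring

theorem not_invariant {P : Ideal S} {t : Fin 3 → K3} {θ : Fin 3 → Derivation ℂ K3 K3}
    (h : ClusterData P t θ) {b : S} (hb : IsB θ b) (m : Fin 4) (ω : ℂ) (hω : ω ^ 3 = 1)
    (hω1 : ω ≠ 1) :
    (aeval (fun i => if i = m then C ω * X i else (X i : S)) b : S) ≠ b := by
  classical
  intro hinv
  have hinv' : zeta m ω b = b := hinv
  have hω0 : ω ≠ 0 := by
    rintro rfl
    norm_num at hω
  obtain ⟨-, hb0, Θ, -, hΘ, hΘb⟩ := hb
  obtain ⟨dL, hdL⟩ := exists_partial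
  set σ : L →+* L := sig m hω0 with hσdef
  let t' : Fin 3 → K3 := fun i => ⟨σ (t i : L), sig_K3 m hω0 (t i)⟩
  have ht' : ∀ i, ((t' i : K3) : L) = σ (t i : L) := fun i => rfl
  have e1 := det_ratio θ Θ hΘ dL hdL (X 3) (isHomogeneous_X ℂ 3) t
  have e2 := det_ratio θ Θ hΘ dL hdL (zeta m ω (X 3)) (zeta_homog m ω (isHomogeneous_X ℂ 3)) t'
  rw [hΘb] at e1 e2
  -- the chain rule
  have e3 : (Matrix.of fun i j : Fin 4 => dL j ((Fin.cons (algebraMap S L (zeta m ω (X 3)))
      (fun i => (t' i : L)) : Fin 4 → L) i)).det =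
      algebraMap S L (C ω) * σ (Matrix.of fun i j : Fin 4 => dL j
        ((Fin.cons (algebraMap S L (X 3)) (fun i => (t i : L)) : Fin 4 → L) i)).det := by
    rw [RingHom.map_det]
    have h1 : (Matrix.of fun i j : Fin 4 => dL j ((Fin.cons (algebraMap S L (zeta m ω (X 3)))
        (fun i => (t' i : L)) : Fin 4 → L) i)) =
        Matrix.of fun i j : Fin 4 => algebraMap S L (uu m ω j) *
          (σ.mapMatrix (Matrix.of fun i j : Fin 4 => dL j
            ((Fin.cons (algebraMap S L (X 3)) (fun i => (t i : L)) : Fin 4 → L) i))) i j := by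
      ext i j
      rw [Matrix.of_apply, Matrix.of_apply, RingHom.mapMatrix_apply, Matrix.map_apply,
        Matrix.of_apply, ← der_sig m hω0 dL hdL]
      congr 1
      refine Fin.cases ?_ (fun i => ?_) i
      · rw [Fin.cons_zero, Fin.cons_zero, sig_alg]
      · rw [Fin.cons_succ, Fin.cons_succ, ht']
    rw [h1, Matrix.det_mul_row]
    congr 1
    rw [← map_prod]
    congr 1
    unfold uu
    rw [Finset.prod_ite_eq' Finset.univ m, if_pos (Finset.mem_univ m)]
  have hz0 : algebraMap S L (zeta m ω (X 3)) ≠ 0 := by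
    have h1 : (X 3 : S) ≠ 0 := X_ne_zero 3
    have h2 : zeta m ω (X 3) ≠ 0 := fun h => h1 (zeta_inj m hω0 (h.trans (map_zero _).symm))
    simpa using h2
  have hbb : σ (algebraMap S L b) = algebraMap S L b := by
    rw [hσdef, sig_alg, hinv']
  have e4 : (((Matrix.of fun i j => θ j (t' i)).det : K3) : L) =
      algebraMap S L (C ω) * σ (((Matrix.of fun i j => θ j (t i)).det : K3) : L) := by
    have h1 := congrArg σ e1
    rw [map_mul, map_mul, hbb, hσdef, sig_alg, ← hσdef] at h1
    rw [e3, mul_assoc, ← h1] at e2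
    apply mul_left_cancel₀ hz0
    rw [e2]
    ring
  rw [det_theta_t h] at e4
  have e5 : (Matrix.of fun i j => θ j (t' i)).det = algebraMap ℂ K3 ω * (t' 0 * t' 1 * t' 2) := by
    apply Subtype.ext
    rw [e4]
    change _ = algebraMap ℂ L ω * (σ (t 0 : L) * σ (t 1 : L) * σ (t 2 : L))
    have h1 : (((t 0 * t 1 * t 2 : K3)) : L) = (t 0 : L) * (t 1 : L) * (t 2 : L) := rfl
    rw [h1, map_mul, map_mul]
    rfl
  have ht0 : ∀ i, t' i ≠ 0 := by
    intro i hi
    have h1 : σ (t i : L) = 0 := congrArg Subtype.val hi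
    have h2 : ((t i : K3) : L) = 0 := (map_eq_zero σ).1 h1
    exact h.t_ne i (Subtype.ext h2)
  -- leading coefficients
  obtain ⟨r, w, hw⟩ := exists_reals
  obtain ⟨ι, hι1, hι2⟩ := exists_iota h r w hw
  have e6 : ((Matrix.of fun i j => DD (w j) (ι (t' i))).det : HH) =
      algebraMap ℂ HH ω * (ι (t' 0) * ι (t' 1) * ι (t' 2)) := by
    have h1 : (Matrix.of fun i j => DD (w j) (ι (t' i)) : Matrix (Fin 3) (Fin 3) HH) =
        (ι : K3 →+* HH).mapMatrix (Matrix.of fun i j => θ j (t' i)) := by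
      refine Matrix.ext fun i j => ?_
      rw [Matrix.of_apply, RingHom.mapMatrix_apply, Matrix.map_apply, Matrix.of_apply]
      exact hι2 j (t' i)
    rw [h1, ← RingHom.map_det, e5]
    rw [map_mul, map_mul, map_mul]
    congr 1
    exact ι.commutes ω
  have e7 := det_eq w (fun i => ι (t' i)) (fun i => (map_ne_zero ι).2 (ht0 i)) ω e6
  have hord : ∀ i, ∃ n : Fin 3 → ℤ, (ι (t' i)).order = ∑ k, r k * (n k : ℝ) := fun i =>
    order_iota h r w hw ι hι1 (t' i) (ht0 i)
  choose n hn using hord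
  have hwn : ∀ i j, w j (ι (t' i)).order = ((n i j : ℤ) : ℂ) := by
    intro i j
    rw [hn i, map_sum]
    have h1 : ∀ k, w j (r k * (n i k : ℝ)) = if k = j then ((n i k : ℤ) : ℂ) else 0 := by
      intro k
      have h2 : r k * (n i k : ℝ) = (n i k) • r k := by
        rw [zsmul_eq_mul, mul_comm]
      rw [h2, map_zsmul, hw, zsmul_eq_mul]
      split_ifs
      · rw [mul_one]
      · rw [mul_zero]
    rw [Finset.sum_congr rfl fun k _ => h1 k, Finset.sum_ite_eq' Finset.univ j,
      if_pos (Finset.mem_univ j)]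
  have e8 : ω = (((Matrix.of fun i j => n i j).det : ℤ) : ℂ) := by
    have h1 : (((Matrix.of fun i j => n i j).det : ℤ) : ℂ) =
        ((Int.castRingHom ℂ).mapMatrix (Matrix.of fun i j => n i j)).det :=
      RingHom.map_det (Int.castRingHom ℂ) _
    rw [e7, h1]
    congr 1
    refine Matrix.ext fun i j => ?_
    rw [Matrix.of_apply, RingHom.mapMatrix_apply, Matrix.map_apply, Matrix.of_apply]
    exact hwn i j
  set N : ℤ := (Matrix.of fun i j => n i j).det with hN
  have h3 : N ^ 3 = 1 := by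
    rw [e8] at hω
    exact_mod_cast hω
  have h4 : N = 1 := by
    have h5 : (N - 1) * (N ^ 2 + N + 1) = 0 := by linear_combination h3
    rcases mul_eq_zero.1 h5 with h6 | h6
    · omega
    · nlinarith [sq_nonneg (2 * N + 1)]
  rw [h4] at e8
  exact hω1 (by simpa using e8)

end Pool.Agent.CLN
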