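import Pool.Agent.CLN.C1Fin
import Pool.Agent.CLN.C2Fin
import Pool.Agent.CLN.Sym
import Pool.Agent.CLN.Dich
import Pool.Agent.CLN.BMem

/-!
# CLN / Neg: diagonal pencils are not of cluster type (assembly)
-/

set_option autoImplicit false

namespace Pool.Agent.CLN

open MvPolynomial Pool.Agent.CLU

theorem not_dvd_X3 {G : S} {g : ℕ} (hG : G.IsHomogeneous g) (hg : 2 ≤ g) (hG0 : G ≠ 0) :
    ¬ G ∣ X 3 := by
  rintro ⟨H, hH⟩
  have hH0 : H ≠ 0 := by
    rintro rfl
    rw [mul_zero] at hH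
    exact X_ne_zero _ hH
  have h1 := congrArg totalDegree hH
  rw [totalDegree_X, totalDegree_mul_of_isDomain hG0 hH0, hG.totalDegree hG0] at h1
  omega

/-- The weights for `-r`. -/
theorem neg_weights {r : Fin 3 → ℝ} {v : Fin 3 → (ℝ →+ ℂ)}
    (hv : ∀ i j, v j (r i) = if i = j then 1 else 0) :
    ∀ i j, (-(v j)) (-(r i)) = if i = j then 1 else 0 := by
  intro i j
  rw [AddMonoidHom.neg_apply, map_neg, neg_neg, hv]

theorem DD_ee_eq {r : Fin 3 → ℝ} {v : Fin 3 → (ℝ →+ ℂ)}
    (hv : ∀ i j, v j (r i) = if i = j then 1 else 0) (i j : Fin 3) :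
    DD (v j) (ee (r i)) = if i = j then ee (r i) else 0 := by
  rw [DD_ee', hv]
  split_ifs
  · rw [map_one, one_mul]
  · rw [map_zero, zero_mul]

theorem diagonal_not_cluster {a' a : Fin 4 → ℂ} (hnd : NonDeg a' a) {P : Ideal S}
    (hP : P = Ideal.span {diag a', diag a}) (hprime : P.IsPrime) :
    ¬ IsClusterType (primeDivisors {P}) := by
  intro hcl
  obtain ⟨t, θ, h⟩ := exists_clusterData hcl
  obtain ⟨b, hb⟩ := exists_b h
  have hbP := b_mem hnd hP hprime h hb
  obtain ⟨r, v, hv⟩ := exists_reals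
  rcases dichotomy hnd hP hprime hb.1 hb.2.1 hbP
    (fun m ω h1 h2 => not_invariant h hb m ω h1 h2) with
    ⟨p, q, hli, hpq, hbeq, hirr⟩ | ⟨c, c1, l, hnd', hP', hl, hbeq, hirr⟩
  · -- the irreducible case
    obtain ⟨w, j1, j2, -, -, hs⟩ := exists_surface (b' := 1) h hb hirr hb.1
      (not_dvd_X3 hb.1 (by norm_num) hb.2.1) (by rw [mul_one])
    obtain ⟨lead, x, -, hx⟩ := hs HH (fun i => ee (r i)) (fun j => DD (v j))
      (ee_injective r v hv) (DD_ee_eq hv)
    exact no_C2Data (a' := a') (a := a) (p := p) (q := q)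
      ⟨hx, hb.1, hirr, hnd, hli, hpq, hbeq⟩
  · -- the reducible case
    have hc0 : diag c ≠ 0 := hirr.ne_zero
    have hch : (diag c).IsHomogeneous 3 := diag_hom c
    have hc : ∀ i j, i ≠ j → c i ≠ 0 ∨ c j ≠ 0 := by
      intro i j hij
      by_contra hcon
      push Not at hcon
      exact hnd' i j hij (by rw [hcon.1, hcon.2]; ring)
    obtain ⟨w, j1, j2, hw, -, hs⟩ := exists_surface h hb hirr hch
      (not_dvd_X3 hch (by norm_num) hc0) hbeq
    obtain ⟨lead, x, hld, hx⟩ := hs HH (fun i => ee (r i)) (fun j => DD (v j))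
      (ee_injective r v hv) (DD_ee_eq hv)
    have hv' := neg_weights hv
    obtain ⟨lead', x', hld', hx'⟩ := hs HH (fun i => ee (-(r i))) (fun j => DD (-(v j)))
      (ee_injective (fun i => -(r i)) (fun j => -(v j)) hv')
      (DD_ee_eq (r := fun i => -(r i)) (v := fun j => -(v j)) hv')
    refine c1_false (P := P) (t := t) (θ := θ) (b := b) (c := c) (c1 := c1) (l := l) (r := r)
      (w := w) (lead := lead) (lead' := lead') (x := x) (x' := x') ?_
    refine ⟨h, hb, hnd', hP', hprime, hl, hbeq, hirr, ?_, hw, hld, hld', ?_, ?_, ?_, ?_, ?_⟩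
    · intro m hm
      funext j
      have h1 := congrArg (v j) hm
      rw [map_sum, map_zero] at h1
      have h2 : ∀ i, v j (r i * (m i : ℝ)) = (m i : ℂ) * (if i = j then 1 else 0) := by
        intro i
        have h3 : r i * (m i : ℝ) = m i • r i := by
          rw [zsmul_eq_mul, mul_comm]
        rw [h3, map_zsmul, hv, zsmul_eq_mul]
      simp only [h2] at h1
      rw [Finset.sum_eq_single j] at h1
      · rw [if_pos rfl, mul_one] at h1
        exact_mod_cast h1
      · intro i _ hi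
        rw [if_neg hi, mul_zero]
      · intro hj
        exact absurd (Finset.mem_univ j) hj
    · intro p m
      exact ⟨coeff_aeval_ee r v hv p m,
        coeff_aeval_ee (fun i => -(r i)) (fun j => -(v j)) hv' p m⟩
    · exact (hx.van 3 _ hch).2 dvd_rfl
    · exact (hx'.van 3 _ hch).2 dvd_rfl
    · intro k B hB hfB
      exact ⟨fun h0 => hfB ((hx.van k B hB).1 h0), surface_lemma hx hl hc k B hB hfB⟩
    · intro k B hB hfB
      exact ⟨fun h0 => hfB ((hx'.van k B hB).1 h0), surface_lemma hx' hl hc k B hB hfB⟩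

end Pool.Agent.CLN
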