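import Pool.Agent.CLN.LinB
import Pool.Agent.CLN.Neg

/-!
# CLN / NegD: the negative theorem in arbitrary coordinates
-/

set_option autoImplicit false

namespace Pool.Agent.CLN

open MvPolynomial Pool.Agent.CLU

/-- The ideal generated by `∑ l_i^3` and `∑ a_i l_i^3`. -/
def IsDiagonal (P : Ideal S) : Prop :=
  ∃ (l : Fin 4 → S) (a : Fin 4 → ℂ), (∀ i, (l i).IsHomogeneous 1) ∧ LinearIndependent ℂ l ∧
    Function.Injective a ∧ P = Ideal.span {∑ i, l i ^ 3, ∑ i, C (a i) * l i ^ 3}

theorem not_cluster_of_isDiagonal {P : Ideal S} (h : IsDiagonal P) (hP : P.IsPrime) :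
    ¬ IsClusterType (primeDivisors {P}) := by
  obtain ⟨l, a, hl, hli, ha, hPeq⟩ := h
  obtain ⟨l', hl', -, h1, h2⟩ := exists_inverse l hl hli
  intro hcl
  have hcl' := isClusterType_subst l l' hl hl' h1 h2 P hcl
  have hprime : (Ideal.comap (aeval l : S →ₐ[ℂ] S) P).IsPrime := Ideal.IsPrime.comap _
  have hnd : NonDeg (fun _ => 1) a := by
    intro i j hij h0
    apply hij
    apply ha
    linear_combination h0
  refine diagonal_not_cluster hnd (P := Ideal.comap (aeval l : S →ₐ[ℂ] S) P) ?_ hprime hcl'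
  have e0 : aeval l (diag (fun _ => 1)) = ∑ i, l i ^ 3 := by
    simp [diag]
  have e1 : aeval l (diag a) = ∑ i, C (a i) * l i ^ 3 := by
    simp [diag, MvPolynomial.algebraMap_eq]
  apply le_antisymm
  · intro F hF
    have hF' : aeval l F ∈ P := hF
    rw [hPeq, Ideal.mem_span_pair] at hF'
    obtain ⟨u, v, huv⟩ := hF'
    rw [← h2 F, ← huv, map_add, map_mul, map_mul, ← e0, ← e1, h2, h2]
    exact Ideal.add_mem _ (Ideal.mul_mem_left _ _ (Ideal.subset_span (by simp)))
      (Ideal.mul_mem_left _ _ (Ideal.subset_span (by simp)))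
  · rw [Ideal.span_le]
    rintro F (rfl | hF)
    · show aeval l _ ∈ P
      rw [e0, hPeq]
      exact Ideal.subset_span (by simp)
    · rw [Set.mem_singleton_iff] at hF
      subst hF
      show aeval l _ ∈ P
      rw [e1, hPeq]
      exact Ideal.subset_span (by simp)

end Pool.Agent.CLN
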