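import Pool.Agent.CLN.Loc

/-!
# CLN / AmA: forms vanishing on a component of the plane section `h = 0`

`X 0, .., X 3` = `x, y, z, h`.  A form `B` is `B0(x, y, z) + h B''` (`B0` = the terms without `h`), forms.
`line_y`: `y = h = 0`: `B(s, 0, 1, 0) = 0` iff `B0` vanishes for `y = 0` iff `y ∣ B0` (a form in `x, z` which
vanishes at `(s, 1)` is `0`).  `line_x`, `line_z` likewise.
`plane_tri`: `B0` divisible by `x`, `y`, `z`, so by `xyz = cub - h q` (`e0 = e3 = 0`).
-/

set_option autoImplicit false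

namespace Pool.Agent.CLN

open Pool.Agent.CLU

/-- A form is divisible by `h` modulo the cubic. -/
def DivH (F : S) (k : ℕ) (B : S) : Prop :=
  ∃ (B' E : S) (j : ℕ), k = j + 1 ∧ B'.IsHomogeneous j ∧ B = MvPolynomial.X 3 * B' + F * E

private theorem hom_of (B : S) (j : ℕ)
    (h : ∀ m : Fin 4 →₀ ℕ, MvPolynomial.coeff m B ≠ 0 → m.degree = j) : B.IsHomogeneous j := by
  intro d hd
  have h1 := h d hd
  rw [Finsupp.degree_eq_weight_one] at h1
  exact h1

private theorem hom_deg {B : S} {k : ℕ} (hB : B.IsHomogeneous k) {m : Fin 4 →₀ ℕ}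
    (h : MvPolynomial.coeff m B ≠ 0) : m.degree = k := by
  by_contra hne
  exact h (hB.coeff_eq_zero hne)

private theorem hom_div {B : S} {k j : ℕ} (hB : B.IsHomogeneous k) (s : Fin 4 →₀ ℕ)
    (hk : k = j + s.degree) : (B.divMonomial s).IsHomogeneous j := by
  refine hom_of _ _ fun m hm => ?_
  rw [MvPolynomial.coeff_divMonomial] at hm
  have h1 := hom_deg hB hm
  rw [map_add] at h1
  omega

private theorem hom_mod {B : S} {k : ℕ} (hB : B.IsHomogeneous k) (s : Fin 4 →₀ ℕ) :
    (B.modMonomial s).IsHomogeneous k := by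
  refine hom_of _ _ fun m hm => ?_
  by_cases hs : s ≤ m
  · exact absurd (MvPolynomial.coeff_modMonomial_of_le B hs) hm
  · rw [MvPolynomial.coeff_modMonomial_of_not_le B hs] at hm
    exact hom_deg hB hm

private theorem single_le {a : Fin 4} {m : Fin 4 →₀ ℕ} (h : m a ≠ 0) : Finsupp.single a 1 ≤ m := by
  rw [Finsupp.single_le_iff]
  omega

private theorem coeff_line (v : Fin 4 → Polynomial ℂ) (a b c d : Fin 4)
    (hall : ∀ i, i = a ∨ i = b ∨ i = c ∨ i = d)
    (hva : v a = 0) (hvb : v b = 0) (hvc : v c = Polynomial.X) (hvd : v d = 1) (k : ℕ) (B : S) (hB : B.IsHomogeneous k) (h : MvPolynomial.aeval v B = 0)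
    (m : Fin 4 →₀ ℕ) (ha : m a = 0) (hb : m b = 0) : MvPolynomial.coeff m B = 0 := by
  classical
  by_contra hne
  have h1 := congrArg (fun P : Polynomial ℂ => P.coeff (m c)) h
  rw [MvPolynomial.aeval_def, MvPolynomial.eval₂_eq'] at h1
  simp only [Polynomial.finsetSum_coeff, Polynomial.coeff_zero] at h1
  have hval : ∀ m' : Fin 4 →₀ ℕ, m' a = 0 → m' b = 0 → ∏ i, v i ^ m' i = Polynomial.X ^ m' c := by
    intro m' ha' hb'
    rw [Finset.prod_eq_single c]
    · rw [hvc]
    · intro i _ hi
      rcases hall i with h2 | h2 | h2 | h2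
      · rw [h2, ha', pow_zero]
      · rw [h2, hb', pow_zero]
      · exact absurd h2 hi
      · rw [h2, hvd, one_pow]
    · intro hc
      exact absurd (Finset.mem_univ c) hc
  rw [Finset.sum_eq_single m] at h1
  · rw [hval m ha hb] at h1
    change ((Polynomial.C (MvPolynomial.coeff m B)) * Polynomial.X ^ m c).coeff (m c) = 0 at h1
    rw [Polynomial.coeff_C_mul_X_pow, if_pos rfl] at h1
    exact hne h1
  · intro m' hm' hmm
    by_cases h0 : m' a = 0 ∧ m' b = 0
    · rw [hval m' h0.1 h0.2]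
      change ((Polynomial.C (MvPolynomial.coeff m' B)) * Polynomial.X ^ m' c).coeff (m c) = 0
      rw [Polynomial.coeff_C_mul_X_pow, if_neg]
      intro hc
      apply hmm
      have hd1 := hom_deg hB hne
      have hd2 := hom_deg hB (MvPolynomial.mem_support_iff.1 hm')
      have hE : ∀ i, i ≠ d → m' i = m i := by
        intro i hi
        rcases hall i with h2 | h2 | h2 | h2
        · rw [h2, h0.1, ha]
        · rw [h2, h0.2, hb]
        · rw [h2, hc]
        · exact absurd h2 hi
      have e1 : ∑ i, m' i = ∑ i, m i := by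
        rw [← Finsupp.degree_eq_sum, ← Finsupp.degree_eq_sum, hd1, hd2]
      rw [← Finset.add_sum_erase _ _ (Finset.mem_univ d), ← Finset.add_sum_erase _ (fun i => m i) (Finset.mem_univ d),
        Finset.sum_congr rfl (fun i hi => hE i (Finset.ne_of_mem_erase hi))] at e1
      have e2 : m' d = m d := by
        simpa using e1
      ext i
      by_cases hi : i = d
      · rw [hi, e2]
      · exact hE i hi
    · have hz : ∏ i, v i ^ m' i = 0 := by
        by_cases h3 : m' a = 0
        · have h4 : m' b ≠ 0 := fun h5 => h0 ⟨h3, h5⟩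
          refine Finset.prod_eq_zero (Finset.mem_univ b) ?_
          rw [hvb, zero_pow h4]
        · refine Finset.prod_eq_zero (Finset.mem_univ a) ?_
          rw [hva, zero_pow h3]
      rw [hz, mul_zero, Polynomial.coeff_zero]
  · intro hm
    exact absurd (MvPolynomial.mem_support_iff.2 hne) hm

private theorem deg_pos {m : Fin 4 →₀ ℕ} {a : Fin 4} (h : m a ≠ 0) : 1 ≤ m.degree := by
  have h1 := Finsupp.le_degree a m
  omega

private theorem split (a b : Fin 4) (k : ℕ) (B : S) (hB : B.IsHomogeneous k) (hB0 : B ≠ 0)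
    (hz : ∀ m : Fin 4 →₀ ℕ, m a = 0 → m b = 0 → MvPolynomial.coeff m B = 0) :
    ∃ (B' B'' : S) (j : ℕ), k = j + 1 ∧ B'.IsHomogeneous j ∧ B''.IsHomogeneous j ∧
      B = MvPolynomial.X a * B' + MvPolynomial.X b * B'' := by
  have hk : 1 ≤ k := by
    obtain ⟨m, hm⟩ := MvPolynomial.exists_coeff_ne_zero hB0
    rw [← hom_deg hB hm]
    by_cases ha : m a = 0
    · exact deg_pos (a := b) fun hb => hm (hz m ha hb)
    · exact deg_pos ha
  obtain ⟨j, rfl⟩ : ∃ j, k = j + 1 := ⟨k - 1, by omega⟩
  have e1 := MvPolynomial.divMonomial_add_modMonomial_single B a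
  have e2 := MvPolynomial.divMonomial_add_modMonomial_single (B.modMonomial (Finsupp.single a 1)) b
  have e3 : (B.modMonomial (Finsupp.single a 1)).modMonomial (Finsupp.single b 1) = 0 := by
    ext m
    rw [MvPolynomial.coeff_zero]
    by_cases hb : m b = 0
    · have h1 : ¬ Finsupp.single b 1 ≤ m := by
        rw [Finsupp.single_le_iff]
        omega
      rw [MvPolynomial.coeff_modMonomial_of_not_le _ h1]
      by_cases ha : m a = 0
      · have h2 : ¬ Finsupp.single a 1 ≤ m := by
          rw [Finsupp.single_le_iff]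
          omega
        rw [MvPolynomial.coeff_modMonomial_of_not_le _ h2]
        exact hz m ha hb
      · exact MvPolynomial.coeff_modMonomial_of_le _ (single_le ha)
    · exact MvPolynomial.coeff_modMonomial_of_le _ (single_le hb)
  rw [e3, add_zero] at e2
  refine ⟨B.divMonomial (Finsupp.single a 1), (B.modMonomial (Finsupp.single a 1)).divMonomial (Finsupp.single b 1),
    j, rfl, hom_div hB _ ?_, hom_div (hom_mod hB _) _ ?_, ?_⟩
  · rw [Finsupp.degree_single]
  · rw [Finsupp.degree_single]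
  · rw [e2, e1]

theorem line_y (k : ℕ) (B : S) (hB : B.IsHomogeneous k) (hB0 : B ≠ 0)
    (h : MvPolynomial.aeval ![Polynomial.X, 0, 1, (0 : Polynomial ℂ)] B = 0) :
    ∃ (B' B'' : S) (j : ℕ), k = j + 1 ∧ B'.IsHomogeneous j ∧ B''.IsHomogeneous j ∧
      B = MvPolynomial.X 1 * B' + MvPolynomial.X 3 * B'' :=
  split 1 3 k B hB hB0 (coeff_line _ 1 3 0 2 (by decide) rfl rfl rfl rfl k B hB h)

theorem line_x (k : ℕ) (B : S) (hB : B.IsHomogeneous k) (hB0 : B ≠ 0)
    (h : MvPolynomial.aeval ![0, Polynomial.X, 1, (0 : Polynomial ℂ)] B = 0) :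
    ∃ (B' B'' : S) (j : ℕ), k = j + 1 ∧ B'.IsHomogeneous j ∧ B''.IsHomogeneous j ∧
      B = MvPolynomial.X 0 * B' + MvPolynomial.X 3 * B'' :=
  split 0 3 k B hB hB0 (coeff_line _ 0 3 1 2 (by decide) rfl rfl rfl rfl k B hB h)

theorem plane_tri {q : S} (hq : q.IsHomogeneous 2) (k : ℕ) (B : S) (hB : B.IsHomogeneous k)
    (hB0 : B ≠ 0)
    (hx : MvPolynomial.aeval ![0, Polynomial.X, 1, (0 : Polynomial ℂ)] B = 0)
    (hy : MvPolynomial.aeval ![Polynomial.X, 0, 1, (0 : Polynomial ℂ)] B = 0)
    (hz : MvPolynomial.aeval ![1, Polynomial.X, 0, (0 : Polynomial ℂ)] B = 0) :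
    DivH (cub 0 0 q) k B := by
  have cx := coeff_line _ 0 3 1 2 (by decide) rfl rfl rfl rfl k B hB hx
  have cy := coeff_line _ 1 3 0 2 (by decide) rfl rfl rfl rfl k B hB hy
  have cz := coeff_line _ 2 3 1 0 (by decide) rfl rfl rfl rfl k B hB hz
  have hk : 1 ≤ k := by
    obtain ⟨m, hm⟩ := MvPolynomial.exists_coeff_ne_zero hB0
    rw [← hom_deg hB hm]
    by_cases ha : m 0 = 0
    · exact deg_pos (a := 3) fun hb => hm (cx m ha hb)
    · exact deg_pos ha
  obtain ⟨j, rfl⟩ : ∃ j, k = j + 1 := ⟨k - 1, by omega⟩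
  set s : Fin 4 →₀ ℕ := Finsupp.single 0 1 + Finsupp.single 1 1 + Finsupp.single 2 1 with hs
  set R : S := B.modMonomial (Finsupp.single 3 1) with hR
  have e1 := MvPolynomial.divMonomial_add_modMonomial_single B 3
  have e2 := MvPolynomial.divMonomial_add_modMonomial R s
  have hsm : ∀ m : Fin 4 →₀ ℕ, m 0 ≠ 0 → m 1 ≠ 0 → m 2 ≠ 0 → s ≤ m := by
    intro m h0 h1 h2 i
    fin_cases i <;> simp [hs] <;> omega
  have hRc : ∀ m : Fin 4 →₀ ℕ, ¬ s ≤ m → MvPolynomial.coeff m R = 0 := by
    intro m hm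
    by_cases h3 : m 3 = 0
    · have h4 : ¬ Finsupp.single 3 1 ≤ m := by
        rw [Finsupp.single_le_iff]
        omega
      rw [hR, MvPolynomial.coeff_modMonomial_of_not_le _ h4]
      by_cases h0 : m 0 = 0
      · exact cx m h0 h3
      by_cases h1 : m 1 = 0
      · exact cy m h1 h3
      by_cases h2 : m 2 = 0
      · exact cz m h2 h3
      exact absurd (hsm m h0 h1 h2) hm
    · rw [hR]
      exact MvPolynomial.coeff_modMonomial_of_le _ (single_le h3)
  have e3 : R.modMonomial s = 0 := by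
    ext m
    rw [MvPolynomial.coeff_zero]
    by_cases hm : s ≤ m
    · exact MvPolynomial.coeff_modMonomial_of_le _ hm
    · rw [MvPolynomial.coeff_modMonomial_of_not_le _ hm]
      exact hRc m hm
  rw [e3, add_zero] at e2
  have hmon : (MvPolynomial.monomial s (1 : ℂ) : S) = MvPolynomial.X 0 * MvPolynomial.X 1 * MvPolynomial.X 2 := by
    rw [hs, MvPolynomial.X, MvPolynomial.X, MvPolynomial.X, MvPolynomial.monomial_mul, MvPolynomial.monomial_mul,
      one_mul, one_mul]
  have hdeg : s.degree = 3 := by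
    rw [hs, map_add, map_add, Finsupp.degree_single, Finsupp.degree_single, Finsupp.degree_single]
  have hG : (q * R.divMonomial s).IsHomogeneous j := by
    by_cases h3 : j + 1 < 3
    · have h0 : R.divMonomial s = 0 := by
        ext m
        rw [MvPolynomial.coeff_divMonomial, MvPolynomial.coeff_zero]
        by_contra hne
        have h4 := hom_deg (hom_mod hB (Finsupp.single 3 1)) hne
        rw [map_add, hdeg] at h4
        omega
      rw [h0, mul_zero]
      exact MvPolynomial.isHomogeneous_zero _ _ _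
    · obtain ⟨i, hi⟩ : ∃ i, j + 1 = i + 3 := ⟨j + 1 - 3, by omega⟩
      have h4 := hom_div (j := i) (hom_mod hB (Finsupp.single 3 1)) s (by rw [hdeg, hi])
      have h5 := hq.mul h4
      have h6 : 2 + i = j := by omega
      rw [h6] at h5
      exact h5
  refine ⟨B.divMonomial (Finsupp.single 3 1) - q * R.divMonomial s, R.divMonomial s, j, rfl,
    (hom_div hB _ (by rw [Finsupp.degree_single])).sub hG, ?_⟩
  rw [hmon] at e2
  unfold cub
  rw [map_zero, zero_mul, zero_mul]
  calc B = MvPolynomial.X 3 * B.divMonomial (Finsupp.single 3 1) +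
        MvPolynomial.X 0 * MvPolynomial.X 1 * MvPolynomial.X 2 * R.divMonomial s := by rw [e2, e1]
    _ = _ := by ring

end Pool.Agent.CLN
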