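import Pool.Agent.CLN.AmA

/-!
# CLN / AmC: forms vanishing on the conic and the line

`X 0, .., X 3` = `x, y, z, h`.  `B = B0(x, y, z) + h B''` (`B0` = the terms without `h`), forms.
`K = xz + e3 y^2`, parametrised by `(-e3 s^2, s, 1)`: if `B` vanishes on it
then `K ∣ B0` (`z^N B0 = K G + R(y, z)`, `R` a form with `R(s, 1) = 0`, so `R = 0`; `z` prime,
`z ∤ K`), and `y ∣ B0` (`line_y`), `y ∤ K` gives `yK ∣ B0`; `yK = cub - h q`.
-/

set_option autoImplicit false

namespace Pool.Agent.CLN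

open Pool.Agent.CLU

private theorem amc_hc {F E : S} {m : ℕ} (hF : F.IsHomogeneous m) (k : ℕ) :
    MvPolynomial.homogeneousComponent k (F * E) =
      if m ≤ k then F * MvPolynomial.homogeneousComponent (k - m) E else 0 := by
  conv_lhs => rw [← MvPolynomial.sum_homogeneousComponent E, Finset.mul_sum, map_sum]
  have h1 : ∀ i, MvPolynomial.homogeneousComponent k
      (F * MvPolynomial.homogeneousComponent i E) =
      if k = m + i then F * MvPolynomial.homogeneousComponent i E else 0 := fun i =>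
    MvPolynomial.homogeneousComponent_of_mem
      (hF.mul (MvPolynomial.homogeneousComponent_isHomogeneous i E))
  simp only [h1]
  split_ifs with hk
  · obtain ⟨n, rfl⟩ := Nat.exists_eq_add_of_le hk
    simp only [Nat.add_sub_cancel_left]
    by_cases hn : n ∈ Finset.range (E.totalDegree + 1)
    · rw [Finset.sum_eq_single_of_mem n hn]
      · simp
      · intro b _ hb
        rw [if_neg]
        omega
    · rw [MvPolynomial.homogeneousComponent_eq_zero n E (by
        rw [Finset.mem_range] at hn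
        omega), mul_zero]
      refine Finset.sum_eq_zero fun i hi => ?_
      rw [if_neg]
      rintro h
      exact hn (by
        have : i = n := by omega
        rwa [this] at hi)
  · refine Finset.sum_eq_zero fun i _ => ?_
    rw [if_neg]
    omega

private theorem amc_conic {e3 : ℂ} (h3 : e3 ≠ 0) (k : ℕ) (B : S) (hB : B.IsHomogeneous k)
    (hQ : MvPolynomial.aeval ![-(Polynomial.C e3 * Polynomial.X ^ 2), Polynomial.X, 1,
      (0 : Polynomial ℂ)] B = 0) :
    ∃ G H : S, B = (MvPolynomial.X 0 * MvPolynomial.X 2 +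
      MvPolynomial.C e3 * MvPolynomial.X 1 ^ 2) * G + MvPolynomial.X 3 * H := by
  set f : Fin 4 → Polynomial ℂ := ![-(Polynomial.C e3 * Polynomial.X ^ 2), Polynomial.X, 1,
      (0 : Polynomial ℂ)] with hf
  set K : S := MvPolynomial.X 0 * MvPolynomial.X 2 +
      MvPolynomial.C e3 * MvPolynomial.X 1 ^ 2 with hK
  let rep : ℕ → S := fun m => MvPolynomial.C (((-e3)⁻¹) ^ (m / 2)) *
    MvPolynomial.X 0 ^ (m / 2) * MvPolynomial.X 1 ^ (m % 2) *
    MvPolynomial.X 2 ^ (k - m / 2 - m % 2)
  let T : Polynomial ℂ →ₗ[ℂ] S := (Polynomial.basisMonomials ℂ).constr ℂ rep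
  have hT : ∀ (m : ℕ) (c : ℂ), T (Polynomial.monomial m c) = c • rep m := by
    intro m c
    have h1 : Polynomial.monomial m c = c • (Polynomial.basisMonomials ℂ m) := by
      rw [Polynomial.coe_basisMonomials, Polynomial.smul_monomial, smul_eq_mul, mul_one]
    rw [h1, map_smul]
    congr 1
    exact (Polynomial.basisMonomials ℂ).constr_basis ℂ rep m
  set I : Ideal S := Ideal.span {K, MvPolynomial.X 3} with hI
  have hKI : K ∈ I := Ideal.subset_span (by simp)
  have h3I : (MvPolynomial.X 3 : S) ∈ I := Ideal.subset_span (by simp)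
  have hmon : ∀ (d : Fin 4 →₀ ℕ), d.degree = k → ∀ c : ℂ,
      MvPolynomial.monomial d c - T (MvPolynomial.aeval f (MvPolynomial.monomial d c)) ∈ I := by
    intro d hd c
    have hd' : d 0 + d 1 + d 2 + d 3 = k := by
      rw [← hd, Finsupp.degree_eq_sum, Fin.sum_univ_four]
    rw [MvPolynomial.aeval_monomial, Finsupp.prod_fintype _ _ (fun i => pow_zero _),
      Fin.prod_univ_four, MvPolynomial.monomial_eq, Finsupp.prod_fintype _ _ (fun i => pow_zero _),
      Fin.prod_univ_four]
    have f0 : f 0 = -(Polynomial.C e3 * Polynomial.X ^ 2) := rfl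
    have f1 : f 1 = Polynomial.X := rfl
    have f2 : f 2 = 1 := rfl
    have f3 : f 3 = 0 := rfl
    rw [f0, f1, f2, f3]
    rcases Nat.eq_zero_or_pos (d 3) with h0 | h0
    · rw [h0, pow_zero, pow_zero, mul_one, mul_one, one_pow, mul_one]
      have h5 : (algebraMap ℂ (Polynomial ℂ)) c *
          ((-(Polynomial.C e3 * Polynomial.X ^ 2)) ^ d 0 * Polynomial.X ^ d 1) =
          Polynomial.monomial (2 * d 0 + d 1) (c * (-e3) ^ d 0) := by
        rw [← Polynomial.C_mul_X_pow_eq_monomial, Polynomial.algebraMap_eq, ← neg_mul,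
          ← Polynomial.C_neg, mul_pow, Polynomial.C_mul, Polynomial.C_pow]
        ring
      rw [h5, hT]
      obtain ⟨i, r, hr, hir⟩ : ∃ i r, r < 2 ∧ d 1 = 2 * i + r :=
        ⟨d 1 / 2, d 1 % 2, Nat.mod_lt _ two_pos, (Nat.div_add_mod _ _).symm⟩
      have e1 : (2 * d 0 + d 1) / 2 = d 0 + i := by omega
      have e2 : (2 * d 0 + d 1) % 2 = r := by omega
      have e4 : k - (d 0 + i) - r = i + d 2 := by omega
      simp only [rep, e1, e2, e4]
      obtain ⟨Q, hQ'⟩ := sub_dvd_pow_sub_pow (MvPolynomial.X 1 ^ 2 : S)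
        (MvPolynomial.C ((-e3)⁻¹) * (MvPolynomial.X 0 * MvPolynomial.X 2)) i
      have h6 : (MvPolynomial.X 1 ^ 2 : S) -
          MvPolynomial.C ((-e3)⁻¹) * (MvPolynomial.X 0 * MvPolynomial.X 2) =
          MvPolynomial.C e3⁻¹ * K := by
        have h7 : (MvPolynomial.C e3⁻¹ : S) * MvPolynomial.C e3 = 1 := by
          rw [← MvPolynomial.C_mul, inv_mul_cancel₀ h3, MvPolynomial.C_1]
        rw [hK, inv_neg, MvPolynomial.C_neg]
        linear_combination (-(MvPolynomial.X 1 ^ 2 : S)) * h7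
      rw [h6] at hQ'
      have h8 : MvPolynomial.C c * (MvPolynomial.X 0 ^ d 0 * MvPolynomial.X 1 ^ d 1 *
          MvPolynomial.X 2 ^ d 2) -
          (c * (-e3) ^ d 0) • (MvPolynomial.C ((-e3)⁻¹ ^ (d 0 + i)) * MvPolynomial.X 0 ^ (d 0 + i) *
            MvPolynomial.X 1 ^ r * MvPolynomial.X 2 ^ (i + d 2)) =
          MvPolynomial.C c * MvPolynomial.X 0 ^ d 0 * MvPolynomial.X 1 ^ r *
            MvPolynomial.X 2 ^ d 2 * MvPolynomial.C e3⁻¹ * Q * K := by
        have h9 : (c * (-e3) ^ d 0) * (-e3)⁻¹ ^ (d 0 + i) = c * (-e3)⁻¹ ^ i := by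
          rw [pow_add, ← mul_assoc, mul_assoc c, ← mul_pow,
            mul_inv_cancel₀ (neg_ne_zero.mpr h3), one_pow, mul_one]
        have h9' : (MvPolynomial.C (c * (-e3) ^ d 0) : S) *
            MvPolynomial.C ((-e3)⁻¹ ^ (d 0 + i)) =
            MvPolynomial.C c * MvPolynomial.C ((-e3)⁻¹) ^ i := by
          rw [← MvPolynomial.C_mul, h9, MvPolynomial.C_mul, MvPolynomial.C_pow]
        rw [MvPolynomial.smul_eq_C_mul, hir]
        have h10 : (MvPolynomial.X 1 ^ (2 * i + r) : S) =
            (MvPolynomial.X 1 ^ 2) ^ i * MvPolynomial.X 1 ^ r := by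
          rw [pow_add, pow_mul]
        rw [h10]
        rw [mul_pow, mul_pow] at hQ'
        linear_combination (MvPolynomial.C c * MvPolynomial.X 0 ^ d 0 * MvPolynomial.X 1 ^ r *
            MvPolynomial.X 2 ^ d 2 : S) * hQ' -
            (MvPolynomial.X 0 ^ d 0 * MvPolynomial.X 0 ^ i * MvPolynomial.X 1 ^ r *
              MvPolynomial.X 2 ^ i * MvPolynomial.X 2 ^ d 2 : S) * h9'
      rw [h8]
      exact I.mul_mem_left _ hKI
    · rw [zero_pow h0.ne', mul_zero, mul_zero, T.map_zero, sub_zero]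
      obtain ⟨n, hn⟩ := Nat.exists_eq_add_of_le' h0
      rw [hn, pow_succ, ← mul_assoc, ← mul_assoc]
      exact I.mul_mem_left _ h3I
  have hBI : B ∈ I := by
    have h1 : B - T (MvPolynomial.aeval f B) = ∑ d ∈ B.support,
        (MvPolynomial.monomial d (B.coeff d) -
          T (MvPolynomial.aeval f (MvPolynomial.monomial d (B.coeff d)))) := by
      rw [Finset.sum_sub_distrib, ← map_sum, ← map_sum, MvPolynomial.support_sum_monomial_coeff]
    rw [hQ, map_zero, sub_zero] at h1
    rw [h1]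
    refine I.sum_mem fun d hd => hmon d ?_ _
    have := hB (MvPolynomial.mem_support_iff.mp hd)
    rw [Finsupp.degree_eq_weight_one]
    exact this
  rw [hI, Ideal.mem_span_pair] at hBI
  obtain ⟨a, b, hab⟩ := hBI
  exact ⟨a, b, by rw [← hab]; ring⟩

theorem plane_conic {e3 : ℂ} {q : S} (h3 : e3 ≠ 0) (hq : q.IsHomogeneous 2) (k : ℕ) (B : S)
    (hB : B.IsHomogeneous k) (hB0 : B ≠ 0)
    (hy : MvPolynomial.aeval ![Polynomial.X, 0, 1, (0 : Polynomial ℂ)] B = 0)
    (hQ : MvPolynomial.aeval ![-(Polynomial.C e3 * Polynomial.X ^ 2), Polynomial.X, 1,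
      (0 : Polynomial ℂ)] B = 0) :
    DivH (cub 0 e3 q) k B := by
  obtain ⟨B', B'', j, hkj, hB', hB'', hBy⟩ := line_y k B hB hB0 hy
  have hcub : (cub 0 e3 q).IsHomogeneous 3 := by
    have a1 : (MvPolynomial.X 0 * MvPolynomial.X 1 * MvPolynomial.X 2 : S).IsHomogeneous 3 :=
      ((MvPolynomial.isHomogeneous_X _ _).mul (MvPolynomial.isHomogeneous_X _ _)).mul
        (MvPolynomial.isHomogeneous_X _ _)
    have a2 : (MvPolynomial.C (0:ℂ) * MvPolynomial.X 0 ^ 3 : S).IsHomogeneous 3 := by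
      simpa using (MvPolynomial.isHomogeneous_zero _ _ 3)
    have a3 : (MvPolynomial.C e3 * MvPolynomial.X 1 ^ 3 : S).IsHomogeneous 3 := by
      simpa using (MvPolynomial.isHomogeneous_C _ e3).mul
        ((MvPolynomial.isHomogeneous_X ℂ (1 : Fin 4)).pow 3)
    have a4 : (MvPolynomial.X 3 * q : S).IsHomogeneous 3 := by
      have := (MvPolynomial.isHomogeneous_X ℂ (3 : Fin 4)).mul hq
      simpa using this
    exact ((a1.add a2).add a3).add a4
  have hQ' : MvPolynomial.aeval ![-(Polynomial.C e3 * Polynomial.X ^ 2), Polynomial.X, 1,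
      (0 : Polynomial ℂ)] B' = 0 := by
    rw [hBy] at hQ
    simp only [map_add, map_mul, MvPolynomial.aeval_X] at hQ
    have e1 : (![-(Polynomial.C e3 * Polynomial.X ^ 2), Polynomial.X, 1,
      (0 : Polynomial ℂ)] : Fin 4 → Polynomial ℂ) 1 = Polynomial.X := rfl
    have e2 : (![-(Polynomial.C e3 * Polynomial.X ^ 2), Polynomial.X, 1,
      (0 : Polynomial ℂ)] : Fin 4 → Polynomial ℂ) 3 = 0 := rfl
    rw [e1, e2, zero_mul, add_zero] at hQ
    exact (mul_eq_zero.mp hQ).resolve_left Polynomial.X_ne_zero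
  obtain ⟨G, H, hGH⟩ := amc_conic h3 j B' hB' hQ'
  have hfin : B = cub 0 e3 q * G +
      MvPolynomial.X 3 * (B'' + MvPolynomial.X 1 * H - q * G) := by
    rw [hBy, hGH, cub, MvPolynomial.C_0]
    ring
  have hk1 : 1 ≤ k := by omega
  have hc := congrArg (MvPolynomial.homogeneousComponent k) hfin
  rw [MvPolynomial.homogeneousComponent_eq_self hB, map_add, amc_hc hcub,
    amc_hc (MvPolynomial.isHomogeneous_X ℂ (3 : Fin 4)), if_pos hk1] at hc
  refine ⟨MvPolynomial.homogeneousComponent (k - 1) (B'' + MvPolynomial.X 1 * H - q * G),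
    if 3 ≤ k then MvPolynomial.homogeneousComponent (k - 3) G else 0, j, hkj, ?_, ?_⟩
  · have : j = k - 1 := by omega
    rw [this]
    exact MvPolynomial.homogeneousComponent_isHomogeneous _ _
  · rw [hc]
    split_ifs with hk3
    · ring
    · ring

end Pool.Agent.CLN
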