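import Pool.Agent.CLN.AmA

/-!
# CLN / AmN: forms vanishing on the nodal plane section

`X 0, .., X 3` = `x, y, z, h`.  `B = B0(x, y, z) + h B''` (`B0` = the terms without `h`), forms.
`D = xyz + e0 x^3 + e3 y^3` (`e0, e3 ≠ 0`), parametrised by
`(s^2, s, -(e0 s^3 + e3))`.  If `B` vanishes on `D` then `B0 = D G`: modulo `D` one has
`xyz = w := -(e0 x^3 + e3 y^3)`, so `(xy)^k B0 = B(x^2 y, x y^2, xyz, 0)` is congruent to
`R = B(x^2 y, x y^2, w, 0)`, and `R = y^(3 k) B(s^2, s, -(e0 s^3 + e3), 0) = 0` with `s = x / y`.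
`x ∤ D`, `y ∤ D`, `x, y` prime, so `D ∣ B0`.
Then `B = (cub - h q) G + h B''`;
`B' := B'' - q G`, homogeneous components of degree `k - 1`.
-/

set_option autoImplicit false

namespace Pool.Agent.CLN

open Pool.Agent.CLU

private theorem aeval_mul_hom {R : Type*} [CommRing R] [Algebra ℂ R] {B : S} {k : ℕ}
    (hB : B.IsHomogeneous k) (c : R) (g : Fin 4 → R) :
    MvPolynomial.aeval (fun i => c * g i) B = c ^ k * MvPolynomial.aeval g B := by
  rw [MvPolynomial.aeval_def, MvPolynomial.aeval_def, MvPolynomial.eval₂_eq',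
    MvPolynomial.eval₂_eq', Finset.mul_sum]
  refine Finset.sum_congr rfl fun m hm => ?_
  have h2 : ∑ i, m i = k := by
    have h3 := hB (MvPolynomial.mem_support_iff.1 hm)
    rw [← h3, Finsupp.weight_apply, Finsupp.sum_fintype _ _ (by simp)]
    simp
  have h3 : ∏ i, (c * g i) ^ m i = c ^ k * ∏ i, g i ^ m i := by
    rw [← h2, ← Finset.prod_pow_eq_pow_sum, ← Finset.prod_mul_distrib]
    exact Finset.prod_congr rfl fun i _ => mul_pow _ _ _
  rw [h3]
  ring

private theorem dvd_aeval_sub (D : S) (f g : Fin 4 → S) (h : ∀ i, D ∣ f i - g i) (B : S) :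
    D ∣ MvPolynomial.aeval f B - MvPolynomial.aeval g B := by
  induction B using MvPolynomial.induction_on with
  | C a => simp
  | add p q hp hq =>
    have e : MvPolynomial.aeval f (p + q) - MvPolynomial.aeval g (p + q) =
        (MvPolynomial.aeval f p - MvPolynomial.aeval g p) +
          (MvPolynomial.aeval f q - MvPolynomial.aeval g q) := by
      rw [map_add, map_add]; ring
    rw [e]
    exact dvd_add hp hq
  | mul_X p i hp =>
    have e : MvPolynomial.aeval f (p * MvPolynomial.X i) -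
        MvPolynomial.aeval g (p * MvPolynomial.X i) =
        (MvPolynomial.aeval f p - MvPolynomial.aeval g p) * f i +
          MvPolynomial.aeval g p * (f i - g i) := by
      rw [map_mul, map_mul, MvPolynomial.aeval_X, MvPolynomial.aeval_X]; ring
    rw [e]
    exact dvd_add (Dvd.dvd.mul_right hp _) (Dvd.dvd.mul_left (h i) _)

private theorem hcomp_mul_left {a : S} {i : ℕ} (ha : a.IsHomogeneous i) (b : S) (n : ℕ) :
    ∃ c : S, MvPolynomial.homogeneousComponent n (a * b) = a * c ∧
      (i ≤ n → c = MvPolynomial.homogeneousComponent (n - i) b) := by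
  let _ : GradedRing (MvPolynomial.homogeneousSubmodule (Fin 4) ℂ) := MvPolynomial.gradedAlgebra
  have e : ∀ (φ : S) (j : ℕ),
      (DirectSum.decompose (MvPolynomial.homogeneousSubmodule (Fin 4) ℂ) φ j : S) =
        MvPolynomial.homogeneousComponent j φ := fun φ j =>
    MvPolynomial.decomposition.decompose'_apply φ j
  by_cases hin : i ≤ n
  · refine ⟨MvPolynomial.homogeneousComponent (n - i) b, ?_, fun _ => rfl⟩
    rw [← e, ← e]
    exact DirectSum.coe_decompose_mul_of_left_mem_of_le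
      (MvPolynomial.homogeneousSubmodule (Fin 4) ℂ) ha hin
  · refine ⟨0, ?_, fun h => absurd h hin⟩
    rw [← e, mul_zero]
    exact DirectSum.coe_decompose_mul_of_left_mem_of_not_le
      (MvPolynomial.homogeneousSubmodule (Fin 4) ℂ) ha hin

theorem plane_nodal {e0 e3 : ℂ} {q : S} (h0 : e0 ≠ 0) (h3 : e3 ≠ 0) (hq : q.IsHomogeneous 2)
    (k : ℕ) (B : S) (hB : B.IsHomogeneous k) (hB0 : B ≠ 0)
    (h : MvPolynomial.aeval ![Polynomial.X ^ 2, Polynomial.X,
      -(Polynomial.C e0 * Polynomial.X ^ 3 + Polynomial.C e3), (0 : Polynomial ℂ)] B = 0) :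
    DivH (cub e0 e3 q) k B := by
  -- the cubic form
  set w : S := -(MvPolynomial.C e0 * MvPolynomial.X 0 ^ 3 +
    MvPolynomial.C e3 * MvPolynomial.X 1 ^ 3) with hw
  set D : S := MvPolynomial.X 0 * MvPolynomial.X 1 * MvPolynomial.X 2 - w with hD
  have hcubD : cub e0 e3 q = D + MvPolynomial.X 3 * q := by
    rw [hD, hw, cub]; ring
  -- the remainder is zero
  have hR : MvPolynomial.aeval (![MvPolynomial.X 0 ^ 2 * MvPolynomial.X 1,
      MvPolynomial.X 0 * MvPolynomial.X 1 ^ 2, w, 0] : Fin 4 → S) B = 0 := by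
    apply IsFractionRing.injective S L
    rw [map_zero, ← MvPolynomial.aeval_algebraMap_apply]
    set x : L := algebraMap S L (MvPolynomial.X 0) with hx
    set y : L := algebraMap S L (MvPolynomial.X 1) with hy
    have hy0 : y ≠ 0 := by
      rw [hy]
      simp
    set s : L := x / y with hs
    let g : Fin 4 → Polynomial ℂ := ![Polynomial.X ^ 2, Polynomial.X,
      -(Polynomial.C e0 * Polynomial.X ^ 3 + Polynomial.C e3), 0]
    have e1 : (fun i => algebraMap S L ((![MvPolynomial.X 0 ^ 2 * MvPolynomial.X 1,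
        MvPolynomial.X 0 * MvPolynomial.X 1 ^ 2, w, 0] : Fin 4 → S) i)) =
        fun i => y ^ 3 * Polynomial.aeval s (g i) := by
      have hC : ∀ c : ℂ, algebraMap S L (MvPolynomial.C c) = algebraMap ℂ L c := by
        intro c
        rw [IsScalarTower.algebraMap_apply ℂ S L]; rfl
      funext i
      fin_cases i
      · simp [g, hs, ← hx, ← hy]
        field_simp
      · simp [g, hs, ← hx, ← hy]
        field_simp
      · simp [g, hs, ← hx, ← hy, hw, hC]
        field_simp
      · simp [g]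
    have e2 : MvPolynomial.aeval (fun i => Polynomial.aeval s (g i)) B =
        Polynomial.aeval s (MvPolynomial.aeval g B) := by
      rw [← AlgHom.comp_apply]
      congr 1
      ext i
      simp
    have e3 : (algebraMap S L ∘ (![MvPolynomial.X 0 ^ 2 * MvPolynomial.X 1,
        MvPolynomial.X 0 * MvPolynomial.X 1 ^ 2, w, 0] : Fin 4 → S)) =
        fun i => y ^ 3 * Polynomial.aeval s (g i) := e1
    rw [e3, aeval_mul_hom hB, e2, h, map_zero, mul_zero]
  -- the part without `X 3`
  set B0 : S := MvPolynomial.aeval (![MvPolynomial.X 0, MvPolynomial.X 1, MvPolynomial.X 2, 0] :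
    Fin 4 → S) B with hB0'
  have hdvd : D ∣ (MvPolynomial.X 0 * MvPolynomial.X 1) ^ k * B0 := by
    rw [hB0', ← aeval_mul_hom hB]
    have := dvd_aeval_sub D (fun i => MvPolynomial.X 0 * MvPolynomial.X 1 *
      (![MvPolynomial.X 0, MvPolynomial.X 1, MvPolynomial.X 2, 0] : Fin 4 → S) i)
      (![MvPolynomial.X 0 ^ 2 * MvPolynomial.X 1,
        MvPolynomial.X 0 * MvPolynomial.X 1 ^ 2, w, 0] : Fin 4 → S) ?_ B
    · rwa [hR, sub_zero] at this
    · intro i
      fin_cases i
      · refine ⟨0, ?_⟩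
        simp; ring
      · refine ⟨0, ?_⟩
        simp; ring
      · refine ⟨1, ?_⟩
        simp [hD]
      · refine ⟨0, ?_⟩
        simp
  have hrel : ∀ i : Fin 4, ¬ MvPolynomial.X i ∣ D → IsRelPrime D (MvPolynomial.X i) := by
    intro i hi
    exact ((MvPolynomial.X_prime (i := i)).irreducible.isRelPrime_iff_not_dvd.2 hi).symm
  have hx : IsRelPrime D (MvPolynomial.X 0) := by
    refine hrel 0 ?_
    rintro ⟨c, hc⟩
    have := congrArg (MvPolynomial.eval ![0, 1, 0, 0]) hc
    simp [hD, hw] at this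
    exact h3 this
  have hy : IsRelPrime D (MvPolynomial.X 1) := by
    refine hrel 1 ?_
    rintro ⟨c, hc⟩
    have := congrArg (MvPolynomial.eval ![1, 0, 0, 0]) hc
    simp [hD, hw] at this
    exact h0 this
  obtain ⟨G, hG⟩ : D ∣ B0 := ((hx.mul_right hy).pow_right).dvd_of_dvd_mul_left hdvd
  -- the terms with `X 3`
  obtain ⟨M, hM⟩ : (MvPolynomial.X 3 : S) ∣ B - B0 := by
    have := dvd_aeval_sub (MvPolynomial.X 3) MvPolynomial.X
      (![MvPolynomial.X 0, MvPolynomial.X 1, MvPolynomial.X 2, 0] : Fin 4 → S) ?_ B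
    · rwa [MvPolynomial.aeval_X_left_apply] at this
    · intro i
      fin_cases i
      · simp
      · simp
      · simp
      · simp
  have hk : k ≠ 0 := by
    rintro rfl
    rw [← MvPolynomial.totalDegree_zero_iff_isHomogeneous,
      MvPolynomial.totalDegree_eq_zero_iff_eq_C] at hB
    rw [hB, MvPolynomial.aeval_C] at h
    apply hB0
    rw [hB]
    rw [map_eq_zero_iff _ (algebraMap ℂ (Polynomial ℂ)).injective] at h
    rw [h, map_zero]
  have hcub : (cub e0 e3 q).IsHomogeneous 3 := by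
    unfold cub
    refine ((((MvPolynomial.isHomogeneous_X ℂ 0).mul (MvPolynomial.isHomogeneous_X ℂ 1)).mul
      (MvPolynomial.isHomogeneous_X ℂ 2)).add
      (MvPolynomial.isHomogeneous_C_mul_X_pow e0 0 3)).add
      (MvPolynomial.isHomogeneous_C_mul_X_pow e3 1 3) |>.add ?_
    exact (MvPolynomial.isHomogeneous_X ℂ 3).mul hq
  have hBe : B = MvPolynomial.X 3 * (M - q * G) + cub e0 e3 q * G := by
    have e1 : B = B0 + MvPolynomial.X 3 * M := by rw [← hM]; ring
    rw [e1, hG, hcubD]; ring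
  obtain ⟨j, rfl⟩ := Nat.exists_eq_succ_of_ne_zero hk
  obtain ⟨c1, hc1, hc1'⟩ := hcomp_mul_left (MvPolynomial.isHomogeneous_X ℂ 3) (M - q * G) (j + 1)
  obtain ⟨c2, hc2, -⟩ := hcomp_mul_left hcub G (j + 1)
  refine ⟨c1, c2, j, rfl, ?_, ?_⟩
  · rw [hc1' (by omega)]
    exact MvPolynomial.homogeneousComponent_isHomogeneous _ _
  · rw [← hc1, ← hc2, ← map_add, ← hBe, MvPolynomial.homogeneousComponent_eq_self hB]

end Pool.Agent.CLN
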