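import Pool.Agent.CLU.Defs

/-!
# CLN / Rev: restriction of a form to a parametrised rational curve, reversal

Let `g_0, .., g_3` be binary forms of degree `e` in `(s, u)`, `g_i = ∑_j g_ij s^j u^(e-j)`.  For a form
`B` of degree `k`, `B(g_0, .., g_3)` is a binary form of degree `e k`; `P i = g_i(X, 1)`,
`P' i = g_i(1, X)` (so `P' i` is `reflect e (P i)`).  The coefficient `n` of `B(P)` is the coefficient
`e k - n` of `B(P')`.  Proof: `Polynomial.reflect`: for `natDegree p ≤ a`, `natDegree p' ≤ b`: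
`reflect (a + b) (p p') = reflect a p * reflect b p'` (`Polynomial.reflect_mul`), additive; so
`reflect (e k) (B(P)) = B(P')` for monomials `B` of degree `k`.
-/

set_option autoImplicit false

namespace Pool.Agent.CLN

open Pool.Agent.CLU

/-- `p` has degree at most `N` and `p'` is its reflection -/
def RevOf (N : ℕ) (p p' : Polynomial ℂ) : Prop := p.natDegree ≤ N ∧ p' = p.reflect N

theorem RevOf.one : RevOf 0 1 1 := by
  refine ⟨by simp, ?_⟩
  ext i
  rw [Polynomial.coeff_reflect]
  rcases Nat.eq_zero_or_pos i with h | h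
  · rw [h]
    simp
  · rw [Polynomial.revAt_eq_self_of_lt h]

theorem RevOf.mul {a b : ℕ} {p p' q q' : Polynomial ℂ} (h : RevOf a p p') (h' : RevOf b q q') :
    RevOf (a + b) (p * q) (p' * q') := by
  refine ⟨Polynomial.natDegree_mul_le.trans (add_le_add h.1 h'.1), ?_⟩
  rw [h.2, h'.2, Polynomial.reflect_mul p q h.1 h'.1]

theorem RevOf.pow {a : ℕ} {p p' : Polynomial ℂ} (h : RevOf a p p') (n : ℕ) :
    RevOf (a * n) (p ^ n) (p' ^ n) := by
  induction n with
  | zero =>
    rw [pow_zero, pow_zero, Nat.mul_zero]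
    exact RevOf.one
  | succ n ih =>
    rw [pow_succ, pow_succ, Nat.mul_succ]
    exact ih.mul h

theorem RevOf.prod (e : ℕ) (P P' : Fin 4 → Polynomial ℂ) (h : ∀ i, RevOf e (P i) (P' i))
    (d : Fin 4 → ℕ) (s : Finset (Fin 4)) :
    RevOf (e * ∑ i ∈ s, d i) (∏ i ∈ s, P i ^ d i) (∏ i ∈ s, P' i ^ d i) := by
  classical
  induction s using Finset.induction_on with
  | empty =>
    rw [Finset.sum_empty, Finset.prod_empty, Finset.prod_empty, Nat.mul_zero]
    exact RevOf.one
  | insert a s ha ih =>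
    rw [Finset.sum_insert ha, Finset.prod_insert ha, Finset.prod_insert ha, Nat.mul_add]
    exact ((h a).pow (d a)).mul ih

theorem RevOf.C_mul {N : ℕ} {p p' : Polynomial ℂ} (h : RevOf N p p') (c : ℂ) :
    RevOf N (Polynomial.C c * p) (Polynomial.C c * p') := by
  refine ⟨(Polynomial.natDegree_C_mul_le c p).trans h.1, ?_⟩
  rw [h.2, Polynomial.reflect_C_mul]

theorem RevOf.add {N : ℕ} {p p' q q' : Polynomial ℂ} (h : RevOf N p p') (h' : RevOf N q q') :
    RevOf N (p + q) (p' + q') := by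
  refine ⟨(Polynomial.natDegree_add_le p q).trans (max_le h.1 h'.1), ?_⟩
  rw [h.2, h'.2]
  ext i
  rw [Polynomial.coeff_add, Polynomial.coeff_reflect, Polynomial.coeff_reflect,
    Polynomial.coeff_reflect, Polynomial.coeff_add]

theorem RevOf.zero (N : ℕ) : RevOf N 0 0 := by
  refine ⟨by simp, ?_⟩
  ext i
  rw [Polynomial.coeff_reflect, Polynomial.coeff_zero, Polynomial.coeff_zero]

theorem RevOf.sum {ι : Type*} {N : ℕ} (s : Finset ι) (f f' : ι → Polynomial ℂ)
    (h : ∀ i ∈ s, RevOf N (f i) (f' i)) : RevOf N (∑ i ∈ s, f i) (∑ i ∈ s, f' i) := by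
  classical
  induction s using Finset.induction_on with
  | empty =>
    rw [Finset.sum_empty, Finset.sum_empty]
    exact RevOf.zero N
  | insert a s ha ih =>
    rw [Finset.sum_insert ha, Finset.sum_insert ha]
    exact (h a (Finset.mem_insert_self a s)).add
      (ih fun i hi => h i (Finset.mem_insert_of_mem hi))

theorem aeval_mono (P : Fin 4 → Polynomial ℂ) (d : Fin 4 →₀ ℕ) (c : ℂ) :
    MvPolynomial.aeval P (MvPolynomial.monomial d c) =
      Polynomial.C c * ∏ i, P i ^ d i := by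
  rw [MvPolynomial.aeval_monomial, Finsupp.prod_fintype _ _ (fun i => pow_zero _)]
  rfl

theorem revOf_aeval (e k : ℕ) (P P' : Fin 4 → Polynomial ℂ) (h : ∀ i, RevOf e (P i) (P' i))
    (B : S) (hB : B.IsHomogeneous k) :
    RevOf (e * k) (MvPolynomial.aeval P B) (MvPolynomial.aeval P' B) := by
  rw [← MvPolynomial.support_sum_monomial_coeff B, map_sum, map_sum]
  refine RevOf.sum _ _ _ fun d hd => ?_
  rw [aeval_mono, aeval_mono]
  refine RevOf.C_mul ?_ _
  have hk : k = ∑ i, d i := by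
    rw [hB.degree_eq_sum_deg_support hd]
    exact Finset.sum_subset (Finset.subset_univ _) (fun i _ hi => Finsupp.notMem_support_iff.1 hi)
  rw [hk]
  exact RevOf.prod e P P' h d Finset.univ

theorem rev_coeff (e k : ℕ) (P P' : Fin 4 → Polynomial ℂ) (hP : ∀ i, (P i).natDegree ≤ e)
    (hP' : ∀ i, P' i = (P i).reflect e) (B : S) (hB : B.IsHomogeneous k) (n : ℕ)
    (hn : (MvPolynomial.aeval P B).coeff n ≠ 0) :
    n ≤ e * k ∧ (MvPolynomial.aeval P' B).coeff (e * k - n) ≠ 0 := by
  obtain ⟨h1, h2⟩ := revOf_aeval e k P P' (fun i => ⟨hP i, hP' i⟩) B hB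
  have h3 : n ≤ e * k := (Polynomial.le_natDegree_of_ne_zero hn).trans h1
  refine ⟨h3, ?_⟩
  rw [h2, Polynomial.coeff_reflect, Polynomial.revAt_le (Nat.sub_le _ _), Nat.sub_sub_self h3]
  exact hn

/-- The power series version of `aeval`. -/
theorem aeval_coe (P : Fin 4 → Polynomial ℂ) (B : S) :
    MvPolynomial.aeval (fun i => ((P i : Polynomial ℂ) : PowerSeries ℂ)) B =
      ((MvPolynomial.aeval P B : Polynomial ℂ) : PowerSeries ℂ) := by
  induction B using MvPolynomial.induction_on with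
  | C c =>
    rw [MvPolynomial.aeval_C, MvPolynomial.aeval_C, Polynomial.algebraMap_apply,
      Polynomial.coe_C]
    rfl
  | add p q hp hq =>
    rw [map_add, map_add, Polynomial.coe_add, hp, hq]
  | mul_X p i hp =>
    rw [map_mul, map_mul, Polynomial.coe_mul, hp, MvPolynomial.aeval_X, MvPolynomial.aeval_X]

/-- A nonzero coefficient `n` shows that `X^(n+1)` does not divide. -/
theorem not_X_pow_dvd (p : Polynomial ℂ) (n : ℕ) (hn : p.coeff n ≠ 0) :
    ¬ PowerSeries.X ^ (n + 1) ∣ (p : PowerSeries ℂ) := by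
  rw [PowerSeries.X_pow_dvd_iff]
  intro h
  apply hn
  have h1 := h n (Nat.lt_succ_self n)
  rwa [Polynomial.coeff_coe] at h1

theorem coeff_eq_zero_of_X_pow_dvd (p : Polynomial ℂ) (m n : ℕ)
    (h : Polynomial.X ^ m ∣ p) (hn : n < m) : p.coeff n = 0 :=
  Polynomial.X_pow_dvd_iff.1 h n hn

end Pool.Agent.CLN
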