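import Pool.Agent.CLN.LocForm
import Pool.Agent.CLN.Rev
import Pool.Agent.CLN.AmN

/-!
# CLN / Amid: the nodal plane section, balanced orders

Strong induction on `k`.  `D` is parametrised by `P = (X^2, X, -(e0 X^3 + e3), 0)` (`natDegree ≤ 3`),
reflected `P' = (X, X^2, -(e0 + e3 X^3), 0)`; `cub(P) = cub(P') = 0`.
If `B(P) ≠ 0`, let `n` be an index with a nonzero coefficient; `rev_coeff` (`e = 3`): `n ≤ 3k` and the
coefficient `3k - n` of `B(P')` is not zero.  `local_form` for the arc `P` (`n0 = 2`, `n1 = 1`,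
factor `1/β`, `α = V(x_0) ≤ 2 β`, `β = V(x_1)`; constant term of the third coordinate `-e3 ≠ 0`):
`V(B) / β ≤ n`; for `P'` (`n0 = 1`, `n1 = 2`, factor `1/α`): `V(B) / α ≤ 3k - n`.  So
`V(B) (α + β) ≤ 3 k α β`, and `3 α β ≤ (α + β)^2`: `V(B) ≤ k (α + β) ≤ k V(x_3)`.
If `B(P) = 0`: `plane_nodal`: `B = h B' + cub E`, `V(B(x)) = V(x_3) + V(B'(x))`.
-/

set_option autoImplicit false

namespace Pool.Agent.CLN

open MvPolynomial Pool.Agent.CLU

/-- the parametrisation of the nodal plane section -/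
private noncomputable def amP (e0 e3 : ℂ) : Fin 4 → Polynomial ℂ :=
  ![Polynomial.X ^ 2, Polynomial.X,
      -(Polynomial.C e0 * Polynomial.X ^ 3 + Polynomial.C e3), (0 : Polynomial ℂ)]

/-- the parametrisation of the nodal plane section at infinity -/
private noncomputable def amP' (e0 e3 : ℂ) : Fin 4 → Polynomial ℂ :=
  ![Polynomial.X, Polynomial.X ^ 2,
      -(Polynomial.C e0 + Polynomial.C e3 * Polynomial.X ^ 3), (0 : Polynomial ℂ)]

private theorem amP_deg (e0 e3 : ℂ) (i : Fin 4) : (amP e0 e3 i).natDegree ≤ 3 := by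
  fin_cases i
  · change (Polynomial.X ^ 2 : Polynomial ℂ).natDegree ≤ 3
    compute_degree
    norm_num
  · change (Polynomial.X : Polynomial ℂ).natDegree ≤ 3
    exact Polynomial.natDegree_X_le.trans (by norm_num)
  · change (-(Polynomial.C e0 * Polynomial.X ^ 3 + Polynomial.C e3) : Polynomial ℂ).natDegree ≤ 3
    compute_degree
  · change (0 : Polynomial ℂ).natDegree ≤ 3
    rw [Polynomial.natDegree_zero]
    norm_num

private theorem amP_reflect (e0 e3 : ℂ) (i : Fin 4) : amP' e0 e3 i = (amP e0 e3 i).reflect 3 := by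
  fin_cases i
  · change (Polynomial.X : Polynomial ℂ) = (Polynomial.X ^ 2 : Polynomial ℂ).reflect 3
    rw [Polynomial.reflect_monomial, Polynomial.revAt_le (by norm_num)]
    norm_num
  · change (Polynomial.X ^ 2 : Polynomial ℂ) = (Polynomial.X : Polynomial ℂ).reflect 3
    have h := Polynomial.reflect_monomial (R := ℂ) 3 1
    rw [pow_one, Polynomial.revAt_le (by norm_num)] at h
    rw [h]
  · change (-(Polynomial.C e0 + Polynomial.C e3 * Polynomial.X ^ 3) : Polynomial ℂ) =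
      (-(Polynomial.C e0 * Polynomial.X ^ 3 + Polynomial.C e3) : Polynomial ℂ).reflect 3
    rw [Polynomial.reflect_neg, Polynomial.reflect_add, Polynomial.reflect_C_mul_X_pow,
      Polynomial.reflect_C, Polynomial.revAt_le (by norm_num)]
    norm_num
  · change (0 : Polynomial ℂ) = (0 : Polynomial ℂ).reflect 3
    rw [Polynomial.reflect_zero]

private theorem aeval_cub {R : Type*} [CommRing R] [Algebra ℂ R] (e0 e3 : ℂ) (q : S)
    (y : Fin 4 → R) : aeval y (cub e0 e3 q) = y 0 * y 1 * y 2 + algebraMap ℂ R e0 * y 0 ^ 3 +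
      algebraMap ℂ R e3 * y 1 ^ 3 + y 3 * aeval y q := by
  unfold cub
  simp only [map_add, map_mul, map_pow, aeval_X, aeval_C]

private theorem cub_amP (e0 e3 : ℂ) (q : S) : aeval (amP e0 e3) (cub e0 e3 q) = 0 := by
  rw [aeval_cub]
  change Polynomial.X ^ 2 * Polynomial.X *
    -(Polynomial.C e0 * Polynomial.X ^ 3 + Polynomial.C e3) +
      Polynomial.C e0 * (Polynomial.X ^ 2) ^ 3 + Polynomial.C e3 * Polynomial.X ^ 3 +
        (0 : Polynomial ℂ) * _ = 0
  ring

private theorem cub_amP' (e0 e3 : ℂ) (q : S) : aeval (amP' e0 e3) (cub e0 e3 q) = 0 := by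
  rw [aeval_cub]
  change Polynomial.X * Polynomial.X ^ 2 *
    -(Polynomial.C e0 + Polynomial.C e3 * Polynomial.X ^ 3) +
      Polynomial.C e0 * Polynomial.X ^ 3 + Polynomial.C e3 * (Polynomial.X ^ 2) ^ 3 +
        (0 : Polynomial ℂ) * _ = 0
  ring

private theorem amid_aux {e0 e3 : ℂ} {q : S} {x : Fin 4 → HH} (h : Pt e0 e3 q x) (h0 : e0 ≠ 0)
    (h3 : e3 ≠ 0) (hind : Ind (x 0).order (x 1).order)
    (hab : (x 0).order ≤ 2 * (x 1).order) (hba : (x 1).order ≤ 2 * (x 0).order)
    (hs : (x 0).order + (x 1).order ≤ (x 3).order) (k : ℕ) (B : S) (hB : B.IsHomogeneous k)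
    (hBx : aeval x B ≠ 0) (hP : aeval (amP e0 e3) B ≠ 0) :
    (aeval x B).order ≤ k * (x 3).order := by
  obtain ⟨n, hn⟩ : ∃ n, (aeval (amP e0 e3) B).coeff n ≠ 0 := by
    by_contra hcon
    push Not at hcon
    exact hP (Polynomial.ext fun n => by rw [hcon n, Polynomial.coeff_zero])
  obtain ⟨hn3, hn'⟩ := rev_coeff 3 k (amP e0 e3) (amP' e0 e3) (amP_deg e0 e3)
    (amP_reflect e0 e3) B hB n hn
  have ha := h.pos0
  have hb := h.pos1
  have hC : ∀ a : ℂ, PowerSeries.constantCoeff ((Polynomial.C a : Polynomial ℂ) : PowerSeries ℂ) =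
      a := by
    intro a
    rw [Polynomial.coe_C, PowerSeries.constantCoeff_C]
  have h1 : 1 / (x 1).order * (aeval x B).order ≤ n := by
    refine local_form h hind k B hB hBx (fun i => ((amP e0 e3 i : Polynomial ℂ) : PowerSeries ℂ))
      ?_ ?_ ?_ ?_ ?_ (1 / (x 1).order) (by positivity) 2 1 ?_ ?_ ?_ ?_ n ?_
    · change PowerSeries.X ∣ ((Polynomial.X ^ 2 : Polynomial ℂ) : PowerSeries ℂ)
      rw [Polynomial.coe_pow, Polynomial.coe_X]
      exact dvd_pow_self _ (by norm_num)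
    · change PowerSeries.X ∣ ((Polynomial.X : Polynomial ℂ) : PowerSeries ℂ)
      rw [Polynomial.coe_X]
    · change PowerSeries.constantCoeff ((-(Polynomial.C e0 * Polynomial.X ^ 3 + Polynomial.C e3) :
        Polynomial ℂ) : PowerSeries ℂ) ≠ 0
      rw [← PowerSeries.coeff_zero_eq_constantCoeff_apply, Polynomial.coeff_coe]
      simpa using h3
    · change PowerSeries.X ∣ ((0 : Polynomial ℂ) : PowerSeries ℂ)
      rw [Polynomial.coe_zero]
      exact dvd_zero _
    · rw [aeval_coe, cub_amP, Polynomial.coe_zero]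
    · change PowerSeries.X ^ 2 ∣ ((Polynomial.X ^ 2 : Polynomial ℂ) : PowerSeries ℂ)
      rw [Polynomial.coe_pow, Polynomial.coe_X]
    · change PowerSeries.X ^ 1 ∣ ((Polynomial.X : Polynomial ℂ) : PowerSeries ℂ)
      rw [Polynomial.coe_X, pow_one]
    · rw [one_div, inv_mul_le_iff₀ hb]
      push_cast
      linarith
    · rw [one_div, inv_mul_cancel₀ hb.ne']
      norm_num
    · rw [aeval_coe]
      exact not_X_pow_dvd _ n hn
  have h2 : 1 / (x 0).order * (aeval x B).order ≤ (3 * k - n : ℕ) := by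
    refine local_form h hind k B hB hBx (fun i => ((amP' e0 e3 i : Polynomial ℂ) : PowerSeries ℂ))
      ?_ ?_ ?_ ?_ ?_ (1 / (x 0).order) (by positivity) 1 2 ?_ ?_ ?_ ?_ (3 * k - n) ?_
    · change PowerSeries.X ∣ ((Polynomial.X : Polynomial ℂ) : PowerSeries ℂ)
      rw [Polynomial.coe_X]
    · change PowerSeries.X ∣ ((Polynomial.X ^ 2 : Polynomial ℂ) : PowerSeries ℂ)
      rw [Polynomial.coe_pow, Polynomial.coe_X]
      exact dvd_pow_self _ (by norm_num)
    · change PowerSeries.constantCoeff ((-(Polynomial.C e0 + Polynomial.C e3 * Polynomial.X ^ 3) :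
        Polynomial ℂ) : PowerSeries ℂ) ≠ 0
      rw [← PowerSeries.coeff_zero_eq_constantCoeff_apply, Polynomial.coeff_coe]
      simpa using h0
    · change PowerSeries.X ∣ ((0 : Polynomial ℂ) : PowerSeries ℂ)
      rw [Polynomial.coe_zero]
      exact dvd_zero _
    · rw [aeval_coe, cub_amP', Polynomial.coe_zero]
    · change PowerSeries.X ^ 1 ∣ ((Polynomial.X : Polynomial ℂ) : PowerSeries ℂ)
      rw [Polynomial.coe_X, pow_one]
    · change PowerSeries.X ^ 2 ∣ ((Polynomial.X ^ 2 : Polynomial ℂ) : PowerSeries ℂ)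
      rw [Polynomial.coe_pow, Polynomial.coe_X]
    · rw [one_div, inv_mul_cancel₀ ha.ne']
      norm_num
    · rw [one_div, inv_mul_le_iff₀ ha]
      push_cast
      linarith
    · rw [aeval_coe]
      exact not_X_pow_dvd _ _ hn'
  obtain ⟨α, hα⟩ : ∃ α, α = (x 0).order := ⟨_, rfl⟩
  obtain ⟨β, hβ⟩ : ∃ β, β = (x 1).order := ⟨_, rfl⟩
  obtain ⟨v, hv⟩ : ∃ v, v = (x 3).order := ⟨_, rfl⟩
  obtain ⟨b, hb'⟩ : ∃ b, b = (aeval x B).order := ⟨_, rfl⟩
  rw [← hα, ← hb'] at h2
  rw [← hβ, ← hb'] at h1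
  rw [← hα, ← hβ, ← hv] at hs
  rw [← hα] at ha
  rw [← hβ] at hb
  rw [← hb', ← hv]
  rw [one_div, inv_mul_le_iff₀ hb] at h1
  rw [one_div, inv_mul_le_iff₀ ha, Nat.cast_sub hn3] at h2
  push_cast at h2
  have hk : (0 : ℝ) ≤ k := Nat.cast_nonneg k
  have h4 : b * (α + β) ≤ (k * (α + β)) * (α + β) := by
    have h5 : b * α ≤ β * n * α := mul_le_mul_of_nonneg_right h1 ha.le
    have h6 : b * β ≤ α * (3 * k - n) * β := mul_le_mul_of_nonneg_right h2 hb.le
    have h7 : (0 : ℝ) ≤ k * (α - β) ^ 2 := by positivity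
    have h8 : (0 : ℝ) ≤ k * (α * β) := by positivity
    nlinarith
  have h5 : b ≤ k * (α + β) := le_of_mul_le_mul_right h4 (by linarith)
  exact h5.trans (mul_le_mul_of_nonneg_left hs hk)

theorem amid {e0 e3 : ℂ} {q : S} {x : Fin 4 → HH} (h : Pt e0 e3 q x) (h0 : e0 ≠ 0)
    (h3 : e3 ≠ 0) (hind : Ind (x 0).order (x 1).order)
    (hab : (x 0).order ≤ 2 * (x 1).order) (hba : (x 1).order ≤ 2 * (x 0).order)
    (hs : (x 0).order + (x 1).order ≤ (x 3).order) (k : ℕ) (B : S) (hB : B.IsHomogeneous k)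
    (hBx : aeval x B ≠ 0) : (aeval x B).order ≤ k * (x 3).order := by
  induction k generalizing B with
  | zero =>
    by_cases hP : aeval (amP e0 e3) B = 0
    · have hB0 : B ≠ 0 := by
        rintro rfl
        exact hBx (map_zero _)
      obtain ⟨B', E, j, hj, -, -⟩ := plane_nodal h0 h3 h.q_hom 0 B hB hB0 hP
      exact absurd hj (by omega)
    · exact amid_aux h h0 h3 hind hab hba hs 0 B hB hBx hP
  | succ k ih =>
    by_cases hP : aeval (amP e0 e3) B = 0
    · have hB0 : B ≠ 0 := by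
        rintro rfl
        exact hBx (map_zero _)
      obtain ⟨B', E, j, hj, hB', hBE⟩ := plane_nodal h0 h3 h.q_hom (k + 1) B hB hB0 hP
      have hjk : j = k := by omega
      subst hjk
      have he : aeval x B = x 3 * aeval x B' := by
        rw [hBE, map_add, map_mul, map_mul, h.rel, zero_mul, add_zero, aeval_X]
      rw [he] at hBx
      have h1 := ih B' hB' (right_ne_zero_of_mul hBx)
      rw [he, HahnSeries.order_mul (left_ne_zero_of_mul hBx) (right_ne_zero_of_mul hBx)]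
      push_cast
      linarith
    · exact amid_aux h h0 h3 hind hab hba hs (k + 1) B hB hBx hP

end Pool.Agent.CLN
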