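import Pool.Agent.CLN.Amid

/-!
# CLN / Aout: the nodal plane section, `V(y) = 2 V(x)`

`α = V(x_0)`, `V(x_1) = 2α`, `v = V(x_3)`.
`v > 3α`: `∂_3 cub = q + X 3 ∂_3 q` has order `0` at `x` (`q(0,0,1,0) ≠ 0`; `coeff` at `0`), so by
`br01` `V(br x_0 x_1) = v`, and `lt_order_br` (the orders `α, 2α` are dependent).
`v, α` independent: `∂_1 cub = x z + 3 e3 y^2 + h ∂_1 q` has order `α` at `x`; so by `br30`
`V(br x_3 x_0) = v + α`, `indep_of_order_br`.
Involution: `q = q0 z^2 + z λ(x, y, h) + μ(x, y, h)`, `q0 ≠ 0`, `λ, μ` forms without `z`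
(`exists_quad`).  Affine coordinates `X = x_0/x_3`, `Y = x_1/x_3`, `Z = 1/x_3`:
`q0 Z^2 + (XY + λ(X,Y,1)) Z + (e0 X^3 + e3 Y^3 + μ(X,Y,1)) = 0`; `Z' = - Z - (XY + λ(X,Y,1))/q0` is
the other root.  Orders: `V(XY) = 3α - 2v`, `V(Z) = -v > 3α - 2v`, `λ(X,Y,1)` is `Ge (α - v)`,
`α - v > 3α - 2v`; so `V(Z') = 3α - 2v`.  The point `x' = (X/Z', Y/Z', 1, 1/Z')` is a `Pt` with orders
`v - 2α`, `v - α`, `0`, `2v - 3α`, to which `amid` applies.
`B' := B(xh, yh, -(q0 z h + xy + h λ)/q0, h^2)` is a form of degree `2k`,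
`B'(X, Y, Z', 1) = B(X, Y, Z, 1)`.  `amid`: `V(B'(x')) ≤ 2k V(x'_3) = - 2k V(Z')`, and
`B'(x') = Z'^(-2k) B'(X, Y, Z', 1)`, so `V(B(X, Y, Z, 1)) ≤ 0`; `B(x) = x_3^k B(X, Y, Z, 1)`.
-/

set_option autoImplicit false

namespace Pool.Agent.CLN

open MvPolynomial Pool.Agent.CLU

private theorem lf_split (a : Fin 4 → ℂ) : lf a = C (a 2) * X 2 + lf (Function.update a 2 0) := by
  rw [lf_apply, lf_apply, Fin.sum_univ_four, Fin.sum_univ_four]
  simp [Function.update]
  ring

private theorem lf_up (a : Fin 4 → ℂ) :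
    aeval ![X 0, X 1, (0 : S), X 3] (lf (Function.update a 2 0)) =
      lf (Function.update a 2 0) := by
  rw [lf_apply, Fin.sum_univ_four]
  simp [Function.update, algebraMap_eq]

private theorem eval_single_lf (a : Fin 4 → ℂ) : eval (Pi.single 2 1) (lf a) = a 2 := by
  rw [eval_lf, dotProduct_single, mul_one]

theorem exists_quad (q : S) (hq : q.IsHomogeneous 2) : ∃ (l : Fin 4 → ℂ) (μ : S),
    l 2 = 0 ∧ μ.IsHomogeneous 2 ∧ aeval ![X 0, X 1, (0 : S), X 3] μ = μ ∧
      q = C (eval (Pi.single 2 1) q) * X 2 ^ 2 + X 2 * lf l + μ := by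
  have h1 : q ∈ homogeneousSubmodule (Fin 4) ℂ 1 ^ 2 := by
    rw [homogeneousSubmodule_one_pow]
    exact hq
  rw [pow_two] at h1
  refine Submodule.mul_induction_on h1 ?_ ?_
  · intro m hm n hn
    obtain ⟨a, rfl⟩ := exists_lf m hm
    obtain ⟨b, rfl⟩ := exists_lf n hn
    refine ⟨a 2 • Function.update b 2 0 + b 2 • Function.update a 2 0,
      lf (Function.update a 2 0) * lf (Function.update b 2 0), ?_, ?_, ?_, ?_⟩
    · simp
    · exact (lf_hom _).mul (lf_hom _)
    · rw [map_mul, lf_up, lf_up]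
    · rw [map_mul, eval_single_lf, eval_single_lf, map_add, map_smul, map_smul, smul_eq_C_mul,
        smul_eq_C_mul, C_mul]
      conv_lhs => rw [lf_split a, lf_split b]
      ring
  · rintro f g ⟨l, μ, hl, hμ, hμ', hf⟩ ⟨l', μ', hl', hm, hm', hg⟩
    refine ⟨l + l', μ + μ', ?_, hμ.add hm, ?_, ?_⟩
    · rw [Pi.add_apply, hl, hl', add_zero]
    · rw [map_add, hμ', hm']
    · rw [map_add, C_add, map_add]
      conv_lhs => rw [hf, hg]
      ring

private theorem scale {R : Type*} [CommRing R] [Algebra ℂ R] {d : ℕ} {G : S}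
    (hG : G.IsHomogeneous d) (c : R) (v : Fin 4 → R) :
    aeval (fun i => c * v i) G = c ^ d * aeval v G := by
  rw [aeval_def, aeval_def, eval₂_eq', eval₂_eq', Finset.mul_sum]
  refine Finset.sum_congr rfl fun m hm => ?_
  have h1 : ∏ i, (c * v i) ^ m i = c ^ d * ∏ i, v i ^ m i := by
    simp only [mul_pow]
    rw [Finset.prod_mul_distrib, Finset.prod_pow_eq_pow_sum]
    congr 2
    have h2 := hG (mem_support_iff.1 hm)
    rw [← h2]
    simp [Finsupp.weight_apply, Finsupp.sum_fintype]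
  rw [h1]
  ring

private theorem ge_pow {m : ℝ} {f : HH} (hf : Ge m f) (n : ℕ) : Ge (n * m) (f ^ n) := by
  induction n with
  | zero =>
    rw [pow_zero, Nat.cast_zero, zero_mul]
    have := ge_algebraMap 1
    rwa [map_one] at this
  | succ n ih =>
    rw [pow_succ]
    exact (ih.mul hf).mono (by push_cast; linarith)

private theorem ge_aeval {m : ℝ} {ξ : Fin 4 → HH} (hξ : ∀ i, Ge m (ξ i)) {d : ℕ} {G : S}
    (hG : G.IsHomogeneous d) : Ge (d * m) (aeval ξ G) := by
  rw [aeval_def, eval₂_eq']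
  refine Ge.sum _ _ _ fun s hs => ?_
  have h1 : ∑ i, s i = d := by
    have h2 := hG (mem_support_iff.1 hs)
    rw [← h2]
    simp [Finsupp.weight_apply, Finsupp.sum_fintype]
  have h2 : Ge (d * m) (∏ i, ξ i ^ s i) := by
    rw [Fin.prod_univ_four]
    refine (((((ge_pow (hξ 0) (s 0)).mul (ge_pow (hξ 1) (s 1))).mul
      (ge_pow (hξ 2) (s 2))).mul (ge_pow (hξ 3) (s 3)))).mono (le_of_eq ?_)
    rw [← h1, Fin.sum_univ_four]
    push_cast
    ring
  exact ((ge_algebraMap (coeff s G)).mul h2).mono (by linarith)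

private theorem ge_aeval_zero {ξ : Fin 4 → HH} (hξ : ∀ i, Ge 0 (ξ i)) (G : S) :
    Ge 0 (aeval ξ G) := by
  induction G using MvPolynomial.induction_on with
  | C a =>
    rw [aeval_C]
    exact ge_algebraMap a
  | add p q hp hq =>
    rw [map_add]
    exact hp.add hq
  | mul_X p i hp =>
    rw [map_mul, aeval_X]
    exact (hp.mul (hξ i)).mono (by linarith)

private theorem order_inv' {f : HH} (hf : f ≠ 0) : (f⁻¹).order = -f.order := by
  have h1 := HahnSeries.order_mul hf (inv_ne_zero hf)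
  rw [mul_inv_cancel₀ hf, HahnSeries.order_one] at h1
  linarith

private theorem order_pow' {f : HH} (hf : f ≠ 0) (n : ℕ) : (f ^ n).order = n * f.order := by
  induction n with
  | zero => rw [pow_zero, HahnSeries.order_one, Nat.cast_zero, zero_mul]
  | succ n ih =>
    rw [pow_succ, HahnSeries.order_mul (pow_ne_zero n hf) hf, ih]
    push_cast
    ring

private theorem cub_hom {e0 e3 : ℂ} {q : S} (hq : q.IsHomogeneous 2) :
    (cub e0 e3 q).IsHomogeneous 3 := by
  unfold cub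
  refine ((((isHomogeneous_X ℂ (0 : Fin 4)).mul (isHomogeneous_X ℂ 1)).mul
    (isHomogeneous_X ℂ 2)).add ?_ |>.add ?_).add ((isHomogeneous_X ℂ (3 : Fin 4)).mul hq)
  · exact isHomogeneous_C_mul_X_pow e0 0 3
  · exact isHomogeneous_C_mul_X_pow e3 1 3

private theorem aeval_cub' {R : Type*} [CommRing R] [Algebra ℂ R] (e0 e3 : ℂ) (q : S)
    (y : Fin 4 → R) : aeval y (cub e0 e3 q) = y 0 * y 1 * y 2 + algebraMap ℂ R e0 * y 0 ^ 3 +
      algebraMap ℂ R e3 * y 1 ^ 3 + y 3 * aeval y q := by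
  unfold cub
  simp only [map_add, map_mul, map_pow, aeval_X, aeval_C]

private theorem pd3 (e0 e3 : ℂ) (q : S) : pderiv 3 (cub e0 e3 q) = q + X 3 * pderiv 3 q := by
  unfold cub
  simp [pderiv_X]
  ring

private theorem pd1 (e0 e3 : ℂ) (q : S) : pderiv 1 (cub e0 e3 q) =
    X 0 * X 2 + C e3 * (3 * X 1 ^ 2) + X 3 * pderiv 1 q := by
  unfold cub
  simp [pderiv_X]
  ring

/-- the orders at the centre -/
private theorem aout_orders {e0 e3 : ℂ} {q : S} {w1 w2 : ℝ →+ ℂ} {x : Fin 4 → HH}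
    (h : Loc e0 e3 q w1 w2 x) (hab : (x 1).order = 2 * (x 0).order) :
    3 * (x 0).order < (x 3).order ∧
      ∀ i j : ℤ, (i : ℝ) * (x 3).order + (j : ℝ) * (x 0).order = 0 → i = 0 ∧ j = 0 := by
  have hp := h.pt
  have ha := hp.pos0
  have hb := hp.pos1
  have hv := hp.pos3
  have hge0 : ∀ i, Ge 0 (x i) := by
    intro i
    fin_cases i
    · exact ge_of_le_order ha.le
    · exact ge_of_le_order hb.le
    · change Ge 0 (x 2)
      rw [hp.x2]
      have := ge_algebraMap 1
      rwa [map_one] at this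
    · exact ge_of_le_order hv.le
  have hc0 : algebraMap ℂ HH (eval (Pi.single 2 1) q) ≠ 0 := by
    rw [Ne, FaithfulSMul.algebraMap_eq_zero_iff]
    exact hp.q_z
  obtain ⟨m, hm⟩ : ∃ m, m = min (min (x 0).order (x 1).order) (x 3).order := ⟨_, rfl⟩
  have hm0 : 0 < m := by
    rw [hm]
    exact lt_min (lt_min ha hb) hv
  have hma : m ≤ (x 0).order := by
    rw [hm]
    exact (min_le_left _ _).trans (min_le_left _ _)
  have hmb : m ≤ (x 1).order := by
    rw [hm]
    exact (min_le_left _ _).trans (min_le_right _ _)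
  have hmv : m ≤ (x 3).order := by
    rw [hm]
    exact min_le_right _ _
  have g0 : Ge m (x 0) := ge_of_le_order hma
  have g1 : Ge m (x 1) := ge_of_le_order hmb
  have g3 : Ge m (x 3) := ge_of_le_order hmv
  -- the order of `q`
  obtain ⟨l, μ, hl, hμ, hμ', hq⟩ := exists_quad q hp.q_hom
  have hqx : ∃ g, Ge m g ∧ aeval x q = algebraMap ℂ HH (eval (Pi.single 2 1) q) + g := by
    refine ⟨aeval x (lf l) + aeval x μ, ?_, ?_⟩
    · refine Ge.add ?_ ?_
      · rw [lf_apply, Fin.sum_univ_four]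
        simp only [map_add, map_mul, aeval_C, aeval_X]
        rw [hl, map_zero, zero_mul, add_zero]
        refine Ge.add (Ge.add ?_ ?_) ?_
        · exact ((ge_algebraMap _).mul g0).mono (by linarith)
        · exact ((ge_algebraMap _).mul g1).mono (by linarith)
        · exact ((ge_algebraMap _).mul g3).mono (by linarith)
      · rw [← hμ', comp_aeval_apply]
        have h1 : ∀ i, Ge m (aeval x ((![X 0, X 1, (0 : S), X 3] : Fin 4 → S) i)) := by
          intro i
          fin_cases i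
          · change Ge m (aeval x (X 0 : S))
            rw [aeval_X]
            exact g0
          · change Ge m (aeval x (X 1 : S))
            rw [aeval_X]
            exact g1
          · change Ge m (aeval x (0 : S))
            rw [map_zero]
            exact ge_zero m
          · change Ge m (aeval x (X 3 : S))
            rw [aeval_X]
            exact g3
        exact (ge_aeval h1 hμ).mono (by push_cast; linarith)
    · conv_lhs => rw [hq]
      simp only [map_add, map_mul, map_pow, aeval_C, aeval_X]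
      rw [hp.x2]
      ring
  obtain ⟨g, hg, hqg⟩ := hqx
  have hQ3 : (aeval x (pderiv 3 (cub e0 e3 q))).order = 0 ∧
      aeval x (pderiv 3 (cub e0 e3 q)) ≠ 0 := by
    have h1 : aeval x (pderiv 3 (cub e0 e3 q)) = algebraMap ℂ HH (eval (Pi.single 2 1) q) +
        (g + x 3 * aeval x (pderiv 3 q)) := by
      rw [pd3, map_add, map_mul, aeval_X, hqg]
      ring
    have h2 : Ge m (g + x 3 * aeval x (pderiv 3 q)) :=
      hg.add ((g3.mul (ge_aeval_zero hge0 _)).mono (by linarith))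
    rw [h1]
    have h3 := order_add_of_Ge hc0 (v := m) (by rw [order_algebraMap]; exact hm0) h2
    rw [order_algebraMap] at h3
    exact h3
  obtain ⟨k, hk, hbr⟩ := h.br01
  have hkne : algebraMap ℂ HH k ≠ 0 := by
    rw [Ne, FaithfulSMul.algebraMap_eq_zero_iff]
    exact hk
  have hbr0 : br (DD w1) (DD w2) (x 0) (x 1) ≠ 0 := by
    rw [hbr]
    exact mul_ne_zero hkne (mul_ne_zero hp.ne3 hQ3.2)
  have hbro : (br (DD w1) (DD w2) (x 0) (x 1)).order = (x 3).order := by
    rw [hbr, HahnSeries.order_mul hkne (mul_ne_zero hp.ne3 hQ3.2),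
      HahnSeries.order_mul hp.ne3 hQ3.2, hQ3.1, order_algebraMap]
    ring
  have hdep : w1 (x 0).order * w2 (x 1).order - w2 (x 0).order * w1 (x 1).order = 0 := by
    have h2 : ∀ w : ℝ →+ ℂ, w (x 1).order = w (x 0).order + w (x 0).order := by
      intro w
      rw [hab, two_mul, map_add]
    rw [h2 w1, h2 w2]
    ring
  have h1 := lt_order_br hp.ne0 hp.ne1 w1 w2 hdep hbr0
  rw [hbro, hab] at h1
  have h3α : 3 * (x 0).order < (x 3).order := by linarith
  refine ⟨h3α, ?_⟩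
  have hQ1 : (aeval x (pderiv 1 (cub e0 e3 q))).order = (x 0).order ∧
      aeval x (pderiv 1 (cub e0 e3 q)) ≠ 0 := by
    have h1 : aeval x (pderiv 1 (cub e0 e3 q)) = x 0 +
        (algebraMap ℂ HH e3 * (3 * x 1 ^ 2) + x 3 * aeval x (pderiv 1 q)) := by
      rw [pd1]
      simp only [map_add, map_mul, map_pow, aeval_C, aeval_X, map_ofNat]
      rw [hp.x2]
      ring
    have h3 : Ge 0 (3 : HH) := by
      have := ge_algebraMap 3
      rwa [map_ofNat] at this
    have hx1 : Ge (2 * (x 0).order) (x 1) := ge_of_le_order hab.ge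
    have h2 : Ge (2 * (x 0).order)
        (algebraMap ℂ HH e3 * (3 * x 1 ^ 2) + x 3 * aeval x (pderiv 1 q)) := by
      refine Ge.add ?_ ?_
      · exact ((ge_algebraMap e3).mul (h3.mul (ge_pow hx1 2))).mono (by push_cast; linarith)
      · exact ((ge_order (x 3)).mul (ge_aeval_zero hge0 _)).mono (by linarith)
    rw [h1]
    exact order_add_of_Ge hp.ne0 (by linarith) h2
  obtain ⟨k', hk', hbr'⟩ := h.br30
  have hkne' : algebraMap ℂ HH k' ≠ 0 := by
    rw [Ne, FaithfulSMul.algebraMap_eq_zero_iff]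
    exact hk'
  refine indep_of_order_br hp.ne3 hp.ne0 w1 w2 ?_ ?_
  · rw [hbr']
    exact mul_ne_zero hkne' (mul_ne_zero hp.ne3 hQ1.2)
  · rw [hbr', HahnSeries.order_mul hkne' (mul_ne_zero hp.ne3 hQ1.2),
      HahnSeries.order_mul hp.ne3 hQ1.2, hQ1.1, order_algebraMap]
    linarith

theorem aout {e0 e3 : ℂ} {q : S} {w1 w2 : ℝ →+ ℂ} {x : Fin 4 → HH}
    (h : Loc e0 e3 q w1 w2 x) (h0 : e0 ≠ 0) (h3 : e3 ≠ 0)
    (hab : (x 1).order = 2 * (x 0).order) (k : ℕ) (B : S) (hB : B.IsHomogeneous k)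
    (hBx : aeval x B ≠ 0) : (aeval x B).order ≤ k * (x 3).order := by
  have hp := h.pt
  obtain ⟨h3α, hind⟩ := aout_orders h hab
  obtain ⟨α, hα⟩ : ∃ α, α = (x 0).order := ⟨_, rfl⟩
  obtain ⟨v, hv⟩ : ∃ v, v = (x 3).order := ⟨_, rfl⟩
  have ha := hp.pos0
  have hvp := hp.pos3
  rw [← hα] at ha hab h3α hind
  rw [← hv] at h3α hind hvp
  obtain ⟨l, μ, hl, hμ, hμ', hq⟩ := exists_quad q hp.q_hom
  obtain ⟨q0, hq0⟩ : ∃ q0, q0 = eval (Pi.single 2 1) q := ⟨_, rfl⟩
  have hq0n : q0 ≠ 0 := by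
    rw [hq0]
    exact hp.q_z
  rw [← hq0] at hq
  obtain ⟨c0, hc0⟩ : ∃ c0, c0 = algebraMap ℂ HH q0 := ⟨_, rfl⟩
  have hc0n : c0 ≠ 0 := by
    rw [hc0, Ne, FaithfulSMul.algebraMap_eq_zero_iff]
    exact hq0n
  have hc0i : algebraMap ℂ HH q0⁻¹ = c0⁻¹ := by rw [hc0, map_inv₀]
  -- affine coordinates
  obtain ⟨u, hu⟩ : ∃ u, u = (x 3)⁻¹ := ⟨_, rfl⟩
  have hun : u ≠ 0 := by
    rw [hu]
    exact inv_ne_zero hp.ne3
  have huo : u.order = -v := by rw [hu, order_inv' hp.ne3, hv]
  have hu3 : u * x 3 = 1 := by rw [hu, inv_mul_cancel₀ hp.ne3]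
  obtain ⟨xx, hxx⟩ : ∃ xx, xx = u * x 0 := ⟨_, rfl⟩
  obtain ⟨yy, hyy⟩ : ∃ yy, yy = u * x 1 := ⟨_, rfl⟩
  have hxxn : xx ≠ 0 := by
    rw [hxx]
    exact mul_ne_zero hun hp.ne0
  have hyyn : yy ≠ 0 := by
    rw [hyy]
    exact mul_ne_zero hun hp.ne1
  have hxxo : xx.order = α - v := by
    rw [hxx, HahnSeries.order_mul hun hp.ne0, huo, ← hα]
    ring
  have hyyo : yy.order = 2 * α - v := by
    rw [hyy, HahnSeries.order_mul hun hp.ne1, huo, hab]
    ring
  have hwfun : (fun i => u * x i) = ![xx, yy, u, 1] := by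
    funext i
    fin_cases i
    · exact hxx.symm
    · exact hyy.symm
    · change u * x 2 = u
      rw [hp.x2, mul_one]
    · exact hu3
  obtain ⟨lam, hlam⟩ : ∃ lam, lam = algebraMap ℂ HH (l 0) * xx + algebraMap ℂ HH (l 1) * yy +
      algebraMap ℂ HH (l 3) := ⟨_, rfl⟩
  obtain ⟨mm, hmm⟩ : ∃ mm, mm = aeval ![xx, yy, (0 : HH), 1] μ := ⟨_, rfl⟩
  have hlf : ∀ t : HH, aeval ![xx, yy, t, 1] (lf l) = lam := by
    intro t
    rw [lf_apply, Fin.sum_univ_four, hlam]
    simp only [map_add, map_mul, aeval_C, aeval_X]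
    rw [hl, map_zero, zero_mul, add_zero]
    change algebraMap ℂ HH (l 0) * xx + algebraMap ℂ HH (l 1) * yy +
      algebraMap ℂ HH (l 3) * 1 = _
    rw [mul_one]
  have hmu : ∀ t : HH, aeval ![xx, yy, t, 1] μ = mm := by
    intro t
    rw [hmm]
    conv_lhs => rw [← hμ', comp_aeval_apply]
    have h1 : (fun i => aeval ![xx, yy, t, 1] ((![X 0, X 1, (0 : S), X 3] : Fin 4 → S) i)) =
        ![xx, yy, (0 : HH), 1] := by
      funext i
      fin_cases i
      · exact aeval_X _ _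
      · exact aeval_X _ _
      · exact map_zero _
      · exact aeval_X _ _
    rw [h1]
  have hqt : ∀ t : HH, aeval ![xx, yy, t, 1] q = c0 * t ^ 2 + t * lam + mm := by
    intro t
    conv_lhs => rw [hq]
    rw [map_add, map_add, map_mul, map_mul, map_pow, aeval_C, aeval_X, hlf, hmu, ← hc0]
    rfl
  have hcub : ∀ t : HH, aeval ![xx, yy, t, 1] (cub e0 e3 q) = xx * yy * t +
      algebraMap ℂ HH e0 * xx ^ 3 + algebraMap ℂ HH e3 * yy ^ 3 +
        (c0 * t ^ 2 + t * lam + mm) := by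
    intro t
    rw [aeval_cub', hqt]
    change xx * yy * t + algebraMap ℂ HH e0 * xx ^ 3 + algebraMap ℂ HH e3 * yy ^ 3 +
      1 * (c0 * t ^ 2 + t * lam + mm) = _
    rw [one_mul]
  have hrel : aeval ![xx, yy, u, 1] (cub e0 e3 q) = 0 := by
    rw [← hwfun, scale (cub_hom hp.q_hom), hp.rel, mul_zero]
  -- the other root
  obtain ⟨zz, hzz⟩ : ∃ zz, zz = -u - c0⁻¹ * (xx * yy + lam) := ⟨_, rfl⟩
  have hV : c0 * (zz + u) + (xx * yy + lam) = 0 := by
    rw [hzz]
    field_simp
    ring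
  have hrel' : aeval ![xx, yy, zz, 1] (cub e0 e3 q) = 0 := by
    rw [hcub] at hrel ⊢
    linear_combination hrel + (zz - u) * hV
  have hzzo : zz.order = 3 * α - 2 * v ∧ zz ≠ 0 := by
    have hci : c0⁻¹ ≠ 0 := inv_ne_zero hc0n
    have hcio : (c0⁻¹).order = 0 := by rw [← hc0i, order_algebraMap]
    have hf : -(c0⁻¹ * (xx * yy)) ≠ 0 :=
      neg_ne_zero.2 (mul_ne_zero hci (mul_ne_zero hxxn hyyn))
    have hfo : (-(c0⁻¹ * (xx * yy))).order = 3 * α - 2 * v := by
      rw [HahnSeries.order_neg, HahnSeries.order_mul hci (mul_ne_zero hxxn hyyn),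
        HahnSeries.order_mul hxxn hyyn, hcio, hxxo, hyyo]
      ring
    have hgx : Ge (-v) xx := ge_of_le_order (by rw [hxxo]; linarith)
    have hgy : Ge (-v) yy := ge_of_le_order (by rw [hyyo]; linarith)
    have hgl : Ge (-v) lam := by
      rw [hlam]
      refine Ge.add (Ge.add ?_ ?_) ?_
      · exact ((ge_algebraMap _).mul hgx).mono (by linarith)
      · exact ((ge_algebraMap _).mul hgy).mono (by linarith)
      · exact (ge_algebraMap _).mono (by linarith)
    have hg : Ge (-v) (-u - c0⁻¹ * lam) := by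
      refine Ge.sub ?_ ?_
      · exact (ge_of_le_order huo.ge).neg
      · exact ((ge_of_le_order hcio.ge).mul hgl).mono (by linarith)
    have h1 := order_add_of_Ge hf (v := -v) (by rw [hfo]; linarith) hg
    have h2 : -(c0⁻¹ * (xx * yy)) + (-u - c0⁻¹ * lam) = zz := by
      rw [hzz]
      ring
    rw [h2, hfo] at h1
    exact h1
  obtain ⟨hzo, hzn⟩ := hzzo
  obtain ⟨s, hs⟩ : ∃ s, s = zz⁻¹ := ⟨_, rfl⟩
  have hsn : s ≠ 0 := by
    rw [hs]
    exact inv_ne_zero hzn
  have hso : s.order = 2 * v - 3 * α := by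
    rw [hs, order_inv' hzn, hzo]
    ring
  obtain ⟨x', hx'⟩ : ∃ x' : Fin 4 → HH,
      x' = fun i => s * (![xx, yy, zz, 1] : Fin 4 → HH) i := ⟨_, rfl⟩
  have hx0 : x' 0 = s * xx := by
    rw [hx']
    rfl
  have hx1 : x' 1 = s * yy := by
    rw [hx']
    rfl
  have hx2 : x' 2 = 1 := by
    rw [hx']
    change s * zz = 1
    rw [hs, inv_mul_cancel₀ hzn]
  have hx3 : x' 3 = s := by
    rw [hx']
    change s * 1 = s
    rw [mul_one]
  have ho0 : (x' 0).order = v - 2 * α := by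
    rw [hx0, HahnSeries.order_mul hsn hxxn, hso, hxxo]
    ring
  have ho1 : (x' 1).order = v - α := by
    rw [hx1, HahnSeries.order_mul hsn hyyn, hso, hyyo]
    ring
  have ho3 : (x' 3).order = 2 * v - 3 * α := by rw [hx3, hso]
  have hpt : Pt e0 e3 q x' :=
    { q_hom := hp.q_hom
      q_z := hp.q_z
      x2 := hx2
      ne0 := by
        rw [hx0]
        exact mul_ne_zero hsn hxxn
      ne1 := by
        rw [hx1]
        exact mul_ne_zero hsn hyyn
      ne3 := by
        rw [hx3]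
        exact hsn
      pos0 := by
        rw [ho0]
        linarith
      pos1 := by
        rw [ho1]
        linarith
      pos3 := by
        rw [ho3]
        linarith
      rel := by rw [hx', scale (cub_hom hp.q_hom), hrel', mul_zero] }
  have hInd : Ind (x' 0).order (x' 1).order := by
    intro i j hij
    rw [ho0, ho1] at hij
    have h1 := hind (i + j) (-2 * i - j) (by push_cast; linarith)
    omega
  -- the transformed form
  obtain ⟨g, hg⟩ : ∃ g : Fin 4 → S, g = ![X 0 * X 3, X 1 * X 3,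
      -(X 2 * X 3) - C q0⁻¹ * (X 0 * X 1 + X 3 * lf l), X 3 * X 3] := ⟨_, rfl⟩
  have hgh : ∀ i, (g i).IsHomogeneous 2 := by
    intro i
    rw [hg]
    fin_cases i
    · exact (isHomogeneous_X ℂ (0 : Fin 4)).mul (isHomogeneous_X ℂ 3)
    · exact (isHomogeneous_X ℂ (1 : Fin 4)).mul (isHomogeneous_X ℂ 3)
    · refine IsHomogeneous.sub ?_ ?_
      · exact ((isHomogeneous_X ℂ (2 : Fin 4)).mul (isHomogeneous_X ℂ 3)).neg
      · exact ((((isHomogeneous_X ℂ (0 : Fin 4)).mul (isHomogeneous_X ℂ 1)).add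
          ((isHomogeneous_X ℂ (3 : Fin 4)).mul (lf_hom l)))).C_mul _
    · exact (isHomogeneous_X ℂ (3 : Fin 4)).mul (isHomogeneous_X ℂ 3)
  have hBh : (aeval g B : S).IsHomogeneous (2 * k) := hB.aeval g hgh
  have hBw : aeval ![xx, yy, zz, 1] (aeval g B : S) = u ^ k * aeval x B := by
    rw [comp_aeval_apply, ← scale hB, hwfun]
    have h1 : (fun i => aeval ![xx, yy, zz, 1] (g i)) = ![xx, yy, u, 1] := by
      funext i
      rw [hg]
      fin_cases i
      · change aeval ![xx, yy, zz, 1] (X 0 * X 3 : S) = xx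
        rw [map_mul, aeval_X, aeval_X]
        exact mul_one xx
      · change aeval ![xx, yy, zz, 1] (X 1 * X 3 : S) = yy
        rw [map_mul, aeval_X, aeval_X]
        exact mul_one yy
      · change aeval ![xx, yy, zz, 1]
          (-(X 2 * X 3) - C q0⁻¹ * (X 0 * X 1 + X 3 * lf l) : S) = u
        rw [map_sub, map_neg, map_mul, map_mul, map_add, map_mul, map_mul, hlf, aeval_C, hc0i,
          aeval_X, aeval_X, aeval_X, aeval_X]
        change -(zz * 1) - c0⁻¹ * (xx * yy + 1 * lam) = u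
        rw [hzz]
        ring
      · change aeval ![xx, yy, zz, 1] (X 3 * X 3 : S) = 1
        rw [map_mul, aeval_X]
        exact mul_one 1
    rw [h1]
  have hBx' : aeval x' (aeval g B : S) = s ^ (2 * k) * (u ^ k * aeval x B) := by
    rw [hx', scale hBh, hBw]
  have hne : u ^ k * aeval x B ≠ 0 := mul_ne_zero (pow_ne_zero _ hun) hBx
  have hne' : s ^ (2 * k) * (u ^ k * aeval x B) ≠ 0 := mul_ne_zero (pow_ne_zero _ hsn) hne
  have hfin := amid hpt h0 h3 hInd (by rw [ho0, ho1]; linarith) (by rw [ho0, ho1]; linarith)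
    (by rw [ho0, ho1, ho3]; linarith) (2 * k) (aeval g B : S) hBh (by rw [hBx']; exact hne')
  rw [hBx', HahnSeries.order_mul (pow_ne_zero _ hsn) hne,
    HahnSeries.order_mul (pow_ne_zero _ hun) hBx, order_pow' hsn, order_pow' hun, huo, ho3,
    hso] at hfin
  rw [← hv]
  push_cast at hfin
  linarith

end Pool.Agent.CLN
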