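import Mathlib

/-!
# CLN / Approx: solving for the third variable up to high order

`R = ℂ[u, v, s]`, `m = (u, v, s)`, `F = s U + K0(u, v)`, `U(0) ≠ 0`, `K0(0) = 0`.  Claim: for all `N`
and `B` there is `p ∈ ℂ[u, v]` with `B - p ∈ (F) + m^N`.
The set `A_N` of such `B` is a subring containing `ℂ, u, v` (`(F) + m^N` is an ideal), so it is enough
that `s ∈ A_N`.  Induction on `N`; `N = 0, 1` clear (`s ∈ m`).  Let `U = q0 + K1`, `K1 ∈ m`:
`q0 s = F - s K1 - K0`.  By induction `s = H + M + F C`, `K1 = k + M' + F C'` with `H, k ∈ ℂ[u, v]`,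
`M, M' ∈ m^N`, `N ≥ 1`; the constant terms of `H`, `k` are `0` (`F ∈ m`), so `H, k ∈ m` and
`s K1 ≡ H k + H M' + M k + M M' ≡ H k mod (F) + m^(N+1)`.
-/

set_option autoImplicit false

namespace Pool.Agent.CLN

open MvPolynomial

/-- The ring of polynomials in three variables. -/
abbrev R3 : Type := MvPolynomial (Fin 3) ℂ

private theorem apx_set : ({(X 0 : R3), X 1, X 2} : Set R3) = X '' (Set.univ : Set (Fin 3)) := by
  ext a
  simp only [Set.mem_insert_iff, Set.mem_singleton_iff, Set.image_univ, Set.mem_range]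
  constructor
  · rintro (rfl | rfl | rfl)
    · exact ⟨0, rfl⟩
    · exact ⟨1, rfl⟩
    · exact ⟨2, rfl⟩
  · rintro ⟨i, rfl⟩
    fin_cases i
    · exact Or.inl rfl
    · exact Or.inr (Or.inl rfl)
    · exact Or.inr (Or.inr rfl)

private theorem apx_m (B : R3) : B ∈ Ideal.span {(X 0 : R3), X 1, X 2} ↔ constantCoeff B = 0 := by
  rw [apx_set, mem_ideal_span_X_image]
  constructor
  · intro h
    rw [constantCoeff_eq]
    by_contra hc
    obtain ⟨i, -, hi⟩ := h 0 (mem_support_iff.2 hc)
    exact hi rfl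
  · intro h m hm
    have hm0 : m ≠ 0 := by
      rintro rfl
      rw [constantCoeff_eq] at h
      exact (mem_support_iff.1 hm) h
    obtain ⟨i, hi⟩ := Finsupp.ne_iff.1 hm0
    exact ⟨i, Set.mem_univ _, hi⟩

/-- It is enough to treat `X 2`. -/
private theorem apx_all (I : Ideal R3)
    (h : ∃ p : MvPolynomial (Fin 2) ℂ, (X 2 : R3) - aeval ![(X 0 : R3), X 1] p ∈ I) (B : R3) :
    ∃ p : MvPolynomial (Fin 2) ℂ, B - aeval ![(X 0 : R3), X 1] p ∈ I := by
  obtain ⟨p2, hp2⟩ := h
  induction B using MvPolynomial.induction_on with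
  | C a =>
    refine ⟨C a, ?_⟩
    have : aeval ![(X 0 : R3), X 1] (C a : MvPolynomial (Fin 2) ℂ) = C a := by
      rw [aeval_C]
      rfl
    rw [this, sub_self]
    exact I.zero_mem
  | add B B' h h' =>
    obtain ⟨p, hp⟩ := h
    obtain ⟨p', hp'⟩ := h'
    refine ⟨p + p', ?_⟩
    rw [map_add]
    have e : B + B' - (aeval ![(X 0 : R3), X 1] p + aeval ![(X 0 : R3), X 1] p') =
        (B - aeval ![(X 0 : R3), X 1] p) + (B' - aeval ![(X 0 : R3), X 1] p') := by ring
    rw [e]
    exact I.add_mem hp hp'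
  | mul_X B i h =>
    obtain ⟨p, hp⟩ := h
    have hi : ∃ q : MvPolynomial (Fin 2) ℂ, (X i : R3) - aeval ![(X 0 : R3), X 1] q ∈ I := by
      fin_cases i
      · refine ⟨X 0, ?_⟩
        rw [aeval_X]
        simp
      · refine ⟨X 1, ?_⟩
        rw [aeval_X]
        simp
      · exact ⟨p2, hp2⟩
    obtain ⟨q, hq⟩ := hi
    refine ⟨p * q, ?_⟩
    rw [map_mul]
    have e : B * X i - aeval ![(X 0 : R3), X 1] p * aeval ![(X 0 : R3), X 1] q =
        (B - aeval ![(X 0 : R3), X 1] p) * X i +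
          aeval ![(X 0 : R3), X 1] p * (X i - aeval ![(X 0 : R3), X 1] q) := by ring
    rw [e]
    exact I.add_mem (I.mul_mem_right _ hp) (I.mul_mem_left _ hq)

theorem approx (F U : R3) (K0 : MvPolynomial (Fin 2) ℂ)
    (hF : F = X 2 * U + aeval ![X 0, X 1] K0) (hU : constantCoeff U ≠ 0)
    (hK : constantCoeff K0 = 0) (N : ℕ) (B : R3) :
    ∃ p : MvPolynomial (Fin 2) ℂ, B - aeval ![(X 0 : R3), X 1] p ∈
      Ideal.span {F} ⊔ Ideal.span {(X 0 : R3), X 1, X 2} ^ N := by
  obtain ⟨m, hm⟩ : ∃ m : Ideal R3, m = Ideal.span {(X 0 : R3), X 1, X 2} := ⟨_, rfl⟩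
  obtain ⟨φ, hφ⟩ : ∃ φ : MvPolynomial (Fin 2) ℂ →ₐ[ℂ] R3, φ = aeval ![(X 0 : R3), X 1] := ⟨_, rfl⟩
  have hmm : ∀ B : R3, B ∈ m ↔ constantCoeff B = 0 := by
    intro B
    rw [hm]
    exact apx_m B
  have hφc : ∀ p, constantCoeff (φ p) = constantCoeff p := by
    intro p
    rw [hφ]
    induction p using MvPolynomial.induction_on with
    | C a =>
      rw [aeval_C]
      simp [constantCoeff_C, algebraMap_eq]
    | add p q hp hq => rw [map_add, map_add, hp, hq, map_add]
    | mul_X p i hp =>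
      rw [map_mul, map_mul, map_mul, aeval_X, constantCoeff_X, mul_zero]
      fin_cases i
      · simp
      · simp
  have hX2 : (X 2 : R3) ∈ m := by
    rw [hmm, constantCoeff_X]
  rw [← hφ] at hF
  have hFm : F ∈ m := by
    rw [hmm, hF, map_add, map_mul, constantCoeff_X, zero_mul, zero_add, hφc, hK]
  rw [← hm, ← hφ]
  induction N generalizing B with
  | zero =>
    refine ⟨0, ?_⟩
    rw [pow_zero, Ideal.one_eq_top, sup_top_eq]
    exact Submodule.mem_top
  | succ N ih =>
    rcases Nat.eq_zero_or_pos N with rfl | hN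
    · rw [hφ]
      refine apx_all _ ⟨0, ?_⟩ B
      rw [map_zero, sub_zero, zero_add, pow_one]
      exact Ideal.mem_sup_right hX2
    · rw [hφ]
      refine apx_all _ ?_ B
      rw [← hφ]
      obtain ⟨K1, hK1⟩ : ∃ K1 : R3, K1 = U - C (constantCoeff U) := ⟨_, rfl⟩
      obtain ⟨H, hH⟩ := ih (X 2)
      obtain ⟨k, hk⟩ := ih K1
      obtain ⟨a, ha, M, hM, haM⟩ := Submodule.mem_sup.1 hH
      obtain ⟨a', ha', M', hM', haM'⟩ := Submodule.mem_sup.1 hk
      obtain ⟨c, rfl⟩ := Ideal.mem_span_singleton'.1 ha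
      obtain ⟨c', rfl⟩ := Ideal.mem_span_singleton'.1 ha'
      have hpw : m ^ N ≤ m := by
        calc m ^ N ≤ m ^ 1 := Ideal.pow_le_pow_right hN
          _ = m := pow_one m
      have hHm : φ H ∈ m := by
        have e : φ H = X 2 - (c * F + M) := by rw [haM]; ring
        rw [e]
        exact m.sub_mem hX2 (m.add_mem (m.mul_mem_left _ hFm) (hpw hM))
      have hK1m : K1 ∈ m := by
        rw [hmm, hK1, map_sub, constantCoeff_C, sub_self]
      have hkm : φ k ∈ m := by
        have e : φ k = K1 - (c' * F + M') := by rw [haM']; ring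
        rw [e]
        exact m.sub_mem hK1m (m.add_mem (m.mul_mem_left _ hFm) (hpw hM'))
      refine ⟨C (constantCoeff U)⁻¹ * (-(H * k) - K0), ?_⟩
      have hC : φ (C (constantCoeff U)⁻¹) = C (constantCoeff U)⁻¹ := by
        rw [hφ, aeval_C]
        rfl
      have hCC : (C (constantCoeff U)⁻¹ : R3) * C (constantCoeff U) = 1 := by
        rw [← C_mul, inv_mul_cancel₀ hU, C_1]
      have e1 : X 2 = φ H + M + c * F := by
        linear_combination -haM
      have e2 : K1 = φ k + M' + c' * F := by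
        linear_combination -haM'
      have e3 : (C (constantCoeff U) : R3) = U - K1 := by rw [hK1]; ring
      have e4 : (X 2 : R3) - φ (C (constantCoeff U)⁻¹ * (-(H * k) - K0)) =
          C (constantCoeff U)⁻¹ * (F * (1 - (φ H + M + c * F) * c' - c * (φ k + M')) -
            (φ H * M' + M * φ k + M * M')) := by
        rw [map_mul, hC, map_sub, map_neg, map_mul]
        have e5 : (X 2 : R3) = C (constantCoeff U)⁻¹ * (C (constantCoeff U) * X 2) := by
          rw [← mul_assoc, hCC, one_mul]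
        have e6 : (C (constantCoeff U) : R3) * X 2 = F - X 2 * K1 - φ K0 := by
          rw [e3]
          linear_combination -hF
        have e7 : (X 2 : R3) * K1 = (φ H + M + c * F) * (φ k + M' + c' * F) := by
          rw [← e1, ← e2]
        rw [e7] at e6
        rw [e6] at e5
        linear_combination e5
      rw [e4]
      refine Ideal.mul_mem_left _ _ ?_
      refine Submodule.sub_mem _ (Ideal.mem_sup_left
        (Ideal.mul_mem_right _ _ (Ideal.mem_span_singleton_self F))) (Ideal.mem_sup_right ?_)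
      rw [pow_succ']
      refine Ideal.add_mem _ (Ideal.add_mem _ (Ideal.mul_mem_mul hHm hM') ?_)
        (Ideal.mul_mem_mul (hpw hM) hM')
      rw [mul_comm M]
      exact Ideal.mul_mem_mul hkm hM

end Pool.Agent.CLN
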