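import Pool.Agent.CLN.BcA
import Pool.Agent.CLN.AmC

/-!
# CLN / Bc: the plane section is a conic and a line

`e0 = 0`, `e3 ≠ 0`, `K = xz + e3 y^2`, `cub = y K + h q`.  `κ := x_0 + e3 x_1^2` (value of `K`),
`α = V(κ) > 0`, `β = V(x_1)`, `V(x_3) = α + β`.
`step`: if `B = y B' + h B''` then `B1 := - q B' + K B''` satisfies `K B ≡ h B1`, `q B ≡ - y B1` modulo
`cub` (direct computation).
`chain j`: there is a form `B_j` of degree `k + j` with `cub ∣ K^j B - h^j B_j`,
`cub ∣ q^j B - (-y)^j B_j`.  Then `κ^j B(x) = x_3^j B_j(x)`, so `B_j(x) ≠ 0`,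
`V(B) = j β + V(B_j) ≥ j β`; so there is a largest `j = m` for which such a `B_m` exists.  By `step`
and `line_y`, `B_m(X, 0, 1, 0) ≠ 0`: take an index `n` with a nonzero coefficient, `n ≤ k + m`;
`local_formB` for the arc `(X, 0, 1, 0)` (`n0 = 1`, `n1` large, factor `1/α`): `V(B_m) ≤ (k + m) α`, so
(II) `V(B) ≤ m β + (k + m) α`.
Conic: `P = (-e3 X^2, X, 1, 0)`, `P' = (-e3, X, X^2, 0)` (`rev_coeff`, `e = 2`).  If `B(P) ≠ 0`: index
`n` with nonzero coefficient; `local_formB` for the arc `P` (`y_0 y_2 + e3 y_1^2 = 0`, `n0` large,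
`n1 = 1`, factor `1/β`): `V(B) ≤ n β`; and `q(P')^m B(P') = (-X)^m B_m(P')`, `q(P')` has the constant
term `e3^2 q(1,0,0,0) ≠ 0`, so `X^m ∣ B(P')` and `2k - n ≥ m`: (I) `V(B) ≤ (2k - m) β`.
(I), (II) imply `V(B) ≤ k (α + β)`: if `(k - m) β ≤ k α` use (I), otherwise `m < k` and
`m α ≤ k α < (k - m) β`, use (II).
If `B(P) = 0` and `B(X, 0, 1, 0) ≠ 0`: `V(B) ≤ k α` (the case `m = 0` of (II), directly with
`local_formB`).  If both vanish: `plane_conic`, `B = h B' + cub E`, induction on `k`.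
-/

set_option autoImplicit false

namespace Pool.Agent.CLN

open MvPolynomial Pool.Agent.CLU

section Aux

private theorem bc_eval_scale (F : S) (d : ℕ) (hF : F.IsHomogeneous d) (μ : ℂ)
    (y : Fin 4 → ℂ) : eval (fun i => μ * y i) F = μ ^ d * eval y F := by
  rw [eval_eq', eval_eq', Finset.mul_sum]
  refine Finset.sum_congr rfl fun m hm => ?_
  have h1 : ∑ i, m i = d := by
    have h2 := hF (mem_support_iff.1 hm)
    rw [Finsupp.weight_apply, Finsupp.sum_fintype _ _ (fun i => by simp)] at h2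
    simpa using h2
  simp_rw [mul_pow, Finset.prod_mul_distrib, Finset.prod_pow_eq_pow_sum, h1]
  ring

/-- the parametrised line -/
private noncomputable def bcL : Fin 4 → Polynomial ℂ := ![Polynomial.X, 0, 1, (0 : Polynomial ℂ)]

/-- the parametrised conic -/
private noncomputable def bcQ (e3 : ℂ) : Fin 4 → Polynomial ℂ :=
  ![-(Polynomial.C e3 * Polynomial.X ^ 2), Polynomial.X, 1, (0 : Polynomial ℂ)]

/-- the reversed conic -/
private noncomputable def bcR (e3 : ℂ) : Fin 4 → Polynomial ℂ :=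
  ![-(Polynomial.C e3), Polynomial.X, Polynomial.X ^ 2, (0 : Polynomial ℂ)]

private theorem bc_cub_apply {A : Type*} [CommRing A] [Algebra ℂ A] (e0 e3 : ℂ) (q : S)
    (P : Fin 4 → A) : aeval P (cub e0 e3 q) = P 0 * P 1 * P 2 + algebraMap ℂ A e0 * P 0 ^ 3 +
      algebraMap ℂ A e3 * P 1 ^ 3 + P 3 * aeval P q := by
  unfold cub
  simp only [map_add, map_mul, map_pow, aeval_X, aeval_C]

private theorem bc_cub_L (e3 : ℂ) (q : S) : aeval bcL (cub 0 e3 q) = 0 := by
  rw [bc_cub_apply]
  simp [bcL]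

private theorem bc_cub_Q (e3 : ℂ) (q : S) : aeval (bcQ e3) (cub 0 e3 q) = 0 := by
  rw [bc_cub_apply]
  simp only [bcQ, Matrix.cons_val_zero, Matrix.cons_val_one, Matrix.cons_val,
    Polynomial.algebraMap_eq, Polynomial.C_0]
  ring

private theorem bc_cub_R (e3 : ℂ) (q : S) : aeval (bcR e3) (cub 0 e3 q) = 0 := by
  rw [bc_cub_apply]
  simp only [bcR, Matrix.cons_val_zero, Matrix.cons_val_one, Matrix.cons_val,
    Polynomial.algebraMap_eq, Polynomial.C_0]
  ring

private theorem bc_deg_L (i : Fin 4) : (bcL i).natDegree ≤ 1 := by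
  fin_cases i
  · change (Polynomial.X : Polynomial ℂ).natDegree ≤ 1
    exact Polynomial.natDegree_X_le
  · change (0 : Polynomial ℂ).natDegree ≤ 1
    simp
  · change (1 : Polynomial ℂ).natDegree ≤ 1
    simp
  · change (0 : Polynomial ℂ).natDegree ≤ 1
    simp

private theorem bc_deg_Q (e3 : ℂ) (i : Fin 4) : (bcQ e3 i).natDegree ≤ 2 := by
  fin_cases i
  · change (-(Polynomial.C e3 * Polynomial.X ^ 2) : Polynomial ℂ).natDegree ≤ 2
    rw [Polynomial.natDegree_neg]
    exact Polynomial.natDegree_C_mul_X_pow_le e3 2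
  · change (Polynomial.X : Polynomial ℂ).natDegree ≤ 2
    exact Polynomial.natDegree_X_le.trans (by norm_num)
  · change (1 : Polynomial ℂ).natDegree ≤ 2
    simp
  · change (0 : Polynomial ℂ).natDegree ≤ 2
    simp

private theorem bc_refl_Q (e3 : ℂ) (i : Fin 4) : bcR e3 i = (bcQ e3 i).reflect 2 := by
  fin_cases i
  · change -(Polynomial.C e3) = (-(Polynomial.C e3 * Polynomial.X ^ 2) : Polynomial ℂ).reflect 2
    rw [Polynomial.reflect_neg, Polynomial.reflect_C_mul_X_pow, Polynomial.revAt_le le_rfl]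
    simp
  · change Polynomial.X = (Polynomial.X : Polynomial ℂ).reflect 2
    have h := Polynomial.reflect_monomial (R := ℂ) 2 1
    rw [pow_one, Polynomial.revAt_le (by norm_num)] at h
    rw [h]
    norm_num
  · change Polynomial.X ^ 2 = (1 : Polynomial ℂ).reflect 2
    rw [Polynomial.reflect_one]
  · change 0 = (0 : Polynomial ℂ).reflect 2
    rw [Polynomial.reflect_zero]

private theorem bc_exists_coeff {p : Polynomial ℂ} (hp : p ≠ 0) : ∃ n, p.coeff n ≠ 0 := by
  by_contra h
  push Not at h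
  exact hp (Polynomial.ext fun n => by rw [h n, Polynomial.coeff_zero])

private theorem bc_const_R {e3 : ℂ} (h3 : e3 ≠ 0) {q : S} (hq : q.IsHomogeneous 2)
    (hqx : eval (Pi.single 0 1) q ≠ 0) : (aeval (bcR e3) q).coeff 0 ≠ 0 := by
  have h1 : (aeval (bcR e3) q).coeff 0 = (-e3) ^ 2 * eval (Pi.single 0 1) q := by
    rw [← bc_eval_scale q 2 hq, Polynomial.coeff_zero_eq_aeval_zero, comp_aeval_apply]
    change eval (fun i => Polynomial.aeval (0 : ℂ) (bcR e3 i)) q = _
    congr 2
    funext i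
    fin_cases i
    · simp [bcR]
    · simp [bcR]
    · simp [bcR]
    · simp [bcR]
  rw [h1]
  exact mul_ne_zero (pow_ne_zero _ (neg_ne_zero.2 h3)) hqx

end Aux

theorem bc {e3 : ℂ} {q : S} {x : Fin 4 → HH} (h : Pt 0 e3 q x) (h3 : e3 ≠ 0)
    (hqx : eval (Pi.single 0 1) q ≠ 0)
    (hκ : x 0 + algebraMap ℂ HH e3 * x 1 ^ 2 ≠ 0)
    (hκ0 : 0 < (x 0 + algebraMap ℂ HH e3 * x 1 ^ 2).order)
    (hind : Ind (x 0 + algebraMap ℂ HH e3 * x 1 ^ 2).order (x 1).order)
    (hs : (x 3).order = (x 0 + algebraMap ℂ HH e3 * x 1 ^ 2).order + (x 1).order)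
    (k : ℕ) (B : S) (hB : B.IsHomogeneous k) (hBx : aeval x B ≠ 0) :
    (aeval x B).order ≤ k * (x 3).order := by
  induction k using Nat.strong_induction_on generalizing B with
  | _ k ih =>
  have hB0 : B ≠ 0 := fun h0 => hBx (by rw [h0, map_zero])
  have hβ0 := h.pos1
  by_cases hQ : aeval (bcQ e3) B = 0
  · by_cases hL : aeval bcL B = 0
    · -- both vanish
      obtain ⟨B', E, j, hkj, hB', hBE⟩ := plane_conic h3 h.q_hom k B hB hB0 hL hQ
      have h1 : aeval x B = x 3 * aeval x B' := by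
        rw [hBE, map_add, map_mul, map_mul, aeval_X, h.rel, zero_mul, add_zero]
      have h2 : aeval x B' ≠ 0 := fun h0 => hBx (by rw [h1, h0, mul_zero])
      have h4 := ih j (by omega) B' hB' h2
      rw [h1, HahnSeries.order_mul h.ne3 h2, hkj]
      push_cast
      linarith
    · -- the line
      obtain ⟨n, hn⟩ := bc_exists_coeff hL
      have hnk := (rev_coeff 1 k bcL (fun i => (bcL i).reflect 1) bc_deg_L (fun i => rfl) B hB n
        hn).1
      have h1 := local_formB h hκ hind k B hB hBx (fun i => ((bcL i : Polynomial ℂ) :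
        PowerSeries ℂ)) (by simp [bcL]) (by simp [bcL]) (by simp [bcL]) (by simp [bcL])
        (by rw [aeval_coe, bc_cub_L, Polynomial.coe_zero])
        (1 / (x 0 + algebraMap ℂ HH e3 * x 1 ^ 2).order) (by positivity) 1
        ⌈1 / (x 0 + algebraMap ℂ HH e3 * x 1 ^ 2).order * (x 1).order⌉₊ (by simp [bcL])
        (by simp [bcL]) (by rw [one_div_mul_cancel hκ0.ne']; simp) (Nat.le_ceil _) n
        (by rw [aeval_coe]; exact not_X_pow_dvd _ n hn)
      rw [one_div, inv_mul_le_iff₀ hκ0] at h1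
      have h2 : (n : ℝ) ≤ k := by
        have h3 : n ≤ k := by omega
        exact_mod_cast h3
      rw [hs]
      have h4 : (x 0 + algebraMap ℂ HH e3 * x 1 ^ 2).order * n ≤
          (x 0 + algebraMap ℂ HH e3 * x 1 ^ 2).order * k :=
        mul_le_mul_of_nonneg_left h2 hκ0.le
      have h5 : 0 ≤ (k : ℝ) * (x 1).order := by positivity
      linarith
  · -- the conic
    obtain ⟨n, hn⟩ := bc_exists_coeff hQ
    obtain ⟨hnk, hn'⟩ := rev_coeff 2 k (bcQ e3) (bcR e3) (bc_deg_Q e3) (bc_refl_Q e3) B hB n hn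
    obtain ⟨m, Bm, hBm, hdvd, hII⟩ := bc_chain h hκ hκ0 hind hs k B hB hBx
    -- (I)
    have h1 := local_formB h hκ hind k B hB hBx (fun i => ((bcQ e3 i : Polynomial ℂ) :
        PowerSeries ℂ))
        (by
          simp only [bcQ, Matrix.cons_val_zero]
          rw [PowerSeries.X_dvd_iff]
          simp)
        (by simp [bcQ]) (by simp [bcQ]) (by simp [bcQ])
        (by rw [aeval_coe, bc_cub_Q, Polynomial.coe_zero])
        (1 / (x 1).order) (by positivity)
        ⌈1 / (x 1).order * (x 0 + algebraMap ℂ HH e3 * x 1 ^ 2).order⌉₊ 1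
        (by
          have h2 : ((bcQ e3 0 : Polynomial ℂ) : PowerSeries ℂ) * ((bcQ e3 2 : Polynomial ℂ) :
              PowerSeries ℂ) + algebraMap ℂ (PowerSeries ℂ) e3 *
                ((bcQ e3 1 : Polynomial ℂ) : PowerSeries ℂ) ^ 2 = 0 := by
            have h3 : algebraMap ℂ (PowerSeries ℂ) e3 = ((Polynomial.C e3 : Polynomial ℂ) :
                PowerSeries ℂ) := by
              rw [Polynomial.coe_C]
              rfl
            rw [h3, ← Polynomial.coe_mul, ← Polynomial.coe_pow, ← Polynomial.coe_mul,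
              ← Polynomial.coe_add]
            have h4 : bcQ e3 0 * bcQ e3 2 + Polynomial.C e3 * bcQ e3 1 ^ 2 = 0 := by
              simp only [bcQ, Matrix.cons_val_zero, Matrix.cons_val_one, Matrix.cons_val]
              ring
            rw [h4, Polynomial.coe_zero]
          rw [h2]
          exact dvd_zero _)
        (by simp [bcQ]) (Nat.le_ceil _) (by rw [one_div_mul_cancel hβ0.ne']; simp) n
        (by rw [aeval_coe]; exact not_X_pow_dvd _ n hn)
    rw [one_div, inv_mul_le_iff₀ hβ0] at h1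
    -- the multiplicity at the other end
    have h5 : (aeval (bcR e3) q) ^ m * aeval (bcR e3) B =
        (-Polynomial.X) ^ m * aeval (bcR e3) Bm := by
      obtain ⟨E, hE⟩ := hdvd
      have h6 := congrArg (aeval (bcR e3)) hE
      rw [map_sub, map_mul, map_mul, map_mul, map_pow, map_pow, map_neg, aeval_X, bc_cub_R,
        zero_mul, sub_eq_zero] at h6
      exact h6
    have h6 : Polynomial.X ^ m ∣ aeval (bcR e3) B := by
      have h7 : Polynomial.X ^ m ∣ (aeval (bcR e3) q) ^ m * aeval (bcR e3) B := by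
        rw [h5, neg_pow, mul_assoc]
        exact (Dvd.intro _ rfl : Polynomial.X ^ m ∣ Polynomial.X ^ m * aeval (bcR e3) Bm).mul_left _
      refine Polynomial.prime_X.pow_dvd_of_dvd_mul_left m ?_ h7
      intro h8
      have h9 := Polynomial.prime_X.dvd_of_dvd_pow h8
      rw [Polynomial.X_dvd_iff] at h9
      exact bc_const_R h3 h.q_hom hqx h9
    have h7 : m ≤ 2 * k - n := by
      by_contra hcon
      push Not at hcon
      exact hn' (coeff_eq_zero_of_X_pow_dvd _ m _ h6 hcon)
    have h8 : (n : ℝ) ≤ 2 * k - m := by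
      have h9 : n + m ≤ 2 * k := by omega
      have h10 : (n : ℝ) + m ≤ 2 * k := by exact_mod_cast h9
      linarith
    have h9 : (aeval x B).order ≤ (2 * k - m) * (x 1).order := by
      have := mul_le_mul_of_nonneg_left h8 hβ0.le
      linarith
    rw [hs]
    rcases le_or_gt (((k : ℝ) - m) * (x 1).order)
      (k * (x 0 + algebraMap ℂ HH e3 * x 1 ^ 2).order) with hc | hc
    · linarith
    · have h10 : (m : ℝ) ≤ k := by
        by_contra hcon
        push Not at hcon
        have h11 : ((k : ℝ) - m) * (x 1).order ≤ 0 :=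
          mul_nonpos_of_nonpos_of_nonneg (by linarith) hβ0.le
        have h12 : 0 ≤ (k : ℝ) * (x 0 + algebraMap ℂ HH e3 * x 1 ^ 2).order := by positivity
        linarith
      have h13 := mul_le_mul_of_nonneg_right h10 hκ0.le
      linarith

end Pool.Agent.CLN
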