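import Pool.Agent.CLN.LocForm
import Pool.Agent.CLN.Rev
import Pool.Agent.CLN.AmA

/-!
# CLN / BcA: the plane section is a conic and a line, first part (`bc_step`, `bc_chain`)

`e0 = 0`, `e3 ≠ 0`, `K = xz + e3 y^2`, `cub = y K + h q`.  `κ := x_0 + e3 x_1^2` (value of `K`),
`α = V(κ) > 0`, `β = V(x_1)`, `V(x_3) = α + β`.
`step`: if `B = y B' + h B''` then `B1 := - q B' + K B''` satisfies `K B ≡ h B1`, `q B ≡ - y B1` modulo
`cub` (direct computation).
`chain j`: there is a form `B_j` of degree `k + j` with `cub ∣ K^j B - h^j B_j`,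
`cub ∣ q^j B - (-y)^j B_j`.  Then `κ^j B(x) = x_3^j B_j(x)`, so `B_j(x) ≠ 0`,
`V(B) = j β + V(B_j) ≥ j β`; so there is a largest `j = m` for which such a `B_m` exists.  By `step`
and `line_y`, `B_m(X, 0, 1, 0) ≠ 0`: take an index `n` with a nonzero coefficient, `n ≤ k + m`;
`local_formB` for the arc `(X, 0, 1, 0)` (`n0 = 1`, `n1` large, factor `1/α`): `V(B_m) ≤ (k + m) α`, so
(II) `V(B) ≤ m β + (k + m) α`.
Conic: `P = (-e3 X^2, X, 1, 0)`, `P' = (-e3, X, X^2, 0)` (`rev_coeff`, `e = 2`).  If `B(P) ≠ 0`: index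
`n` with nonzero coefficient; `local_formB` for the arc `P` (`y_0 y_2 + e3 y_1^2 = 0`, `n0` large,
`n1 = 1`, factor `1/β`): `V(B) ≤ n β`; and `q(P')^m B(P') = (-X)^m B_m(P')`, `q(P')` has the constant
term `e3^2 q(1,0,0,0) ≠ 0`, so `X^m ∣ B(P')` and `2k - n ≥ m`: (I) `V(B) ≤ (2k - m) β`.
(I), (II) imply `V(B) ≤ k (α + β)`: if `(k - m) β ≤ k α` use (I), otherwise `m < k` and
`m α ≤ k α < (k - m) β`, use (II).
If `B(P) = 0` and `B(X, 0, 1, 0) ≠ 0`: `V(B) ≤ k α` (the case `m = 0` of (II), directly with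
`local_formB`).  If both vanish: `plane_conic`, `B = h B' + cub E`, induction on `k`.
-/

set_option autoImplicit false

namespace Pool.Agent.CLN

open MvPolynomial Pool.Agent.CLU

/-- The conic. -/
noncomputable def Kc (e3 : ℂ) : S := X 0 * X 2 + C e3 * X 1 ^ 2

theorem cub_eq_Kc (e3 : ℂ) (q : S) : cub 0 e3 q = X 1 * Kc e3 + X 3 * q := by
  unfold cub Kc
  rw [C_0]
  ring

theorem Kc_hom (e3 : ℂ) : (Kc e3).IsHomogeneous 2 := by
  unfold Kc
  have h1 : (X 0 * X 2 : S).IsHomogeneous (1 + 1) :=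
    (isHomogeneous_X ℂ 0).mul (isHomogeneous_X ℂ 2)
  have h2 : (C e3 * X 1 ^ 2 : S).IsHomogeneous (0 + 1 * 2) :=
    (isHomogeneous_C _ e3).mul ((isHomogeneous_X ℂ 1).pow 2)
  exact h1.add h2

theorem bc_ge_aeval {x : Fin 4 → HH} (hx : ∀ i, Ge 0 (x i)) (F : S) : Ge 0 (aeval x F) := by
  induction F using MvPolynomial.induction_on with
  | C a =>
    rw [aeval_C]
    exact ge_algebraMap a
  | add p q hp hq =>
    rw [map_add]
    exact hp.add hq
  | mul_X p i hp =>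
    rw [map_mul, aeval_X]
    have := hp.mul (hx i)
    rwa [add_zero] at this

theorem bc_step {e3 : ℂ} {q : S} (hq : q.IsHomogeneous 2) (j : ℕ) (B B' B'' : S)
    (hB' : B'.IsHomogeneous j) (hB'' : B''.IsHomogeneous j)
    (hB : B = X 1 * B' + X 3 * B'') :
    ∃ B1 : S, B1.IsHomogeneous (j + 2) ∧ cub 0 e3 q ∣ Kc e3 * B - X 3 * B1 ∧
      cub 0 e3 q ∣ q * B - (-X 1) * B1 := by
  have hc := cub_eq_Kc e3 q
  have hK : (Kc e3).IsHomogeneous 2 := Kc_hom e3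
  refine ⟨-q * B' + Kc e3 * B'', ?_, ⟨B', ?_⟩, ⟨B'', ?_⟩⟩
  · have h1 : (-q * B').IsHomogeneous (2 + j) := hq.neg.mul hB'
    have h2 : (Kc e3 * B'').IsHomogeneous (2 + j) := hK.mul hB''
    rw [add_comm j 2]
    exact h1.add h2
  · rw [hB, hc]
    ring
  · rw [hB, hc]
    ring

/-- (II) together with the divisibility at the second point. -/
theorem bc_chain {e3 : ℂ} {q : S} {x : Fin 4 → HH} (h : Pt 0 e3 q x)
    (hκ : x 0 + algebraMap ℂ HH e3 * x 1 ^ 2 ≠ 0)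
    (hκ0 : 0 < (x 0 + algebraMap ℂ HH e3 * x 1 ^ 2).order)
    (hind : Ind (x 0 + algebraMap ℂ HH e3 * x 1 ^ 2).order (x 1).order)
    (hs : (x 3).order = (x 0 + algebraMap ℂ HH e3 * x 1 ^ 2).order + (x 1).order)
    (k : ℕ) (B : S) (hB : B.IsHomogeneous k) (hBx : aeval x B ≠ 0) :
    ∃ (m : ℕ) (Bm : S), Bm.IsHomogeneous (k + m) ∧ cub 0 e3 q ∣ q ^ m * B - (-X 1) ^ m * Bm ∧
      (aeval x B).order ≤ m * (x 1).order +
        (k + m) * (x 0 + algebraMap ℂ HH e3 * x 1 ^ 2).order := by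
  obtain ⟨κ, hκe⟩ : ∃ κ : HH, κ = x 0 + algebraMap ℂ HH e3 * x 1 ^ 2 := ⟨_, rfl⟩
  have hlf := fun (d : ℕ) (B : S) (hBh : B.IsHomogeneous d) (hB : aeval x B ≠ 0) =>
    local_formB h hκ hind d B hBh hB
  rw [← hκe] at hκ hκ0 hind hs hlf ⊢
  have hx : ∀ i, Ge 0 (x i) := by
    intro i
    fin_cases i
    · exact ge_of_le_order h.pos0.le
    · exact ge_of_le_order h.pos1.le
    · change Ge 0 (x 2)
      rw [h.x2, ← map_one (algebraMap ℂ HH)]
      exact ge_algebraMap 1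
    · exact ge_of_le_order h.pos3.le
  have hKx : aeval x (Kc e3) = κ := by
    rw [hκe]
    unfold Kc
    rw [map_add, map_mul, map_mul, map_pow, aeval_X, aeval_X, aeval_X, aeval_C, h.x2, mul_one]
  have hcx : ∀ F G : S, cub 0 e3 q ∣ F - G → aeval x F = aeval x G := by
    intro F G hFG
    obtain ⟨E, hE⟩ := hFG
    have h1 := congrArg (aeval x) hE
    rw [map_sub, map_mul, h.rel, zero_mul] at h1
    exact sub_eq_zero.1 h1
  have hval : ∀ (j : ℕ) (Bj : S), cub 0 e3 q ∣ Kc e3 ^ j * B - X 3 ^ j * Bj →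
      aeval x Bj ≠ 0 ∧ (aeval x B).order = j * (x 1).order + (aeval x Bj).order := by
    intro j Bj hd
    have h1 := hcx _ _ hd
    rw [map_mul, map_pow, hKx, map_mul, map_pow, aeval_X] at h1
    have h2 : aeval x Bj ≠ 0 := by
      intro h0
      rw [h0, mul_zero] at h1
      exact mul_ne_zero (pow_ne_zero _ hκ) hBx h1
    refine ⟨h2, ?_⟩
    have h3 := congrArg HahnSeries.order h1
    rw [HahnSeries.order_mul (pow_ne_zero _ hκ) hBx,
      HahnSeries.order_mul (pow_ne_zero _ h.ne3) h2, HahnSeries.order_pow, HahnSeries.order_pow,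
      hs, nsmul_eq_mul, nsmul_eq_mul] at h3
    linarith
  obtain ⟨m, ⟨Bm, hBm, hd1, hd2⟩, hmax⟩ : ∃ m : ℕ, (∃ Bj : S, Bj.IsHomogeneous (k + m) ∧
      cub 0 e3 q ∣ Kc e3 ^ m * B - X 3 ^ m * Bj ∧ cub 0 e3 q ∣ q ^ m * B - (-X 1) ^ m * Bj) ∧
      ¬ (∃ Bj : S, Bj.IsHomogeneous (k + (m + 1)) ∧
      cub 0 e3 q ∣ Kc e3 ^ (m + 1) * B - X 3 ^ (m + 1) * Bj ∧
      cub 0 e3 q ∣ q ^ (m + 1) * B - (-X 1) ^ (m + 1) * Bj) := by
    by_contra hcon
    push Not at hcon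
    have hall : ∀ j : ℕ, ∃ Bj : S, Bj.IsHomogeneous (k + j) ∧
        cub 0 e3 q ∣ Kc e3 ^ j * B - X 3 ^ j * Bj ∧
        cub 0 e3 q ∣ q ^ j * B - (-X 1) ^ j * Bj := by
      intro j
      induction j with
      | zero =>
        refine ⟨B, hB, ?_, ?_⟩
        · rw [pow_zero, pow_zero, sub_self]
          exact dvd_zero _
        · rw [pow_zero, pow_zero, sub_self]
          exact dvd_zero _
      | succ j ih => exact hcon j ih
    obtain ⟨N, hN⟩ := exists_nat_gt ((aeval x B).order / (x 1).order)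
    obtain ⟨Bj, hBj, hj1, hj2⟩ := hall N
    obtain ⟨h4, h5⟩ := hval N Bj hj1
    have h6 : 0 ≤ (aeval x Bj).order := (bc_ge_aeval hx Bj).le_order h4
    rw [div_lt_iff₀ h.pos1] at hN
    linarith
  obtain ⟨hBmx, hord⟩ := hval m Bm hd1
  have hBm0 : Bm ≠ 0 := by
    rintro rfl
    exact hBmx (map_zero _)
  have hp : aeval ![Polynomial.X, 0, 1, (0 : Polynomial ℂ)] Bm ≠ 0 := by
    intro h0
    obtain ⟨B', B'', j, hj, hB', hB'', hBe⟩ := line_y (k + m) Bm hBm hBm0 h0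
    obtain ⟨B1, hB1, he1, he2⟩ := bc_step (e3 := e3) h.q_hom j Bm B' B'' hB' hB'' hBe
    refine hmax ⟨B1, ?_, ?_, ?_⟩
    · have : k + (m + 1) = j + 2 := by omega
      rw [this]
      exact hB1
    · have h7 : Kc e3 ^ (m + 1) * B - X 3 ^ (m + 1) * B1 =
          Kc e3 * (Kc e3 ^ m * B - X 3 ^ m * Bm) + X 3 ^ m * (Kc e3 * Bm - X 3 * B1) := by
        ring
      rw [h7]
      exact dvd_add (hd1.mul_left _) (he1.mul_left _)
    · have h7 : q ^ (m + 1) * B - (-X 1) ^ (m + 1) * B1 =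
          q * (q ^ m * B - (-X 1) ^ m * Bm) + (-X 1) ^ m * (q * Bm - (-X 1) * B1) := by
        ring
      rw [h7]
      exact dvd_add (hd2.mul_left _) (he2.mul_left _)
  obtain ⟨n, hn⟩ : ∃ n, (aeval ![Polynomial.X, 0, 1, (0 : Polynomial ℂ)] Bm).coeff n ≠ 0 :=
    ⟨_, Polynomial.leadingCoeff_ne_zero.2 hp⟩
  have hdeg : ∀ i, ((![Polynomial.X, 0, 1, (0 : Polynomial ℂ)] : Fin 4 → Polynomial ℂ)
      i).natDegree ≤ 1 := by
    intro i
    fin_cases i <;> simp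
  have hn2 : n ≤ 1 * (k + m) :=
    (rev_coeff 1 (k + m) ![Polynomial.X, 0, 1, (0 : Polynomial ℂ)] _ hdeg (fun i => rfl) Bm hBm
      n hn).1
  rw [one_mul] at hn2
  refine ⟨m, Bm, hBm, hd2, ?_⟩
  obtain ⟨n1, hn1⟩ := exists_nat_ge (1 / κ.order * (x 1).order)
  have hnd := not_X_pow_dvd _ n hn
  rw [← aeval_coe] at hnd
  have hfin := hlf (k + m) Bm hBm hBmx
    (fun i => ((![Polynomial.X, 0, 1, (0 : Polynomial ℂ)] i : Polynomial ℂ) : PowerSeries ℂ))
    (by simp) (by simp) (by simp) (by simp)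
    (by
      rw [aeval_coe]
      have : aeval ![Polynomial.X, 0, 1, (0 : Polynomial ℂ)] (cub 0 e3 q) = 0 := by
        rw [cub_eq_Kc, map_add, map_mul, map_mul, aeval_X, aeval_X]
        simp
      rw [this]
      simp)
    (1 / κ.order) (by positivity) 1 n1 (by simp) (by simp)
    (by
      rw [one_div, inv_mul_cancel₀ hκ0.ne']
      simp) hn1 n hnd
  rw [one_div, inv_mul_le_iff₀ hκ0] at hfin
  have h8 : (n : ℝ) ≤ k + m := by exact_mod_cast hn2
  have h9 : κ.order * n ≤ κ.order * (k + m) := mul_le_mul_of_nonneg_left h8 hκ0.le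
  rw [hord]
  linarith

end Pool.Agent.CLN
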