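import Pool.Agent.CLN.C1Defs

/-!
# CLN / C1Tor: quotients of forms which are units at the torus divisors

`G` is a torus surface if `torRing t q = surfRing G` for some irreducible `q` which divides no `X i`;
`E` is a torus divisor if `torRing t q = blowRing P` for such a `q`.
`tor_ne`: a torus surface `G` does not divide `b = f h` (`tor_not_dvd`), so `G ∤ f`, `G ∤ h`.
`inAll_ratio`: by `h.cd.tor` every `torRing t q` is `surfRing G` or `blowRing P`; in the first case
`G ∤ B` (hypothesis), so `A/B ∈ surfRing G`; in the second `mult P B ≤ mult P A`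
(`CLU.blowRing_eq`, `CLU.excRing`).
-/

set_option autoImplicit false

namespace Pool.Agent.CLN

open MvPolynomial Pool.Agent.CLU

/-- `G = 0` is a torus divisor. -/
def TorSurf (t : Fin 3 → K3) (G : S) : Prop :=
  Irreducible G ∧ (∃ g, G.IsHomogeneous g) ∧ ∃ q : MvPolynomial (Fin 3) ℂ, Irreducible q ∧
    (∀ i, ¬ q ∣ X i) ∧ torRing t q = surfRing G

/-- The exceptional divisor is a torus divisor. -/
def TorExc (t : Fin 3 → K3) (P : Ideal S) : Prop :=
  ∃ q : MvPolynomial (Fin 3) ℂ, Irreducible q ∧ (∀ i, ¬ q ∣ X i) ∧ torRing t q = blowRing P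

variable {P : Ideal S} {t : Fin 3 → K3} {θ : Fin 3 → Derivation ℂ K3 K3} {b : S}
  {c c1 l : Fin 4 → ℂ} {r : Fin 3 → ℝ} {w : Fin 3 → ℤ} {lead lead' : K3 → HH}
  {x x' : Fin 4 → HH}

theorem tor_ne (h : C1Data P t θ b c c1 l r w lead lead' x x') (G : S) (hG : TorSurf t G) :
    ¬ G ∣ diag c ∧ ¬ G ∣ lf l := by
  obtain ⟨hirr, ⟨g, hg⟩, q, hq, hqX, hO⟩ := hG
  have h1 := tor_not_dvd h.cd h.isb hirr hg q hq hqX hO
  rw [h.eq] at h1
  exact ⟨fun h2 => h1 (h2.mul_right _), fun h2 => h1 (h2.mul_left _)⟩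

theorem inAll_ratio (h : C1Data P t θ b c c1 l r w lead lead' x x') (A B : S) (d : ℕ)
    (hA : A.IsHomogeneous d) (hB : B.IsHomogeneous d) (hB0 : B ≠ 0)
    (hs : ∀ G, TorSurf t G → ¬ G ∣ B) (he : TorExc t P → mult P B ≤ mult P A) (a : K3)
    (ha : (a : L) = algebraMap S L A / algebraMap S L B) : InAll t a := by
  have := h.prime
  intro q hq hqX
  rcases h.cd.tor q hq hqX with ⟨e, G, hG, hGh, hO⟩ | hO
  · rw [hO]
    exact ⟨d, A, B, hA, hB, hs G ⟨hG, ⟨e, hGh⟩, q, hq, hqX, hO⟩, ha⟩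
  · rw [hO, blowRing_eq]
    exact ⟨d, A, B, hA, hB, hB0, he ⟨q, hq, hqX, hO⟩, ha⟩

/-- A nonzero element of `K3` is a quotient of two forms without common irreducible factor. -/
private theorem c1t_coprime_rep (a : K3) (ha : a ≠ 0) : ∃ (d : ℕ) (A B : S), A.IsHomogeneous d ∧
    B.IsHomogeneous d ∧ A ≠ 0 ∧ B ≠ 0 ∧ (a : L) = algebraMap S L A / algebraMap S L B ∧
    ∀ G : S, Irreducible G → G ∣ A → G ∣ B → False := by
  classical
  have ha' : (a : L) ≠ 0 := fun h => ha (Subtype.ext h)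
  have hex : ∃ d : ℕ, ∃ A B : S, A.IsHomogeneous d ∧ B.IsHomogeneous d ∧ B ≠ 0 ∧
      (a : L) = algebraMap S L A / algebraMap S L B := a.2
  obtain ⟨A, B, hA, hB, hB0, hab⟩ := Nat.find_spec hex
  have hA0 : A ≠ 0 := by
    rintro rfl
    rw [map_zero, zero_div] at hab
    exact ha' hab
  refine ⟨Nat.find hex, A, B, hA, hB, hA0, hB0, hab, fun G hG hGA hGB => ?_⟩
  obtain ⟨A', rfl⟩ := hGA
  obtain ⟨B', rfl⟩ := hGB
  obtain ⟨i, j, hij, hi, hj⟩ := KSF.homog_of_mul G A' _ hA hA0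
  obtain ⟨i', j', hij', hi', hj'⟩ := KSF.homog_of_mul G B' _ hB hB0
  have hii : i = i' := hi.inj_right hi' hG.ne_zero
  have hjj : j' = j := by omega
  have hi0 : i ≠ 0 := by
    rintro rfl
    have h1 : G = C (coeff 0 G) := totalDegree_eq_zero_iff_eq_C.1 (Nat.le_zero.1 hi.totalDegree_le)
    have h2 : coeff 0 G ≠ 0 := by
      intro h3
      rw [h3, map_zero] at h1
      exact hG.ne_zero h1
    refine hG.not_isUnit ?_
    rw [h1]
    exact (isUnit_iff_ne_zero.2 h2).map (C : ℂ →+* S)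
  refine Nat.find_min hex (m := j) (by omega) ⟨A', B', hj, hjj ▸ hj', right_ne_zero_of_mul hB0, ?_⟩
  rw [hab, map_mul, map_mul, mul_div_mul_left]
  simpa using hG.ne_zero

/-- If `a = A / B` is a unit at `G` and `G` is not a common factor, then `G` divides neither. -/
private theorem c1t_not_dvd_of_ord {G A B : S} (hG : Irreducible G) (hA : A ≠ 0) (hB : B ≠ 0) {a : L}
    (hab : a = algebraMap S L A / algebraMap S L B) (h0 : ordL G a = 0)
    (hc : G ∣ A → G ∣ B → False) : ¬ G ∣ A ∧ ¬ G ∣ B := by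
  rw [hab, ordL_div hG A B hA hB] at h0
  have h1 : multiplicity G A = multiplicity G B := by omega
  have h2 : G ∣ A ↔ G ∣ B := by
    rw [← not_iff_not, ← multiplicity_eq_zero, ← multiplicity_eq_zero, h1]
  exact ⟨fun h3 => hc h3 (h2.1 h3), fun h3 => hc (h2.2 h3) h3⟩

private theorem c1t_add_cancel {a b a' b' : ℕ∞} (h : a + b' = a' + b) (hle : b' ≤ a') (hb' : b' ≠ ⊤) :
    b ≤ a := by
  have h1 : b' + b ≤ b' + a := by
    calc b' + b ≤ a' + b := by gcongr
      _ = a + b' := h.symm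
      _ = b' + a := add_comm _ _
  exact (ENat.add_le_add_iff_left hb').1 h1

/-- If `a = A / B` is in the ring of the exceptional divisor, then `mult P B ≤ mult P A`. -/
private theorem c1t_mult_le_of_mem (P : Ideal S) [P.IsPrime] {A B : S} (hB : B ≠ 0) {a : K3}
    (hab : (a : L) = algebraMap S L A / algebraMap S L B) (ha : a ∈ blowRing P) :
    mult P B ≤ mult P A := by
  rw [blowRing_eq] at ha
  obtain ⟨d, A', B', hA', hB', hB0', hm, hab'⟩ := ha
  have h1 : algebraMap S L B ≠ 0 := by simpa using hB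
  have h2 : algebraMap S L B' ≠ 0 := by simpa using hB0'
  have h3 : A * B' = A' * B := by
    apply IsFractionRing.injective S L
    rw [map_mul, map_mul]
    exact (div_eq_div_iff h1 h2).1 (hab.symm.trans hab')
  have h4 : mult P A + mult P B' = mult P A' + mult P B := by
    rw [← mult_mul, ← mult_mul, h3]
  exact c1t_add_cancel h4 hm (mult_ne_top P B' hB0')

private theorem c1t_inv_monomial (m : Fin 3 → ℤ) :
    (∏ i, t i ^ m i : K3)⁻¹ = ∏ i, t i ^ ((fun i => - m i) i) := by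
  rw [← Finset.prod_inv_distrib]
  refine Finset.prod_congr rfl fun i _ => ?_
  rw [zpow_neg]

/-- A monomial is a quotient of two forms without common factors; torus surfaces do not divide
them, and the multiplicities along the curve agree if the exceptional divisor is a torus divisor. -/
theorem monomial_forms (h : C1Data P t θ b c c1 l r w lead lead' x x') (m : Fin 3 → ℤ)
    (hm : ∑ i, w i * m i = 0) : ∃ (d : ℕ) (A B : S), A.IsHomogeneous d ∧ B.IsHomogeneous d ∧
      A ≠ 0 ∧ B ≠ 0 ∧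
      (((∏ i, t i ^ m i : K3)) : L) = algebraMap S L A / algebraMap S L B ∧
      ¬ diag c ∣ A ∧ ¬ diag c ∣ B ∧ (∀ G, TorSurf t G → ¬ G ∣ A ∧ ¬ G ∣ B) ∧
      (TorExc t P → mult P A = mult P B) := by
  have := h.prime
  have ht : ∀ i, (t i : L) ≠ 0 := fun i h0 => h.cd.t_ne i (Subtype.ext h0)
  have ha : (∏ i, t i ^ m i : K3) ≠ 0 :=
    Finset.prod_ne_zero_iff.2 fun i _ => zpow_ne_zero _ (h.cd.t_ne i)
  obtain ⟨d, A, B, hA, hB, hA0, hB0, hab, hcop⟩ := c1t_coprime_rep _ ha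
  have hinv : ((∏ i, t i ^ m i : K3)⁻¹ : K3) = ∏ i, t i ^ ((fun i => - m i) i) := c1t_inv_monomial m
  have hin := inAll_monomial h.cd m
  have hin' : InAll t (∏ i, t i ^ m i : K3)⁻¹ := by
    rw [hinv]
    exact inAll_monomial h.cd _
  have hcinv : (((∏ i, t i ^ m i : K3)⁻¹ : K3) : L) = ((∏ i, t i ^ m i : K3) : L)⁻¹ := by
    push_cast
    rfl
  have hab' : (((∏ i, t i ^ m i : K3)⁻¹ : K3) : L) = algebraMap S L B / algebraMap S L A := by
    rw [hcinv, hab, inv_div]
  have hdiag : ¬ diag c ∣ A ∧ ¬ diag c ∣ B := by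
    refine c1t_not_dvd_of_ord h.irr hA0 hB0 hab ?_ (hcop _ h.irr)
    have h1 : ((∏ i, t i ^ m i : K3) : L) = ∏ i, (t i : L) ^ m i := by
      push_cast
      rfl
    rw [h1, ordL_prod h.irr _ _ fun i _ => zpow_ne_zero _ (ht i), ← hm]
    refine Finset.sum_congr rfl fun i _ => ?_
    rw [ordL_zpow h.irr _ (ht i), h.w_eq, mul_comm]
  refine ⟨d, A, B, hA, hB, hA0, hB0, hab, hdiag.1, hdiag.2, ?_, ?_⟩
  · rintro G ⟨hG, ⟨g, hg⟩, q, hq, hqX, hO⟩
    refine c1t_not_dvd_of_ord hG hA0 hB0 hab ?_ (hcop _ hG)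
    have h1 := hin q hq hqX
    have h2 := hin' q hq hqX
    rw [hO, mem_surfRing_iff hG hg _ ha] at h1
    rw [hO, mem_surfRing_iff hG hg _ (inv_ne_zero ha), hcinv, ordL_inv hG _ fun h0 => ha (Subtype.ext h0)] at h2
    omega
  · rintro ⟨q, hq, hqX, hO⟩
    have h1 := hin q hq hqX
    have h2 := hin' q hq hqX
    rw [hO] at h1 h2
    exact le_antisymm (c1t_mult_le_of_mem P hA0 hab' h2) (c1t_mult_le_of_mem P hB0 hab h1)

end Pool.Agent.CLN
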