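import Pool.Agent.CLN.C1Rho
import Pool.Agent.CLN.C1Tor

/-!
# CLN / C1Bound: the bound for forms without torus components

`φ = f_1 / f` (`f = diag c`, `f_1 = diag c1`), `ψ = f / h^3`, `h = lf l`.
`phi_rho`: `φ ∈` all torus rings (`inAll_ratio`: `tor_ne`, `mult_diag`), `rho_le`.
`bound`: let `A` be a form, `f ∤ A`, not divisible by torus surfaces; `sympow` (for `a' := c`, `a := c1`):
`n = mult P A`, `D = 3n + k`, `A ≡ f_1^n A1 mod f`.  `g = A / (f^n h^k)`, `g` and `g⁻¹` are in all torus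
rings (`inAll_ratio`, `mult P (f^n h^k) = n` by `mult_diag`, `mult_lf`, `CLU.mult_mul`), so
`g = κ ∏ t_i^{m_i}` (`monomial_of`) and its two orders are opposite (`lead_monomial`).
`g = β φ^n`, `β = A / (f_1^n h^k)`; `Lead.form`: `lead β = A(x) / (f_1(x)^n h(x)^k) = A1(x) / h(x)^k`
(`f(x) = 0`; `f ∤ f_1`, `f ∤ h`, so `f_1(x), h(x) ≠ 0` by `h.sl`).  `h.sl`: the order of `lead β` is `≤ 0`,
so `V(g) ≤ n ρ` and `V'(g) ≤ n ρ'`, `ρ = V(φ)`, `ρ' = V'(φ)`.  As `V(g) + V'(g) = 0` and `ρ + ρ' ≤ 0`: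
`V(g) = n ρ` and `n (ρ + ρ') = 0`.
`psi_bound`: `ψ φ = f_1 / h^3`, `Lead.form` and `h.sl` for `B = f_1`, `k = 3`.
-/

set_option autoImplicit false

namespace Pool.Agent.CLN

open MvPolynomial Pool.Agent.CLU

variable {P : Ideal S} {t : Fin 3 → K3} {θ : Fin 3 → Derivation ℂ K3 K3} {b : S}
  {c c1 l : Fin 4 → ℂ} {r : Fin 3 → ℝ} {w : Fin 3 → ℤ} {lead lead' : K3 → HH}
  {x x' : Fin 4 → HH}

private theorem c_ne49 (h : C1Data P t θ b c c1 l r w lead lead' x x') : c ≠ 0 ∧ c1 ≠ 0 := by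
  have h1 := h.nondeg 0 1 (by decide)
  constructor
  · rintro rfl
    apply h1
    simp
  · rintro rfl
    apply h1
    simp

private theorem l_ne49 (h : C1Data P t θ b c c1 l r w lead lead' x x') : l ≠ 0 := by
  intro h0
  apply h.l_ne 0
  rw [h0]
  rfl

private theorem lf_ne49 (h : C1Data P t θ b c c1 l r w lead lead' x x') : lf l ≠ 0 := by
  intro h0
  exact l_ne49 h (lf_inj (by rw [h0, map_zero]))

private theorem diag_hom49 (a : Fin 4 → ℂ) : (diag a).IsHomogeneous 3 := by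
  unfold diag
  refine IsHomogeneous.sum _ _ _ fun i _ => ?_
  have h := (isHomogeneous_C (Fin 4) (a i)).mul ((isHomogeneous_X ℂ i).pow 3)
  rwa [zero_add, one_mul] at h

private theorem eval_diag49 (a : Fin 4 → ℂ) (i : Fin 4) :
    eval (fun j => if j = i then (1 : ℂ) else 0) (diag a) = a i := by
  unfold diag
  rw [map_sum, Finset.sum_eq_single i]
  · simp
  · intro j _ hj
    simp [hj]
  · intro hn
    exact absurd (Finset.mem_univ i) hn

/-- `f` does not divide `f_1` and `h` -/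
private theorem not_dvd49 (h : C1Data P t θ b c c1 l r w lead lead' x x') :
    ¬ diag c ∣ diag c1 ∧ ¬ diag c ∣ lf l := by
  have hf0 := h.irr.ne_zero
  have hdc := (diag_hom49 c).totalDegree hf0
  constructor
  · rintro ⟨q, hq⟩
    have hc1 : diag c1 ≠ 0 := by
      intro h0
      apply (c_ne49 h).2
      funext i
      rw [← eval_diag49 c1 i, h0, map_zero]
      rfl
    have hq0 : q ≠ 0 := by
      rintro rfl
      rw [mul_zero] at hq
      exact hc1 hq
    have h1 := (diag_hom49 c1).totalDegree hc1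
    rw [hq, totalDegree_mul_of_isDomain hf0 hq0, hdc] at h1
    have h2 : q.totalDegree = 0 := by omega
    rw [totalDegree_eq_zero_iff_eq_C] at h2
    have h3 : ∀ i, c1 i = c i * coeff 0 q := by
      intro i
      have h4 := congrArg (eval (fun j => if j = i then (1 : ℂ) else 0)) hq
      rw [map_mul, eval_diag49, eval_diag49, h2, eval_C] at h4
      exact h4
    apply h.nondeg 0 1 (by decide)
    rw [h3 0, h3 1]
    ring
  · rintro ⟨q, hq⟩
    have hl0 := lf_ne49 h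
    have hq0 : q ≠ 0 := by
      rintro rfl
      rw [mul_zero] at hq
      exact hl0 hq
    have h1 := (lf_hom l).totalDegree hl0
    rw [hq, totalDegree_mul_of_isDomain hf0 hq0, hdc] at h1
    omega

private theorem mult_c49 (h : C1Data P t θ b c c1 l r w lead lead' x x') :
    mult P (diag c) = 1 ∧ mult P (diag c1) = 1 ∧ mult P (lf l) = 0 := by
  have hc := c_ne49 h
  refine ⟨mult_diag P h.hP h.prime c hc.1 ?_, mult_diag P h.hP h.prime c1 hc.2 ?_,
    mult_lf P h.hP h.prime l (l_ne49 h)⟩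
  · rw [h.hP]
    exact Ideal.subset_span (by simp)
  · rw [h.hP]
    exact Ideal.subset_span (by simp)

private theorem mult_pow49 (P : Ideal S) [P.IsPrime] (F : S) (n : ℕ) :
    mult P (F ^ n) = n * mult P F := by
  induction n with
  | zero =>
    rw [pow_zero, ← C_1, mult_C P 1 one_ne_zero]
    simp
  | succ n ih =>
    rw [pow_succ, mult_mul, ih]
    push_cast
    ring

/-- the order of the leading coefficient of `A / (f_1^n h^k)` -/
private theorem form_le49 {m : Fin 3 → HH} {lead : K3 → HH} {x : Fin 4 → HH}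
    (hl : Lead t (diag c) w m lead x) (hv : aeval x (diag c) = 0)
    (sl : ∀ (k : ℕ) (B : S), B.IsHomogeneous k → ¬ diag c ∣ B →
      aeval x B ≠ 0 ∧ (aeval x B).order ≤ k * (aeval x (lf l)).order)
    (hp : Prime (diag c)) (h1 : ¬ diag c ∣ diag c1) (h2 : ¬ diag c ∣ lf l) (n k : ℕ) (A A1 : S)
    (hA : A.IsHomogeneous (3 * n + k)) (hA1 : A1.IsHomogeneous k)
    (hd : diag c ∣ A - diag c1 ^ n * A1) (hA1n : ¬ diag c ∣ A1) (β : K3)
    (hβ : (β : L) = algebraMap S L A / algebraMap S L (diag c1 ^ n * lf l ^ k)) :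
    β ≠ 0 ∧ (lead β).order ≤ 0 := by
  have hAn : ¬ diag c ∣ A := by
    intro h3
    have h4 : diag c ∣ diag c1 ^ n * A1 := by
      have h5 := dvd_sub h3 hd
      rwa [sub_sub_cancel] at h5
    rcases hp.dvd_or_dvd h4 with h5 | h5
    · exact h1 (hp.dvd_of_dvd_pow h5)
    · exact hA1n h5
  have hBn : ¬ diag c ∣ diag c1 ^ n * lf l ^ k := by
    intro h4
    rcases hp.dvd_or_dvd h4 with h5 | h5
    · exact h1 (hp.dvd_of_dvd_pow h5)
    · exact h2 (hp.dvd_of_dvd_pow h5)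
  have hB : (diag c1 ^ n * lf l ^ k).IsHomogeneous (3 * n + k) := by
    have h3 := ((diag_hom49 c1).pow n).mul ((lf_hom l).pow k)
    rwa [one_mul] at h3
  have h3 := hl.form (3 * n + k) A _ hA hB hAn hBn β hβ
  have h4 : aeval x A = aeval x (diag c1) ^ n * aeval x A1 := by
    obtain ⟨q, hq⟩ := hd
    have h5 : A = diag c1 ^ n * A1 + diag c * q := by rw [← hq]; ring
    rw [h5, map_add, map_mul, map_mul, map_pow, hv, zero_mul, add_zero]
  have hu := (sl 3 (diag c1) (diag_hom49 c1) h1).1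
  have hw := (sl 1 (lf l) (lf_hom l) h2).1
  obtain ⟨ha1, ha2⟩ := sl k A1 hA1 hA1n
  rw [map_mul, map_pow, map_pow, h4] at h3
  have h6 : lead β * aeval x (lf l) ^ k = aeval x A1 := by
    apply mul_left_cancel₀ (pow_ne_zero n hu)
    rw [← h3]
    ring
  have hlb : lead β ≠ 0 := by
    intro h0
    rw [h0, zero_mul] at h6
    exact ha1 h6.symm
  refine ⟨fun h0 => hlb ((hl.zero β).2 h0), ?_⟩
  have h7 : (lead β * aeval x (lf l) ^ k).order =
      (lead β).order + k * (aeval x (lf l)).order := by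
    rw [HahnSeries.order_mul hlb (pow_ne_zero k hw), HahnSeries.order_pow, nsmul_eq_mul]
  rw [h6] at h7
  linarith

private theorem alg_ne49 {A : S} (hA : A ≠ 0) : algebraMap S L A ≠ 0 := by
  simpa using hA

theorem phi_rho (h : C1Data P t θ b c c1 l r w lead lead' x x') (φ : K3)
    (hφ : (φ : L) = algebraMap S L (diag c1) / algebraMap S L (diag c)) :
    φ ≠ 0 ∧ (lead φ).order + (lead' φ).order ≤ 0 := by
  have hf0 := h.irr.ne_zero
  have hf1 : diag c1 ≠ 0 := by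
    intro h0
    exact (not_dvd49 h).1 (h0 ▸ dvd_zero _)
  have h0 : φ ≠ 0 := by
    intro h0
    rw [h0] at hφ
    exact div_ne_zero (alg_ne49 hf1) (alg_ne49 hf0) hφ.symm
  refine ⟨h0, rho_le h φ h0 (inAll_ratio h (diag c1) (diag c) 3 (diag_hom49 c1) (diag_hom49 c)
    hf0 (fun G hG => (tor_ne h G hG).1) (fun _ => ?_) φ hφ)⟩
  rw [(mult_c49 h).1, (mult_c49 h).2.1]

theorem bound (h : C1Data P t θ b c c1 l r w lead lead' x x') (φ : K3)
    (hφ : (φ : L) = algebraMap S L (diag c1) / algebraMap S L (diag c)) (A : S) (D : ℕ)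
    (hA : A.IsHomogeneous D) (hfA : ¬ diag c ∣ A) (hs : ∀ G, TorSurf t G → ¬ G ∣ A) :
    ∃ (n k : ℕ) (g : K3), mult P A = n ∧ D = 3 * n + k ∧
      (g : L) = algebraMap S L A / algebraMap S L (diag c ^ n * lf l ^ k) ∧ g ≠ 0 ∧
      (lead g).order = n * (lead φ).order ∧
      (n ≠ 0 → (lead φ).order + (lead' φ).order = 0) := by
  have := h.prime
  obtain ⟨hφ0, hρ⟩ := phi_rho h φ hφ
  obtain ⟨hn1, hn2⟩ := not_dvd49 h
  have hf0 := h.irr.ne_zero
  have hlf0 := lf_ne49 h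
  have hf1 : diag c1 ≠ 0 := by
    intro h0
    exact hn1 (h0 ▸ dvd_zero _)
  have hA0 : A ≠ 0 := by
    rintro rfl
    exact hfA (dvd_zero _)
  obtain ⟨n, k, A1, hm, rfl, hA1, hd, hA1n⟩ := sympow h.nondeg h.hP h.prime A D hA hfA
  have hB : (diag c ^ n * lf l ^ k).IsHomogeneous (3 * n + k) := by
    have h3 := ((diag_hom49 c).pow n).mul ((lf_hom l).pow k)
    rwa [one_mul] at h3
  have hB1 : (diag c1 ^ n * lf l ^ k).IsHomogeneous (3 * n + k) := by
    have h3 := ((diag_hom49 c1).pow n).mul ((lf_hom l).pow k)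
    rwa [one_mul] at h3
  have hB0 : diag c ^ n * lf l ^ k ≠ 0 := mul_ne_zero (pow_ne_zero _ hf0) (pow_ne_zero _ hlf0)
  have hBm : mult P (diag c ^ n * lf l ^ k) = n := by
    rw [mult_mul, mult_pow49, mult_pow49, (mult_c49 h).1, (mult_c49 h).2.2]
    simp
  obtain ⟨g, hg⟩ : ∃ g : K3, (g : L) = algebraMap S L A / algebraMap S L (diag c ^ n * lf l ^ k) :=
    ⟨⟨_, ratio_mem (3 * n + k) A _ hA hB⟩, rfl⟩
  obtain ⟨β, hβ⟩ : ∃ β : K3,
      (β : L) = algebraMap S L A / algebraMap S L (diag c1 ^ n * lf l ^ k) :=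
    ⟨⟨_, ratio_mem (3 * n + k) A _ hA hB1⟩, rfl⟩
  have hg0 : g ≠ 0 := by
    intro h0
    rw [h0] at hg
    exact div_ne_zero (alg_ne49 hA0) (alg_ne49 hB0) hg.symm
  -- `g` and `g⁻¹` are in all torus rings
  have hin : InAll t g := by
    refine inAll_ratio h A _ (3 * n + k) hA hB hB0 (fun G hG hGd => ?_) (fun _ => ?_) g hg
    · rcases hG.1.prime.dvd_or_dvd hGd with h5 | h5
      · exact (tor_ne h G hG).1 (hG.1.prime.dvd_of_dvd_pow h5)
      · exact (tor_ne h G hG).2 (hG.1.prime.dvd_of_dvd_pow h5)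
    · rw [hBm, hm]
  have hin' : InAll t g⁻¹ := by
    refine inAll_ratio h _ A (3 * n + k) hB hA hA0 hs (fun _ => ?_) g⁻¹ ?_
    · rw [hBm, hm]
    · have h5 : ((g⁻¹ : K3) : L) = (g : L)⁻¹ := rfl
      rw [h5, hg, inv_div]
  obtain ⟨κ, m, hκ, hgm⟩ := monomial_of h.cd g hg0 hin hin'
  obtain ⟨o1, o2⟩ := lead_monomial h κ hκ m
  rw [← hgm] at o1 o2
  -- `g = β φ^n`
  have hgβ : g = β * φ ^ n := by
    apply Subtype.ext
    have h5 : ((β * φ ^ n : K3) : L) = (β : L) * (φ : L) ^ n := rfl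
    have a1 := alg_ne49 hf0
    have a2 := alg_ne49 hf1
    have a3 := alg_ne49 hlf0
    rw [h5, hg, hβ, hφ, map_mul, map_mul, map_pow, map_pow, map_pow, div_pow]
    field_simp
  obtain ⟨b0, b1⟩ := form_le49 (c1 := c1) h.ld h.van h.sl h.irr.prime hn1 hn2 n k A A1 hA hA1 hd
    hA1n β hβ
  obtain ⟨-, b2⟩ := form_le49 (c1 := c1) h.ld' h.van' h.sl' h.irr.prime hn1 hn2 n k A A1 hA hA1 hd
    hA1n β hβ
  obtain ⟨z1, z2⟩ := lead_order_mul h β (φ ^ n) b0 (pow_ne_zero n hφ0)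
  obtain ⟨z3, z4⟩ := lead_order_zpow h φ hφ0 n
  rw [zpow_natCast, Int.cast_natCast] at z3 z4
  rw [← hgβ, z3] at z1
  rw [← hgβ, z4] at z2
  have hn0 : (0 : ℝ) ≤ n := Nat.cast_nonneg n
  have hnρ : (n : ℝ) * ((lead φ).order + (lead' φ).order) ≤ 0 :=
    mul_nonpos_of_nonneg_of_nonpos hn0 hρ
  refine ⟨n, k, g, hm, rfl, hg, hg0, ?_, fun hne => ?_⟩
  · nlinarith
  · have h6 : (n : ℝ) * ((lead φ).order + (lead' φ).order) = 0 := by nlinarith
    rcases mul_eq_zero.1 h6 with h7 | h7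
    · exact absurd (Nat.cast_eq_zero.1 h7) hne
    · exact h7

theorem psi_bound (h : C1Data P t θ b c c1 l r w lead lead' x x') (φ ψ : K3)
    (hφ : (φ : L) = algebraMap S L (diag c1) / algebraMap S L (diag c))
    (hψ : (ψ : L) = algebraMap S L (diag c) / algebraMap S L (lf l ^ 3)) :
    ψ ≠ 0 ∧ (lead ψ).order + (lead φ).order ≤ 0 ∧ (lead' ψ).order + (lead' φ).order ≤ 0 := by
  obtain ⟨hφ0, -⟩ := phi_rho h φ hφ
  obtain ⟨hn1, hn2⟩ := not_dvd49 h
  have hf0 := h.irr.ne_zero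
  have hlf0 := lf_ne49 h
  have hψ0 : ψ ≠ 0 := by
    intro h0
    rw [h0] at hψ
    exact div_ne_zero (alg_ne49 hf0) (alg_ne49 (pow_ne_zero 3 hlf0)) hψ.symm
  have hβ : ((ψ * φ : K3) : L) =
      algebraMap S L (diag c1) / algebraMap S L (diag c1 ^ 0 * lf l ^ 3) := by
    have h5 : ((ψ * φ : K3) : L) = (ψ : L) * (φ : L) := rfl
    have a1 := alg_ne49 hf0
    have a3 := alg_ne49 hlf0
    rw [h5, hψ, hφ, pow_zero, one_mul, map_pow]
    field_simp
  have hd : diag c ∣ diag c1 - diag c1 ^ 0 * diag c1 := by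
    rw [pow_zero, one_mul, sub_self]
    exact dvd_zero _
  obtain ⟨-, b1⟩ := form_le49 (c1 := c1) h.ld h.van h.sl h.irr.prime hn1 hn2 0 3 (diag c1) (diag c1)
    (by simpa using diag_hom49 c1) (diag_hom49 c1) hd hn1 (ψ * φ) hβ
  obtain ⟨-, b2⟩ := form_le49 (c1 := c1) h.ld' h.van' h.sl' h.irr.prime hn1 hn2 0 3 (diag c1)
    (diag c1) (by simpa using diag_hom49 c1) (diag_hom49 c1) hd hn1 (ψ * φ) hβ
  obtain ⟨z1, z2⟩ := lead_order_mul h ψ φ hψ0 hφ0
  rw [z1] at b1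
  rw [z2] at b2
  exact ⟨hψ0, b1, b2⟩

end Pool.Agent.CLN
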