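import Pool.Agent.CLN.CcA

/-!
# CLN / Cc: the plane section is a triangle

`cub = x y z + h q`, `α = V(x_0)`, `β = V(x_1)`, `V(x_3) = α + β`.
`cc_step`: if `B = x B' + h B''` then `B1 := - q B' + y z B''` satisfies `y z B ≡ h B1`,
`q B ≡ - x B1` modulo `cub`.  As in `Bc`: `(y z)^j B ≡ h^j B_j`, `q^j B ≡ (-x)^j B_j`; values:
`x_1^j B(x) = x_3^j B_j(x)`, `V(B) = j α + V(B_j)`; take the largest `j = m`; then
`B_m(0, X, 1, 0) ≠ 0` (`line_x`, `cc_step`), and `local_form` for the arc `(0, X, 1, 0)` (`n1 = 1`, `n0`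
large, factor `1/β`): `V(B_m) ≤ (k + m) β`, so `V(B) ≤ m (α + β) + k β`: `cc_chain_x`.
`cc_chain_y` is the same with `x` and `y` exchanged (`line_y`, arc `(X, 0, 1, 0)`):
`V(B) ≤ m (α + β) + k α`.
`cc`: `m1` from `cc_chain_x`, `m2` from `cc_chain_y`.  Line `z = h = 0`: `P = (1, X, 0, 0)`,
`P' = (X, 1, 0, 0)` (`rev_coeff`, `e = 1`).  If `B(P) ≠ 0`: index `n` with nonzero coefficient.
`q(P)^m2 B(P) = (-X)^m2 (..)`, `q(P)` has constant term `q(1,0,0,0) ≠ 0`: `n ≥ m2`; likewise at `P'`: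
`k - n ≥ m1`.  So `m1 + m2 ≤ k`, and the sum of the two bounds is
`2 V(B) ≤ (m1 + m2 + k)(α + β) ≤ 2 k (α + β)`.
If `B(P) = 0`: if `B(0, X, 1, 0) ≠ 0` then `V(B) ≤ k β` (`local_form`), if `B(X, 0, 1, 0) ≠ 0` then
`V(B) ≤ k α`; if all vanish `plane_tri`: `B = h B' + cub E`, induction on `k`.
-/

set_option autoImplicit false

namespace Pool.Agent.CLN

open MvPolynomial Pool.Agent.CLU

theorem cc_ev0 (P : Fin 4 → Polynomial ℂ) (q : S) :
    (MvPolynomial.aeval P q : Polynomial ℂ).coeff 0 = MvPolynomial.eval (fun i => (P i).coeff 0) q := by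
  have h : (Polynomial.constantCoeff (R := ℂ)).comp (MvPolynomial.aeval P).toRingHom =
      MvPolynomial.eval (fun i => (P i).coeff 0) := by
    apply MvPolynomial.ringHom_ext
    · intro c
      simp
    · intro i
      simp
  have h1 := DFunLike.congr_fun h q
  exact h1

theorem cc_exists_coeff {p : Polynomial ℂ} (h : p ≠ 0) : ∃ n, p.coeff n ≠ 0 := by
  by_contra hcon
  push Not at hcon
  exact h (Polynomial.ext fun n => by rw [hcon n, Polynomial.coeff_zero])

theorem cc_aeval_cub {R : Type*} [CommRing R] [Algebra ℂ R] (P : Fin 4 → R) (q : S)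
    (h : P 0 * P 1 * P 2 = 0) (h3 : P 3 = 0) : aeval P (cub 0 0 q) = 0 := by
  unfold cub
  simp only [map_add, map_mul, map_pow, aeval_X, C_0, zero_mul, add_zero, map_zero, h, h3]

theorem cc_arc {q : S} {x : Fin 4 → HH} (h : Pt 0 0 q x)
    (hind : Ind (x 0).order (x 1).order)
    (k : ℕ) (B : S) (hB : B.IsHomogeneous k) (hBx : aeval x B ≠ 0)
    (P : Fin 4 → Polynomial ℂ) (hP : ∀ i, (P i).natDegree ≤ 1) (h0 : Polynomial.X ∣ P 0)
    (h1 : Polynomial.X ∣ P 1) (h2 : P 2 = 1) (h3 : P 3 = 0) (h01 : P 0 * P 1 = 0)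
    (c : ℝ) (hc : 0 < c) (n0 n1 : ℕ) (hn0 : Polynomial.X ^ n0 ∣ P 0)
    (hn1 : Polynomial.X ^ n1 ∣ P 1) (hc0 : c * (x 0).order ≤ n0) (hc1 : c * (x 1).order ≤ n1)
    (hne : MvPolynomial.aeval P B ≠ 0) : c * (aeval x B).order ≤ k := by
  obtain ⟨n, hn⟩ := cc_exists_coeff hne
  have hnk := (rev_coeff 1 k P (fun i => (P i).reflect 1) hP (fun i => rfl) B hB n hn).1
  have dv : ∀ (m : ℕ) (p : Polynomial ℂ), Polynomial.X ^ m ∣ p →
      (PowerSeries.X : PowerSeries ℂ) ^ m ∣ (p : PowerSeries ℂ) := by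
    rintro m p ⟨r, rfl⟩
    refine ⟨(r : PowerSeries ℂ), ?_⟩
    rw [Polynomial.coe_mul, Polynomial.coe_pow, Polynomial.coe_X]
  have dv1 : ∀ (p : Polynomial ℂ), Polynomial.X ∣ p →
      (PowerSeries.X : PowerSeries ℂ) ∣ (p : PowerSeries ℂ) := by
    intro p hp
    have := dv 1 p (by rwa [pow_one])
    rwa [pow_one] at this
  have key := local_form h hind k B hB hBx (fun i => ((P i : Polynomial ℂ) : PowerSeries ℂ))
    (dv1 _ h0) (dv1 _ h1) (by simp [h2]) (by simp [h3])
    (cc_aeval_cub _ q (by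
      rw [← Polynomial.coe_mul, h01, Polynomial.coe_zero, zero_mul]) (by simp [h3]))
    c hc.le n0 n1 (dv _ _ hn0) (dv _ _ hn1) hc0 hc1 n (by
      rw [aeval_coe]
      exact not_X_pow_dvd _ n hn)
  refine key.trans ?_
  rw [one_mul] at hnk
  exact_mod_cast hnk

theorem cc_dvd {q B B' G : S} {m : ℕ} (P : Fin 4 → Polynomial ℂ) (hG : aeval P G = 0) (i : Fin 4)
    (hi : P i = Polynomial.X) (hq : (aeval P q : Polynomial ℂ).coeff 0 ≠ 0)
    (h : G ∣ q ^ m * B - (-X i) ^ m * B') : Polynomial.X ^ m ∣ (aeval P B : Polynomial ℂ) := by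
  obtain ⟨E, hE⟩ := h
  have h1 := congrArg (aeval P) hE
  rw [map_sub, map_mul, map_mul, map_mul, map_pow, map_pow, map_neg, aeval_X, hG, zero_mul,
    hi, sub_eq_zero] at h1
  have h2 : Polynomial.X ^ m ∣ (aeval P q : Polynomial ℂ) ^ m * aeval P B := by
    rw [h1, neg_pow]
    exact ⟨(-1) ^ m * aeval P B', by ring⟩
  refine Polynomial.prime_X.pow_dvd_of_dvd_mul_left m (fun h3 => ?_) h2
  exact hq (Polynomial.X_dvd_iff.1 (Polynomial.prime_X.dvd_of_dvd_pow h3))

theorem cc_A {q : S} {x : Fin 4 → HH} (h : Pt 0 0 q x)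
    (hqx : eval (Pi.single 0 1) q ≠ 0) (hqy : eval (Pi.single 1 1) q ≠ 0)
    (hind : Ind (x 0).order (x 1).order) (hs : (x 3).order = (x 0).order + (x 1).order)
    (k : ℕ) (B : S) (hB : B.IsHomogeneous k) (hBx : aeval x B ≠ 0)
    (hne : aeval ![1, Polynomial.X, 0, (0 : Polynomial ℂ)] B ≠ 0) :
    (aeval x B).order ≤ k * (x 3).order := by
  obtain ⟨m1, B1, -, hd1, hv1⟩ := cc_chain_x h hind hs k B hB hBx
  obtain ⟨m2, B2, -, hd2, hv2⟩ := cc_chain_y h hind hs k B hB hBx
  obtain ⟨n, hn⟩ := cc_exists_coeff hne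
  have hP : ∀ i, ((![1, Polynomial.X, 0, (0 : Polynomial ℂ)] : Fin 4 → Polynomial ℂ) i).natDegree
      ≤ 1 := by
    intro i
    fin_cases i
    · simp
    · simp
    · simp
    · simp
  have hP' : ∀ i, (![Polynomial.X, 1, 0, (0 : Polynomial ℂ)] : Fin 4 → Polynomial ℂ) i =
      ((![1, Polynomial.X, 0, (0 : Polynomial ℂ)] : Fin 4 → Polynomial ℂ) i).reflect 1 := by
    have e1 : (1 : Polynomial ℂ).reflect 1 = Polynomial.X := by
      have := Polynomial.reflect_C (1 : ℂ) 1
      simpa using this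
    have e2 : (Polynomial.X : Polynomial ℂ).reflect 1 = 1 := by
      have := Polynomial.reflect_monomial (R := ℂ) 1 1
      simpa [Polynomial.revAt] using this
    intro i
    fin_cases i
    · exact e1.symm
    · exact e2.symm
    · simp
    · simp
  obtain ⟨hnk, hn'⟩ := rev_coeff 1 k _ _ hP hP' B hB n hn
  rw [one_mul] at hnk hn'
  have g1 : m2 ≤ n := by
    by_contra hcon
    push Not at hcon
    refine hn (coeff_eq_zero_of_X_pow_dvd _ m2 n ?_ hcon)
    refine cc_dvd (G := cub 0 0 q) _ (cc_aeval_cub _ q (by simp) (by simp)) 1 (by simp) ?_ hd2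
    rw [cc_ev0]
    have e : (fun i => ((![1, Polynomial.X, 0, (0 : Polynomial ℂ)] : Fin 4 → Polynomial ℂ)
        i).coeff 0) = Pi.single 0 1 := by
      funext i
      fin_cases i <;> simp
    rw [e]
    exact hqx
  have g2 : m1 ≤ k - n := by
    by_contra hcon
    push Not at hcon
    refine hn' (coeff_eq_zero_of_X_pow_dvd _ m1 (k - n) ?_ hcon)
    refine cc_dvd (G := cub 0 0 q) _ (cc_aeval_cub _ q (by simp) (by simp)) 0 (by simp) ?_ hd1
    rw [cc_ev0]
    have e : (fun i => ((![Polynomial.X, 1, 0, (0 : Polynomial ℂ)] : Fin 4 → Polynomial ℂ)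
        i).coeff 0) = Pi.single 1 1 := by
      funext i
      fin_cases i <;> simp
    rw [e]
    exact hqy
  have g3 : m1 + m2 ≤ k := by omega
  have g4 : (m1 : ℝ) + m2 ≤ k := by exact_mod_cast g3
  have hp0 := h.pos0
  have hp1 := h.pos1
  have hsum : 0 < (x 0).order + (x 1).order := by linarith
  have g5 := mul_le_mul_of_nonneg_right g4 hsum.le
  rw [hs]
  linarith

theorem cc_aux {q : S} {x : Fin 4 → HH} (h : Pt 0 0 q x)
    (hqx : eval (Pi.single 0 1) q ≠ 0) (hqy : eval (Pi.single 1 1) q ≠ 0)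
    (hind : Ind (x 0).order (x 1).order) (hs : (x 3).order = (x 0).order + (x 1).order) :
    ∀ (k : ℕ) (B : S), B.IsHomogeneous k → aeval x B ≠ 0 →
      (aeval x B).order ≤ k * (x 3).order := by
  have hp0 := h.pos0
  have hp1 := h.pos1
  intro k
  induction k using Nat.strong_induction_on with
  | _ k ih =>
    intro B hB hBx
    have hk0 : (0 : ℝ) ≤ k := Nat.cast_nonneg k
    by_cases hA : aeval ![1, Polynomial.X, 0, (0 : Polynomial ℂ)] B = 0
    swap
    · exact cc_A h hqx hqy hind hs k B hB hBx hA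
    by_cases hX : aeval ![0, Polynomial.X, 1, (0 : Polynomial ℂ)] B = 0
    swap
    · obtain ⟨n0, hn0⟩ := exists_nat_ge (1 / (x 1).order * (x 0).order)
      have h1 := cc_arc h hind k B hB hBx _ (by
          intro i
          fin_cases i
          · simp
          · simp
          · simp
          · simp) (by simp) (by simp) (by simp) (by simp) (by simp) (1 / (x 1).order)
        (by positivity) n0 1 (by simp) (by simp) hn0 (by
          rw [one_div, inv_mul_cancel₀ hp1.ne']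
          norm_num) hX
      rw [one_div, inv_mul_le_iff₀ hp1] at h1
      rw [hs]
      nlinarith
    by_cases hY : aeval ![Polynomial.X, 0, 1, (0 : Polynomial ℂ)] B = 0
    swap
    · obtain ⟨n1, hn1⟩ := exists_nat_ge (1 / (x 0).order * (x 1).order)
      have h1 := cc_arc h hind k B hB hBx _ (by
          intro i
          fin_cases i
          · simp
          · simp
          · simp
          · simp) (by simp) (by simp) (by simp) (by simp) (by simp) (1 / (x 0).order)
        (by positivity) 1 n1 (by simp) (by simp) (by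
          rw [one_div, inv_mul_cancel₀ hp0.ne']
          norm_num) hn1 hY
      rw [one_div, inv_mul_le_iff₀ hp0] at h1
      rw [hs]
      nlinarith
    have hB0 : B ≠ 0 := by
      rintro rfl
      exact hBx (map_zero _)
    obtain ⟨B', E, j, hkj, hB', hBe⟩ := plane_tri h.q_hom k B hB hB0 hX hY hA
    have h1 : aeval x B = x 3 * aeval x B' := by
      rw [hBe, map_add, map_mul, map_mul, aeval_X, h.rel, zero_mul, add_zero]
    have h2 : aeval x B' ≠ 0 := by
      intro h3
      rw [h1, h3, mul_zero] at hBx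
      exact hBx rfl
    have h3 := ih j (by omega) B' hB' h2
    rw [h1, HahnSeries.order_mul h.ne3 h2, hkj]
    push_cast
    linarith

theorem cc {q : S} {x : Fin 4 → HH} (h : Pt 0 0 q x)
    (hqx : eval (Pi.single 0 1) q ≠ 0) (hqy : eval (Pi.single 1 1) q ≠ 0)
    (hind : Ind (x 0).order (x 1).order) (hs : (x 3).order = (x 0).order + (x 1).order)
    (k : ℕ) (B : S) (hB : B.IsHomogeneous k) (hBx : aeval x B ≠ 0) :
    (aeval x B).order ≤ k * (x 3).order := by
  exact cc_aux h hqx hqy hind hs k B hB hBx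

end Pool.Agent.CLN
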