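import Pool.Agent.CLN.Loc

/-!
# CLN / Swap: exchange of `x` and `y`

`σ = Equiv.swap 0 1`; `q' = rename σ q`, `x' = x ∘ σ`; `rename σ (cub e0 e3 q) = cub e3 e0 q'`,
`∂_{σ i} (rename σ F) = rename σ (∂_i F)` (`pderiv_rename`), `aeval x' (rename σ F) = aeval x F`
(`aeval_rename`).  `br a b = - br b a`.
-/

set_option autoImplicit false

namespace Pool.Agent.CLN

open MvPolynomial Pool.Agent.CLU

private theorem swap_comp (x : Fin 4 → HH) :
    (![x 1, x 0, x 2, x 3] : Fin 4 → HH) ∘ (Equiv.swap (0 : Fin 4) 1) = x := by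
  funext i
  fin_cases i
  · change (![x 1, x 0, x 2, x 3] : Fin 4 → HH) (Equiv.swap (0 : Fin 4) 1 0) = x 0
    rw [Equiv.swap_apply_left]
    rfl
  · change (![x 1, x 0, x 2, x 3] : Fin 4 → HH) (Equiv.swap (0 : Fin 4) 1 1) = x 1
    rw [Equiv.swap_apply_right]
    rfl
  · change (![x 1, x 0, x 2, x 3] : Fin 4 → HH) (Equiv.swap (0 : Fin 4) 1 2) = x 2
    rw [Equiv.swap_apply_of_ne_of_ne (by decide) (by decide)]
    rfl
  · change (![x 1, x 0, x 2, x 3] : Fin 4 → HH) (Equiv.swap (0 : Fin 4) 1 3) = x 3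
    rw [Equiv.swap_apply_of_ne_of_ne (by decide) (by decide)]
    rfl

private theorem aeval_swap (x : Fin 4 → HH) (F : S) :
    aeval (![x 1, x 0, x 2, x 3] : Fin 4 → HH) (rename (Equiv.swap (0 : Fin 4) 1) F) =
      aeval x F := by
  rw [aeval_rename, swap_comp]

private theorem rename_cub (e0 e3 : ℂ) (q : S) :
    cub e3 e0 (rename (Equiv.swap (0 : Fin 4) 1) q) =
      rename (Equiv.swap (0 : Fin 4) 1) (cub e0 e3 q) := by
  have h2 : Equiv.swap (0 : Fin 4) 1 2 = 2 :=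
    Equiv.swap_apply_of_ne_of_ne (by decide) (by decide)
  have h3 : Equiv.swap (0 : Fin 4) 1 3 = 3 :=
    Equiv.swap_apply_of_ne_of_ne (by decide) (by decide)
  unfold cub
  simp only [map_add, map_mul, map_pow, rename_X, rename_C, Equiv.swap_apply_left,
    Equiv.swap_apply_right, h2, h3]
  ring

private theorem pderiv_cub (e0 e3 : ℂ) (q : S) (x : Fin 4 → HH) (i j : Fin 4)
    (hij : Equiv.swap (0 : Fin 4) 1 i = j) :
    aeval (![x 1, x 0, x 2, x 3] : Fin 4 → HH)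
        (pderiv j (cub e3 e0 (rename (Equiv.swap (0 : Fin 4) 1) q))) =
      aeval x (pderiv i (cub e0 e3 q)) := by
  rw [rename_cub, ← hij, pderiv_rename (Equiv.injective _), aeval_swap]

private theorem br_swap (w1 w2 : ℝ →+ ℂ) (a b : HH) :
    br (DD w1) (DD w2) a b = -br (DD w1) (DD w2) b a := by
  unfold br
  ring

theorem Loc.swap {e0 e3 : ℂ} {q : S} {w1 w2 : ℝ →+ ℂ} {x : Fin 4 → HH}
    (h : Loc e0 e3 q w1 w2 x) :
    Loc e3 e0 (rename (Equiv.swap (0 : Fin 4) 1) q) w1 w2 ![x 1, x 0, x 2, x 3] := by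
  have hs0 : Equiv.swap (0 : Fin 4) 1 0 = 1 := Equiv.swap_apply_left _ _
  have hs1 : Equiv.swap (0 : Fin 4) 1 1 = 0 := Equiv.swap_apply_right _ _
  have hs2 : Equiv.swap (0 : Fin 4) 1 2 = 2 :=
    Equiv.swap_apply_of_ne_of_ne (by decide) (by decide)
  have hs3 : Equiv.swap (0 : Fin 4) 1 3 = 3 :=
    Equiv.swap_apply_of_ne_of_ne (by decide) (by decide)
  have hsingle : ∀ i j : Fin 4, Equiv.swap (0 : Fin 4) 1 i = j →
      eval (Pi.single j (1 : ℂ)) (rename (Equiv.swap (0 : Fin 4) 1) q) =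
        eval (Pi.single i (1 : ℂ)) q := by
    intro i j hij
    rw [eval_rename]
    have h1 : (Pi.single j (1 : ℂ) : Fin 4 → ℂ) ∘ (Equiv.swap (0 : Fin 4) 1) = Pi.single i 1 := by
      funext k
      rw [Function.comp_apply, ← hij, Pi.single_apply, Pi.single_apply]
      by_cases hk : k = i
      · rw [if_pos hk, hk, if_pos rfl]
      · rw [if_neg hk, if_neg fun h' => hk ((Equiv.swap (0 : Fin 4) 1).injective h')]
    rw [h1]
  refine ⟨⟨h.pt.q_hom.rename_isHomogeneous, ?_, h.pt.x2, h.pt.ne1, h.pt.ne0, h.pt.ne3, h.pt.pos1,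
    h.pt.pos0, h.pt.pos3, ?_⟩, ?_, ?_, ?_, ?_, ?_⟩
  · rw [hsingle 2 2 hs2]
    exact h.pt.q_z
  · rw [rename_cub, aeval_swap]
    exact h.pt.rel
  · intro h0
    rw [hsingle 1 0 hs1]
    exact h.q_y h0
  · intro h0
    rw [hsingle 0 1 hs0]
    exact h.q_x h0
  · obtain ⟨k, hk, hbr⟩ := h.br01
    refine ⟨-k, neg_ne_zero.2 hk, ?_⟩
    rw [pderiv_cub e0 e3 q x 3 3 hs3]
    change br (DD w1) (DD w2) (x 1) (x 0) = algebraMap ℂ HH (-k) * (x 3 * _)
    rw [br_swap, hbr, map_neg]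
    ring
  · obtain ⟨k, hk, hbr⟩ := h.br31
    refine ⟨k, hk, ?_⟩
    rw [pderiv_cub e0 e3 q x 0 1 hs0]
    exact hbr
  · obtain ⟨k, hk, hbr⟩ := h.br30
    refine ⟨k, hk, ?_⟩
    rw [pderiv_cub e0 e3 q x 1 0 hs1]
    exact hbr

theorem swap_form (k : ℕ) (B : S) (hB : B.IsHomogeneous k) (x : Fin 4 → HH) :
    (rename (Equiv.swap (0 : Fin 4) 1) B).IsHomogeneous k ∧
      aeval ![x 1, x 0, x 2, x 3] (rename (Equiv.swap (0 : Fin 4) 1) B) = aeval x B :=
  ⟨hB.rename_isHomogeneous, aeval_swap x B⟩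

end Pool.Agent.CLN
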