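import Pool.Agent.CLN.Aout
import Pool.Agent.CLN.Bc
import Pool.Agent.CLN.Cc
import Pool.Agent.CLN.Swap

/-!
# CLN / SLcore: the surface lemma in local coordinates

`α = V(x_0)`, `β = V(x_1)`, `v = V(x_3)`.
(1) `∂_3 cub = q + X 3 ∂_3 q` has order `0` at `x` (coefficient `q(0,0,1,0) ≠ 0` at `0`: `x_0, x_1, x_3` have
positive order, `x_2 = 1`), so `br01`: `V(br x_0 x_1) = v`, `v ≥ α + β` (`Ge.br`).
(2) `rel`: `x_0 x_1 + e0 x_0^3 + e3 x_1^3 = - x_3 q(x)`, so its order is `v`.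
(3) `e0, e3 ≠ 0`: if `β > 2α` the order in (2) is `3α < α + β ≤ v`, contradiction (`order_add_of_Ge`);
so `β ≤ 2α`, likewise `α ≤ 2β`.  If both are strict, the order in (2) is `α + β`, so
`V(br x_0 x_1) = α + β`, independent (`indep_of_order_br`), `amid`.  If `β = 2α`: `aout`.  If
`α = 2β`: `aout` for the swapped data (`Loc.swap`, `swap_form`).
(4) `e0 = 0`, `e3 ≠ 0`: `κ = x_0 + e3 x_1^2`, `κ x_1 = - x_3 q(x)`: `κ ≠ 0`, `V(κ) + β = v`;
`V(κ) > 0` (`Ge (min α (2β))`); `br κ x_1 = br x_0 x_1` has order `v = V(κ) + β`: independent; `bc`.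
(5) `e3 = 0`, `e0 ≠ 0`: (4) for the swapped data.
(6) `e0 = e3 = 0`: `x_0 x_1 = - x_3 q(x)`: `v = α + β`, independent by (1); `cc`.
-/

set_option autoImplicit false

namespace Pool.Agent.CLN

open MvPolynomial Pool.Agent.CLU

/-- Values at the centre: the constant coefficient of a polynomial in series of order `≥ 0`. -/
theorem slc_coeff_zero (x : Fin 4 → HH) (hx : ∀ i, Ge 0 (x i)) (F : S) :
    Ge 0 (aeval x F) ∧ (aeval x F).coeff 0 = eval (fun i => (x i).coeff 0) F := by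
  induction F using MvPolynomial.induction_on with
  | C a =>
    rw [aeval_C, eval_C]
    refine ⟨ge_algebraMap a, ?_⟩
    rw [algebraMap_HH]
    exact HahnSeries.coeff_single_same 0 a
  | add p q hp hq =>
    rw [map_add, map_add, HahnSeries.coeff_add]
    exact ⟨hp.1.add hq.1, by rw [hp.2, hq.2]⟩
  | mul_X p i hp =>
    rw [map_mul, map_mul, aeval_X, eval_X]
    constructor
    · have h1 := hp.1.mul (hx i)
      rwa [add_zero] at h1
    · have h1 := coeff_mul_of_Ge hp.1 (hx i)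
      rw [add_zero] at h1
      rw [h1, hp.2]

theorem slc_coeff_pos {f : HH} (hf : 0 < f.order) : f.coeff 0 = 0 := by
  by_contra h
  exact absurd (HahnSeries.order_le_of_coeff_ne_zero h) (not_le.2 hf)

theorem slc_ge (e0 e3 : ℂ) (q : S) (x : Fin 4 → HH) (h : Pt e0 e3 q x) : ∀ i, Ge 0 (x i) := by
  have h2 : Ge 0 (x 2) := by
    rw [h.x2, ← map_one (algebraMap ℂ HH)]
    exact ge_algebraMap 1
  intro i
  fin_cases i
  · exact ge_of_le_order h.pos0.le
  · exact ge_of_le_order h.pos1.le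
  · exact h2
  · exact ge_of_le_order h.pos3.le

theorem slc_center {e0 e3 : ℂ} {q : S} {x : Fin 4 → HH} (h : Pt e0 e3 q x) (F : S)
    (hF : eval (Pi.single 2 1) F ≠ 0) : aeval x F ≠ 0 ∧ (aeval x F).order = 0 := by
  obtain ⟨h1, h2⟩ := slc_coeff_zero x (slc_ge e0 e3 q x h) F
  have h3 : (fun i => (x i).coeff 0) = (Pi.single 2 1 : Fin 4 → ℂ) := by
    funext i
    fin_cases i
    · exact slc_coeff_pos h.pos0
    · exact slc_coeff_pos h.pos1
    · change (x 2).coeff 0 = 1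
      rw [h.x2, HahnSeries.coeff_one, if_pos rfl]
    · exact slc_coeff_pos h.pos3
  rw [h3] at h2
  have h4 : (aeval x F).coeff 0 ≠ 0 := by
    rw [h2]
    exact hF
  have h5 : aeval x F ≠ 0 := by
    intro h0
    rw [h0] at h4
    exact h4 rfl
  exact ⟨h5, le_antisymm (HahnSeries.order_le_of_coeff_ne_zero h4) (h1.le_order h5)⟩

theorem slc_pderiv3 (e0 e3 : ℂ) (q : S) :
    pderiv 3 (cub e0 e3 q) = q + X 3 * pderiv 3 q := by
  unfold cub
  have e1 : pderiv (3 : Fin 4) (X 0 : S) = 0 := pderiv_X_of_ne (by decide)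
  have e2 : pderiv (3 : Fin 4) (X 1 : S) = 0 := pderiv_X_of_ne (by decide)
  have e3 : pderiv (3 : Fin 4) (X 2 : S) = 0 := pderiv_X_of_ne (by decide)
  have e4 : pderiv (3 : Fin 4) (X 3 : S) = 1 := pderiv_X_self 3
  simp only [map_add, pderiv_mul, pderiv_pow, pderiv_C, e1, e2, e3, e4]
  ring

theorem slc_d3 {e0 e3 : ℂ} {q : S} {x : Fin 4 → HH} (h : Pt e0 e3 q x) :
    aeval x (pderiv 3 (cub e0 e3 q)) ≠ 0 ∧ (aeval x (pderiv 3 (cub e0 e3 q))).order = 0 := by
  apply slc_center h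
  rw [slc_pderiv3, map_add, map_mul, eval_X]
  have h1 : (Pi.single 2 1 : Fin 4 → ℂ) 3 = 0 := Pi.single_eq_of_ne (by decide) _
  rw [h1, zero_mul, add_zero]
  exact h.q_z

/-- (1) -/
theorem slc_br {e0 e3 : ℂ} {q : S} {w1 w2 : ℝ →+ ℂ} {x : Fin 4 → HH}
    (h : Loc e0 e3 q w1 w2 x) :
    br (DD w1) (DD w2) (x 0) (x 1) ≠ 0 ∧
      (br (DD w1) (DD w2) (x 0) (x 1)).order = (x 3).order := by
  obtain ⟨k, hk, he⟩ := h.br01
  obtain ⟨h1, h2⟩ := slc_d3 h.pt
  have hk' : algebraMap ℂ HH k ≠ 0 := by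
    rw [Ne, FaithfulSMul.algebraMap_eq_zero_iff]
    exact hk
  have h3 := mul_ne_zero h.pt.ne3 h1
  rw [he]
  refine ⟨mul_ne_zero hk' h3, ?_⟩
  rw [HahnSeries.order_mul hk' h3, HahnSeries.order_mul h.pt.ne3 h1, order_algebraMap, h2]
  ring

/-- (2) -/
theorem slc_rel {e0 e3 : ℂ} {q : S} {x : Fin 4 → HH} (h : Pt e0 e3 q x) :
    x 0 * x 1 + algebraMap ℂ HH e0 * x 0 ^ 3 + algebraMap ℂ HH e3 * x 1 ^ 3 =
      - (x 3 * aeval x q) := by
  have h1 := h.rel
  unfold cub at h1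
  rw [map_add, map_add, map_add, map_mul, map_mul, map_mul, map_mul, map_mul, map_pow, map_pow,
    aeval_C, aeval_C, aeval_X, aeval_X, aeval_X, aeval_X, h.x2, mul_one] at h1
  exact eq_neg_of_add_eq_zero_left h1

theorem slc_relord {e0 e3 : ℂ} {q : S} {x : Fin 4 → HH} (h : Pt e0 e3 q x) :
    - (x 3 * aeval x q) ≠ 0 ∧ (- (x 3 * aeval x q)).order = (x 3).order := by
  obtain ⟨h1, h2⟩ := slc_center h q h.q_z
  have h3 := mul_ne_zero h.ne3 h1
  refine ⟨neg_ne_zero.2 h3, ?_⟩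
  rw [HahnSeries.order_neg, HahnSeries.order_mul h.ne3 h1, h2, add_zero]

theorem slc_cube {c : ℂ} (hc : c ≠ 0) {a : HH} (ha : a ≠ 0) :
    algebraMap ℂ HH c * a ^ 3 ≠ 0 ∧ (algebraMap ℂ HH c * a ^ 3).order = 3 * a.order := by
  have hk' : algebraMap ℂ HH c ≠ 0 := by
    rw [Ne, FaithfulSMul.algebraMap_eq_zero_iff]
    exact hc
  have h3 : a ^ 3 ≠ 0 := pow_ne_zero 3 ha
  refine ⟨mul_ne_zero hk' h3, ?_⟩
  rw [HahnSeries.order_mul hk' h3, order_algebraMap, HahnSeries.order_pow]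
  rw [zero_add, nsmul_eq_mul]
  norm_num

/-- (3), the inequality `β ≤ 2 α`. -/
theorem slc_le {a b : HH} (ha : a ≠ 0) (hb : b ≠ 0) {c d : ℂ} (hc : c ≠ 0) (hd : d ≠ 0)
    (hpa : 0 < a.order) {v : ℝ}
    (h : (a * b + algebraMap ℂ HH c * a ^ 3 + algebraMap ℂ HH d * b ^ 3).order = v)
    (hv : a.order + b.order ≤ v) : b.order ≤ 2 * a.order := by
  by_contra hcon
  rw [not_le] at hcon
  obtain ⟨h1, h2⟩ := slc_cube hc ha
  obtain ⟨h3, h4⟩ := slc_cube hd hb
  have h5 : Ge (a.order + b.order) (a * b + algebraMap ℂ HH d * b ^ 3) := by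
    refine ((ge_order a).mul (ge_order b)).add ?_
    apply (ge_order _).mono
    rw [h4]
    linarith
  have h6 := order_add_of_Ge h1 (v := a.order + b.order) (by rw [h2]; linarith) h5
  have h7 : algebraMap ℂ HH c * a ^ 3 + (a * b + algebraMap ℂ HH d * b ^ 3) =
      a * b + algebraMap ℂ HH c * a ^ 3 + algebraMap ℂ HH d * b ^ 3 := by ring
  rw [h7, h, h2] at h6
  linarith [h6.1]

theorem slc_nodal {e0 e3 : ℂ} {q : S} {w1 w2 : ℝ →+ ℂ} {x : Fin 4 → HH}
    (h : Loc e0 e3 q w1 w2 x) (h0 : e0 ≠ 0) (h3 : e3 ≠ 0) (k : ℕ) (B : S)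
    (hB : B.IsHomogeneous k) (hBx : aeval x B ≠ 0) :
    (aeval x B).order ≤ k * (x 3).order := by
  obtain ⟨hb1, hb2⟩ := slc_br h
  obtain ⟨hr1, hr2⟩ := slc_relord h.pt
  have hv : (x 0).order + (x 1).order ≤ (x 3).order := by
    rw [← hb2]
    exact ((ge_order (x 0)).br w1 w2 (ge_order (x 1))).le_order hb1
  have hrel := slc_rel h.pt
  rw [← hrel] at hr1 hr2
  have p0 := h.pt.pos0
  have p1 := h.pt.pos1
  have hle1 : (x 1).order ≤ 2 * (x 0).order :=
    slc_le h.pt.ne0 h.pt.ne1 h0 h3 h.pt.pos0 hr2 hv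
  have hle2 : (x 0).order ≤ 2 * (x 1).order := by
    refine slc_le h.pt.ne1 h.pt.ne0 h3 h0 h.pt.pos1 (v := (x 3).order) ?_ (by linarith)
    rw [← hr2]
    congr 1
    ring
  rcases eq_or_lt_of_le hle1 with he | hlt1
  · exact aout h h0 h3 he k B hB hBx
  rcases eq_or_lt_of_le hle2 with he | hlt2
  · obtain ⟨s1, s2⟩ := swap_form k B hB x
    have h5 := aout h.swap h3 h0 he k _ s1 (by rw [s2]; exact hBx)
    rw [s2] at h5
    exact h5
  have hind : Ind (x 0).order (x 1).order := by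
    refine indep_of_order_br h.pt.ne0 h.pt.ne1 w1 w2 hb1 ?_
    rw [hb2, ← hr2]
    obtain ⟨c1, c2⟩ := slc_cube h0 h.pt.ne0
    obtain ⟨c3, c4⟩ := slc_cube h3 h.pt.ne1
    have hm := mul_ne_zero h.pt.ne0 h.pt.ne1
    have hmo : (x 0 * x 1).order = (x 0).order + (x 1).order :=
      HahnSeries.order_mul h.pt.ne0 h.pt.ne1
    have g1 : Ge (min (3 * (x 0).order) (3 * (x 1).order))
        (algebraMap ℂ HH e0 * x 0 ^ 3 + algebraMap ℂ HH e3 * x 1 ^ 3) := by
      refine Ge.add ?_ ?_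
      · apply (ge_order _).mono
        rw [c2]
        exact min_le_left _ _
      · apply (ge_order _).mono
        rw [c4]
        exact min_le_right _ _
    have g2 := order_add_of_Ge hm (v := min (3 * (x 0).order) (3 * (x 1).order))
      (by rw [hmo]; exact lt_min (by linarith) (by linarith)) g1
    rw [← add_assoc] at g2
    rw [g2.1, hmo]
  exact amid h.pt h0 h3 hind hle2 hle1 hv k B hB hBx

theorem slc_conic {e3 : ℂ} {q : S} {w1 w2 : ℝ →+ ℂ} {x : Fin 4 → HH}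
    (h : Loc 0 e3 q w1 w2 x) (h3 : e3 ≠ 0) (k : ℕ) (B : S)
    (hB : B.IsHomogeneous k) (hBx : aeval x B ≠ 0) :
    (aeval x B).order ≤ k * (x 3).order := by
  obtain ⟨hb1, hb2⟩ := slc_br h
  obtain ⟨hr1, hr2⟩ := slc_relord h.pt
  have hrel := slc_rel h.pt
  rw [← hrel] at hr1 hr2
  rw [map_zero, zero_mul, add_zero] at hr1 hr2
  have p0 := h.pt.pos0
  have p1 := h.pt.pos1
  have hfac : x 0 * x 1 + algebraMap ℂ HH e3 * x 1 ^ 3 =
      (x 0 + algebraMap ℂ HH e3 * x 1 ^ 2) * x 1 := by ring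
  rw [hfac] at hr1 hr2
  have hκ : x 0 + algebraMap ℂ HH e3 * x 1 ^ 2 ≠ 0 := left_ne_zero_of_mul hr1
  rw [HahnSeries.order_mul hκ h.pt.ne1] at hr2
  have hge : Ge (min (x 0).order (2 * (x 1).order)) (x 0 + algebraMap ℂ HH e3 * x 1 ^ 2) := by
    refine Ge.add ((ge_order _).mono (min_le_left _ _)) ?_
    have g1 := (ge_algebraMap e3).mul ((ge_order (x 1)).mul (ge_order (x 1)))
    rw [← pow_two, zero_add] at g1
    refine g1.mono ((min_le_right _ _).trans (by linarith))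
  have hκ0 : 0 < (x 0 + algebraMap ℂ HH e3 * x 1 ^ 2).order :=
    lt_of_lt_of_le (lt_min p0 (by linarith)) (hge.le_order hκ)
  have hbr : br (DD w1) (DD w2) (x 0 + algebraMap ℂ HH e3 * x 1 ^ 2) (x 1) =
      br (DD w1) (DD w2) (x 0) (x 1) := by
    unfold br
    rw [map_add, map_add, Derivation.leibniz, Derivation.leibniz, Derivation.map_algebraMap,
      Derivation.map_algebraMap, Derivation.leibniz_pow, Derivation.leibniz_pow]
    simp only [smul_eq_mul, nsmul_eq_mul]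
    ring
  have hind : Ind (x 0 + algebraMap ℂ HH e3 * x 1 ^ 2).order (x 1).order := by
    refine indep_of_order_br hκ h.pt.ne1 w1 w2 (by rw [hbr]; exact hb1) ?_
    rw [hbr, hb2, hr2]
  exact bc h.pt h3 (h.q_x rfl) hκ hκ0 hind hr2.symm k B hB hBx

theorem sl_core {e0 e3 : ℂ} {q : S} {w1 w2 : ℝ →+ ℂ} {x : Fin 4 → HH}
    (h : Loc e0 e3 q w1 w2 x) (k : ℕ) (B : S) (hB : B.IsHomogeneous k)
    (hBx : aeval x B ≠ 0) : (aeval x B).order ≤ k * (x 3).order := by
  by_cases h0 : e0 = 0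
  · subst h0
    by_cases h3 : e3 = 0
    · subst h3
      obtain ⟨hb1, hb2⟩ := slc_br h
      obtain ⟨hr1, hr2⟩ := slc_relord h.pt
      have hrel := slc_rel h.pt
      rw [← hrel, map_zero, zero_mul, zero_mul, add_zero, add_zero,
        HahnSeries.order_mul h.pt.ne0 h.pt.ne1] at hr2
      have hind : Ind (x 0).order (x 1).order := by
        refine indep_of_order_br h.pt.ne0 h.pt.ne1 w1 w2 hb1 ?_
        rw [hb2, hr2]
      exact cc h.pt (h.q_x rfl) (h.q_y rfl) hind hr2.symm k B hB hBx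
    · exact slc_conic h h3 k B hB hBx
  · by_cases h3 : e3 = 0
    · subst h3
      obtain ⟨s1, s2⟩ := swap_form k B hB x
      have h5 := slc_conic h.swap h0 k _ s1 (by rw [s2]; exact hBx)
      rw [s2] at h5
      exact h5
    · exact slc_nodal h h0 h3 k B hB hBx

end Pool.Agent.CLN
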