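import Pool.Agent.CLN.ToLoc
import Pool.Agent.CLN.SLcore

/-!
# CLN / SL: the surface lemma

`exists_norm`, `exists_loc`, `sl_core`; the difference `V(B(x)) - k V(h(x))` is invariant under
scaling (`aeval_smul_form`).
-/

set_option autoImplicit false

namespace Pool.Agent.CLN

open MvPolynomial Pool.Agent.CLU

private theorem sl_diag_hom (a : Fin 4 → ℂ) : (diag a).IsHomogeneous 3 := by
  unfold diag
  refine IsHomogeneous.sum _ _ _ fun i _ => ?_
  have h := (isHomogeneous_C (Fin 4) (a i)).mul ((isHomogeneous_X ℂ i).pow 3)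
  rwa [zero_add, one_mul] at h

private theorem sl_lf_ne {l : Fin 4 → ℂ} (hl : ∀ i, l i ≠ 0) : lf l ≠ 0 := by
  intro h0
  have := congrArg (eval (Pi.single 0 (1 : ℂ))) h0
  rw [eval_lf, map_zero, dotProduct_single_one] at this
  exact hl 0 this

private theorem sl_diag_ne {c : Fin 4 → ℂ} (hc : ∀ i j, i ≠ j → c i ≠ 0 ∨ c j ≠ 0) :
    diag c ≠ 0 := by
  intro h0
  have key : ∀ i, c i = 0 := by
    intro i
    have h1 := congrArg (eval (Pi.single i (1 : ℂ))) h0
    rw [map_zero, diag, map_sum, Finset.sum_eq_single i] at h1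
    · simpa using h1
    · intro j _ hj
      simp [Pi.single_eq_of_ne hj]
    · intro hi
      exact absurd (Finset.mem_univ i) hi
  rcases hc 0 1 (by decide) with h | h
  · exact h (key 0)
  · exact h (key 1)

private theorem sl_not_dvd {c l : Fin 4 → ℂ} (hl : ∀ i, l i ≠ 0)
    (hc : ∀ i j, i ≠ j → c i ≠ 0 ∨ c j ≠ 0) : ¬ diag c ∣ lf l := by
  rintro ⟨u, hu⟩
  have hl0 := sl_lf_ne hl
  have hu0 : u ≠ 0 := by
    rintro rfl
    rw [mul_zero] at hu
    exact hl0 hu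
  have h1 := totalDegree_mul_of_isDomain (sl_diag_ne hc) hu0
  rw [← hu, (lf_hom l).totalDegree hl0, (sl_diag_hom c).totalDegree (sl_diag_ne hc)] at h1
  omega

/-- The surface lemma. -/
theorem surface_lemma {c l : Fin 4 → ℂ} {w1 w2 : ℝ →+ ℂ} {x : Fin 4 → HH}
    (hx : Surf (diag c) (lf l) (DD w1) (DD w2) x) (hl : ∀ i, l i ≠ 0)
    (hc : ∀ i j, i ≠ j → c i ≠ 0 ∨ c j ≠ 0) (k : ℕ) (B : S) (hB : B.IsHomogeneous k)
    (hBf : ¬ diag c ∣ B) : (aeval x B).order ≤ k * (aeval x (lf l)).order := by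
  obtain ⟨μ, κ, hμ, hN⟩ := exists_norm hx hl hc
  obtain ⟨e0, e3, q, y, hloc, htr⟩ := exists_loc hN
  have hBx : aeval x B ≠ 0 := fun h0 => hBf ((hx.van k B hB).1 h0)
  have hlx : aeval x (lf l) ≠ 0 := fun h0 => sl_not_dvd hl hc ((hx.van 1 (lf l) (lf_hom l)).1 h0)
  have e1 := aeval_smul_form B k hB μ x
  have e2 := aeval_smul_form (lf l) 1 (lf_hom l) μ x
  have hBμ : aeval (fun i => μ * x i) B ≠ 0 := by
    rw [e1]
    exact mul_ne_zero (pow_ne_zero _ hμ) hBx
  obtain ⟨B', hB', hB'0, ho⟩ := htr k B hB hBμ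
  have h1 := sl_core hloc k B' hB' hB'0
  rw [e1, e2, HahnSeries.order_mul (pow_ne_zero _ hμ) hBx, pow_one,
    HahnSeries.order_mul hμ hlx, HahnSeries.order_pow, nsmul_eq_mul] at ho
  linarith

end Pool.Agent.CLN
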