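import Pool.Agent.CLN.Star

/-!
# CLN / Surface: the surface structure (assembly of Step C)
-/

set_option autoImplicit false

namespace Pool.Agent.CLN

open MvPolynomial Pool.Agent.CLU

theorem exists_surface {P : Ideal S} {t : Fin 3 → K3} {θ : Fin 3 → Derivation ℂ K3 K3}
    {b b' G : S} (h : ClusterData P t θ) (hb : IsB θ b) (hG : Irreducible G) {g : ℕ}
    (hGh : G.IsHomogeneous g) (hG3 : ¬ G ∣ X 3) (hbG : b = G * b') :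
    ∃ (w : Fin 3 → ℤ) (j1 j2 : Fin 3), (∀ i, w i = ordL G (t i : L)) ∧ (∃ i, w i ≠ 0) ∧
      ∀ (M : Type) [Field M] [Algebra ℂ M] (m : Fin 3 → M) (D : Fin 3 → Derivation ℂ M M),
        Function.Injective (aeval m : MvPolynomial (Fin 3) ℂ →ₐ[ℂ] M) →
        (∀ i j, D j (m i) = if i = j then m i else 0) →
        ∃ (lead : K3 → M) (x : Fin 4 → M), Lead t G w m lead x ∧ Surf G b' (D j1) (D j2) x := by
  have hGb : G ∣ b := ⟨b', hbG⟩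
  obtain ⟨i0, hi0⟩ := ord_t_ne h hb hG hGh hGb
  set w : Fin 3 → ℤ := fun i => ordL G (t i : L) with hwdef
  have hw : ∀ i, w i = ordL G (t i : L) := fun i => rfl
  obtain ⟨j0, j1, j2, hj, hj0⟩ : ∃ j0 j1 j2 : Fin 3, ((j0 = 0 ∧ j1 = 1 ∧ j2 = 2) ∨
      (j0 = 1 ∧ j1 = 0 ∧ j2 = 2) ∨ (j0 = 2 ∧ j1 = 0 ∧ j2 = 1)) ∧ w j0 ≠ 0 := by
    fin_cases i0
    · exact ⟨0, 1, 2, Or.inl ⟨rfl, rfl, rfl⟩, hi0⟩
    · exact ⟨1, 0, 2, Or.inr (Or.inl ⟨rfl, rfl, rfl⟩), hi0⟩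
    · exact ⟨2, 0, 1, Or.inr (Or.inr ⟨rfl, rfl, rfl⟩), hi0⟩
  refine ⟨w, j1, j2, hw, ⟨i0, hi0⟩, ?_⟩
  intro M _ _ m D hm hD
  obtain ⟨ι, hι⟩ := exists_Iota h hb hG hGh hGb w hw m hm D hD
  exact ⟨_, pt ι, lead_pt hι hm hG hG3, fun d A hA => van_pt hι hG hG3 A d hA,
    star_pt hb hι hG hGh hG3 hbG j0 j1 j2 hj hj0⟩

end Pool.Agent.CLN
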