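import Pool.Agent.CLN.SymP

/-!
# CLN / SymQ: forms of multiplicity `n` along the curve, modulo `f_0`

`mem_pow` and `rep`: `G = ∑ g_i f_0^i f_1^(n-i)`, so `f_0 ∣ G - g_0 f_1^n`.  Take the homogeneous
component of degree `D`: if `D < 3n` it gives `f_0 ∣ G`, excluded; otherwise `D = 3n + k` and
`A1` = the component of `g_0` of degree `k`.  `f_0 ∤ A1` since `f_0 ∤ G`.
-/

set_option autoImplicit false

namespace Pool.Agent.CLN

open MvPolynomial Pool.Agent.CLU

private theorem hc_mul' (u f : S) {m : ℕ} (hf : f.IsHomogeneous m) (n : ℕ) :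
    homogeneousComponent n (u * f) = if m ≤ n then homogeneousComponent (n - m) u * f else 0 := by
  have hu : u * f = ∑ i ∈ Finset.range (u.totalDegree + 1), homogeneousComponent i u * f := by
    rw [← Finset.sum_mul, sum_homogeneousComponent]
  rw [hu, map_sum]
  have e : ∀ i, homogeneousComponent n (homogeneousComponent i u * f) =
      if n = i + m then homogeneousComponent i u * f else 0 := fun i =>
    homogeneousComponent_of_mem ((homogeneousComponent_isHomogeneous i u).mul hf)
  rw [Finset.sum_congr rfl fun i _ => e i]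
  by_cases hn : m ≤ n
  · rw [if_pos hn]
    have e2 : ∀ i, (n = i + m) = (n - m = i) := by
      intro i
      refine propext ⟨fun h => by omega, fun h => by omega⟩
    simp only [e2]
    rw [Finset.sum_ite_eq]
    split_ifs with h
    · rfl
    · rw [homogeneousComponent_eq_zero, zero_mul]
      rw [Finset.mem_range] at h
      omega
  · rw [if_neg hn]
    refine Finset.sum_eq_zero fun i _ => ?_
    rw [if_neg (by omega)]

theorem sympow {a' a : Fin 4 → ℂ} (hnd : NonDeg a' a) {P : Ideal S}
    (hP : P = Ideal.span {diag a', diag a}) (hprime : P.IsPrime) (G : S) (D : ℕ)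
    (hG : G.IsHomogeneous D) (hG0 : ¬ diag a' ∣ G) :
    ∃ (n k : ℕ) (A1 : S), mult P G = n ∧ D = 3 * n + k ∧ A1.IsHomogeneous k ∧
      diag a' ∣ G - diag a ^ n * A1 ∧ ¬ diag a' ∣ A1 := by
  have hG1 : G ≠ 0 := by
    rintro rfl
    exact hG0 (dvd_zero _)
  obtain ⟨n, hn⟩ := ENat.ne_top_iff_exists.1 (mult_ne_top P G hG1)
  have hmem := mem_pow hnd hP hprime n G hn.le
  rw [hP] at hmem
  obtain ⟨g, hg⟩ := rep (diag a') (diag a) n G hmem
  rw [Finset.sum_range_succ'] at hg
  set w : S := ∑ i ∈ Finset.range n, g (i + 1) * diag a' ^ i * diag a ^ (n - (i + 1)) with hw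
  have hg2 : G = w * diag a' + g 0 * diag a ^ n := by
    rw [hg, pow_zero, mul_one, Nat.sub_zero, hw, Finset.sum_mul]
    congr 1
    refine Finset.sum_congr rfl fun i _ => ?_
    rw [pow_succ]
    ring
  have hpow : (diag a ^ n).IsHomogeneous (3 * n) := (diag_hom a).pow n
  have h1 : G = homogeneousComponent D (w * diag a') + homogeneousComponent D (g 0 * diag a ^ n) := by
    rw [← map_add, ← hg2, homogeneousComponent_eq_self hG]
  rw [hc_mul' w _ (diag_hom a'), hc_mul' (g 0) _ hpow] at h1
  have h2 : diag a' ∣ (if 3 ≤ D then homogeneousComponent (D - 3) w * diag a' else 0) := by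
    split_ifs
    · exact dvd_mul_left _ _
    · exact dvd_zero _
  by_cases hD : 3 * n ≤ D
  · rw [if_pos hD] at h1
    have h3 : diag a' ∣ G - diag a ^ n * homogeneousComponent (D - 3 * n) (g 0) := by
      have e : G - diag a ^ n * homogeneousComponent (D - 3 * n) (g 0) =
          (if 3 ≤ D then homogeneousComponent (D - 3) w * diag a' else 0) := by
        nth_rewrite 1 [h1]
        ring
      rw [e]
      exact h2
    refine ⟨n, D - 3 * n, homogeneousComponent (D - 3 * n) (g 0), hn.symm, by omega,
      homogeneousComponent_isHomogeneous _ _, h3, fun h4 => hG0 ?_⟩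
    have h5 := dvd_add h3 (h4.mul_left (diag a ^ n))
    rwa [sub_add_cancel] at h5
  · exfalso
    rw [if_neg hD, add_zero] at h1
    apply hG0
    rw [h1]
    exact h2

end Pool.Agent.CLN
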