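import Pool.Agent.CLN.Laurent
import Pool.Agent.CLN.SymQ
import Pool.Agent.CLN.Surface
import Pool.Agent.CLN.Reals
import Pool.Agent.CLN.SL

/-!
# CLN / C1Defs: the data of case I
-/

set_option autoImplicit false

namespace Pool.Agent.CLN

open MvPolynomial Pool.Agent.CLU

/-- The data of case I (`b = f h`, `f = diag c`, `h = lf l`, `f_1 = diag c1`) with the leading
coefficients for `t_i ↦ ee (r_i)` and `t_i ↦ ee (- r_i)`. -/
structure C1Data (P : Ideal S) (t : Fin 3 → K3) (θ : Fin 3 → Derivation ℂ K3 K3) (b : S)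
    (c c1 l : Fin 4 → ℂ) (r : Fin 3 → ℝ) (w : Fin 3 → ℤ) (lead lead' : K3 → HH)
    (x x' : Fin 4 → HH) : Prop where
  cd : ClusterData P t θ
  isb : IsB θ b
  nondeg : NonDeg c c1
  hP : P = Ideal.span {diag c, diag c1}
  prime : P.IsPrime
  l_ne : ∀ i, l i ≠ 0
  eq : b = diag c * lf l
  irr : Irreducible (diag c)
  r_ind : ∀ m : Fin 3 → ℤ, ∑ i, r i * (m i : ℝ) = 0 → m = 0
  w_eq : ∀ i, w i = ordL (diag c) (t i : L)
  ld : Lead t (diag c) w (fun i => ee (r i)) lead x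
  ld' : Lead t (diag c) w (fun i => ee (-(r i))) lead' x'
  coef : ∀ (p : MvPolynomial (Fin 3) ℂ) (m : Fin 3 →₀ ℕ),
    (aeval (fun i => ee (r i)) p : HH).coeff (∑ i, r i * (m i : ℝ)) = coeff m p ∧
    (aeval (fun i => ee (-(r i))) p : HH).coeff (∑ i, -(r i) * (m i : ℝ)) = coeff m p
  van : aeval x (diag c) = 0
  van' : aeval x' (diag c) = 0
  sl : ∀ (k : ℕ) (B : S), B.IsHomogeneous k → ¬ diag c ∣ B →
    aeval x B ≠ 0 ∧ (aeval x B).order ≤ k * (aeval x (lf l)).order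
  sl' : ∀ (k : ℕ) (B : S), B.IsHomogeneous k → ¬ diag c ∣ B →
    aeval x' B ≠ 0 ∧ (aeval x' B).order ≤ k * (aeval x' (lf l)).order

end Pool.Agent.CLN
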