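import Pool.Agent.CLN.C1Bound

/-!
# CLN / C1Fin: case I is impossible

Choose `m : Fin 3 → ℤ`, `m ≠ 0`, `∑ w_i m_i = 0` (e.g. `(w_1, -w_0, 0)` or `(1, 0, 0)`).
`τ = ∏ t_i^{m_i} = A/B` (`monomial_forms`), `V(τ) = ∑ r_i m_i ≠ 0` (`lead_monomial`, `h.r_ind`).
`bound` for `A` (`n`, `k`, `g_A`) and `B` (`n'`, `k'`, `g_B`); `3n + k = 3n' + k'`.
`τ = g_A g_B⁻¹ ψ^(n - n')` (`f^(n-n') h^(k-k') = (f/h^3)^(n-n')`), so
`V(τ) = (n - n') (V(φ) + V(ψ))`.  If `n = n'`: `V(τ) = 0`, contradiction.  If `n ≠ n'`: `E` is not a torus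
divisor (`monomial_forms`), so `ψ, ψ⁻¹` are in all torus rings (`inAll_ratio`, `tor_ne`), `ψ` is a
monomial, `V'(ψ) = - V(ψ)`; one of `n, n'` is not `0`, so `V'(φ) = - V(φ)`; `psi_bound`:
`V(ψ) + V(φ) ≤ 0` and `-(V(ψ) + V(φ)) ≤ 0`, so `V(τ) = 0`, contradiction.
-/

set_option autoImplicit false

namespace Pool.Agent.CLN

open MvPolynomial Pool.Agent.CLU

private theorem c1f_diag_hom (a : Fin 4 → ℂ) : (diag a).IsHomogeneous 3 := by
  unfold diag
  refine IsHomogeneous.sum _ _ _ fun i _ => ?_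
  have h := (isHomogeneous_C (Fin 4) (a i)).mul ((isHomogeneous_X ℂ i).pow 3)
  rwa [zero_add, one_mul] at h

private theorem c1f_lf_ne {l : Fin 4 → ℂ} (hl : ∀ i, l i ≠ 0) : lf l ≠ 0 := by
  intro h0
  have := congrArg (eval (Pi.single 0 (1 : ℂ))) h0
  rw [eval_lf, map_zero, dotProduct_single_one] at this
  exact hl 0 this

private theorem c1f_exists_m (w : Fin 3 → ℤ) :
    ∃ m : Fin 3 → ℤ, m ≠ 0 ∧ ∑ i, w i * m i = 0 := by
  by_cases h0 : w 0 = 0
  · refine ⟨![1, 0, 0], ?_, ?_⟩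
    · intro h
      have := congrFun h 0
      simp at this
    · simp [Fin.sum_univ_three, h0]
  · refine ⟨![w 1, - w 0, 0], ?_, ?_⟩
    · intro h
      have := congrFun h 1
      simp at this
      exact h0 this
    · simp [Fin.sum_univ_three]
      ring

/-- The quotient of two forms of the same degree as an element of `K3`. -/
private theorem c1f_quot (d : ℕ) (A B : S) (hA : A.IsHomogeneous d) (hB : B.IsHomogeneous d)
    (hB0 : B ≠ 0) : ∃ a : K3, (a : L) = algebraMap S L A / algebraMap S L B :=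
  ⟨⟨algebraMap S L A / algebraMap S L B, ⟨d, A, B, hA, hB, hB0, rfl⟩⟩, rfl⟩

theorem c1_false {P : Ideal S} {t : Fin 3 → K3} {θ : Fin 3 → Derivation ℂ K3 K3} {b : S}
    {c c1 l : Fin 4 → ℂ} {r : Fin 3 → ℝ} {w : Fin 3 → ℤ} {lead lead' : K3 → HH}
    {x x' : Fin 4 → HH} (h : C1Data P t θ b c c1 l r w lead lead' x x') : False := by
  obtain ⟨m, hm0, hmw⟩ := c1f_exists_m w
  obtain ⟨d, A, B, hA, hB, hA0, hB0, hτ, hfA, hfB, hs, he⟩ := monomial_forms h m hmw
  have hf0 : diag c ≠ 0 := h.irr.ne_zero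
  have hl0 : lf l ≠ 0 := c1f_lf_ne h.l_ne
  have hh3 : (lf l ^ 3).IsHomogeneous 3 := by
    have := (lf_hom l).pow 3
    rwa [one_mul] at this
  obtain ⟨φ, hφ⟩ := c1f_quot 3 (diag c1) (diag c) (c1f_diag_hom c1) (c1f_diag_hom c) hf0
  obtain ⟨ψ, hψ⟩ := c1f_quot 3 (diag c) (lf l ^ 3) (c1f_diag_hom c) hh3 (pow_ne_zero 3 hl0)
  obtain ⟨n, k, gA, hnA, hdA, hgA, hgA0, hVA, hρA⟩ :=
    bound h φ hφ A d hA hfA (fun G hG => (hs G hG).1)
  obtain ⟨n', k', gB, hnB, hdB, hgB, hgB0, hVB, hρB⟩ :=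
    bound h φ hφ B d hB hfB (fun G hG => (hs G hG).2)
  obtain ⟨hψ0, hψ1, hψ2⟩ := psi_bound h φ ψ hφ hψ
  set τ : K3 := ∏ i, t i ^ m i with hτdef
  have hτ0 : τ ≠ 0 := Finset.prod_ne_zero_iff.2 fun i _ => zpow_ne_zero _ (h.cd.t_ne i)
  have hVτ : (lead τ).order = ∑ i, r i * (m i : ℝ) := by
    have h1 := (lead_monomial h 1 one_ne_zero m).1
    rwa [map_one, one_mul] at h1
  have hne : (lead τ).order ≠ 0 := by
    rw [hVτ]
    exact fun h1 => hm0 (h.r_ind m h1)
  -- the relation `τ g_B ψ^n' = g_A ψ^n`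
  have hfL : algebraMap S L (diag c) ≠ 0 := by simpa using hf0
  have hlL : algebraMap S L (lf l) ≠ 0 := by simpa using hl0
  have hBL : algebraMap S L B ≠ 0 := by simpa using hB0
  have hrel : τ * gB * ψ ^ n' = gA * ψ ^ n := by
    apply Subtype.ext
    have e1 : ((τ * gB * ψ ^ n' : K3) : L) = (τ : L) * (gB : L) * (ψ : L) ^ n' := rfl
    have e2 : ((gA * ψ ^ n : K3) : L) = (gA : L) * (ψ : L) ^ n := rfl
    rw [e1, e2, hτ, hgB, hgA, hψ]
    simp only [map_mul, map_pow]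
    have e3 : algebraMap S L A / algebraMap S L B *
        (algebraMap S L B / (algebraMap S L (diag c) ^ n' * algebraMap S L (lf l) ^ k')) *
        (algebraMap S L (diag c) / algebraMap S L (lf l) ^ 3) ^ n' =
        algebraMap S L A / algebraMap S L (lf l) ^ d := by
      rw [hdB, pow_add, pow_mul, div_pow]
      field_simp
    have e4 : algebraMap S L A / (algebraMap S L (diag c) ^ n * algebraMap S L (lf l) ^ k) *
        (algebraMap S L (diag c) / algebraMap S L (lf l) ^ 3) ^ n =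
        algebraMap S L A / algebraMap S L (lf l) ^ d := by
      rw [hdA, pow_add, pow_mul, div_pow]
      field_simp
    rw [e3, e4]
  have hpow : ∀ j : ℕ, (lead (ψ ^ j)).order = j * (lead ψ).order := by
    intro j
    have h1 := (lead_order_zpow h ψ hψ0 (j : ℤ)).1
    rwa [zpow_natCast, Int.cast_natCast] at h1
  have hord : (lead τ).order = ((n : ℝ) - n') * ((lead φ).order + (lead ψ).order) := by
    have h1 : (lead (τ * gB * ψ ^ n')).order = (lead (gA * ψ ^ n)).order := by rw [hrel]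
    rw [(lead_order_mul h _ _ (mul_ne_zero hτ0 hgB0) (pow_ne_zero _ hψ0)).1,
      (lead_order_mul h _ _ hτ0 hgB0).1, (lead_order_mul h _ _ hgA0 (pow_ne_zero _ hψ0)).1,
      hpow, hpow, hVA, hVB] at h1
    linear_combination h1
  by_cases hn : n = n'
  · apply hne
    rw [hord, hn]
    ring
  · have hE : ¬ TorExc t P := by
      intro hE
      have h1 := he hE
      rw [hnA, hnB] at h1
      exact hn (by exact_mod_cast h1)
    have hin : InAll t ψ := by
      refine inAll_ratio h (diag c) (lf l ^ 3) 3 (c1f_diag_hom c) hh3 (pow_ne_zero 3 hl0)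
        (fun G hG hd => (tor_ne h G hG).2 ?_) (fun hE' => absurd hE' hE) ψ hψ
      exact hG.1.prime.dvd_of_dvd_pow hd
    have hin' : InAll t ψ⁻¹ := by
      refine inAll_ratio h (lf l ^ 3) (diag c) 3 hh3 (c1f_diag_hom c) hf0
        (fun G hG => (tor_ne h G hG).1) (fun hE' => absurd hE' hE) ψ⁻¹ ?_
      have e : ((ψ⁻¹ : K3) : L) = (ψ : L)⁻¹ := rfl
      rw [e, hψ, inv_div]
    obtain ⟨κ, m', hκ, hm'⟩ := monomial_of h.cd ψ hψ0 hin hin'
    obtain ⟨hl1, hl2⟩ := lead_monomial h κ hκ m'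
    rw [← hm'] at hl1 hl2
    have hρ : (lead φ).order + (lead' φ).order = 0 := by
      by_cases h1 : n = 0
      · exact hρB (fun h2 => hn (h1.trans h2.symm))
      · exact hρA h1
    apply hne
    rw [hord]
    have : (lead φ).order + (lead ψ).order = 0 := by
      linarith
    rw [this, mul_zero]

end Pool.Agent.CLN
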