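import Pool.Agent.CLN.C1Defs

/-!
# CLN / C1Rho: orders of leading coefficients

`lead_prod`: `lead (t_i) = ee (r_i)` (`Lead.poly` for `X i`, `initForm w (X i) = X i`), constants
(`Lead.poly` for `C k`), multiplicativity.
`rho_le`: by `Lead.mul` and `lead_prod` (the orders of `(t_0 t_1 t_2)^n` for the two signs add up to `0`)
it is enough to treat `a = p(t)`, `p ≠ 0`.  `lead (p(t)) = aeval (ee r) (initForm w p)`; let `m` be in the
support of `initForm w p` (`p ≠ 0`, some exponent has least weight); the coefficient of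
`aeval (ee r) (initForm w p)` at `∑ r_i m_i` is not `0` (`h.coef`), so its order is `≤ ∑ r_i m_i`;
the order for `-r` is `≤ -∑ r_i m_i`.
-/

set_option autoImplicit false

namespace Pool.Agent.CLN

open MvPolynomial Pool.Agent.CLU

variable {P : Ideal S} {t : Fin 3 → K3} {θ : Fin 3 → Derivation ℂ K3 K3} {b : S}
  {c c1 l : Fin 4 → ℂ} {r : Fin 3 → ℝ} {w : Fin 3 → ℤ} {lead lead' : K3 → HH}
  {x x' : Fin 4 → HH}

private theorem zpow_of_mul {K : Type*} [Field K] (φ : K → ℝ)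
    (hφ : ∀ a b, a ≠ 0 → b ≠ 0 → φ (a * b) = φ a + φ b) (a : K) (ha : a ≠ 0) (n : ℤ) :
    φ (a ^ n) = n * φ a := by
  have h1 : φ 1 = 0 := by
    have := hφ 1 1 one_ne_zero one_ne_zero
    rw [mul_one] at this
    linarith
  induction n using Int.induction_on with
  | zero => rw [zpow_zero, h1, Int.cast_zero, zero_mul]
  | succ n ih =>
    rw [zpow_add_one₀ ha, hφ _ _ (zpow_ne_zero _ ha) ha, ih]
    push_cast
    ring
  | pred n ih =>
    have h2 := hφ (a ^ (-(n : ℤ) - 1)) a (zpow_ne_zero _ ha) ha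
    rw [← zpow_add_one₀ ha, sub_add_cancel, ih] at h2
    push_cast at h2 ⊢
    linarith

private theorem initForm_monomial (w : Fin 3 → ℤ) (μ : Fin 3 →₀ ℕ) (k : ℂ) (hk : k ≠ 0) :
    initForm w (monomial μ k) = monomial μ k := by
  classical
  have hs : (monomial μ k).support = {μ} := by
    rw [support_monomial, if_neg hk]
  have h1 : initForm w (monomial μ k) = ∑ m ∈ ({μ} : Finset (Fin 3 →₀ ℕ)).filter
      (fun m => ∀ m' ∈ ({μ} : Finset (Fin 3 →₀ ℕ)), wt w m ≤ wt w m'),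
        monomial m (coeff m (monomial μ k)) := by
    rw [initForm, hs]
  have h2 : ({μ} : Finset (Fin 3 →₀ ℕ)).filter
      (fun m => ∀ m' ∈ ({μ} : Finset (Fin 3 →₀ ℕ)), wt w m ≤ wt w m') = {μ} := by
    rw [Finset.filter_true_of_mem]
    intro m hm m' hm'
    rw [Finset.mem_singleton] at hm hm'
    rw [hm, hm']
  rw [h1, h2, Finset.sum_singleton, coeff_monomial, if_pos rfl]

/-- the order of a product, general form -/
private theorem ord_mul' {G : S} {s : Fin 3 → HH} {L : K3 → HH} {y : Fin 4 → HH}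
    (h : Lead t G w s L y) (a a' : K3) (ha : a ≠ 0) (ha' : a' ≠ 0) :
    (L (a * a')).order = (L a).order + (L a').order := by
  rw [h.mul, HahnSeries.order_mul (fun h0 => ha ((h.zero a).1 h0))
    (fun h0 => ha' ((h.zero a').1 h0))]

private theorem ord_zpow' {G : S} {s : Fin 3 → HH} {L : K3 → HH} {y : Fin 4 → HH}
    (h : Lead t G w s L y) (a : K3) (ha : a ≠ 0) (n : ℤ) :
    (L (a ^ n)).order = n * (L a).order :=
  zpow_of_mul (fun a => (L a).order) (ord_mul' h) a ha n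

private theorem ord_monomial' {G : S} {s : Fin 3 → ℝ} {L : K3 → HH} {y : Fin 4 → HH}
    (ht : ∀ i, t i ≠ 0) (h : Lead t G w (fun i => ee (s i)) L y) (k : ℂ) (hk : k ≠ 0)
    (m : Fin 3 → ℤ) :
    (L (algebraMap ℂ K3 k * ∏ i, t i ^ m i)).order = ∑ i, s i * (m i : ℝ) := by
  have hk' : algebraMap ℂ K3 k ≠ 0 := (map_ne_zero _).2 hk
  have hC : (L (algebraMap ℂ K3 k)).order = 0 := by
    have h1 := h.poly (monomial 0 k)
    rw [initForm_monomial w 0 k hk] at h1
    have e1 : (monomial 0 k : MvPolynomial (Fin 3) ℂ) = C k := rfl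
    rw [e1, aeval_C, aeval_C] at h1
    rw [h1, order_algebraMap]
  have hT : ∀ i, (L (t i)).order = s i := by
    intro i
    have h1 := h.poly (X i)
    have e1 : initForm w (X i) = X i := initForm_monomial w _ 1 one_ne_zero
    rw [e1, aeval_X, aeval_X] at h1
    rw [h1, ee, HahnSeries.order_single one_ne_zero]
  have hz : ∀ i, t i ^ m i ≠ 0 := fun i => zpow_ne_zero _ (ht i)
  rw [Fin.prod_univ_three, Fin.sum_univ_three, ord_mul' h _ _ hk'
    (mul_ne_zero (mul_ne_zero (hz 0) (hz 1)) (hz 2)), ord_mul' h _ _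
    (mul_ne_zero (hz 0) (hz 1)) (hz 2), ord_mul' h _ _ (hz 0) (hz 1), hC,
    ord_zpow' h _ (ht 0), ord_zpow' h _ (ht 1), ord_zpow' h _ (ht 2), hT, hT, hT]
  ring

theorem lead_order_mul (h : C1Data P t θ b c c1 l r w lead lead' x x') (a a' : K3) (ha : a ≠ 0)
    (ha' : a' ≠ 0) : (lead (a * a')).order = (lead a).order + (lead a').order ∧
      (lead' (a * a')).order = (lead' a).order + (lead' a').order :=
  ⟨ord_mul' h.ld a a' ha ha', ord_mul' h.ld' a a' ha ha'⟩

theorem lead_order_zpow (h : C1Data P t θ b c c1 l r w lead lead' x x') (a : K3) (ha : a ≠ 0)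
    (n : ℤ) : (lead (a ^ n)).order = n * (lead a).order ∧
      (lead' (a ^ n)).order = n * (lead' a).order :=
  ⟨ord_zpow' h.ld a ha n, ord_zpow' h.ld' a ha n⟩

theorem lead_monomial (h : C1Data P t θ b c c1 l r w lead lead' x x') (k : ℂ) (hk : k ≠ 0)
    (m : Fin 3 → ℤ) :
    (lead (algebraMap ℂ K3 k * ∏ i, t i ^ m i)).order = ∑ i, r i * (m i : ℝ) ∧
      (lead' (algebraMap ℂ K3 k * ∏ i, t i ^ m i)).order = -∑ i, r i * (m i : ℝ) := by
  refine ⟨ord_monomial' h.cd.t_ne h.ld k hk m, ?_⟩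
  have h1 := ord_monomial' (s := fun i => -(r i)) h.cd.t_ne h.ld' k hk m
  rw [h1, ← Finset.sum_neg_distrib]
  exact Finset.sum_congr rfl fun i _ => by ring

theorem rho_le (h : C1Data P t θ b c c1 l r w lead lead' x x') (a : K3) (ha0 : a ≠ 0)
    (ha : InAll t a) : (lead a).order + (lead' a).order ≤ 0 := by
  obtain ⟨p, n, hp⟩ := laurent_of h.cd a ha
  have hm0 : (t 0 * t 1 * t 2) ^ n ≠ 0 := pow_ne_zero _
    (mul_ne_zero (mul_ne_zero (h.cd.t_ne 0) (h.cd.t_ne 1)) (h.cd.t_ne 2))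
  have hmon : algebraMap ℂ K3 1 * ∏ i, t i ^ ((fun _ => (n : ℤ)) i : ℤ) =
      (t 0 * t 1 * t 2) ^ n := by
    rw [map_one, one_mul, Fin.prod_univ_three, mul_pow, mul_pow, zpow_natCast, zpow_natCast,
      zpow_natCast]
  obtain ⟨e1, e2⟩ := lead_order_mul h a ((t 0 * t 1 * t 2) ^ n) ha0 hm0
  obtain ⟨e3, e4⟩ := lead_monomial h 1 one_ne_zero fun _ => (n : ℤ)
  rw [hmon] at e3 e4
  rw [hp, e3] at e1
  rw [hp, e4] at e2
  have hpt : aeval t p ≠ 0 := by
    rw [← hp]
    exact mul_ne_zero ha0 hm0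
  have hl : lead (aeval t p) ≠ 0 := fun h0 => hpt ((h.ld.zero _).1 h0)
  have hi : initForm w p ≠ 0 := by
    intro h0
    rw [h.ld.poly, h0, map_zero] at hl
    exact hl rfl
  obtain ⟨m, hm⟩ := Finset.nonempty_of_ne_empty (fun h0 => hi (support_eq_empty.mp h0))
  have hm' := mem_support_iff.1 hm
  obtain ⟨c1', c2'⟩ := h.coef (initForm w p) m
  have f1 : (lead (aeval t p)).order ≤ ∑ i, r i * (m i : ℝ) := by
    rw [h.ld.poly]
    exact HahnSeries.order_le_of_coeff_ne_zero (by rw [c1']; exact hm')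
  have f2 : (lead' (aeval t p)).order ≤ ∑ i, -(r i) * (m i : ℝ) := by
    rw [h.ld'.poly]
    exact HahnSeries.order_le_of_coeff_ne_zero (by rw [c2']; exact hm')
  have f3 : ∑ i, -(r i) * (m i : ℝ) = -∑ i, r i * (m i : ℝ) := by
    rw [← Finset.sum_neg_distrib]
    exact Finset.sum_congr rfl fun i _ => by ring
  rw [e1] at f1
  rw [e2, f3] at f2
  linarith

end Pool.Agent.CLN
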