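import Pool.Agent.CLN.C2Defs

/-!
# CLN / C2Basis: a basis of the pencil with `V(h_0) > V(h_1)`

`h_0 = lf p`, `h_1 = lf q`; a nonzero linear form is not divisible by `b` (degree `4`), so its value
at `x` is not zero (`Surf.van`).  If `V(h_1(x)) < V(h_0(x))` keep the data.  If
`V(h_0(x)) < V(h_1(x))` swap: `(a', a, p, q) ↦ (a, a', q, p)`.  If they are equal, let `k` be the
quotient of the leading coefficients of `h_0(x)` and `h_1(x)` and take
`(a', a + k a', p - k q, q)`: `b = (h_0 - k h_1) f_0 + h_1 (f_1 + k f_0)`,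
`V(h_0 - k h_1) > V(h_1)`.  (The minors of `(a', a + k a')` are those of `(a', a)`.)
-/

set_option autoImplicit false

namespace Pool.Agent.CLN

open MvPolynomial Pool.Agent.CLU

private theorem lf_ne_zero (l : Fin 4 → ℂ) (hl : l ≠ 0) : lf l ≠ 0 := by
  intro h0
  apply hl
  funext i
  have := congrArg (eval (Pi.single i (1 : ℂ))) h0
  rw [eval_lf, map_zero, dotProduct_single_one] at this
  exact this

theorem aeval_lf_ne_zero {b : S} {w1 w2 : ℝ →+ ℂ} {x : Fin 4 → HH} {a' a p q : Fin 4 → ℂ}
    (h : C2Data b w1 w2 x a' a p q) (l : Fin 4 → ℂ) (hl : l ≠ 0) : aeval x (lf l) ≠ 0 := by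
  intro h0
  obtain ⟨c, hc⟩ := (h.surf.van 1 (lf l) (lf_hom l)).1 h0
  have hl0 := lf_ne_zero l hl
  have hb0 : b ≠ 0 := h.irr.ne_zero
  have hc0 : c ≠ 0 := by
    rintro rfl
    rw [mul_zero] at hc
    exact hl0 hc
  have h1 := totalDegree_mul_of_isDomain hb0 hc0
  rw [← hc, (lf_hom l).totalDegree hl0, h.hom.totalDegree hb0] at h1
  omega

theorem exists_basis {b : S} {w1 w2 : ℝ →+ ℂ} {x : Fin 4 → HH} {a' a p q : Fin 4 → ℂ}
    (h : C2Data b w1 w2 x a' a p q) : ∃ a' a p q : Fin 4 → ℂ, C2Data b w1 w2 x a' a p q ∧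
      (aeval x (lf q)).order < (aeval x (lf p)).order := by
  have hli := LinearIndependent.pair_iff.1 h.li
  rcases lt_trichotomy (aeval x (lf q)).order (aeval x (lf p)).order with hlt | heq | hgt
  · exact ⟨a', a, p, q, h, hlt⟩
  · have hq : q ≠ 0 := by
      rintro rfl
      exact one_ne_zero (hli 0 1 (by simp)).2
    have hq0 := aeval_lf_ne_zero h q hq
    set v := (aeval x (lf q)).order with hv
    have hcv : (aeval x (lf q)).coeff v ≠ 0 := HahnSeries.coeff_order_eq_zero.not.2 hq0
    let k : ℂ := (aeval x (lf p)).coeff v / (aeval x (lf q)).coeff v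
    have hd : diag (a + k • a') = diag a + C k * diag a' := by
      rw [diag, diag, diag, Finset.mul_sum, ← Finset.sum_add_distrib]
      refine Finset.sum_congr rfl fun i _ => ?_
      rw [Pi.add_apply, Pi.smul_apply, smul_eq_mul, C_add, C_mul]
      ring
    have hlf : lf (p - k • q) = lf p - C k * lf q := by
      rw [map_sub, map_smul, smul_eq_C_mul]
    have h' : C2Data b w1 w2 x a' (a + k • a') (p - k • q) q := by
      refine ⟨h.surf, h.hom, h.irr, ?_, ?_, ?_, ?_⟩
      · intro i j hij h0
        apply h.nondeg i j hij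
        rw [← h0]
        simp only [Pi.add_apply, Pi.smul_apply, smul_eq_mul]
        ring
      · rw [LinearIndependent.pair_iff]
        intro s t hst
        have h1 : s • p + (t - s * k) • q = 0 := by
          rw [← hst]
          module
        obtain ⟨hs, ht⟩ := hli _ _ h1
        refine ⟨hs, ?_⟩
        rw [hs, zero_mul, sub_zero] at ht
        exact ht
      · intro i
        by_cases hqi : q i = 0
        · left
          have := (h.pq i).resolve_right (fun hne => hne hqi)
          simpa [hqi] using this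
        · exact Or.inr hqi
      · rw [hd, hlf, h.eq]
        ring
    refine ⟨a', a + k • a', p - k • q, q, h', ?_⟩
    have hp' : p - k • q ≠ 0 := by
      intro h0
      have := hli 1 (-k) (by rw [one_smul, neg_smul, ← sub_eq_add_neg]; exact h0)
      exact one_ne_zero this.1
    have hne := aeval_lf_ne_zero h' _ hp'
    have hval : aeval x (lf (p - k • q)) = aeval x (lf p) - k • aeval x (lf q) := by
      rw [map_sub, map_smul, map_sub, map_smul]
    have hge : Ge v (aeval x (lf (p - k • q))) := by
      rw [hval]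
      refine Ge.sub (ge_of_le_order heq.le) ?_
      exact Ge.smul k (ge_order _)
    have hle := hge.le_order hne
    refine lt_of_le_of_ne hle ?_
    intro he
    have h1 := HahnSeries.coeff_order_eq_zero.not.2 hne
    apply h1
    rw [← he, hval, HahnSeries.coeff_sub, HahnSeries.coeff_smul, smul_eq_mul]
    show _ - (aeval x (lf p)).coeff v / (aeval x (lf q)).coeff v * (aeval x (lf q)).coeff v = 0
    rw [div_mul_cancel₀ _ hcv, sub_self]
  · refine ⟨a, a', q, p, ⟨h.surf, h.hom, h.irr, ?_, ?_, ?_, ?_⟩, hgt⟩
    · intro i j hij h0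
      apply h.nondeg i j hij
      linear_combination -h0
    · rw [LinearIndependent.pair_iff]
      intro s t hst
      have := hli t s (by rw [add_comm]; exact hst)
      exact ⟨this.2, this.1⟩
    · intro i
      exact (h.pq i).symm
    · rw [h.eq, add_comm]

end Pool.Agent.CLN
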