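import Pool.Agent.CLN.Hahn

/-!
# CLN / HahnV: orders in `HH` and the derivations `DD`

Everything is immediate from `HahnSeries.coeff_mul`, `HahnSeries.order`, `HahnSeries.leadingCoeff`
(`HahnSeries.coeff_order_ne_zero` or its present name, `HahnSeries.order_le_of_coeff_ne_zero`,
`HahnSeries.order_mul`, `HahnSeries.leadingCoeff_mul`).

`br_coeff`: the coefficient of `a b` at `a.order + b.order` is the product of the leading
coefficients; `DD w a` has the coefficient `w(a.order) lc a` at `a.order` and none below.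
-/

set_option autoImplicit false

namespace Pool.Agent.CLN

theorem ge_zero (v : ℝ) : Ge v (0 : HH) := by
  intro g hg
  simp at hg

theorem ge_order (f : HH) : Ge f.order f := by
  intro g hg
  exact HahnSeries.order_le_of_coeff_ne_zero hg

theorem Ge.le_order {v : ℝ} {f : HH} (h : Ge v f) (hf : f ≠ 0) : v ≤ f.order := by
  exact h _ fun h0 => hf (HahnSeries.coeff_order_eq_zero.1 h0)

theorem ge_of_le_order {v : ℝ} {f : HH} (h : v ≤ f.order) : Ge v f := by
  intro g hg
  exact h.trans (HahnSeries.order_le_of_coeff_ne_zero hg)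

theorem Ge.mono {u v : ℝ} {f : HH} (h : Ge v f) (huv : u ≤ v) : Ge u f := by
  intro g hg
  exact huv.trans (h g hg)

theorem Ge.add {v : ℝ} {f g : HH} (hf : Ge v f) (hg : Ge v g) : Ge v (f + g) := by
  intro x hx
  rw [HahnSeries.coeff_add] at hx
  by_cases h : f.coeff x = 0
  · refine hg x fun h' => hx ?_
    rw [h, h', add_zero]
  · exact hf x h

theorem Ge.neg {v : ℝ} {f : HH} (hf : Ge v f) : Ge v (-f) := by
  intro x hx
  rw [HahnSeries.coeff_neg] at hx
  exact hf x fun h => hx (by rw [h, neg_zero])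

theorem Ge.sub {v : ℝ} {f g : HH} (hf : Ge v f) (hg : Ge v g) : Ge v (f - g) := by
  rw [sub_eq_add_neg]
  exact hf.add hg.neg

theorem Ge.mul {u v : ℝ} {f g : HH} (hf : Ge u f) (hg : Ge v g) : Ge (u + v) (f * g) := by
  intro x hx
  rw [HahnSeries.coeff_mul] at hx
  obtain ⟨ij, hij, hne⟩ := Finset.exists_ne_zero_of_sum_ne_zero hx
  have h1 : ij.1 + ij.2 = x := (Finset.mem_antidiagonal.1 hij).2.2
  have h2 := hf ij.1 (left_ne_zero_of_mul hne)
  have h3 := hg ij.2 (right_ne_zero_of_mul hne)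
  rw [← h1]
  exact add_le_add h2 h3

theorem Ge.sum {ι : Type*} (s : Finset ι) (F : ι → HH) (v : ℝ) (h : ∀ i ∈ s, Ge v (F i)) :
    Ge v (∑ i ∈ s, F i) := by
  classical
  induction s using Finset.induction_on with
  | empty => exact ge_zero v
  | insert a s ha ih =>
    rw [Finset.sum_insert ha]
    exact (h a (Finset.mem_insert_self _ _)).add
      (ih fun i hi => h i (Finset.mem_insert_of_mem hi))

theorem ge_algebraMap (c : ℂ) : Ge 0 (algebraMap ℂ HH c) := by
  intro g hg
  rw [algebraMap_HH] at hg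
  by_contra hcon
  apply hg
  change (HahnSeries.single (0 : ℝ) c).coeff g = 0
  rw [HahnSeries.coeff_single_of_ne]
  rintro rfl
  exact hcon le_rfl

theorem order_algebraMap (c : ℂ) : (algebraMap ℂ HH c).order = 0 := by
  rw [algebraMap_HH]
  exact HahnSeries.order_C

theorem Ge.smul {v : ℝ} {f : HH} (c : ℂ) (hf : Ge v f) : Ge v (c • f) := by
  intro x hx
  rw [HahnSeries.coeff_smul, smul_eq_mul] at hx
  exact hf x (right_ne_zero_of_mul hx)

theorem Ge.DD {v : ℝ} {f : HH} (w : ℝ →+ ℂ) (hf : Ge v f) : Ge v (DD w f) := by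
  intro x hx
  rw [DD_coeff] at hx
  exact hf x (right_ne_zero_of_mul hx)

/-- Orders of a sum of two elements of different order. -/
theorem order_add_of_Ge {f g : HH} (hf : f ≠ 0) {v : ℝ} (hv : f.order < v) (hg : Ge v g) :
    (f + g).order = f.order ∧ f + g ≠ 0 := by
  have h1 : g.coeff f.order = 0 := by
    by_contra h
    exact absurd (hg _ h) (not_le.2 hv)
  have h2 : (f + g).coeff f.order ≠ 0 := by
    rw [HahnSeries.coeff_add, h1, add_zero]
    exact fun h0 => hf (HahnSeries.coeff_order_eq_zero.1 h0)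
  have h3 : f + g ≠ 0 := by
    intro h
    rw [h] at h2
    exact h2 rfl
  refine ⟨le_antisymm (HahnSeries.order_le_of_coeff_ne_zero h2) ?_, h3⟩
  exact ((ge_order f).add (hg.mono hv.le)).le_order h3

theorem order_DD {f : HH} (w : ℝ →+ ℂ) (hf : f ≠ 0) :
    (DD w f).coeff f.order = w f.order * f.leadingCoeff := by
  rw [DD_coeff, HahnSeries.leadingCoeff_eq]

/-- The coefficient of a product at the sum of two lower bounds. -/
theorem coeff_mul_of_Ge {u v : ℝ} {f g : HH} (hf : Ge u f) (hg : Ge v g) :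
    (f * g).coeff (u + v) = f.coeff u * g.coeff v := by
  classical
  rw [HahnSeries.coeff_mul]
  by_cases h : f.coeff u ≠ 0 ∧ g.coeff v ≠ 0
  · rw [Finset.sum_eq_single (u, v)]
    · intro ij hij hne
      by_contra hcon
      apply hne
      have h1 : ij.1 + ij.2 = u + v := (Finset.mem_antidiagonal.1 hij).2.2
      have h2 := hf ij.1 (left_ne_zero_of_mul hcon)
      have h3 := hg ij.2 (right_ne_zero_of_mul hcon)
      exact Prod.ext (by linarith) (by linarith)
    · intro hn
      exact absurd (Finset.mem_antidiagonal.2 ⟨h.1, h.2, rfl⟩) hn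
  · have h0 : f.coeff u * g.coeff v = 0 := by
      rw [not_and_or, not_not, not_not] at h
      rcases h with h | h
      · rw [h, zero_mul]
      · rw [h, mul_zero]
    rw [h0]
    refine Finset.sum_eq_zero fun ij hij => ?_
    by_contra hcon
    have h1 : ij.1 + ij.2 = u + v := (Finset.mem_antidiagonal.1 hij).2.2
    have h2 := hf ij.1 (left_ne_zero_of_mul hcon)
    have h3 := hg ij.2 (right_ne_zero_of_mul hcon)
    have h4 : ij.1 = u := by linarith
    have h5 : ij.2 = v := by linarith
    rw [h4, h5] at hcon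
    exact hcon h0

theorem Ge.br {u v : ℝ} {a b : HH} (w1 w2 : ℝ →+ ℂ) (ha : Ge u a) (hb : Ge v b) :
    Ge (u + v) (br (CLN.DD w1) (CLN.DD w2) a b) := by
  unfold CLN.br
  exact ((ha.DD w1).mul (hb.DD w2)).sub ((ha.DD w2).mul (hb.DD w1))

theorem br_coeff {a b : HH} (w1 w2 : ℝ →+ ℂ) :
    (br (DD w1) (DD w2) a b).coeff (a.order + b.order) =
      (w1 a.order * w2 b.order - w2 a.order * w1 b.order) * (a.leadingCoeff * b.leadingCoeff) := by
  unfold br
  rw [HahnSeries.coeff_sub, coeff_mul_of_Ge ((ge_order a).DD w1) ((ge_order b).DD w2),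
    coeff_mul_of_Ge ((ge_order a).DD w2) ((ge_order b).DD w1), DD_coeff, DD_coeff, DD_coeff,
    DD_coeff, HahnSeries.leadingCoeff_eq, HahnSeries.leadingCoeff_eq]
  ring

/-- Independent orders. -/
theorem order_br {a b : HH} (ha : a ≠ 0) (hb : b ≠ 0) (w1 w2 : ℝ →+ ℂ)
    (h : w1 a.order * w2 b.order - w2 a.order * w1 b.order ≠ 0) :
    br (DD w1) (DD w2) a b ≠ 0 ∧ (br (DD w1) (DD w2) a b).order = a.order + b.order := by
  have h1 : (br (DD w1) (DD w2) a b).coeff (a.order + b.order) ≠ 0 := by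
    rw [br_coeff]
    exact mul_ne_zero h (mul_ne_zero (HahnSeries.leadingCoeff_ne_zero.2 ha)
      (HahnSeries.leadingCoeff_ne_zero.2 hb))
  have h2 : br (DD w1) (DD w2) a b ≠ 0 := by
    intro h0
    rw [h0] at h1
    exact h1 rfl
  refine ⟨h2, le_antisymm (HahnSeries.order_le_of_coeff_ne_zero h1) ?_⟩
  exact ((ge_order a).br w1 w2 (ge_order b)).le_order h2

/-- Dependent orders. -/
theorem lt_order_br {a b : HH} (ha : a ≠ 0) (hb : b ≠ 0) (w1 w2 : ℝ →+ ℂ)
    (h : w1 a.order * w2 b.order - w2 a.order * w1 b.order = 0)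
    (h0 : br (DD w1) (DD w2) a b ≠ 0) :
    a.order + b.order < (br (DD w1) (DD w2) a b).order := by
  refine lt_of_le_of_ne (((ge_order a).br w1 w2 (ge_order b)).le_order h0) fun he => ?_
  have h1 : (br (DD w1) (DD w2) a b).coeff (a.order + b.order) = 0 := by
    rw [br_coeff, h, zero_mul]
  rw [he] at h1
  exact h0 (HahnSeries.coeff_order_eq_zero.1 h1)

/-- If the order of the bracket is the sum of the orders, the orders are independent over `ℤ`. -/
theorem indep_of_order_br {a b : HH} (ha : a ≠ 0) (hb : b ≠ 0) (w1 w2 : ℝ →+ ℂ)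
    (h0 : br (DD w1) (DD w2) a b ≠ 0)
    (h : (br (DD w1) (DD w2) a b).order ≤ a.order + b.order) :
    ∀ i j : ℤ, (i : ℝ) * a.order + (j : ℝ) * b.order = 0 → i = 0 ∧ j = 0 := by
  intro i j hij
  have hw : ∀ w : ℝ →+ ℂ, (i : ℂ) * w a.order + (j : ℂ) * w b.order = 0 := by
    intro w
    have h1 := congrArg w hij
    rw [map_add, map_zero, ← zsmul_eq_mul, ← zsmul_eq_mul, map_zsmul, map_zsmul, zsmul_eq_mul,
      zsmul_eq_mul] at h1
    exact h1
  have h1 := hw w1
  have h2 := hw w2
  have hdet : w1 a.order * w2 b.order - w2 a.order * w1 b.order ≠ 0 := by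
    intro hd
    exact absurd (lt_order_br ha hb w1 w2 hd h0) (not_lt.2 h)
  have h3 : (i : ℂ) * (w1 a.order * w2 b.order - w2 a.order * w1 b.order) = 0 := by
    linear_combination (w2 b.order) * h1 - (w1 b.order) * h2
  have h4 : (j : ℂ) * (w1 a.order * w2 b.order - w2 a.order * w1 b.order) = 0 := by
    linear_combination (w1 a.order) * h2 - (w2 a.order) * h1
  refine ⟨?_, ?_⟩
  · have h5 := (mul_eq_zero.1 h3).resolve_right hdet
    exact_mod_cast h5
  · have h5 := (mul_eq_zero.1 h4).resolve_right hdet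
    exact_mod_cast h5

end Pool.Agent.CLN
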