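import Pool.Agent.CLN.Defs
import Pool.Agent.CLN.HahnV

/-!
# CLN / C2Defs: definitions for the case of an irreducible quartic
-/

set_option autoImplicit false

namespace Pool.Agent.CLN

open MvPolynomial Pool.Agent.CLU

/-- All the `2 × 2` minors are not zero. -/
def NonDeg (a' a : Fin 4 → ℂ) : Prop := ∀ i j, i ≠ j → a i * a' j - a j * a' i ≠ 0

/-- The output of the computations on the quartic surface `h_0 f_0 + h_1 f_1 = 0`:
`l_i = p_i - τ q_i`, `c_i = a_i + τ a'_i`, `D` a multiple of the bracket with `τ`. -/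
structure CaseII (x l c : Fin 4 → HH) (D : Derivation ℂ HH HH) (n : ℝ) : Prop where
  npos : 0 < n
  x_ne : ∀ i, x i ≠ 0
  l_ne : ∀ i, l i ≠ 0
  c_ne : ∀ i, c i ≠ 0
  Dge : ∀ v g, Ge v g → Ge (v + n) (D g)
  Dl : ∀ i, D (l i) = 0
  Dc : ∀ i, D (c i) = 0
  sum_l : ∑ i, l i * x i = 0
  Y : ∀ σ : Equiv.Perm (Fin 4), x (σ 1) * D (x (σ 0)) - x (σ 0) * D (x (σ 1)) =
    (((Equiv.Perm.sign σ : ℤˣ) : ℤ) : HH) *
      (l (σ 2) * (c (σ 3) * x (σ 3) ^ 2) - l (σ 3) * (c (σ 2) * x (σ 2) ^ 2))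
  Yne : ∀ i j, i ≠ j → l i * (c j * x j ^ 2) - l j * (c i * x i ^ 2) ≠ 0
  l_ord : ∀ i, (l i).order = 0 ∨ (l i).order = n
  c_ord : ∀ i, (c i).order = 0 ∨ (c i).order = n
  c_one : ∀ i j, i ≠ j → (c i).order = 0 ∨ (c j).order = 0
  l_ex : ∃ i, (l i).order = 0

/-- The data of case II. -/
structure C2Data (b : S) (w1 w2 : ℝ →+ ℂ) (x : Fin 4 → HH) (a' a p q : Fin 4 → ℂ) : Prop where
  surf : Surf b 1 (DD w1) (DD w2) x
  hom : b.IsHomogeneous 4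
  irr : Irreducible b
  nondeg : NonDeg a' a
  li : LinearIndependent ℂ ![p, q]
  pq : ∀ i, p i ≠ 0 ∨ q i ≠ 0
  eq : b = lf p * diag a' + lf q * diag a

end Pool.Agent.CLN
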