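import Pool.Agent.CLN.C2Defs

/-!
# CLN / C2Ineq: the inequality

`Y_ij := x_j D x_i - x_i D x_j` (`≠ 0` by `Y`, `Yne`), `y_ij := Y_ij / (x_i x_j) = D x_i / x_i -
D x_j / x_j`.  `{i, j, k, m}` all indices, `s` the sign of `(i, j, k, m)`.  Since `D l = D c = 0`:
`2 s l_m c_k x_k^2 y_mk = x_i x_j (D y_ij + y_ij (y_im + y_jm))`
(from `x_i x_j y_ij = s (l_k c_m x_m^2 - l_m c_k x_k^2)`: apply `D`, and `D x_a = x_a η_a`,
`η_a - η_b = y_ab`).  `Ge (Y_ij.order - v_i - v_j + n)` holds for `D y_ij` and for `y_ij y_im`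
(`y_im` is `Ge n`: `Dge` for `x_i`, i.e. `D x_i / x_i` is `Ge n`).  Take orders.
`sum_ineq`: add the inequalities for `σ = (i,j,k,m)`, `(i,j,m,k)`, `(k,m,i,j)`, `(k,m,j,i)`; the
`v` cancel and the orders of `Y_ij`, `Y_km` cancel (`Y_ji = - Y_ij`).
-/

set_option autoImplicit false

namespace Pool.Agent.CLN

open MvPolynomial Pool.Agent.CLU

theorem c2i_exists_perm : ∀ a b : Fin 4, a ≠ b → ∃ τ : Equiv.Perm (Fin 4), τ 0 = a ∧ τ 1 = b := by
  decide

theorem c2i_sign (σ : Equiv.Perm (Fin 4)) :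
    ((((Equiv.Perm.sign σ : ℤˣ) : ℤ) : HH) = 1) ∨ ((((Equiv.Perm.sign σ : ℤˣ) : ℤ) : HH) = -1) := by
  rcases Int.units_eq_one_or (Equiv.Perm.sign σ) with h | h
  · left
    rw [h]
    simp
  · right
    rw [h]
    simp

theorem c2i_Y_ne {x l c : Fin 4 → HH} {D : Derivation ℂ HH HH} {n : ℝ}
    (h : CaseII x l c D n) {a b : Fin 4} (hab : a ≠ b) :
    x b * D (x a) - x a * D (x b) ≠ 0 := by
  obtain ⟨τ, h0, h1⟩ := c2i_exists_perm a b hab
  have hY := h.Y τ
  rw [h0, h1] at hY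
  rw [hY]
  have h23 : τ 2 ≠ τ 3 := fun he => absurd (τ.injective he) (by decide)
  refine mul_ne_zero ?_ (h.Yne _ _ h23)
  rcases c2i_sign τ with hs | hs
  · rw [hs]
    exact one_ne_zero
  · rw [hs]
    exact neg_ne_zero.2 one_ne_zero

/-- the logarithmic derivative. -/
theorem c2i_eta_ge {x l c : Fin 4 → HH} {D : Derivation ℂ HH HH} {n : ℝ}
    (h : CaseII x l c D n) (a : Fin 4) : Ge n (D (x a) * (x a)⁻¹) := by
  have h1 : Ge ((x a).order + n) (D (x a)) := h.Dge _ _ (ge_order _)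
  have h2 : Ge (-(x a).order) (x a)⁻¹ := by
    apply ge_of_le_order
    have h3 : (x a * (x a)⁻¹).order = (x a).order + ((x a)⁻¹).order :=
      HahnSeries.order_mul (h.x_ne a) (inv_ne_zero (h.x_ne a))
    rw [mul_inv_cancel₀ (h.x_ne a), HahnSeries.order_one] at h3
    linarith
  have h4 := h1.mul h2
  have h5 : (x a).order + n + -(x a).order = n := by ring
  rw [h5] at h4
  exact h4

theorem c2i_two_ne : (2 : HH) ≠ 0 := by
  have h : (2 : HH) = algebraMap ℂ HH 2 := by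
    rw [map_ofNat]
  rw [h, algebraMap_HH]
  intro h0
  exact two_ne_zero (HahnSeries.C_injective (h0.trans (map_zero _).symm))

theorem c2i_two_order : (2 : HH).order = 0 := by
  have h : (2 : HH) = algebraMap ℂ HH 2 := by
    rw [map_ofNat]
  rw [h, order_algebraMap]

/-- The identity. -/
theorem c2i_key {x l c : Fin 4 → HH} {D : Derivation ℂ HH HH} {n : ℝ}
    (h : CaseII x l c D n) (i j k m : Fin 4) (s : HH) (hDs : D s = 0)
    (hY : x j * D (x i) - x i * D (x j) = s * (l k * (c m * x m ^ 2) - l m * (c k * x k ^ 2))) :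
    2 * s * (l m * c k * x k ^ 2) * ((x k * D (x m) - x m * D (x k)) * ((x m)⁻¹ * (x k)⁻¹)) =
      x i * x j * (D ((x j * D (x i) - x i * D (x j)) * ((x i)⁻¹ * (x j)⁻¹)) +
        ((x j * D (x i) - x i * D (x j)) * ((x i)⁻¹ * (x j)⁻¹)) *
          ((D (x i) * (x i)⁻¹ - D (x m) * (x m)⁻¹) + (D (x j) * (x j)⁻¹ - D (x m) * (x m)⁻¹))) := by
  set y : HH := (x j * D (x i) - x i * D (x j)) * ((x i)⁻¹ * (x j)⁻¹) with hy
  have hxi := h.x_ne i
  have hxj := h.x_ne j
  have hxk := h.x_ne k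
  have hxm := h.x_ne m
  have h1 : x i * x j * y = s * (l k * (c m * x m ^ 2) - l m * (c k * x k ^ 2)) := by
    rw [← hY, hy]
    field_simp
  have h2 := congrArg D h1
  simp only [Derivation.leibniz, map_sub, smul_eq_mul, hDs, h.Dl, h.Dc, mul_zero, add_zero,
    Derivation.leibniz_pow, nsmul_eq_mul, Nat.cast_ofNat] at h2
  have h3 : (x k * D (x m) - x m * D (x k)) * ((x m)⁻¹ * (x k)⁻¹) =
      D (x m) * (x m)⁻¹ - D (x k) * (x k)⁻¹ := by
    field_simp
  rw [h3]
  set ei : HH := D (x i) * (x i)⁻¹ with hei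
  set ej : HH := D (x j) * (x j)⁻¹ with hej
  set ek : HH := D (x k) * (x k)⁻¹ with hek
  set em : HH := D (x m) * (x m)⁻¹ with hem
  have hi : D (x i) = x i * ei := by
    rw [hei]
    field_simp
  have hj : D (x j) = x j * ej := by
    rw [hej]
    field_simp
  have hk : D (x k) = x k * ek := by
    rw [hek]
    field_simp
  have hm : D (x m) = x m * em := by
    rw [hem]
    field_simp
  rw [hi, hj, hk, hm] at h2
  linear_combination (-1 : HH) * h2 + (2 * em) * h1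

theorem caseII_ineq {x l c : Fin 4 → HH} {D : Derivation ℂ HH HH} {n : ℝ}
    (h : CaseII x l c D n) (σ : Equiv.Perm (Fin 4)) :
    (x (σ 1) * D (x (σ 0)) - x (σ 0) * D (x (σ 1))).order + n ≤
      (l (σ 3)).order + (c (σ 2)).order + (x (σ 2)).order - (x (σ 3)).order +
        (x (σ 2) * D (x (σ 3)) - x (σ 3) * D (x (σ 2))).order := by
  have h32 : σ 3 ≠ σ 2 := fun he => absurd (σ.injective he) (by decide)
  have h01 : σ 0 ≠ σ 1 := fun he => absurd (σ.injective he) (by decide)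
  have hY := h.Y σ
  have hYmk := c2i_Y_ne h h32
  have hYij := c2i_Y_ne h h01
  generalize hi : σ 0 = i at *
  generalize hj : σ 1 = j at *
  generalize hk : σ 2 = k at *
  generalize hm : σ 3 = m at *
  have hs0 : ((((Equiv.Perm.sign σ : ℤˣ) : ℤ) : HH)) ≠ 0 := by
    rcases c2i_sign σ with hs | hs
    · rw [hs]
      exact one_ne_zero
    · rw [hs]
      exact neg_ne_zero.2 one_ne_zero
  have hso : ((((Equiv.Perm.sign σ : ℤˣ) : ℤ) : HH)).order = 0 := by
    rcases c2i_sign σ with hs | hs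
    · rw [hs, HahnSeries.order_one]
    · rw [hs, HahnSeries.order_neg, HahnSeries.order_one]
  have hDs : D ((((Equiv.Perm.sign σ : ℤˣ) : ℤ) : HH)) = 0 := by
    rcases c2i_sign σ with hs | hs
    · rw [hs, Derivation.map_one_eq_zero]
    · rw [hs, Derivation.map_neg, Derivation.map_one_eq_zero, neg_zero]
  generalize hsg : ((((Equiv.Perm.sign σ : ℤˣ) : ℤ) : HH)) = s at *
  have hkey := c2i_key h i j k m s hDs hY
  have hxi := h.x_ne i
  have hxj := h.x_ne j
  have hxk := h.x_ne k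
  have hxm := h.x_ne m
  have hinv : ∀ a : Fin 4, ((x a)⁻¹).order = -(x a).order := by
    intro a
    have h3 : (x a * (x a)⁻¹).order = (x a).order + ((x a)⁻¹).order :=
      HahnSeries.order_mul (h.x_ne a) (inv_ne_zero (h.x_ne a))
    rw [mul_inv_cancel₀ (h.x_ne a), HahnSeries.order_one] at h3
    linarith
  -- order of the left side
  have hL : (2 * s * (l m * c k * x k ^ 2) *
      ((x k * D (x m) - x m * D (x k)) * ((x m)⁻¹ * (x k)⁻¹))).order =
      (l m).order + (c k).order + (x k).order - (x m).order +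
        (x k * D (x m) - x m * D (x k)).order := by
    have e1 : (2 * s : HH).order = 0 := by
      rw [HahnSeries.order_mul c2i_two_ne hs0, c2i_two_order, hso, add_zero]
    have e2 : (l m * c k * x k ^ 2).order = (l m).order + (c k).order + 2 * (x k).order := by
      rw [HahnSeries.order_mul (mul_ne_zero (h.l_ne m) (h.c_ne k)) (pow_ne_zero 2 hxk),
        HahnSeries.order_mul (h.l_ne m) (h.c_ne k), pow_two, HahnSeries.order_mul hxk hxk]
      ring
    have e3 : ((x k * D (x m) - x m * D (x k)) * ((x m)⁻¹ * (x k)⁻¹)).order =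
        (x k * D (x m) - x m * D (x k)).order - (x m).order - (x k).order := by
      rw [HahnSeries.order_mul hYmk (mul_ne_zero (inv_ne_zero hxm) (inv_ne_zero hxk)),
        HahnSeries.order_mul (inv_ne_zero hxm) (inv_ne_zero hxk), hinv, hinv]
      ring
    rw [HahnSeries.order_mul (mul_ne_zero (mul_ne_zero c2i_two_ne hs0)
      (mul_ne_zero (mul_ne_zero (h.l_ne m) (h.c_ne k)) (pow_ne_zero 2 hxk)))
      (mul_ne_zero hYmk (mul_ne_zero (inv_ne_zero hxm) (inv_ne_zero hxk))),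
      HahnSeries.order_mul (mul_ne_zero c2i_two_ne hs0)
      (mul_ne_zero (mul_ne_zero (h.l_ne m) (h.c_ne k)) (pow_ne_zero 2 hxk)), e1, e2, e3]
    ring
  have hLne : 2 * s * (l m * c k * x k ^ 2) *
      ((x k * D (x m) - x m * D (x k)) * ((x m)⁻¹ * (x k)⁻¹)) ≠ 0 :=
    mul_ne_zero (mul_ne_zero (mul_ne_zero c2i_two_ne hs0)
      (mul_ne_zero (mul_ne_zero (h.l_ne m) (h.c_ne k)) (pow_ne_zero 2 hxk)))
      (mul_ne_zero hYmk (mul_ne_zero (inv_ne_zero hxm) (inv_ne_zero hxk)))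
  -- the right side
  have hy : Ge ((x j * D (x i) - x i * D (x j)).order - (x i).order - (x j).order)
      ((x j * D (x i) - x i * D (x j)) * ((x i)⁻¹ * (x j)⁻¹)) := by
    have e1 := (ge_order (x j * D (x i) - x i * D (x j))).mul
      ((ge_order (x i)⁻¹).mul (ge_order (x j)⁻¹))
    rw [hinv, hinv] at e1
    refine e1.mono ?_
    linarith
  have hR : Ge ((x j * D (x i) - x i * D (x j)).order + n)
      (x i * x j * (D ((x j * D (x i) - x i * D (x j)) * ((x i)⁻¹ * (x j)⁻¹)) +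
        ((x j * D (x i) - x i * D (x j)) * ((x i)⁻¹ * (x j)⁻¹)) *
          ((D (x i) * (x i)⁻¹ - D (x m) * (x m)⁻¹) + (D (x j) * (x j)⁻¹ - D (x m) * (x m)⁻¹)))) := by
    have e1 := h.Dge _ _ hy
    have e2 := hy.mul (((c2i_eta_ge h i).sub (c2i_eta_ge h m)).add
      ((c2i_eta_ge h j).sub (c2i_eta_ge h m)))
    have e3 := ((ge_order (x i)).mul (ge_order (x j))).mul (e1.add e2)
    refine e3.mono ?_
    linarith
  rw [← hkey] at hR
  have hfin := hR.le_order hLne
  rw [hL] at hfin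
  exact hfin

theorem caseII_sum {x l c : Fin 4 → HH} {D : Derivation ℂ HH HH} {n : ℝ}
    (h : CaseII x l c D n) :
    4 * n ≤ ∑ i, (l i).order + ∑ i, (c i).order := by
  have h1 := caseII_ineq h (Equiv.refl _)
  have h2 := caseII_ineq h (Equiv.swap 2 3)
  obtain ⟨τ, ht0, ht1, ht2, ht3⟩ : ∃ τ : Equiv.Perm (Fin 4), τ 0 = 2 ∧ τ 1 = 3 ∧ τ 2 = 0 ∧ τ 3 = 1 := by
    decide
  obtain ⟨ρ, hr0, hr1, hr2, hr3⟩ : ∃ τ : Equiv.Perm (Fin 4), τ 0 = 2 ∧ τ 1 = 3 ∧ τ 2 = 1 ∧ τ 3 = 0 := by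
    decide
  have h3 := caseII_ineq h τ
  have h4 := caseII_ineq h ρ
  have s0 : (Equiv.swap (2 : Fin 4) 3) 0 = 0 := by decide
  have s1 : (Equiv.swap (2 : Fin 4) 3) 1 = 1 := by decide
  have s2 : (Equiv.swap (2 : Fin 4) 3) 2 = 3 := by decide
  have s3 : (Equiv.swap (2 : Fin 4) 3) 3 = 2 := by decide
  rw [ht0, ht1, ht2, ht3] at h3
  rw [hr0, hr1, hr2, hr3] at h4
  rw [s0, s1, s2, s3] at h2
  simp only [Equiv.refl_apply] at h1
  have hsym : ∀ a b : Fin 4, (x a * D (x b) - x b * D (x a)).order =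
      (x b * D (x a) - x a * D (x b)).order := by
    intro a b
    have e : x a * D (x b) - x b * D (x a) = -(x b * D (x a) - x a * D (x b)) := by ring
    rw [e, HahnSeries.order_neg]
  rw [hsym 2 3] at h1
  rw [hsym 0 1] at h3
  rw [hsym 3 2] at h2
  rw [Fin.sum_univ_four, Fin.sum_univ_four]
  rw [hsym 3 2] at h3 h4
  rw [hsym 3 2] at h1
  linarith

/-- `V(Y_ij) ≥ v_i + v_j + n`. -/
theorem caseII_Y {x l c : Fin 4 → HH} {D : Derivation ℂ HH HH} {n : ℝ}
    (h : CaseII x l c D n) (σ : Equiv.Perm (Fin 4)) :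
    Ge ((x (σ 0)).order + (x (σ 1)).order + n)
      (l (σ 2) * (c (σ 3) * x (σ 3) ^ 2) - l (σ 3) * (c (σ 2) * x (σ 2) ^ 2)) := by
  have hY := h.Y σ
  have h1 : Ge ((x (σ 0)).order + (x (σ 1)).order + n)
      (x (σ 1) * D (x (σ 0)) - x (σ 0) * D (x (σ 1))) := by
    have e1 := (ge_order (x (σ 1))).mul (h.Dge _ _ (ge_order (x (σ 0))))
    have e2 := (ge_order (x (σ 0))).mul (h.Dge _ _ (ge_order (x (σ 1))))
    exact (e1.mono (by linarith)).sub (e2.mono (by linarith))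
  rcases c2i_sign σ with hs | hs
  · rw [hs, one_mul] at hY
    rw [← hY]
    exact h1
  · rw [hs] at hY
    have e : l (σ 2) * (c (σ 3) * x (σ 3) ^ 2) - l (σ 3) * (c (σ 2) * x (σ 2) ^ 2) =
        -(x (σ 1) * D (x (σ 0)) - x (σ 0) * D (x (σ 1))) := by
      rw [hY]
      ring
    rw [e]
    exact h1.neg

end Pool.Agent.CLN
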