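import Pool.Agent.CLN.LocForm
import Pool.Agent.CLN.Rev
import Pool.Agent.CLN.AmA

/-!
# CLN / CcA: the plane section is a triangle, first part (`cc_chain_x`, `cc_chain_y`)

`cub = x y z + h q`, `α = V(x_0)`, `β = V(x_1)`, `V(x_3) = α + β`.
`cc_step`: if `B = x B' + h B''` then `B1 := - q B' + y z B''` satisfies `y z B ≡ h B1`,
`q B ≡ - x B1` modulo `cub`.  As in `Bc`: `(y z)^j B ≡ h^j B_j`, `q^j B ≡ (-x)^j B_j`; values:
`x_1^j B(x) = x_3^j B_j(x)`, `V(B) = j α + V(B_j)`; take the largest `j = m`; then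
`B_m(0, X, 1, 0) ≠ 0` (`line_x`, `cc_step`), and `local_form` for the arc `(0, X, 1, 0)` (`n1 = 1`, `n0`
large, factor `1/β`): `V(B_m) ≤ (k + m) β`, so `V(B) ≤ m (α + β) + k β`: `cc_chain_x`.
`cc_chain_y` is the same with `x` and `y` exchanged (`line_y`, arc `(X, 0, 1, 0)`):
`V(B) ≤ m (α + β) + k α`.
`cc`: `m1` from `cc_chain_x`, `m2` from `cc_chain_y`.  Line `z = h = 0`: `P = (1, X, 0, 0)`,
`P' = (X, 1, 0, 0)` (`rev_coeff`, `e = 1`).  If `B(P) ≠ 0`: index `n` with nonzero coefficient.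
`q(P)^m2 B(P) = (-X)^m2 (..)`, `q(P)` has constant term `q(1,0,0,0) ≠ 0`: `n ≥ m2`; likewise at `P'`:
`k - n ≥ m1`.  So `m1 + m2 ≤ k`, and the sum of the two bounds is
`2 V(B) ≤ (m1 + m2 + k)(α + β) ≤ 2 k (α + β)`.
If `B(P) = 0`: if `B(0, X, 1, 0) ≠ 0` then `V(B) ≤ k β` (`local_form`), if `B(X, 0, 1, 0) ≠ 0` then
`V(B) ≤ k α`; if all vanish `plane_tri`: `B = h B' + cub E`, induction on `k`.
-/

set_option autoImplicit false

namespace Pool.Agent.CLN

open MvPolynomial Pool.Agent.CLU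

private theorem ge_aeval40 {x : Fin 4 → HH} (hx : ∀ i, Ge 0 (x i)) (B : S) : Ge 0 (aeval x B) := by
  induction B using MvPolynomial.induction_on with
  | C a =>
    rw [aeval_C]
    exact ge_algebraMap a
  | add p q hp hq =>
    rw [map_add]
    exact hp.add hq
  | mul_X p i hp =>
    rw [map_mul, aeval_X]
    have h1 := hp.mul (hx i)
    rwa [add_zero] at h1

private theorem coeff_aeval40 {x : Fin 4 → HH} (hx : ∀ i, Ge 0 (x i)) (B : S) :
    (aeval x B).coeff 0 = eval (fun i => (x i).coeff 0) B := by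
  induction B using MvPolynomial.induction_on with
  | C a =>
    rw [aeval_C, eval_C, algebraMap_HH, HahnSeries.C_apply, HahnSeries.coeff_single_same]
  | add p q hp hq =>
    rw [map_add, map_add, HahnSeries.coeff_add, hp, hq]
  | mul_X p i hp =>
    rw [map_mul, map_mul, aeval_X, eval_X]
    have h1 := coeff_mul_of_Ge (ge_aeval40 hx p) (hx i)
    rw [add_zero] at h1
    rw [h1, hp]

private theorem pt_ge40 {e0 e3 : ℂ} {q : S} {x : Fin 4 → HH} (h : Pt e0 e3 q x) (i : Fin 4) :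
    Ge 0 (x i) := by
  fin_cases i
  · exact ge_of_le_order h.pos0.le
  · exact ge_of_le_order h.pos1.le
  · change Ge 0 (x 2)
    rw [h.x2]
    exact ge_of_le_order HahnSeries.order_one.ge
  · exact ge_of_le_order h.pos3.le

private theorem coeff_pos40 {f : HH} (h : 0 < f.order) : f.coeff 0 = 0 := by
  by_contra h1
  exact absurd (HahnSeries.order_le_of_coeff_ne_zero h1) (not_le.2 h)

private theorem pt_q40 {e0 e3 : ℂ} {q : S} {x : Fin 4 → HH} (h : Pt e0 e3 q x) :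
    aeval x q ≠ 0 ∧ (aeval x q).order = 0 := by
  have h1 : (fun i => (x i).coeff 0) = Pi.single 2 1 := by
    funext i
    fin_cases i
    · exact coeff_pos40 h.pos0
    · exact coeff_pos40 h.pos1
    · change (x 2).coeff 0 = 1
      rw [h.x2, HahnSeries.coeff_one, if_pos rfl]
    · exact coeff_pos40 h.pos3
  have h2 : (aeval x q).coeff 0 ≠ 0 := by
    rw [coeff_aeval40 (pt_ge40 h), h1]
    exact h.q_z
  have h3 := HahnSeries.ne_zero_of_coeff_ne_zero h2
  exact ⟨h3, le_antisymm (HahnSeries.order_le_of_coeff_ne_zero h2)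
    ((ge_aeval40 (pt_ge40 h) q).le_order h3)⟩

/-- A chain of divisions. -/
private theorem chain40 {q : S} {x : Fin 4 → HH} (h : Pt 0 0 q x) (u : S)
    (hu : aeval x u ≠ 0) (hu0 : 0 < (aeval x u).order) (Z : S → Prop)
    (step : ∀ (k : ℕ) (B : S), B.IsHomogeneous k → B ≠ 0 → Z B →
      ∃ B1 : S, B1.IsHomogeneous (k + 1) ∧ cub 0 0 q ∣ q * B - (-u) * B1)
    (k : ℕ) (B : S) (hB : B.IsHomogeneous k) (hBx : aeval x B ≠ 0) :
    ∃ (m : ℕ) (Bm : S), Bm.IsHomogeneous (k + m) ∧ cub 0 0 q ∣ q ^ m * B - (-u) ^ m * Bm ∧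
      ¬ Z Bm ∧ aeval x Bm ≠ 0 ∧
      (aeval x B).order = m * (aeval x u).order + (aeval x Bm).order := by
  obtain ⟨hq, hq0⟩ := pt_q40 h
  have hval : ∀ (m : ℕ) (Bm : S), cub 0 0 q ∣ q ^ m * B - (-u) ^ m * Bm →
      aeval x Bm ≠ 0 ∧ (aeval x B).order = m * (aeval x u).order + (aeval x Bm).order := by
    intro m Bm hd
    obtain ⟨E, hE⟩ := hd
    have h1 := congrArg (aeval x) hE
    rw [map_sub, map_mul, map_mul, map_mul, map_pow, map_pow, map_neg, h.rel, zero_mul,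
      sub_eq_zero] at h1
    have h2 : aeval x Bm ≠ 0 := by
      intro h3
      rw [h3, mul_zero] at h1
      exact mul_ne_zero (pow_ne_zero m hq) hBx h1
    refine ⟨h2, ?_⟩
    have h3 := congrArg HahnSeries.order h1
    rw [HahnSeries.order_mul (pow_ne_zero m hq) hBx,
      HahnSeries.order_mul (pow_ne_zero m (neg_ne_zero.2 hu)) h2, HahnSeries.order_pow,
      HahnSeries.order_pow, HahnSeries.order_neg, hq0, smul_zero, zero_add, nsmul_eq_mul] at h3
    exact h3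
  by_contra hcon
  have hP : ∀ j : ℕ, ∃ Bj : S, Bj.IsHomogeneous (k + j) ∧
      cub 0 0 q ∣ q ^ j * B - (-u) ^ j * Bj := by
    intro j
    induction j with
    | zero =>
      refine ⟨B, hB, ?_⟩
      rw [pow_zero, pow_zero, sub_self]
      exact dvd_zero _
    | succ j ih =>
      obtain ⟨Bj, h1, h2⟩ := ih
      obtain ⟨h3, h4⟩ := hval j Bj h2
      have h5 : Z Bj := by
        by_contra h5
        exact hcon ⟨j, Bj, h1, h2, h5, h3, h4⟩
      have h6 : Bj ≠ 0 := by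
        rintro rfl
        exact h3 (map_zero _)
      obtain ⟨B1, h7, h8⟩ := step (k + j) Bj h1 h6 h5
      refine ⟨B1, h7, ?_⟩
      have h9 := dvd_add (Dvd.dvd.mul_left h2 q) (Dvd.dvd.mul_left h8 ((-u) ^ j))
      have e : q ^ (j + 1) * B - (-u) ^ (j + 1) * B1 =
          q * (q ^ j * B - (-u) ^ j * Bj) + (-u) ^ j * (q * Bj - (-u) * B1) := by ring
      rw [e]
      exact h9
  obtain ⟨j, hj⟩ := exists_nat_gt ((aeval x B).order / (aeval x u).order)
  obtain ⟨Bj, h1, h2⟩ := hP j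
  obtain ⟨h3, h4⟩ := hval j Bj h2
  have h5 : 0 ≤ (aeval x Bj).order := (ge_aeval40 (pt_ge40 h) Bj).le_order h3
  rw [div_lt_iff₀ hu0] at hj
  linarith

/-- The bound from an arc on a line. -/
private theorem arc40 {q : S} {x : Fin 4 → HH} (h : Pt 0 0 q x)
    (hind : Ind (x 0).order (x 1).order) (d : ℕ) (B : S) (hB : B.IsHomogeneous d)
    (hBx : aeval x B ≠ 0) (P : Fin 4 → Polynomial ℂ) (b : ℝ) (hb : 0 < b)
    (hP : (P = ![0, Polynomial.X, 1, 0] ∧ b = (x 1).order) ∨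
      (P = ![Polynomial.X, 0, 1, 0] ∧ b = (x 0).order))
    (hBP : aeval P B ≠ 0) : (aeval x B).order ≤ d * b := by
  obtain ⟨n, hn⟩ : ∃ n, (aeval P B).coeff n ≠ 0 := by
    by_contra hcon
    push Not at hcon
    exact hBP (Polynomial.ext fun n => by rw [hcon n, Polynomial.coeff_zero])
  have hdeg : ∀ i, (P i).natDegree ≤ 1 := by
    rcases hP with ⟨rfl, -⟩ | ⟨rfl, -⟩
    · intro i
      fin_cases i <;> simp
    · intro i
      fin_cases i <;> simp
  have hnd : n ≤ 1 * d := (rev_coeff 1 d P (fun i => (P i).reflect 1) hdeg (fun _ => rfl) B hB n hn).1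
  rw [one_mul] at hnd
  have hn' : ¬ PowerSeries.X ^ (n + 1) ∣
      aeval (fun i => ((P i : Polynomial ℂ) : PowerSeries ℂ)) B := by
    rw [aeval_coe]
    exact not_X_pow_dvd _ n hn
  have hFy : aeval (fun i => ((P i : Polynomial ℂ) : PowerSeries ℂ)) (cub 0 0 q) = 0 := by
    rcases hP with ⟨rfl, -⟩ | ⟨rfl, -⟩ <;> simp [cub]
  have hz : 0 ≤ 1 / b := by positivity
  have key : 1 / b * (aeval x B).order ≤ n := by
    rcases hP with ⟨rfl, hb'⟩ | ⟨rfl, hb'⟩
    · obtain ⟨n0, hn0⟩ := exists_nat_ge (1 / b * (x 0).order)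
      refine local_form h hind d B hB hBx _ ?_ ?_ ?_ ?_ hFy (1 / b) hz n0 1 ?_ ?_ hn0 ?_ n hn'
      · simp
      · simp
      · simp
      · simp
      · simp
      · simp
      · rw [← hb', one_div_mul_cancel hb.ne', Nat.cast_one]
    · obtain ⟨n1, hn1⟩ := exists_nat_ge (1 / b * (x 1).order)
      refine local_form h hind d B hB hBx _ ?_ ?_ ?_ ?_ hFy (1 / b) hz 1 n1 ?_ ?_ ?_ hn1 n hn'
      · simp
      · simp
      · simp
      · simp
      · simp
      · simp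
      · rw [← hb', one_div_mul_cancel hb.ne', Nat.cast_one]
  have h1 : (n : ℝ) ≤ d := by exact_mod_cast hnd
  have h2 := key.trans h1
  rw [one_div, inv_mul_le_iff₀ hb] at h2
  linarith

private theorem step40 {q : S} (hq : q.IsHomogeneous 2) (u v : S) (hv : v.IsHomogeneous 1)
    (huv : cub 0 0 q = u * (v * X 2) + X 3 * q) (j : ℕ) (B B' B'' : S)
    (hB' : B'.IsHomogeneous j) (hB'' : B''.IsHomogeneous j) (hB : B = u * B' + X 3 * B'') :
    ∃ B1 : S, B1.IsHomogeneous (j + 1 + 1) ∧ cub 0 0 q ∣ q * B - (-u) * B1 := by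
  refine ⟨-(q * B') + v * X 2 * B'', ?_, B'', ?_⟩
  · have h1 := (hq.mul hB').neg
    have h2 := (hv.mul (isHomogeneous_X ℂ 2)).mul hB''
    have e1 : 2 + j = j + 1 + 1 := by ring
    have e2 : 1 + 1 + j = j + 1 + 1 := by ring
    rw [e1] at h1
    rw [e2] at h2
    exact h1.add h2
  · rw [huv, hB]
    ring

theorem cc_chain_x {q : S} {x : Fin 4 → HH} (h : Pt 0 0 q x)
    (hind : Ind (x 0).order (x 1).order) (hs : (x 3).order = (x 0).order + (x 1).order)
    (k : ℕ) (B : S) (hB : B.IsHomogeneous k) (hBx : aeval x B ≠ 0) :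
    ∃ (m : ℕ) (Bm : S), Bm.IsHomogeneous (k + m) ∧ cub 0 0 q ∣ q ^ m * B - (-X 0) ^ m * Bm ∧
      (aeval x B).order ≤ m * ((x 0).order + (x 1).order) + k * (x 1).order := by
  have e : aeval x (X 0 : S) = x 0 := aeval_X _ _
  obtain ⟨m, Bm, h1, h2, h3, h4, h5⟩ := chain40 h (X 0) (by rw [e]; exact h.ne0)
    (by rw [e]; exact h.pos0)
    (fun B => aeval ![0, Polynomial.X, 1, (0 : Polynomial ℂ)] B = 0) (by
      intro k B hB hB0 hZ
      obtain ⟨B', B'', j, rfl, h6, h7, h8⟩ := line_x k B hB hB0 hZ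
      exact step40 h.q_hom (X 0) (X 1) (isHomogeneous_X ℂ 1) (by simp [cub]; ring) j B B' B'' h6 h7 h8)
    k B hB hBx
  refine ⟨m, Bm, h1, h2, ?_⟩
  have h6 := arc40 h hind (k + m) Bm h1 h4 ![0, Polynomial.X, 1, 0] _ h.pos1 (Or.inl ⟨rfl, rfl⟩) h3
  rw [e] at h5
  rw [h5]
  push_cast at h6
  linarith

theorem cc_chain_y {q : S} {x : Fin 4 → HH} (h : Pt 0 0 q x)
    (hind : Ind (x 0).order (x 1).order) (hs : (x 3).order = (x 0).order + (x 1).order)
    (k : ℕ) (B : S) (hB : B.IsHomogeneous k) (hBx : aeval x B ≠ 0) :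
    ∃ (m : ℕ) (Bm : S), Bm.IsHomogeneous (k + m) ∧ cub 0 0 q ∣ q ^ m * B - (-X 1) ^ m * Bm ∧
      (aeval x B).order ≤ m * ((x 0).order + (x 1).order) + k * (x 0).order := by
  have e : aeval x (X 1 : S) = x 1 := aeval_X _ _
  obtain ⟨m, Bm, h1, h2, h3, h4, h5⟩ := chain40 h (X 1) (by rw [e]; exact h.ne1)
    (by rw [e]; exact h.pos1)
    (fun B => aeval ![Polynomial.X, 0, 1, (0 : Polynomial ℂ)] B = 0) (by
      intro k B hB hB0 hZ
      obtain ⟨B', B'', j, rfl, h6, h7, h8⟩ := line_y k B hB hB0 hZ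
      exact step40 h.q_hom (X 1) (X 0) (isHomogeneous_X ℂ 0) (by simp [cub]; ring) j B B' B'' h6 h7 h8)
    k B hB hBx
  refine ⟨m, Bm, h1, h2, ?_⟩
  have h6 := arc40 h hind (k + m) Bm h1 h4 ![Polynomial.X, 0, 1, 0] _ h.pos0 (Or.inr ⟨rfl, rfl⟩) h3
  rw [e] at h5
  rw [h5]
  push_cast at h6
  linarith

end Pool.Agent.CLN
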