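import Pool.Agent.CLN.Defs
import Pool.Agent.CLU.Coord

/-!
# CLN / SurfT: scaling and linear changes of coordinates for `Surf`

`jac_subst`: chain rule `∂_k (A(l)) = ∑_m (∂_m A)(l) ∂_k l_m` (`∂_k l_m` constants); the determinant is
that of the constant matrix `(∂_k l_m)` (not zero: `l_m` are linearly independent, `l'` is the inverse
substitution, or `CLU.exists_matrix`) times `(Jac4 A)(l)`.
`transport`: the value of a form `A` at the new point is the value of `aeval l A` at `x`
(`aeval (fun i => aeval x (l i)) A = aeval x (aeval l A)`).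
`scale`: `A(μ x) = μ^d A(x)`; the rows of the new matrix are `μ^{d_i}` times
`(d_i A_i, D_1 A_i + d_i A_i D_1 μ / μ, ..)`: column operations; degrees:
`deg (b' Jac4) = e + ∑ (d_i - 1) + (g - 1) = ∑ d_i` (`pderiv` of a form of degree `d` is a form of
degree `d - 1`; if some `d_i = 0` both sides are `0`, or treat constants directly).
-/

set_option autoImplicit false

namespace Pool.Agent.CLN

open MvPolynomial Pool.Agent.CLU

variable {M : Type} [Field M] [Algebra ℂ M]

theorem aeval_smul_form (F : S) (d : ℕ) (hF : F.IsHomogeneous d) (μ : M) (x : Fin 4 → M) :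
    aeval (fun i => μ * x i) F = μ ^ d * aeval x F := by
  rw [aeval_def, aeval_def, eval₂_eq', eval₂_eq', Finset.mul_sum]
  refine Finset.sum_congr rfl fun m hm => ?_
  have h1 : m.degree = d := by
    have h2 := hF (mem_support_iff.1 hm)
    rw [← h2, Finsupp.degree_eq_weight_one]
    rfl
  have h3 : ∏ i, (μ * x i) ^ m i = μ ^ d * ∏ i, x i ^ m i := by
    simp only [mul_pow]
    rw [Finset.prod_mul_distrib, Finset.prod_pow_eq_pow_sum, ← h1, Finsupp.degree_eq_sum]
  rw [h3]
  ring

private theorem jac_add42 (l : Fin 4 → S) (k : Fin 4) (F : S) :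
    pderiv k (aeval l F) = ∑ m, aeval l (pderiv m F) * pderiv k (l m) := by
  induction F using MvPolynomial.induction_on with
  | C a =>
    rw [algHom_C, algebraMap_eq, pderiv_C]
    symm
    refine Finset.sum_eq_zero fun m _ => ?_
    rw [pderiv_C, map_zero, zero_mul]
  | add p q hp hq =>
    rw [map_add, map_add, hp, hq, ← Finset.sum_add_distrib]
    refine Finset.sum_congr rfl fun m _ => ?_
    rw [map_add, map_add, add_mul]
  | mul_X p n hp =>
    have h1 : ∀ m, aeval l (pderiv m (p * X n)) * pderiv k (l m) =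
        l n * (aeval l (pderiv m p) * pderiv k (l m)) +
          aeval l p * ((if m = n then 1 else 0) * pderiv k (l m)) := by
      intro m
      rw [Derivation.leibniz, smul_eq_mul, smul_eq_mul, pderiv_X, map_add, map_mul, map_mul,
        aeval_X]
      by_cases hm : m = n
      · subst hm
        rw [Pi.single_eq_same, if_pos rfl, map_one]
        ring
      · rw [Pi.single_eq_of_ne (Ne.symm hm), if_neg hm, map_zero]
        ring
    simp only [h1]
    rw [Finset.sum_add_distrib, ← Finset.mul_sum, ← hp, ← Finset.mul_sum]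
    have h2 : ∑ m, (if m = n then (1 : S) else 0) * pderiv k (l m) = pderiv k (l n) := by
      rw [Finset.sum_eq_single n]
      · rw [if_pos rfl, one_mul]
      · intro m _ hm
        rw [if_neg hm, zero_mul]
      · intro h
        exact absurd (Finset.mem_univ _) h
    rw [h2, map_mul, aeval_X, Derivation.leibniz, smul_eq_mul, smul_eq_mul]
    ring

theorem jac_subst (l l' : Fin 4 → S) (hl : ∀ i, (l i).IsHomogeneous 1)
    (h1 : ∀ F : S, aeval l (aeval l' F) = F) (h2 : ∀ F : S, aeval l' (aeval l F) = F) :
    ∃ δ : ℂ, δ ≠ 0 ∧ ∀ A : Fin 4 → S,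
      Jac4 (fun i => aeval l (A i)) = C δ * aeval l (Jac4 A) := by
  have hli : LinearIndependent ℂ l := by
    apply LinearIndependent.of_comp (aeval l').toLinearMap
    have h3 : ((aeval l').toLinearMap ∘ l : Fin 4 → S) = X := by
      funext i
      show aeval l' (l i) = X i
      have h4 := h2 (X i)
      rwa [aeval_X] at h4
    rw [h3]
    exact linearIndependent_X _ _
  obtain ⟨M, hM, hlM⟩ := exists_matrix l hl hli
  refine ⟨M.det, hM.ne_zero, fun A => ?_⟩
  have hk : ∀ k m, pderiv k (l m) = C (M m k) := by
    intro k m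
    rw [hlM, map_sum, Finset.sum_eq_single k]
    · rw [pderiv_C_mul, pderiv_X_self, mul_one]
    · intro j _ hj
      rw [pderiv_C_mul, pderiv_X_of_ne hj, mul_zero]
    · intro h
      exact absurd (Finset.mem_univ _) h
  have h3 : (Matrix.of fun i j => pderiv j (aeval l (A i)) : Matrix (Fin 4) (Fin 4) S) =
      ((aeval l : S →ₐ[ℂ] S).toRingHom.mapMatrix (Matrix.of fun i j => pderiv j (A i))) *
        (C : ℂ →+* S).mapMatrix M := by
    ext1 i k
    rw [Matrix.mul_apply, Matrix.of_apply, jac_add42]
    refine Finset.sum_congr rfl fun m _ => ?_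
    rw [hk]
    rfl
  unfold Jac4
  rw [h3, Matrix.det_mul, ← RingHom.map_det, ← RingHom.map_det, mul_comm]
  rfl

theorem Surf.transport {G b' : S} {D1 D2 : Derivation ℂ M M} {x : Fin 4 → M}
    (hx : Surf G b' D1 D2 x) (l l' : Fin 4 → S) (hl : ∀ i, (l i).IsHomogeneous 1)
    (hl' : ∀ i, (l' i).IsHomogeneous 1)
    (h1 : ∀ F : S, aeval l (aeval l' F) = F) (h2 : ∀ F : S, aeval l' (aeval l F) = F) :
    Surf (aeval l' G) (aeval l' b') D1 D2 (fun i => aeval x (l i)) := by
  have hev : ∀ F : S, aeval (fun i => aeval x (l i)) F = aeval x (aeval l F) := by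
    intro F
    have h3 : (aeval (fun i => aeval x (l i)) : S →ₐ[ℂ] M) = (aeval x).comp (aeval l) := by
      apply algHom_ext
      intro i
      rw [AlgHom.comp_apply, aeval_X, aeval_X]
    rw [h3]
    rfl
  constructor
  · intro d A hA
    have hlA : (aeval l A).IsHomogeneous d := by
      have := hA.aeval l hl
      rwa [one_mul] at this
    rw [hev, hx.van d _ hlA]
    constructor
    · intro h
      have h3 := map_dvd (aeval l' : S →ₐ[ℂ] S) h
      rwa [h2] at h3
    · intro h
      have h3 := map_dvd (aeval l : S →ₐ[ℂ] S) h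
      rwa [h1] at h3
  · obtain ⟨c, hc, hst⟩ := hx.star
    obtain ⟨δ, hδ, hJ⟩ := jac_subst l l' hl h1 h2
    refine ⟨c * δ, mul_ne_zero hc hδ, fun A d hA => ?_⟩
    have h3 := hst (fun i => aeval l (A i)) d (fun i => by
      have := (hA i).aeval l hl
      rwa [one_mul] at this)
    have h4 : Jac4 ![aeval l (A 0), aeval l (A 1), aeval l (A 2), G] =
        C δ * aeval l (Jac4 ![A 0, A 1, A 2, aeval l' G]) := by
      rw [← hJ]
      congr 1
      funext i
      fin_cases i
      · rfl
      · rfl
      · rfl
      · exact (h1 G).symm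
    have h5 : ∀ i, aeval (fun i => aeval x (l i)) (A i) = aeval x (aeval l (A i)) :=
      fun i => hev (A i)
    simp only [h5]
    rw [h3, h4, hev, map_mul, map_mul, map_mul, map_mul, map_mul, h1, algHom_C]
    ring

theorem Surf.scale {G b' : S} {D1 D2 : Derivation ℂ M M} {x : Fin 4 → M}
    (hx : Surf G b' D1 D2 x) {g e : ℕ} (hG : G.IsHomogeneous g) (hb' : b'.IsHomogeneous e)
    (hge : g + e = 4) (hg : 0 < g) (μ : M) (hμ : μ ≠ 0) :
    Surf G b' D1 D2 (fun i => μ * x i) := by
  constructor
  · intro d A hA
    rw [aeval_smul_form A d hA, mul_eq_zero, ← hx.van d A hA]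
    constructor
    · rintro (h | h)
      · exact absurd h (pow_ne_zero _ hμ)
      · exact h
    · exact Or.inr
  · obtain ⟨c, hc, hst⟩ := hx.star
    refine ⟨c, hc, fun A d hA => ?_⟩
    have h1 := hst A d hA
    have hdeg : (b' * Jac4 ![A 0, A 1, A 2, G]).IsHomogeneous (d 0 + d 1 + d 2) := by
      have hAA : ∀ i : Fin 4, (![A 0, A 1, A 2, G] i).IsHomogeneous (![d 0, d 1, d 2, g] i) := by
        intro i
        fin_cases i
        · exact hA 0
        · exact hA 1
        · exact hA 2
        · exact hG
      by_cases h0 : ∃ i : Fin 4, ![d 0, d 1, d 2, g] i = 0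
      · obtain ⟨i, hi⟩ := h0
        have h2 : Jac4 ![A 0, A 1, A 2, G] = 0 := by
          unfold Jac4
          refine Matrix.det_eq_zero_of_row_eq_zero i fun j => ?_
          rw [Matrix.of_apply]
          have h3 := hAA i
          rw [hi] at h3
          have h4 : (![A 0, A 1, A 2, G] i).totalDegree = 0 := by
            by_cases h5 : ![A 0, A 1, A 2, G] i = 0
            · rw [h5, totalDegree_zero]
            · exact h3.totalDegree h5
          rw [totalDegree_eq_zero_iff_eq_C] at h4
          rw [h4, pderiv_C]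
        rw [h2, mul_zero]
        exact isHomogeneous_zero _ _ _
      · push Not at h0
        have hJ : (Jac4 ![A 0, A 1, A 2, G]).IsHomogeneous
            (∑ i : Fin 4, (![d 0, d 1, d 2, g] i - 1)) := by
          unfold Jac4
          rw [Matrix.det_apply]
          refine IsHomogeneous.sum _ _ _ fun σ _ => ?_
          have h2 : (∏ i, (Matrix.of fun i j => pderiv j (![A 0, A 1, A 2, G] i) :
              Matrix (Fin 4) (Fin 4) S) (σ i) i).IsHomogeneous
              (∑ i : Fin 4, (![d 0, d 1, d 2, g] i - 1)) := by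
            rw [← Equiv.sum_comp σ (fun i => ![d 0, d 1, d 2, g] i - 1)]
            refine IsHomogeneous.prod _ _ _ fun i _ => ?_
            rw [Matrix.of_apply]
            exact (hAA (σ i)).pderiv
          rw [Units.smul_def, zsmul_eq_mul]
          have h3 : (((Equiv.Perm.sign σ : ℤˣ) : ℤ) : S) = C (((Equiv.Perm.sign σ : ℤˣ) : ℤ) : ℂ) := by
            rw [map_intCast]
          rw [h3]
          have h4 := (isHomogeneous_C (Fin 4) (((Equiv.Perm.sign σ : ℤˣ) : ℤ) : ℂ)).mul h2
          rwa [zero_add] at h4
        have h2 := hb'.mul hJ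
        have h3 : e + ∑ i : Fin 4, (![d 0, d 1, d 2, g] i - 1) = d 0 + d 1 + d 2 := by
          rw [Fin.sum_univ_four]
          have e0 := h0 0
          have e1 := h0 1
          have e2 := h0 2
          change d 0 ≠ 0 at e0
          change d 1 ≠ 0 at e1
          change d 2 ≠ 0 at e2
          change e + (d 0 - 1 + (d 1 - 1) + (d 2 - 1) + (g - 1)) = _
          omega
        rwa [h3] at h2
    rw [aeval_smul_form _ _ hdeg]
    have hD : ∀ (D : Derivation ℂ M M) (i : Fin 3), D (aeval (fun i => μ * x i) (A i)) =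
        μ ^ d i * (D (aeval x (A i)) + (d i : M) * aeval x (A i) * (D μ / μ)) := by
      intro D i
      rw [aeval_smul_form _ _ (hA i), Derivation.leibniz, smul_eq_mul, smul_eq_mul,
        Derivation.leibniz_pow, smul_eq_mul]
      rcases Nat.eq_zero_or_pos (d i) with h0 | h0
      · rw [h0]
        simp
      · obtain ⟨k, hk⟩ : ∃ k, d i = k + 1 := ⟨d i - 1, by omega⟩
        rw [hk, Nat.add_sub_cancel, pow_succ]
        rw [nsmul_eq_mul]
        field_simp
    have hE : (Matrix.of fun i : Fin 3 =>
        ![(d i : M) * aeval (fun i => μ * x i) (A i), D1 (aeval (fun i => μ * x i) (A i)),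
          D2 (aeval (fun i => μ * x i) (A i))]).det =
        μ ^ (d 0 + d 1 + d 2) * (Matrix.of fun i : Fin 3 =>
        ![(d i : M) * aeval x (A i), D1 (aeval x (A i)), D2 (aeval x (A i))]).det := by
      simp only [hD]
      simp only [aeval_smul_form _ _ (hA _)]
      rw [Matrix.det_fin_three, Matrix.det_fin_three]
      simp only [Matrix.of_apply, Matrix.cons_val_zero, Matrix.cons_val_one, Matrix.cons_val_two,
        Matrix.head_cons, Matrix.tail_cons]
      rw [pow_add, pow_add]
      ring
    rw [hE, h1]
    ring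

end Pool.Agent.CLN
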