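import Pool.Agent.CLN.C2Defs
import Pool.Agent.CLN.SurfT

/-!
# CLN / Center: the centre of the valuation on the cubic surface

`f = diag c`, `h = lf l`, all `l_i ≠ 0`.
`exists_norm`: divide `x` by the coordinate `x_κ` of least order (`Surf.scale`; `x_i ≠ 0` because
`diag c ∤ X_i`).
`coeff_form`: for a form `F` of any degree and `Ge 0 (x i)`: `Ge 0 (F(x))` and
`(F(x)).coeff 0 = F(p)`, `p_i = (x i).coeff 0` (polynomial induction, `coeff_mul_of_Ge`).
`center`: `x_κ = 1`, `p_κ = 1`.  (1) `f(x) = 0`, so `f(p) = 0`.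
(2) `star` for `(X_i, X_j, X_κ)`, `{i, j, κ, m}` all indices:
`br (x_i) (x_j) = ± k h(x) ∂_m f(x)`.  `br (x_i) (x_j) = br (x_i - p_i) (x_j - p_j)` is `Ge 0` with
coefficient `0` at `0`; so `h(p) ∂_m f(p) = 0` for all `m ≠ κ`.  If `h(p) ≠ 0`: `∂_m f(p) = 0` for
`m ≠ κ`, and `∑ p_m ∂_m f(p) = 3 f(p) = 0` gives `∂_κ f(p) = 0`.
(3) `h(p) = 0`: `star` for `(h, X_j, X_κ)`:
`br (h(x)) (x_j) = ± k h(x) (l_i ∂_m f - l_m ∂_i f)(x)`.  `h(x) ≠ 0`; the left side is
`br (h(x)) (x_j - p_j)`, it is `Ge (h(x)).order` with coefficient `0` there (`coeff_mul_of_Ge`), so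
`(l_i ∂_m f - l_m ∂_i f)(p) = 0` for `i, m ≠ κ`.  So `∂_i f(p) = λ l_i` for `i ≠ κ`, and by
`∑ p_i ∂_i f(p) = 0 = ∑ p_i l_i`, `p_κ ≠ 0`, also for `i = κ`.
-/

set_option autoImplicit false

namespace Pool.Agent.CLN

open MvPolynomial Pool.Agent.CLU

/-- A normalised surface structure. -/
structure NSurf (c l : Fin 4 → ℂ) (w1 w2 : ℝ →+ ℂ) (x : Fin 4 → HH) (κ : Fin 4) : Prop where
  surf : Surf (diag c) (lf l) (DD w1) (DD w2) x
  l_ne : ∀ i, l i ≠ 0
  c_ne : ∀ i j, i ≠ j → c i ≠ 0 ∨ c j ≠ 0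
  ge : ∀ i, Ge 0 (x i)
  one : x κ = 1

theorem diag_hom (c : Fin 4 → ℂ) : (diag c).IsHomogeneous 3 := by
  refine IsHomogeneous.sum _ _ _ fun i _ => ?_
  have h1 := (isHomogeneous_C (Fin 4) (c i)).mul ((isHomogeneous_X ℂ i).pow 3)
  simpa using h1

theorem eval_diag (c p : Fin 4 → ℂ) : eval p (diag c) = ∑ i, c i * p i ^ 3 := by
  simp [diag]

theorem diag_not_dvd {c : Fin 4 → ℂ} (hc : c 0 ≠ 0 ∨ c 1 ≠ 0) {F : S} (hF : F.IsHomogeneous 1)
    (hF0 : F ≠ 0) : ¬ diag c ∣ F := by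
  intro h
  have h0 : diag c ≠ 0 := by
    intro h1
    have h2 : ∀ i, c i = 0 := by
      intro i
      have h3 := congrArg (eval (Pi.single i 1 : Fin 4 → ℂ)) h1
      rw [eval_diag, map_zero, Finset.sum_eq_single i (fun j _ hj => by
        rw [Pi.single_eq_of_ne hj]; ring) (fun hn => absurd (Finset.mem_univ i) hn),
        Pi.single_eq_same] at h3
      linear_combination h3
    rcases hc with hc | hc
    · exact hc (h2 0)
    · exact hc (h2 1)
  have h1 := totalDegree_le_of_dvd_of_isDomain h hF0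
  rw [(diag_hom c).totalDegree h0, hF.totalDegree hF0] at h1
  omega

theorem coeff_algMap (c : ℂ) : (algebraMap ℂ HH c).coeff 0 = c := by
  rw [algebraMap_HH]
  exact HahnSeries.coeff_single_same 0 c

theorem pderiv_lf (u : Fin 4 → ℂ) (j : Fin 4) : pderiv j (lf u) = C (u j) := by
  rw [lf_apply, map_sum, Finset.sum_eq_single j]
  · rw [pderiv_C_mul, pderiv_X_self, mul_one]
  · intro i _ hi
    rw [pderiv_C_mul, pderiv_X_of_ne hi, mul_zero]
  · intro hn
    exact absurd (Finset.mem_univ j) hn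

theorem pderiv_diag (c : Fin 4 → ℂ) (j : Fin 4) : pderiv j (diag c) = C (3 * c j) * X j ^ 2 := by
  rw [diag, map_sum, Finset.sum_eq_single j]
  · rw [pderiv_C_mul, pderiv_pow, pderiv_X_self, C_mul]
    have h3 : (C 3 : S) = 3 := map_ofNat C 3
    rw [h3]
    push_cast
    ring
  · intro i _ hi
    rw [pderiv_C_mul, pderiv_pow, pderiv_X_of_ne hi, mul_zero, mul_zero]
  · intro hn
    exact absurd (Finset.mem_univ j) hn

theorem eval_jac (u v c p : Fin 4 → ℂ) (κ : Fin 4) :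
    eval p (Jac4 ![lf u, lf v, X κ, diag c]) =
      (Matrix.of ![u, v, Pi.single κ 1, fun j => 3 * c j * p j ^ 2]).det := by
  rw [Jac4, RingHom.map_det]
  congr 1
  ext i j
  fin_cases i
  · show eval p (pderiv j (lf u)) = u j
    rw [pderiv_lf, eval_C]
  · show eval p (pderiv j (lf v)) = v j
    rw [pderiv_lf, eval_C]
  · show eval p (pderiv j (X κ)) = (Pi.single κ 1 : Fin 4 → ℂ) j
    rcases eq_or_ne κ j with rfl | h
    · rw [pderiv_X_self, map_one, Pi.single_eq_same]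
    · rw [pderiv_X_of_ne h, map_zero, Pi.single_eq_of_ne h.symm]
  · show eval p (pderiv j (diag c)) = 3 * c j * p j ^ 2
    rw [pderiv_diag, map_mul, eval_C, map_pow, eval_X]

theorem br_coeff_zero {w1 w2 : ℝ →+ ℂ} {a b : HH} {v : ℝ} (ha : Ge v a) (hb : Ge 0 b) :
    (br (DD w1) (DD w2) a b).coeff v = 0 := by
  have h1 := coeff_mul_of_Ge (ha.DD w1) (hb.DD w2)
  have h2 := coeff_mul_of_Ge (ha.DD w2) (hb.DD w1)
  rw [add_zero] at h1 h2
  unfold br
  rw [HahnSeries.coeff_sub, h1, h2, DD_coeff, DD_coeff, DD_coeff, DD_coeff, map_zero, map_zero]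
  ring

theorem det4' {R : Type*} [CommRing R] (a b c d : Fin 4 → R) : (Matrix.of ![a, b, c, d]).det =
    a 0 * (b 1 * (c 2 * d 3 - c 3 * d 2) - b 2 * (c 1 * d 3 - c 3 * d 1) +
      b 3 * (c 1 * d 2 - c 2 * d 1)) -
    a 1 * (b 0 * (c 2 * d 3 - c 3 * d 2) - b 2 * (c 0 * d 3 - c 3 * d 0) +
      b 3 * (c 0 * d 2 - c 2 * d 0)) +
    a 2 * (b 0 * (c 1 * d 3 - c 3 * d 1) - b 1 * (c 0 * d 3 - c 3 * d 0) +
      b 3 * (c 0 * d 1 - c 1 * d 0)) -
    a 3 * (b 0 * (c 1 * d 2 - c 2 * d 1) - b 1 * (c 0 * d 2 - c 2 * d 0) +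
      b 2 * (c 0 * d 1 - c 1 * d 0)) := by
  rw [Matrix.det_succ_row_zero]
  simp only [Fin.sum_univ_four, Matrix.det_fin_three, Matrix.submatrix_apply, Matrix.of_apply]
  simp [Fin.succAbove]
  ring

theorem perm_det (σ : Equiv.Perm (Fin 4)) (a g : Fin 4 → ℂ) :
    (Matrix.of ![a, Pi.single (σ 1) 1, Pi.single (σ 2) 1, g]).det *
      (((Equiv.Perm.sign σ : ℤˣ) : ℤ) : ℂ) = a (σ 0) * g (σ 3) - a (σ 3) * g (σ 0) := by
  have h1 := Matrix.det_permute' σ (Matrix.of ![a, Pi.single (σ 1) 1, Pi.single (σ 2) 1, g])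
  rw [mul_comm] at h1
  rw [← h1]
  have h2 : (Matrix.of ![a, Pi.single (σ 1) 1, Pi.single (σ 2) 1, g]).submatrix id σ =
      Matrix.of ![fun j => a (σ j), Pi.single 1 1, Pi.single 2 1, fun j => g (σ j)] := by
    ext i j
    fin_cases i
    · rfl
    · show (Pi.single (σ 1) 1 : Fin 4 → ℂ) (σ j) = (Pi.single 1 1 : Fin 4 → ℂ) j
      rw [Pi.single_apply, Pi.single_apply]
      simp only [σ.injective.eq_iff]
    · show (Pi.single (σ 2) 1 : Fin 4 → ℂ) (σ j) = (Pi.single 2 1 : Fin 4 → ℂ) j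
      rw [Pi.single_apply, Pi.single_apply]
      simp only [σ.injective.eq_iff]
    · rfl
  rw [h2, det4']
  simp

theorem exists_third (κ m : Fin 4) : ∃ i : Fin 4, i ≠ κ ∧ i ≠ m := by
  revert κ m
  decide

theorem exists_perm (κ i m : Fin 4) (hi : i ≠ κ) (hm : m ≠ κ) (him : i ≠ m) :
    ∃ σ : Equiv.Perm (Fin 4), σ 0 = i ∧ σ 2 = κ ∧ σ 3 = m := by
  revert κ i m
  decide

theorem star_uv {c l : Fin 4 → ℂ} {w1 w2 : ℝ →+ ℂ} {x : Fin 4 → HH} {κ : Fin 4}
    (h : NSurf c l w1 w2 x κ) : ∃ k : ℂ, k ≠ 0 ∧ ∀ u v : Fin 4 → ℂ,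
      br (DD w1) (DD w2) (aeval x (lf u)) (aeval x (lf v)) =
        algebraMap ℂ HH k * aeval x (lf l * Jac4 ![lf u, lf v, X κ, diag c]) := by
  obtain ⟨k, hk, hs⟩ := h.surf.star
  refine ⟨k, hk, fun u v => ?_⟩
  have h1 := hs ![lf u, lf v, X κ] ![1, 1, 1] (by
    intro i
    fin_cases i
    · exact lf_hom u
    · exact lf_hom v
    · exact isHomogeneous_X _ _)
  have h2 : (![lf u, lf v, X κ] : Fin 3 → S) 0 = lf u := rfl
  have h3 : (![lf u, lf v, X κ] : Fin 3 → S) 1 = lf v := rfl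
  have h4 : (![lf u, lf v, X κ] : Fin 3 → S) 2 = X κ := rfl
  rw [h2, h3, h4] at h1
  rw [← h1, Matrix.det_fin_three]
  have h5 : aeval x (X κ : S) = 1 := by rw [aeval_X, h.one]
  have h6 : ∀ w : ℝ →+ ℂ, DD w (1 : HH) = 0 := fun w => Derivation.map_one_eq_zero _
  simp [h5, h6, br]

theorem exists_norm {c l : Fin 4 → ℂ} {w1 w2 : ℝ →+ ℂ} {x : Fin 4 → HH}
    (hx : Surf (diag c) (lf l) (DD w1) (DD w2) x) (hl : ∀ i, l i ≠ 0)
    (hc : ∀ i j, i ≠ j → c i ≠ 0 ∨ c j ≠ 0) :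
    ∃ (μ : HH) (κ : Fin 4), μ ≠ 0 ∧ NSurf c l w1 w2 (fun i => μ * x i) κ := by
  have hx0 : ∀ i, x i ≠ 0 := by
    intro i h0
    have h1 := (hx.van 1 (X i) (isHomogeneous_X _ _)).1 (by rw [aeval_X, h0])
    exact diag_not_dvd (hc 0 1 (by decide)) (isHomogeneous_X _ _) (X_ne_zero i) h1
  obtain ⟨κ, hκ⟩ := Finite.exists_min fun i => (x i).order
  have hμ : (x κ)⁻¹ ≠ 0 := inv_ne_zero (hx0 κ)
  refine ⟨(x κ)⁻¹, κ, hμ, ?_, hl, hc, ?_, ?_⟩
  · exact hx.scale (diag_hom c) (lf_hom l) rfl (by norm_num) _ hμ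
  · intro i
    have h1 : ((x κ)⁻¹ * x i).order + (x κ).order = (x i).order := by
      rw [← HahnSeries.order_mul (mul_ne_zero hμ (hx0 i)) (hx0 κ)]
      congr 1
      rw [mul_comm, ← mul_assoc, mul_inv_cancel₀ (hx0 κ), one_mul]
    have h2 := hκ i
    refine ge_of_le_order ?_
    linarith
  · exact inv_mul_cancel₀ (hx0 κ)

theorem coeff_form (x : Fin 4 → HH) (hx : ∀ i, Ge 0 (x i)) (F : S) :
    Ge 0 (aeval x F) ∧ (aeval x F).coeff 0 = eval (fun i => (x i).coeff 0) F := by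
  induction F using MvPolynomial.induction_on with
  | C a =>
    rw [aeval_C, eval_C]
    exact ⟨ge_algebraMap a, coeff_algMap a⟩
  | add p q hp hq =>
    rw [map_add, map_add]
    exact ⟨hp.1.add hq.1, by rw [HahnSeries.coeff_add, hp.2, hq.2]⟩
  | mul_X p i hp =>
    rw [map_mul, map_mul, aeval_X, eval_X]
    have h1 := hp.1.mul (hx i)
    have h2 := coeff_mul_of_Ge hp.1 (hx i)
    rw [add_zero] at h1 h2
    exact ⟨h1, by rw [h2, hp.2]⟩

theorem center {c l : Fin 4 → ℂ} {w1 w2 : ℝ →+ ℂ} {x : Fin 4 → HH} {κ : Fin 4}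
    (h : NSurf c l w1 w2 x κ) :
    eval (fun i => (x i).coeff 0) (diag c) = 0 ∧
    ((∀ j, c j * (x j).coeff 0 ^ 2 = 0) ∨
      (eval (fun i => (x i).coeff 0) (lf l) = 0 ∧
        ∃ r : ℂ, ∀ j, 3 * c j * (x j).coeff 0 ^ 2 = r * l j)) := by
  set p : Fin 4 → ℂ := fun i => (x i).coeff 0 with hp
  have hpκ : p κ = 1 := by
    rw [hp]
    show (x κ).coeff 0 = 1
    rw [h.one, ← map_one (algebraMap ℂ HH), coeff_algMap]
  -- step 1
  have hf0 : aeval x (diag c) = 0 := (h.surf.van 3 (diag c) (diag_hom c)).2 dvd_rfl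
  have hfp : eval p (diag c) = 0 := by
    have h1 := (coeff_form x h.ge (diag c)).2
    rw [hf0] at h1
    exact h1.symm
  refine ⟨hfp, ?_⟩
  have hfp' : ∑ i, c i * p i ^ 3 = 0 := by
    rw [← hfp, eval_diag]
  have hge : ∀ u : Fin 4 → ℂ, Ge 0 (aeval x (lf u)) := fun u => (coeff_form x h.ge _).1
  obtain ⟨k, hk, hst⟩ := star_uv h
  by_cases hh : eval p (lf l) = 0
  · right
    refine ⟨hh, ?_⟩
    have hH : aeval x (lf l) ≠ 0 := by
      intro h0
      have h1 := (h.surf.van 1 (lf l) (lf_hom l)).1 h0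
      refine diag_not_dvd (h.c_ne 0 1 (by decide)) (lf_hom l) ?_ h1
      intro h2
      have h3 : l = 0 := lf_inj (by rw [h2, map_zero])
      exact h.l_ne 0 (congrFun h3 0)
    have hdet : ∀ v : Fin 4 → ℂ, (Matrix.of ![l, v, Pi.single κ 1,
        fun j => 3 * c j * p j ^ 2]).det = 0 := by
      intro v
      have h1 := congrArg (fun z : HH => z.coeff (aeval x (lf l)).order) (hst l v)
      rw [br_coeff_zero (ge_order _) (hge v), map_mul, ← mul_assoc] at h1
      have h2 : Ge (aeval x (lf l)).order (algebraMap ℂ HH k * aeval x (lf l)) := by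
        have h3 := (ge_algebraMap k).mul (ge_order (aeval x (lf l)))
        rwa [zero_add] at h3
      have h4 := coeff_mul_of_Ge h2 (coeff_form x h.ge (Jac4 ![lf l, lf v, X κ, diag c])).1
      rw [add_zero] at h4
      rw [h4, (coeff_form x h.ge _).2] at h1
      have h5 := coeff_mul_of_Ge (ge_algebraMap k) (ge_order (aeval x (lf l)))
      rw [zero_add, coeff_algMap] at h5
      rw [h5, eval_jac] at h1
      have h6 : (aeval x (lf l)).coeff (aeval x (lf l)).order ≠ 0 :=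
        fun h0 => hH (HahnSeries.coeff_order_eq_zero.1 h0)
      exact (mul_eq_zero.1 h1.symm).resolve_left (mul_ne_zero hk h6)
    obtain ⟨i, hi⟩ := exists_ne κ
    refine ⟨3 * c i * p i ^ 2 / l i, ?_⟩
    have h7 : ∀ m, m ≠ κ → 3 * c m * p m ^ 2 = 3 * c i * p i ^ 2 / l i * l m := by
      intro m hm
      rw [div_mul_eq_mul_div, eq_div_iff (h.l_ne i)]
      rcases eq_or_ne i m with rfl | hne
      · rfl
      · obtain ⟨σ, hσ0, hσ2, hσ3⟩ := exists_perm κ i m hi hm hne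
        have h8 := perm_det σ l (fun j => 3 * c j * p j ^ 2)
        rw [hσ0, hσ2, hσ3, hdet, zero_mul] at h8
        linear_combination -h8
    have hsum : ∑ j, p j * (3 * c j * p j ^ 2 - 3 * c i * p i ^ 2 / l i * l j) = 0 := by
      have h9 : ∑ j, p j * (3 * c j * p j ^ 2 - 3 * c i * p i ^ 2 / l i * l j) =
          3 * (∑ j, c j * p j ^ 3) - 3 * c i * p i ^ 2 / l i * ∑ j, l j * p j := by
        rw [Finset.mul_sum, Finset.mul_sum, ← Finset.sum_sub_distrib]
        refine Finset.sum_congr rfl fun j _ => ?_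
        ring
      have h10 : ∑ j, l j * p j = 0 := by
        rw [← hh, eval_lf]
        rfl
      rw [h9, hfp', h10, mul_zero, mul_zero, sub_zero]
    rw [Finset.sum_eq_single κ (fun j _ hj => by rw [h7 j hj, sub_self, mul_zero])
      (fun hn => absurd (Finset.mem_univ κ) hn), hpκ, one_mul] at hsum
    intro j
    rcases eq_or_ne j κ with rfl | hj
    · have h11 := sub_eq_zero.1 hsum
      show 3 * c j * p j ^ 2 = _
      rw [hpκ]
      exact h11
    · exact h7 j hj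
  · left
    have hdet : ∀ u v : Fin 4 → ℂ, (Matrix.of ![u, v, Pi.single κ 1,
        fun j => 3 * c j * p j ^ 2]).det = 0 := by
      intro u v
      have h1 := congrArg (fun z : HH => z.coeff 0) (hst u v)
      rw [br_coeff_zero (hge u) (hge v)] at h1
      have h4 := coeff_mul_of_Ge (ge_algebraMap k)
        (coeff_form x h.ge (lf l * Jac4 ![lf u, lf v, X κ, diag c])).1
      rw [add_zero] at h4
      rw [h4, (coeff_form x h.ge _).2, coeff_algMap, map_mul, eval_jac] at h1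
      exact (mul_eq_zero.1 ((mul_eq_zero.1 h1.symm).resolve_left hk)).resolve_left hh
    have h7 : ∀ m, m ≠ κ → c m * p m ^ 2 = 0 := by
      intro m hm
      obtain ⟨i, hi, him⟩ := exists_third κ m
      obtain ⟨σ, hσ0, hσ2, hσ3⟩ := exists_perm κ i m hi hm him
      have h8 := perm_det σ (Pi.single (σ 0) 1) (fun j => 3 * c j * p j ^ 2)
      have h9 : (Pi.single (σ 0) 1 : Fin 4 → ℂ) (σ 3) = 0 := by
        rw [Pi.single_eq_of_ne]
        intro h10
        exact absurd (σ.injective h10) (by decide)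
      rw [Pi.single_eq_same, h9, hσ2, hσ3, hdet, zero_mul] at h8
      linear_combination (-1 / 3) * h8
    intro j
    rcases eq_or_ne j κ with rfl | hj
    · rw [Finset.sum_eq_single j (fun i _ hi => by
        have := h7 i hi
        linear_combination (p i) * this)
        (fun hn => absurd (Finset.mem_univ j) hn), hpκ] at hfp'
      show c j * p j ^ 2 = 0
      rw [hpκ]
      linear_combination hfp'
    · exact h7 j hj

end Pool.Agent.CLN
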