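import Pool.Agent.CLN.Center

/-!
# CLN / Cone: the cubic is not a cone, the centre has nonzero coordinates

Let `c_e = 0` (the others are not `0` by `c_ne`).  By `center`: in the second alternative `j = e`
gives `r l_e = 0`, `r = 0`, so `p_j = 0` for `j ≠ e`, `h(p) = l_e p_e = 0`, so `p = 0`, but
`p_κ = 1`.  In the first alternative `p_j = 0` for `j ≠ e`, so `κ = e`, `x_e = 1`, the three other
`x_j` (`≠ 0`, as `diag c ∤ X_j`) have positive order, and `h(x)` has order `0`
(`(h(x)).coeff 0 = l_e ≠ 0`).  `star` for `(X_i, X_j, X_e)`: `br (x_i) (x_j) = ± k h(x) 3 c_k x_k^2`, so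
`2 V(x_k) = V(br x_i x_j) ≥ V(x_i) + V(x_j)` for `{i, j, k}` = the three indices; so the three orders
are equal, hence dependent: `lt_order_br` gives `V(x_i) + V(x_j) < V(br x_i x_j) = 2 V(x_k)`,
contradiction.  (This excludes the first alternative also when all `c_j ≠ 0`: then `p = 0`.)
`center_smooth`: now all `c_j ≠ 0`, so only the second alternative is possible and `r ≠ 0`
(otherwise `p = 0`), so all `p_j ≠ 0`.
-/

set_option autoImplicit false

namespace Pool.Agent.CLN

open MvPolynomial Pool.Agent.CLU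

private theorem cn_perm {R : Type*} [CommRing R] (v : Fin 4 → R) (σ : Equiv.Perm (Fin 4)) :
    (Matrix.of ![Pi.single (σ 0) 1, Pi.single (σ 1) 1, Pi.single (σ 2) 1, v]).det =
      (((Equiv.Perm.sign σ : ℤˣ) : ℤ) : R) * v (σ 3) := by
  have h : (Matrix.of ![Pi.single 0 1, Pi.single 1 1, Pi.single 2 1, v ∘ σ]) =
      (Matrix.of ![Pi.single (σ 0) 1, Pi.single (σ 1) 1, Pi.single (σ 2) 1, v]).submatrix id σ := by
    ext r j
    fin_cases r
    · simp [Pi.single_apply]
    · simp [Pi.single_apply]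
    · simp [Pi.single_apply]
    · simp
  have h1 : (Matrix.of ![Pi.single 0 1, Pi.single 1 1, Pi.single 2 1, v ∘ σ]).det = v (σ 3) := by
    rw [Matrix.det_succ_row_zero]
    simp only [Fin.sum_univ_four, Matrix.det_fin_three, Matrix.submatrix_apply]
    simp [Fin.succAbove]
  rw [h, Matrix.det_permute'] at h1
  rw [← h1, ← mul_assoc, ← Int.cast_mul, ← Units.val_mul, Int.units_mul_self]
  simp

private theorem cn_pderiv (v : Fin 4 → ℂ) (j : Fin 4) :
    pderiv j (diag v) = C (3 * v j) * X j ^ 2 := by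
  have h3 : (C 3 : S) = 3 := map_ofNat _ 3
  rw [diag, map_sum, Finset.sum_eq_single j]
  · simp [Derivation.leibniz, Derivation.leibniz_pow, h3]
    ring
  · intro k _ hk
    simp [Derivation.leibniz, Derivation.leibniz_pow, pderiv_X_of_ne hk]
  · simp

private theorem cn_jac {M : Type} [Field M] [Algebra ℂ M] (x : Fin 4 → M) (c l : Fin 4 → ℂ)
    (σ : Equiv.Perm (Fin 4)) :
    aeval x (lf l * Jac4 ![X (σ 0), X (σ 1), X (σ 2), diag c]) =
      aeval x (lf l) * ((((Equiv.Perm.sign σ : ℤˣ) : ℤ) : M) *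
        (3 * algebraMap ℂ M (c (σ 3)) * x (σ 3) ^ 2)) := by
  have h3 : algebraMap ℂ M 3 = 3 := map_ofNat _ 3
  have hX : ∀ i j : Fin 4, aeval x (pderiv j (X i : S)) = (Pi.single i 1 : Fin 4 → M) j := by
    intro i j
    by_cases h : j = i
    · subst h
      simp
    · simp [pderiv_X_of_ne (Ne.symm h), h]
  rw [map_mul, Jac4, AlgHom.map_det,
    ← cn_perm (fun j => 3 * algebraMap ℂ M (c j) * x j ^ 2) σ]
  congr 2
  ext r j
  fin_cases r
  · simpa using hX (σ 0) j
  · simpa using hX (σ 1) j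
  · simpa using hX (σ 2) j
  · simp [cn_pderiv, h3]

private theorem cn_hom (c : Fin 4 → ℂ) : (diag c).IsHomogeneous 3 := by
  rw [diag]
  refine IsHomogeneous.sum _ _ _ fun j _ => ?_
  have h := (isHomogeneous_C (Fin 4) (c j)).mul ((isHomogeneous_X ℂ j).pow 3)
  simpa using h

private theorem cn_not_dvd (c : Fin 4 → ℂ) (j : Fin 4) : ¬ diag c ∣ (X j : S) := by
  rintro ⟨q, hq⟩
  have hX : (X j : S) ≠ 0 := X_ne_zero j
  have h1 : diag c ≠ 0 := fun h => hX (by rw [hq, h, zero_mul])
  have h2 : q ≠ 0 := fun h => hX (by rw [hq, h, mul_zero])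
  have h3 := congrArg totalDegree hq
  rw [totalDegree_X, totalDegree_mul_of_isDomain h1 h2, (cn_hom c).totalDegree h1] at h3
  omega

private theorem cn_one_coeff : (1 : HH).coeff 0 = 1 := by
  simp

theorem not_cone {c l : Fin 4 → ℂ} {w1 w2 : ℝ →+ ℂ} {x : Fin 4 → HH} {κ : Fin 4}
    (h : NSurf c l w1 w2 x κ) (e : Fin 4) : c e ≠ 0 := by
  intro hce
  have hcj : ∀ j, j ≠ e → c j ≠ 0 := fun j hj => (h.c_ne j e hj).resolve_right (fun h0 => h0 hce)
  have hκ : (x κ).coeff 0 = 1 := by rw [h.one, cn_one_coeff]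
  obtain ⟨-, hA | ⟨hB0, r, hB⟩⟩ := center h
  · have hp : ∀ j, j ≠ e → (x j).coeff 0 = 0 := by
      intro j hj
      have h1 := (mul_eq_zero.1 (hA j)).resolve_left (hcj j hj)
      exact pow_eq_zero_iff (two_ne_zero) |>.1 h1
    have hκe : κ = e := by
      by_contra hne
      have := hp κ hne
      rw [hκ] at this
      exact one_ne_zero this
    subst hκe
    have hx0 : ∀ j, x j ≠ 0 := by
      intro j hj
      have h1 := (h.surf.van 1 (X j) (isHomogeneous_X ℂ j)).1 (by rw [aeval_X]; exact hj)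
      exact cn_not_dvd c j h1
    have hpos : ∀ j, j ≠ κ → 0 < (x j).order := by
      intro j hj
      refine lt_of_le_of_ne ((h.ge j).le_order (hx0 j)) fun h0 => ?_
      have h1 : (x j).coeff (x j).order ≠ 0 := fun h2 =>
        hx0 j (HahnSeries.coeff_order_eq_zero.1 h2)
      rw [← h0] at h1
      exact h1 (hp j hj)
    -- the value of the linear form
    have hl0 := coeff_form x h.ge (lf l)
    have hev : eval (fun i => (x i).coeff 0) (lf l) = l κ := by
      rw [eval_lf, dotProduct, Finset.sum_eq_single κ]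
      · rw [hκ, mul_one]
      · intro j _ hj
        rw [hp j hj, mul_zero]
      · simp
    rw [hev] at hl0
    have hH0 : aeval x (lf l) ≠ 0 := by
      intro h0
      have := hl0.2
      rw [h0] at this
      exact h.l_ne κ (by simpa using this.symm)
    have hHo : (aeval x (lf l)).order = 0 := by
      refine le_antisymm (HahnSeries.order_le_of_coeff_ne_zero ?_) (hl0.1.le_order hH0)
      rw [hl0.2]
      exact h.l_ne κ
    obtain ⟨k, hk, hstar⟩ := h.surf.star
    have key : ∀ i j m : Fin 4, i ≠ j → i ≠ m → j ≠ m → i ≠ κ → j ≠ κ → m ≠ κ →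
        br (DD w1) (DD w2) (x i) (x j) ≠ 0 ∧
          (br (DD w1) (DD w2) (x i) (x j)).order = 2 * (x m).order := by
      intro i j m hij him hjm hi hj hm
      have hinj : Function.Injective ![i, j, κ, m] := by
        intro a b hab
        fin_cases a <;> fin_cases b <;> simp_all
      set σ : Equiv.Perm (Fin 4) := Equiv.ofBijective ![i, j, κ, m]
        (Finite.injective_iff_bijective.1 hinj) with hσ
      have s0 : σ 0 = i := rfl
      have s1 : σ 1 = j := rfl
      have s2 : σ 2 = κ := rfl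
      have s3 : σ 3 = m := rfl
      have h1 := hstar ![X i, X j, X κ] ![1, 1, 1] (by
        intro a
        fin_cases a
        · exact isHomogeneous_X ℂ i
        · exact isHomogeneous_X ℂ j
        · exact isHomogeneous_X ℂ κ)
      have h2 := cn_jac x c l σ
      rw [s0, s1, s2, s3] at h2
      have h3 : (![(![X i, X j, X κ] : Fin 3 → S) 0, (![X i, X j, X κ] : Fin 3 → S) 1,
          (![X i, X j, X κ] : Fin 3 → S) 2, diag c] : Fin 4 → S) = ![X i, X j, X κ, diag c] := rfl
      rw [h3, h2, Matrix.det_fin_three] at h1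
      have h4 : br (DD w1) (DD w2) (x i) (x j) =
          algebraMap ℂ HH k * (aeval x (lf l) * ((((Equiv.Perm.sign σ : ℤˣ) : ℤ) : HH) *
            (3 * algebraMap ℂ HH (c m) * x m ^ 2))) := by
        rw [← h1]
        simp [br, h.one]
      have hs : ((((Equiv.Perm.sign σ : ℤˣ) : ℤ) : HH)) =
          algebraMap ℂ HH (((Equiv.Perm.sign σ : ℤˣ) : ℤ) : ℂ) := by simp
      have h5 : br (DD w1) (DD w2) (x i) (x j) =
          algebraMap ℂ HH (k * (((Equiv.Perm.sign σ : ℤˣ) : ℤ) : ℂ) * 3 * c m) *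
            (aeval x (lf l) * x m ^ 2) := by
        rw [h4, hs, map_mul, map_mul, map_mul, map_ofNat]
        ring
      have hq : (k * (((Equiv.Perm.sign σ : ℤˣ) : ℤ) : ℂ) * 3 * c m) ≠ 0 := by
        refine mul_ne_zero (mul_ne_zero (mul_ne_zero hk ?_) (by norm_num)) (hcj m hm)
        exact_mod_cast (Equiv.Perm.sign σ).ne_zero
      have hq' : algebraMap ℂ HH (k * (((Equiv.Perm.sign σ : ℤˣ) : ℤ) : ℂ) * 3 * c m) ≠ 0 := by
        rw [Ne, map_eq_zero]
        exact hq
      have hm2 : x m ^ 2 ≠ 0 := pow_ne_zero _ (hx0 m)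
      refine ⟨by rw [h5]; exact mul_ne_zero hq' (mul_ne_zero hH0 hm2), ?_⟩
      rw [h5, HahnSeries.order_mul hq' (mul_ne_zero hH0 hm2), HahnSeries.order_mul hH0 hm2,
        order_algebraMap, hHo, pow_two, HahnSeries.order_mul (hx0 m) (hx0 m)]
      ring
    have hle : ∀ i j m : Fin 4, i ≠ j → i ≠ m → j ≠ m → i ≠ κ → j ≠ κ → m ≠ κ →
        (x i).order + (x j).order ≤ 2 * (x m).order := by
      intro i j m hij him hjm hi hj hm
      obtain ⟨k0, k1⟩ := key i j m hij him hjm hi hj hm
      rw [← k1]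
      exact ((ge_order (x i)).br w1 w2 (ge_order (x j))).le_order k0
    obtain ⟨i, j, m, hij, him, hjm, hi, hj, hm⟩ : ∃ i j m : Fin 4, i ≠ j ∧ i ≠ m ∧ j ≠ m ∧
        i ≠ κ ∧ j ≠ κ ∧ m ≠ κ := by
      clear * -
      revert κ
      decide
    have l1 := hle i j m hij him hjm hi hj hm
    have l2 := hle j m i hjm hij.symm him.symm hj hm hi
    have l3 := hle m i j him.symm hjm.symm hij hm hi hj
    have e1 : (x i).order = (x m).order := by linarith
    have e2 : (x j).order = (x m).order := by linarith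
    obtain ⟨k0, k1⟩ := key i j m hij him hjm hi hj hm
    have h6 := lt_order_br (hx0 i) (hx0 j) w1 w2 (by rw [e1, e2]; ring) k0
    rw [k1, e1, e2] at h6
    linarith
  · have hr : r = 0 := by
      have h1 := hB e
      rw [hce, mul_zero, zero_mul] at h1
      exact (mul_eq_zero.1 h1.symm).resolve_right (h.l_ne e)
    have hp : ∀ j, j ≠ e → (x j).coeff 0 = 0 := by
      intro j hj
      have h1 := hB j
      rw [hr, zero_mul] at h1
      have h2 := (mul_eq_zero.1 h1).resolve_left (mul_ne_zero (by norm_num) (hcj j hj))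
      exact pow_eq_zero_iff (two_ne_zero) |>.1 h2
    have hκe : κ = e := by
      by_contra hne
      have := hp κ hne
      rw [hκ] at this
      exact one_ne_zero this
    subst hκe
    rw [eval_lf, dotProduct, Finset.sum_eq_single κ] at hB0
    · rw [hκ, mul_one] at hB0
      exact h.l_ne κ hB0
    · intro j _ hj
      rw [hp j hj, mul_zero]
    · simp

theorem center_smooth {c l : Fin 4 → ℂ} {w1 w2 : ℝ →+ ℂ} {x : Fin 4 → HH} {κ : Fin 4}
    (h : NSurf c l w1 w2 x κ) :
    eval (fun i => (x i).coeff 0) (diag c) = 0 ∧ (∀ j, (x j).coeff 0 ≠ 0) ∧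
      ∃ r : ℂ, r ≠ 0 ∧ ∀ j, 3 * c j * (x j).coeff 0 ^ 2 = r * l j := by
  have hκ : (x κ).coeff 0 = 1 := by rw [h.one, cn_one_coeff]
  have hc := not_cone h
  obtain ⟨h0, hA | ⟨-, r, hB⟩⟩ := center h
  · exfalso
    have h1 := hA κ
    rw [hκ, one_pow, mul_one] at h1
    exact hc κ h1
  · have hr : r ≠ 0 := by
      rintro rfl
      have h1 := hB κ
      rw [hκ, one_pow, mul_one, zero_mul] at h1
      exact mul_ne_zero (by norm_num) (hc κ) h1
    refine ⟨h0, fun j hj => ?_, r, hr, hB⟩
    have h1 := hB j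
    rw [hj, zero_pow two_ne_zero, mul_zero] at h1
    exact mul_ne_zero hr (h.l_ne j) h1.symm

end Pool.Agent.CLN
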