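import Pool.Agent.CLU.Van
import Pool.Agent.CLU.LinQ

/-!
# CLN / Defs: definitions for the negative side (diagonal pencils are not of cluster type)

The complete paper proof is in the team store, file clu_negative_h20.md.
-/

set_option autoImplicit false

namespace Pool.Agent.CLN

open MvPolynomial Pool.Agent.CLU

/-- The local ring of the torus divisor `q = 0`. -/
def torRing (t : Fin 3 → K3) (q : MvPolynomial (Fin 3) ℂ) : Set K3 :=
  {a | ∃ n d : MvPolynomial (Fin 3) ℂ, ¬ q ∣ d ∧ a = aeval t n / aeval t d}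

/-- The data of a cluster structure on the blow-up of `ℙ^3` in `V(P)`. -/
structure ClusterData (P : Ideal S) (t : Fin 3 → K3) (θ : Fin 3 → Derivation ℂ K3 K3) : Prop where
  t_ne : ∀ i, t i ≠ 0
  eig : ∀ i j, θ j (t i) = if i = j then t i else 0
  gen : IntermediateField.adjoin ℂ (Set.range t) = ⊤
  surf : ∀ (d : ℕ) (G : S), Irreducible G → G.IsHomogeneous d → ∀ a : Fin 3 → K3,
    (∀ i, a i ∈ surfRing G) → (Matrix.of fun i j => θ j (a i)).det ∈ surfRing G
  blow : ∀ a : Fin 3 → K3, (∀ i, a i ∈ blowRing P) →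
    (Matrix.of fun i j => θ j (a i)).det ∈ blowRing P
  tor : ∀ q : MvPolynomial (Fin 3) ℂ, Irreducible q → (∀ i, ¬ q ∣ X i) →
    (∃ (d : ℕ) (G : S), Irreducible G ∧ G.IsHomogeneous d ∧ torRing t q = surfRing G) ∨
      torRing t q = blowRing P

theorem exists_clusterData {P : Ideal S} (h : IsClusterType (primeDivisors {P})) :
    ∃ t θ, ClusterData P t θ := by
  obtain ⟨t, θ, h1, h2, h3, h4, h5⟩ := h
  refine ⟨t, θ, h1, h2, h3, ?_, ?_, ?_⟩
  · intro d G hG hd a ha
    exact h4 _ (Or.inl ⟨d, G, hG, hd, rfl⟩) a ha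
  · intro a ha
    exact h4 _ (Or.inr ⟨P, rfl, rfl⟩) a ha
  · intro q hq hqX
    rcases h5 q hq hqX with ⟨d, G, hG, hd, hO⟩ | ⟨P', hP', hO⟩
    · exact Or.inl ⟨d, G, hG, hd, hO⟩
    · rw [Set.mem_singleton_iff] at hP'
      subst hP'
      exact Or.inr hO

/-- The Jacobian determinant of four polynomials. -/
noncomputable def Jac4 (A : Fin 4 → S) : S := (Matrix.of fun i j => pderiv j (A i)).det

/-- The rows `(A_i, D_0 A_i, D_1 A_i, D_2 A_i)`. -/
noncomputable def thMat {R : Type*} [CommRing R] [Algebra ℂ R] (Θ : Fin 3 → Derivation ℂ R R)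
    (e : Fin 4 → R) (A : Fin 4 → R) : Matrix (Fin 4) (Fin 4) R :=
  Matrix.of fun i => Fin.cons (e i) (fun j => Θ j (A i))

/-- `b` is the quartic form of the boundary of the cluster structure: for an extension `Θ_j` of
`θ_j` to `L`, `det (x_i, Θ_0 x_i, Θ_1 x_i, Θ_2 x_i) = b`. -/
def IsB (θ : Fin 3 → Derivation ℂ K3 K3) (b : S) : Prop :=
  b.IsHomogeneous 4 ∧ b ≠ 0 ∧ ∃ Θ : Fin 3 → Derivation ℂ L L,
    (∀ j, Θ j (algebraMap S L (X 3)) = 0) ∧ (∀ j (a : K3), Θ j (a : L) = ((θ j a : K3) : L)) ∧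
    (thMat Θ (fun i => algebraMap S L (X i)) (fun i => algebraMap S L (X i))).det =
      algebraMap S L b

/-- The order of `a` along `G = 0`. -/
noncomputable def ordL (G : S) (a : L) : ℤ :=
  (multiplicity G (IsFractionRing.num S a) : ℤ) -
    (multiplicity G ((IsFractionRing.den S a : nonZeroDivisors S) : S) : ℤ)

/-- The weight of a monomial. -/
def wt (w : Fin 3 → ℤ) (m : Fin 3 →₀ ℕ) : ℤ := ∑ i, w i * (m i : ℤ)

open Classical in
/-- The part of least weight. -/
noncomputable def initForm (w : Fin 3 → ℤ) (p : MvPolynomial (Fin 3) ℂ) :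
    MvPolynomial (Fin 3) ℂ :=
  ∑ m ∈ p.support.filter (fun m => ∀ m' ∈ p.support, wt w m ≤ wt w m'), monomial m (coeff m p)

/-- The residues along the surface `G = 0` with values in the field `M`; `b'` is the cofactor of `G`
in the quartic form `b`.  `x` is the generic point of the surface. -/
structure Surf {M : Type} [Field M] [Algebra ℂ M] (G b' : S) (D1 D2 : Derivation ℂ M M)
    (x : Fin 4 → M) : Prop where
  van : ∀ (d : ℕ) (A : S), A.IsHomogeneous d → (aeval x A = 0 ↔ G ∣ A)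
  star : ∃ c : ℂ, c ≠ 0 ∧ ∀ (A : Fin 3 → S) (d : Fin 3 → ℕ), (∀ i, (A i).IsHomogeneous (d i)) →
    (Matrix.of fun i : Fin 3 =>
        ![(d i : M) * aeval x (A i), D1 (aeval x (A i)), D2 (aeval x (A i))]).det =
      algebraMap ℂ M c * aeval x (b' * Jac4 ![A 0, A 1, A 2, G])

/-- The leading coefficients along `G = 0` with values in the field `M`: `t_i` has order `w_i` and
leading coefficient `m_i`. -/
structure Lead {M : Type} [Field M] [Algebra ℂ M] (t : Fin 3 → K3) (G : S) (w : Fin 3 → ℤ)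
    (m : Fin 3 → M) (lead : K3 → M) (x : Fin 4 → M) : Prop where
  mul : ∀ a b, lead (a * b) = lead a * lead b
  zero : ∀ a, lead a = 0 ↔ a = 0
  poly : ∀ p : MvPolynomial (Fin 3) ℂ, lead (aeval t p) = aeval m (initForm w p)
  form : ∀ (d : ℕ) (A B : S), A.IsHomogeneous d → B.IsHomogeneous d → ¬ G ∣ A → ¬ G ∣ B →
    ∀ a : K3, (a : L) = algebraMap S L A / algebraMap S L B →
      lead a * aeval x B = aeval x A

/-- The cubic `∑ a_i x_i^3`. -/
noncomputable def diag (a : Fin 4 → ℂ) : S := ∑ i, C (a i) * X i ^ 3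

end Pool.Agent.CLN
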