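import Pool.Agent.CLN.Defs
import Pool.Agent.CLU.Frac

/-!
# CLN / ExtD: derivations of `K3` extended to `L`, the `4 × 4` determinant formula

`exists_extD`: the derivation `S → L` with `X_k ↦ x_3 θ(x_k / x_3)` (`MvPolynomial.mkDerivation`)
extends to `L` (`CLU.exists_ext_frac`).  On `K3` it is `θ`: both are derivations `K3 → L`
(restriction along the inclusion) with the same values on `x_k / x_3` (quotient rule), and these
generate `K3` (`CLU.cx_frac` for suitable `l`, or directly: `A/B = A(x/x_3)/B(x/x_3)`).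

`det_forms`: for forms, `d_i A_i = ∑_k x_k ∂_k A_i` (Euler: `MvPolynomial.IsHomogeneous.sum_X_mul_pderiv`
or its present name) and `Θ_j A_i = ∑_k ∂_k A_i Θ_j x_k` (`CLU.chain_rule`), so the matrix of `A` is
the product of `(∂_k A_i)` and the matrix of `X`; take determinants.

`det_ratio`: in `L` let `z ≠ 0` be (the image of) a form of degree one and `a_i ∈ K3`.  The matrix
with rows `(z, Θ_j z)` and `(0, Θ_j a_i)` is `(∂_k z; ∂_k a_i)` times the matrix of `X` (for `a ∈ K3`
`∑_k x_k ∂_k a = 0`); its determinant is `z det(θ_j a_i)`.  `dL k` are the extensions of the partial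
derivatives to `L` (`CLU.exists_partial`).
-/

set_option autoImplicit false

namespace Pool.Agent.CLN

open MvPolynomial Pool.Agent.CLU

private theorem chainS (Δ : Derivation ℂ L L) (F : S) :
    Δ (algebraMap S L F) = ∑ j, algebraMap S L (pderiv j F) * Δ (algebraMap S L (X j)) := by
  induction F using MvPolynomial.induction_on with
  | C a =>
    have h1 : algebraMap S L (C a) = algebraMap ℂ L a := by
      rw [IsScalarTower.algebraMap_apply ℂ S L]
      rfl
    rw [h1, Derivation.map_algebraMap]
    simp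
  | add p q hp hq =>
    rw [map_add, map_add, hp, hq, ← Finset.sum_add_distrib]
    refine Finset.sum_congr rfl fun j _ => ?_
    rw [map_add, map_add]
    ring
  | mul_X p n hp =>
    rw [map_mul, Derivation.leibniz, hp, smul_eq_mul, smul_eq_mul]
    have h2 : ∀ j, algebraMap S L (pderiv j (p * X n)) * Δ (algebraMap S L (X j)) =
        algebraMap S L (X n) * (algebraMap S L (pderiv j p) * Δ (algebraMap S L (X j))) +
          (if j = n then algebraMap S L p * Δ (algebraMap S L (X j)) else 0) := by
      intro j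
      rw [Derivation.leibniz, pderiv_X, smul_eq_mul, smul_eq_mul, map_add, map_mul, map_mul]
      by_cases h : j = n
      · subst h
        simp
        ring
      · rw [if_neg h, Pi.single_eq_of_ne (fun h' => h h'.symm)]
        simp
        ring
    rw [Finset.sum_congr rfl fun j _ => h2 j, Finset.sum_add_distrib, ← Finset.mul_sum,
      Finset.sum_ite_eq' Finset.univ n, if_pos (Finset.mem_univ n)]
    ring

private theorem frac (a : L) : ∃ A B : S, algebraMap S L B ≠ 0 ∧
    a = algebraMap S L A / algebraMap S L B := by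
  obtain ⟨A, B, hB, h⟩ := IsFractionRing.div_surjective (A := S) a
  exact ⟨A, B, IsFractionRing.to_map_ne_zero_of_mem_nonZeroDivisors hB, h.symm⟩

private theorem div_rule' (D : Derivation ℂ L L) (a b : L) (hb : b ≠ 0) :
    D (a / b) = (b * D a - a * D b) / b ^ 2 := by
  rw [Derivation.leibniz_div]
  simp only [smul_eq_mul]
  field_simp

private theorem der_eq (D1 D2 : Derivation ℂ L L)
    (h : ∀ k, D1 (algebraMap S L (X k)) = D2 (algebraMap S L (X k))) (a : L) : D1 a = D2 a := by
  obtain ⟨A, B, hB, rfl⟩ := frac a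
  rw [div_rule' _ _ _ hB, div_rule' _ _ _ hB, chainS D1, chainS D1, chainS D2, chainS D2]
  simp only [h]

/-- The combination `∑ c_k dL_k`. -/
private noncomputable def comb (dL : Fin 4 → Derivation ℂ L L) (c : Fin 4 → L) :
    Derivation ℂ L L := c 0 • dL 0 + c 1 • dL 1 + c 2 • dL 2 + c 3 • dL 3

private theorem comb_apply (dL : Fin 4 → Derivation ℂ L L) (c : Fin 4 → L) (a : L) :
    comb dL c a = ∑ k, dL k a * c k := by
  unfold comb
  simp only [Derivation.add_apply, Derivation.smul_apply, Fin.sum_univ_four, smul_eq_mul]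
  ring

private theorem comb_X (dL : Fin 4 → Derivation ℂ L L)
    (hdL : ∀ (j : Fin 4) (F : S), dL j (algebraMap S L F) = algebraMap S L (pderiv j F))
    (c : Fin 4 → L) (k : Fin 4) : comb dL c (algebraMap S L (X k)) = c k := by
  rw [comb_apply, Finset.sum_eq_single k]
  · rw [hdL, pderiv_X, Pi.single_eq_same, map_one, one_mul]
  · intro j _ hj
    rw [hdL, pderiv_X, Pi.single_eq_of_ne (Ne.symm hj), map_zero, zero_mul]
  · intro h
    exact absurd (Finset.mem_univ k) h

private theorem der_comb (dL : Fin 4 → Derivation ℂ L L)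
    (hdL : ∀ (j : Fin 4) (F : S), dL j (algebraMap S L F) = algebraMap S L (pderiv j F))
    (Δ : Derivation ℂ L L) (a : L) : Δ a = ∑ k, dL k a * Δ (algebraMap S L (X k)) := by
  rw [← comb_apply dL (fun k => Δ (algebraMap S L (X k))) a]
  exact der_eq _ _ (fun k => (comb_X dL hdL (fun k => Δ (algebraMap S L (X k))) k).symm) a

private theorem eulerS (A : S) {d : ℕ} (hA : A.IsHomogeneous d) :
    ∑ k, algebraMap S L (pderiv k A) * algebraMap S L (X k) = (d : L) * algebraMap S L A := by
  have h1 := congrArg (algebraMap S L) hA.sum_X_mul_pderiv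
  rw [map_sum, nsmul_eq_mul, map_mul, map_natCast] at h1
  rw [← h1]
  refine Finset.sum_congr rfl fun k _ => ?_
  rw [map_mul, mul_comm]

private theorem eulerK (dL : Fin 4 → Derivation ℂ L L)
    (hdL : ∀ (j : Fin 4) (F : S), dL j (algebraMap S L F) = algebraMap S L (pderiv j F))
    (a : K3) : ∑ k, dL k (a : L) * algebraMap S L (X k) = 0 := by
  obtain ⟨d, A, B, hA, hB, hB0, h⟩ := a.2
  have hb : algebraMap S L B ≠ 0 := by simpa using hB0
  have e : ∀ F : S, ∀ {n : ℕ}, F.IsHomogeneous n →
      comb dL (fun k => algebraMap S L (X k)) (algebraMap S L F) = (n : L) * algebraMap S L F := by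
    intro F n hF
    rw [comb_apply, ← eulerS F hF]
    exact Finset.sum_congr rfl fun k _ => by rw [hdL]
  rw [← comb_apply dL (fun k => algebraMap S L (X k)) (a : L)]
  have h' : (a : L) = algebraMap S L A / algebraMap S L B := h
  rw [h', div_rule' _ _ _ hb, e A hA, e B hB]
  ring

private theorem scale (A : S) {d : ℕ} (hA : A.IsHomogeneous d) {R : Type*} [CommRing R]
    [Algebra ℂ R] (s : R) (g : Fin 4 → R) :
    aeval (fun k => s * g k) A = s ^ d * aeval g A := by
  rw [aeval_def, aeval_def, eval₂_eq', eval₂_eq', Finset.mul_sum]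
  refine Finset.sum_congr rfl fun m hm => ?_
  have h1 : ∑ k, m k = d := by
    have h2 := hA (mem_support_iff.mp hm)
    rw [Finsupp.weight_apply, Finsupp.sum_fintype _ _ (fun _ => by simp)] at h2
    simpa using h2
  have h2 : ∏ k, (s * g k) ^ m k = s ^ d * ∏ k, g k ^ m k := by
    rw [← h1, ← Finset.prod_pow_eq_pow_sum, ← Finset.prod_mul_distrib]
    exact Finset.prod_congr rfl fun k _ => mul_pow _ _ _
  rw [h2]
  ring

theorem exists_extD (θ : Derivation ℂ K3 K3) : ∃ Θ : Derivation ℂ L L,
    Θ (algebraMap S L (X 3)) = 0 ∧ ∀ a : K3, Θ (a : L) = ((θ a : K3) : L) := by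
  have hx3 : algebraMap S L (X 3) ≠ 0 := by
    simp
  have hmem : ∀ k : Fin 4, algebraMap S L (X k) / algebraMap S L (X 3) ∈ K3 := fun k =>
    ⟨1, X k, X 3, isHomogeneous_X _ _, isHomogeneous_X _ _, X_ne_zero 3, rfl⟩
  obtain ⟨y, hy⟩ : ∃ y : Fin 4 → K3, ∀ k, (y k : L) = algebraMap S L (X k) /
      algebraMap S L (X 3) := ⟨fun k => ⟨_, hmem k⟩, fun k => rfl⟩
  obtain ⟨Θ, hΘ⟩ := exists_ext_frac (k := ℂ) (A := S) (K := L)
    (MvPolynomial.mkDerivation ℂ (fun k : Fin 4 => algebraMap S L (X 3) * ((θ (y k) : K3) : L)))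
  have hΘX : ∀ k, Θ (algebraMap S L (X k)) = algebraMap S L (X 3) * ((θ (y k) : K3) : L) := by
    intro k
    rw [hΘ, MvPolynomial.mkDerivation_X]
  have hy3 : y 3 = 1 := by
    apply Subtype.ext
    rw [hy, div_self hx3]
    rfl
  have h3 : Θ (algebraMap S L (X 3)) = 0 := by
    rw [hΘX, hy3, Derivation.map_one_eq_zero]
    simp
  refine ⟨Θ, h3, ?_⟩
  have hbase : ∀ k, Θ ((y k : K3) : L) = ((θ (y k) : K3) : L) := by
    intro k
    rw [hy k, div_rule' _ _ _ hx3, h3, mul_zero, sub_zero, hΘX]
    field_simp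
  have hpoly : ∀ P : S, Θ ((aeval y P : K3) : L) = ((θ (aeval y P) : K3) : L) := by
    intro P
    induction P using MvPolynomial.induction_on with
    | C c =>
      rw [aeval_C, Derivation.map_algebraMap]
      have : ((algebraMap ℂ K3 c : K3) : L) = algebraMap ℂ L c := rfl
      rw [this, Derivation.map_algebraMap]
      rfl
    | add p q hp hq =>
      rw [map_add, map_add]
      have e1 : ((aeval y p + aeval y q : K3) : L) = (aeval y p : K3) + (aeval y q : K3) := rfl
      rw [e1, map_add, hp, hq]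
      rfl
    | mul_X p n hp =>
      rw [map_mul, aeval_X, Derivation.leibniz]
      have e1 : ((aeval y p * y n : K3) : L) = (aeval y p : K3) * (y n : K3) := rfl
      rw [e1, Derivation.leibniz, hp, hbase]
      rfl
  have hhom : ∀ (A : S) (d : ℕ), A.IsHomogeneous d →
      algebraMap S L A = algebraMap S L (X 3) ^ d * ((aeval y A : K3) : L) := by
    intro A d hA
    have e1 : ((aeval y A : K3) : L) = aeval (fun k => ((y k : K3) : L)) A := by
      have := (MvPolynomial.aeval_algebraMap_apply (A := K3) L y A)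
      exact this.symm
    rw [e1, ← scale A hA]
    have e2 : (fun k => algebraMap S L (X 3) * ((y k : K3) : L)) =
        fun k => algebraMap S L (X k) := by
      funext k
      rw [hy]
      field_simp
    rw [e2]
    have e3 := MvPolynomial.aeval_algebraMap_apply (A := S) L (X : Fin 4 → S) A
    rw [aeval_X_left, AlgHom.id_apply] at e3
    exact e3.symm
  intro a
  obtain ⟨d, A, B, hA, hB, hB0, h⟩ := a.2
  have hb : algebraMap S L B ≠ 0 := by simpa using hB0
  have hBy : ((aeval y B : K3) : L) ≠ 0 := by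
    intro h0
    rw [hhom B d hB, h0, mul_zero] at hb
    exact hb rfl
  have hBy' : (aeval y B : K3) ≠ 0 := by
    intro h0
    rw [h0] at hBy
    exact hBy rfl
  have ha : a = aeval y A / aeval y B := by
    apply Subtype.ext
    have h' : (a : L) = algebraMap S L A / algebraMap S L B := h
    have e1 : ((aeval y A / aeval y B : K3) : L) = (aeval y A : K3) / (aeval y B : K3) := rfl
    rw [e1, h', hhom A d hA, hhom B d hB]
    have := pow_ne_zero d hx3
    field_simp
  have e1 : (a : L) = (aeval y A : K3) / (aeval y B : K3) := by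
    rw [ha]
    rfl
  have e2 : θ a = (aeval y B * θ (aeval y A) - aeval y A * θ (aeval y B)) / (aeval y B) ^ 2 := by
    rw [ha, Derivation.leibniz_div]
    simp only [smul_eq_mul]
    field_simp
  rw [e1, div_rule' _ _ _ hBy, hpoly, hpoly, e2]
  rfl

theorem det_forms (Θ : Fin 3 → Derivation ℂ L L) (A : Fin 4 → S) (d : Fin 4 → ℕ)
    (hA : ∀ i, (A i).IsHomogeneous (d i)) :
    (thMat Θ (fun i => (d i : L) * algebraMap S L (A i)) (fun i => algebraMap S L (A i))).det =
      algebraMap S L (Jac4 A) *
        (thMat Θ (fun i => algebraMap S L (X i)) (fun i => algebraMap S L (X i))).det := by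
  have h1 : thMat Θ (fun i => (d i : L) * algebraMap S L (A i)) (fun i => algebraMap S L (A i)) =
      ((Matrix.of fun i j => pderiv j (A i)).map (algebraMap S L)) *
        thMat Θ (fun i => algebraMap S L (X i)) (fun i => algebraMap S L (X i)) := by
    ext i j
    rw [Matrix.mul_apply]
    refine Fin.cases ?_ (fun j => ?_) j
    · simp only [thMat, Matrix.of_apply, Matrix.map_apply, Fin.cons_zero]
      exact (eulerS (A i) (hA i)).symm
    · simp only [thMat, Matrix.of_apply, Matrix.map_apply, Fin.cons_succ]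
      exact chainS (Θ j) (A i)
  rw [h1, Matrix.det_mul]
  congr 1
  unfold Jac4
  rw [RingHom.map_det]
  rfl

theorem det_ratio (θ : Fin 3 → Derivation ℂ K3 K3) (Θ : Fin 3 → Derivation ℂ L L)
    (hΘ : ∀ j (a : K3), Θ j (a : L) = ((θ j a : K3) : L))
    (dL : Fin 4 → Derivation ℂ L L)
    (hdL : ∀ (j : Fin 4) (F : S), dL j (algebraMap S L F) = algebraMap S L (pderiv j F))
    (z : S) (hz : z.IsHomogeneous 1) (a : Fin 3 → K3) :
    algebraMap S L z * (((Matrix.of fun i j => θ j (a i)).det : K3) : L) =
      (Matrix.of fun i j : Fin 4 => dL j ((Fin.cons (algebraMap S L z) (fun i => (a i : L)) :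
        Fin 4 → L) i)).det *
        (thMat Θ (fun i => algebraMap S L (X i)) (fun i => algebraMap S L (X i))).det := by
  rw [← Matrix.det_mul]
  obtain ⟨r, hr⟩ : ∃ r : Fin 4 → L, r = Fin.cons (algebraMap S L z) (fun i => (a i : L)) :=
    ⟨_, rfl⟩
  have hr0 : r 0 = algebraMap S L z := by rw [hr]; rfl
  have hrs : ∀ i : Fin 3, r i.succ = (a i : L) := fun i => by rw [hr]; rfl
  obtain ⟨Nm, hNm⟩ : ∃ Nm, Nm = (Matrix.of fun i j : Fin 4 => dL j
      ((Fin.cons (algebraMap S L z) (fun i => (a i : L)) : Fin 4 → L) i)) *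
      thMat Θ (fun i => algebraMap S L (X i)) (fun i => algebraMap S L (X i)) := ⟨_, rfl⟩
  rw [← hNm]
  have n0 : ∀ i, Nm i 0 = ∑ k, dL k (r i) * algebraMap S L (X k) := by
    intro i
    rw [hNm, Matrix.mul_apply, hr]
    rfl
  have ns : ∀ i (j : Fin 3), Nm i j.succ = Θ j (r i) := by
    intro i j
    rw [der_comb dL hdL (Θ j) (r i), hNm, Matrix.mul_apply, hr]
    rfl
  have n00 : Nm 0 0 = algebraMap S L z := by
    rw [n0, hr0]
    have h1 := eulerS z hz
    rw [Nat.cast_one, one_mul] at h1
    exact Eq.trans (Finset.sum_congr rfl fun k _ => by rw [hdL]) h1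
  have ns0 : ∀ i : Fin 3, Nm i.succ 0 = 0 := by
    intro i
    rw [n0, hrs]
    exact eulerK dL hdL (a i)
  rw [Matrix.det_succ_column_zero Nm, Finset.sum_eq_single 0]
  · rw [n00]
    have h2 : Nm.submatrix (Fin.succAbove 0) Fin.succ =
        (Matrix.of fun i j => θ j (a i)).map (algebraMap K3 L) := by
      ext i j
      rw [Matrix.submatrix_apply, Fin.succAbove_zero, ns, hrs, hΘ]
      rfl
    rw [h2]
    have h3 : ((Matrix.of fun i j => θ j (a i)).map (algebraMap K3 L)).det =
        algebraMap K3 L (Matrix.of fun i j => θ j (a i)).det := by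
      rw [RingHom.map_det]
      rfl
    rw [h3]
    simp
  · intro i _ hi
    obtain ⟨k, rfl⟩ := Fin.exists_succ_eq.2 hi
    rw [ns0, mul_zero, zero_mul]
  · intro h
    exact absurd (Finset.mem_univ 0) h

end Pool.Agent.CLN
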