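import Mathlib

/-!
# CLN / Hahn: Hahn series with real exponents, weight derivations

`HH = HahnSeries ℝ ℂ` is a field.  For an additive map `w : ℝ → ℂ` the derivation `DD w` multiplies
the coefficient of `e^g` by `w g`.  `V(f) = f.order` for `f ≠ 0`.
-/

set_option autoImplicit false

namespace Pool.Agent.CLN

/-- Hahn series with real exponents and complex coefficients. -/
abbrev HH : Type := HahnSeries ℝ ℂ

/-- The structure of an algebra over `ℂ` (it fixes the choice among two propositionally equal
instances). -/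
noncomputable instance (priority := 2000) instAlgHH : Algebra ℂ HH := HahnSeries.instAlgebra

theorem algebraMap_HH (c : ℂ) : algebraMap ℂ HH c = HahnSeries.C c := rfl

/-- The monomial `e^a`. -/
noncomputable def ee (a : ℝ) : HH := HahnSeries.single a 1

/-- `V(f) ≥ v`. -/
def Ge (v : ℝ) (f : HH) : Prop := ∀ g : ℝ, f.coeff g ≠ 0 → v ≤ g

/-- The linear map underlying `DD`. -/
noncomputable def DDlin (w : ℝ →+ ℂ) : HH →ₗ[ℂ] HH where
  toFun f := ⟨fun g => w g * f.coeff g, f.isPWO_support.mono (by
    intro g hg
    rw [Function.mem_support] at hg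
    exact fun h0 => hg (by rw [h0, mul_zero]))⟩
  map_add' f f' := by
    ext g
    simp [mul_add]
  map_smul' c f := by
    ext g
    simp
    ring

theorem DDlin_coeff (w : ℝ →+ ℂ) (f : HH) (g : ℝ) : (DDlin w f).coeff g = w g * f.coeff g := rfl

theorem DDlin_leibniz (w : ℝ →+ ℂ) (f f' : HH) :
    DDlin w (f * f') = f • DDlin w f' + f' • DDlin w f := by
  ext g
  rw [DDlin_coeff, smul_eq_mul, smul_eq_mul, HahnSeries.coeff_add, mul_comm f' (DDlin w f)]
  have hs1 : (DDlin w f').support ⊆ f'.support := by
    intro g hg h0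
    exact hg (by rw [DDlin_coeff, h0, mul_zero])
  have hs2 : (DDlin w f).support ⊆ f.support := by
    intro g hg h0
    exact hg (by rw [DDlin_coeff, h0, mul_zero])
  rw [HahnSeries.coeff_mul, HahnSeries.coeff_mul_right' (x := f) f'.isPWO_support hs1,
    HahnSeries.coeff_mul_left' (y := f') f.isPWO_support hs2, Finset.mul_sum,
    ← Finset.sum_add_distrib]
  refine Finset.sum_congr rfl fun ij hij => ?_
  have h1 : ij.1 + ij.2 = g := (Finset.mem_antidiagonal.1 hij).2.2
  rw [DDlin_coeff, DDlin_coeff, ← h1, map_add]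
  ring

/-- The weight derivation of `HH`. -/
noncomputable def DD (w : ℝ →+ ℂ) : Derivation ℂ HH HH :=
  Derivation.mk' (DDlin w) (DDlin_leibniz w)

theorem DD_coeff (w : ℝ →+ ℂ) (f : HH) (g : ℝ) : (DD w f).coeff g = w g * f.coeff g := rfl

/-- The bracket of two elements of a field with respect to two derivations. -/
noncomputable def br {M : Type} [Field M] [Algebra ℂ M] (D1 D2 : Derivation ℂ M M) (a b : M) : M :=
  D1 a * D2 b - D2 a * D1 b

end Pool.Agent.CLN
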