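import Pool.Agent.CLN.Defs

/-!
# CLN / Indep: algebraic independence of the torus coordinates, embeddings

`injective_aeval`: let `p ≠ 0`, `aeval t p = 0`.  The monomials `t^m` are eigenvectors of the
`ℂ`-linear maps `θ_j` (`θ_j t^m = m_j t^m`) and `t^m ≠ 0`; for `c : Fin 3 → ℂ` with `∑ c_j m_j`
distinct for distinct `m` (e.g. `c_j` linearly independent over `ℚ`, or avoid this: induction on the
number of terms, `θ_j p(t) - m_j p(t)` has fewer terms) they are linearly independent
(`Module.End.eigenvectors_linearIndependent'`), so the coefficients of `p` are `0`.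

`exists_emb`: `K` is a fraction field of `MvPolynomial (Fin 3) ℂ` via `aeval t` (see the proof of
`CLU.exists_theta`), lift `aeval m` (`IsFractionRing.lift`, injective).
`emb_der`: the set of `a` with `D (ι a) = ι (θ a)` is closed under `+, *, ⁻¹` and contains the `t i`
and the constants; `IntermediateField.adjoin_induction`.
-/

set_option autoImplicit false

namespace Pool.Agent.CLN

open MvPolynomial Pool.Agent.CLU

private theorem chain {K : Type} [Field K] [Algebra ℂ K] (t : Fin 3 → K)
    (θ : Fin 3 → Derivation ℂ K K)
    (hθ : ∀ i j, θ j (t i) = if i = j then t i else 0) (j : Fin 3)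
    (F : MvPolynomial (Fin 3) ℂ) : θ j (aeval t F) = aeval t (X j * pderiv j F) := by
  induction F using MvPolynomial.induction_on with
  | C a => simp
  | add p q hp hq => rw [map_add, map_add, hp, hq, map_add, mul_add, map_add]
  | mul_X p n hp =>
    rw [map_mul, Derivation.leibniz, hp, Derivation.leibniz, aeval_X, hθ, pderiv_X, smul_eq_mul,
      smul_eq_mul, smul_eq_mul, smul_eq_mul]
    by_cases h : n = j
    · subst h
      rw [if_pos rfl, Pi.single_eq_same]
      simp only [map_mul, map_add, aeval_X, map_one]
      ring
    · rw [if_neg h, Pi.single_eq_of_ne h]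
      simp only [map_mul, map_add, aeval_X, map_zero]
      ring

private theorem coeff_euler (j : Fin 3) (F : MvPolynomial (Fin 3) ℂ) (m : Fin 3 →₀ ℕ) :
    coeff m (X j * pderiv j F) = (m j : ℂ) * coeff m F := by
  classical
  induction F using MvPolynomial.induction_on' with
  | monomial u a =>
    have h1 : (X j * pderiv j (monomial u a) : MvPolynomial (Fin 3) ℂ) =
        monomial u (a * (u j : ℂ)) := by
      rw [mul_comm, pderiv_monomial]
      by_cases hu : u j = 0
      · simp [hu]
      · have h2 : u - Finsupp.single j 1 + Finsupp.single j 1 = u := by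
          ext i
          by_cases hi : i = j
          · subst hi
            simp only [Finsupp.coe_add, Finsupp.coe_tsub, Pi.add_apply, Pi.sub_apply,
              Finsupp.single_eq_same]
            omega
          · simp [Finsupp.single_eq_of_ne hi]
        rw [X, monomial_mul, mul_one, h2]
    rw [h1, coeff_monomial, coeff_monomial]
    split_ifs with h
    · rw [h]
      ring
    · ring
  | add p q hp hq => rw [map_add, mul_add, coeff_add, hp, hq, coeff_add]; ring

theorem injective_aeval {K : Type} [Field K] [Algebra ℂ K] (t : Fin 3 → K)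
    (θ : Fin 3 → Derivation ℂ K K) (ht : ∀ i, t i ≠ 0)
    (hθ : ∀ i j, θ j (t i) = if i = j then t i else 0) :
    Function.Injective (aeval t : MvPolynomial (Fin 3) ℂ →ₐ[ℂ] K) := by
  classical
  rw [injective_iff_map_eq_zero]
  have key : ∀ (n : ℕ) (p : MvPolynomial (Fin 3) ℂ), p.support.card ≤ n →
      aeval t p = 0 → p = 0 := by
    intro n
    induction n with
    | zero =>
      intro p hp _
      exact support_eq_empty.mp (Finset.card_eq_zero.mp (Nat.le_zero.mp hp))
    | succ n ih =>
      intro p hp h0
      by_contra hne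
      obtain ⟨m, hm⟩ := Finset.nonempty_of_ne_empty (fun h => hne (support_eq_empty.mp h))
      by_cases hsing : ∃ m' ∈ p.support, m' ≠ m
      · obtain ⟨m', hm', hmm⟩ := hsing
        obtain ⟨j, hj⟩ : ∃ j, m' j ≠ m j := by
          by_contra hall
          push Not at hall
          exact hmm (Finsupp.ext hall)
        have hq : ∀ l, coeff l (X j * pderiv j p - C ((m j : ℂ)) * p) =
            ((l j : ℂ) - (m j : ℂ)) * coeff l p := by
          intro l
          rw [coeff_sub, coeff_euler, coeff_C_mul]
          ring
        have hsup : (X j * pderiv j p - C ((m j : ℂ)) * p).support ⊆ p.support.erase m := by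
          intro l hl
          rw [mem_support_iff, hq] at hl
          rw [Finset.mem_erase, mem_support_iff]
          refine ⟨?_, right_ne_zero_of_mul hl⟩
          rintro rfl
          exact hl (by rw [sub_self, zero_mul])
        have hcard : (X j * pderiv j p - C ((m j : ℂ)) * p).support.card ≤ n := by
          have h1 := Finset.card_le_card hsup
          rw [Finset.card_erase_of_mem hm] at h1
          omega
        have hz : aeval t (X j * pderiv j p - C ((m j : ℂ)) * p) = 0 := by
          rw [map_sub, ← chain t θ hθ, h0, map_zero, map_mul, h0, mul_zero, sub_zero]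
        have h2 := ih _ hcard hz
        have h3 := hq m'
        rw [h2, coeff_zero] at h3
        rcases mul_eq_zero.mp h3.symm with h4 | h4
        · rw [sub_eq_zero] at h4
          exact hj (by exact_mod_cast h4)
        · exact (mem_support_iff.mp hm') h4
      · push Not at hsing
        have h1 : p = monomial m (coeff m p) := by
          ext l
          rw [coeff_monomial]
          split_ifs with h
          · rw [h]
          · by_contra hl
            exact h (hsing l (mem_support_iff.mpr hl)).symm
        rw [h1, aeval_monomial] at h0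
        rcases mul_eq_zero.mp h0 with h2 | h2
        · rw [map_eq_zero] at h2
          exact (mem_support_iff.mp hm) h2
        · exact absurd h2 (Finset.prod_ne_zero_iff.mpr fun i _ => pow_ne_zero _ (ht i))
  intro p hp
  exact key _ p le_rfl hp

theorem exists_emb {K : Type} [Field K] [Algebra ℂ K] (t : Fin 3 → K)
    (hinj : Function.Injective (aeval t : MvPolynomial (Fin 3) ℂ →ₐ[ℂ] K))
    (hgen : IntermediateField.adjoin ℂ (Set.range t) = ⊤) {M : Type} [Field M] [Algebra ℂ M]
    (m : Fin 3 → M) (hm : Function.Injective (aeval m : MvPolynomial (Fin 3) ℂ →ₐ[ℂ] M)) :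
    ∃ ι : K →ₐ[ℂ] M, ∀ i, ι (t i) = m i := by
  classical
  let alg : Algebra (MvPolynomial (Fin 3) ℂ) K := (aeval t).toAlgebra
  have hmap : ∀ f : MvPolynomial (Fin 3) ℂ, algebraMap (MvPolynomial (Fin 3) ℂ) K f = aeval t f :=
    fun f => rfl
  have : IsScalarTower ℂ (MvPolynomial (Fin 3) ℂ) K := IsScalarTower.of_algebraMap_eq fun r => by
    rw [hmap]
    show algebraMap ℂ K r = aeval t (C r)
    rw [aeval_C]
  have hf : FaithfulSMul (MvPolynomial (Fin 3) ℂ) K :=
    (faithfulSMul_iff_algebraMap_injective _ _).mpr hinj
  have : IsFractionRing (MvPolynomial (Fin 3) ℂ) K := by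
    refine IsFractionRing.of_field _ _ fun z => ?_
    have hz : z ∈ IntermediateField.adjoin ℂ (Set.range t) := by rw [hgen]; trivial
    obtain ⟨r, s, hrs⟩ := (IntermediateField.mem_adjoin_range_iff ℂ t z).mp hz
    exact ⟨r, s, hrs⟩
  refine ⟨IsFractionRing.liftAlgHom (A := MvPolynomial (Fin 3) ℂ) (K := K) (g := aeval m) hm,
    fun i => ?_⟩
  have h1 : t i = algebraMap (MvPolynomial (Fin 3) ℂ) K (X i) := by rw [hmap, aeval_X]
  rw [h1]
  have h2 := IsFractionRing.lift_algebraMap (A := MvPolynomial (Fin 3) ℂ) (K := K)
    (g := (aeval m : MvPolynomial (Fin 3) ℂ →ₐ[ℂ] M).toRingHom) hm (X i)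
  refine Eq.trans h2 ?_
  show aeval m (X i) = m i
  rw [aeval_X]

theorem emb_der {K : Type} [Field K] [Algebra ℂ K] (t : Fin 3 → K)
    (hgen : IntermediateField.adjoin ℂ (Set.range t) = ⊤) {M : Type} [Field M] [Algebra ℂ M]
    (ι : K →ₐ[ℂ] M) (θ : Derivation ℂ K K) (D : Derivation ℂ M M)
    (h : ∀ i, D (ι (t i)) = ι (θ (t i))) (a : K) : D (ι a) = ι (θ a) := by
  have ha : a ∈ IntermediateField.adjoin ℂ (Set.range t) := by rw [hgen]; trivial
  induction ha using IntermediateField.adjoin_induction with
  | mem x hx =>
    obtain ⟨i, rfl⟩ := hx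
    exact h i
  | algebraMap x => simp
  | add x y _ _ hx hy => rw [map_add, map_add, map_add, map_add, hx, hy]
  | inv x _ hx =>
    rw [map_inv₀, Derivation.leibniz_inv, Derivation.leibniz_inv, hx]
    simp
  | mul x y _ _ hx hy =>
    rw [map_mul, Derivation.leibniz, Derivation.leibniz, hx, hy]
    simp

end Pool.Agent.CLN
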