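import Pool.Agent.CLN.Defs

/-!
# CLN / LS: Laurent series over a field `M`

`HahnSeries ℤ M` is a field (Laurent series in one variable).
`exists_coefDer`, `exists_eulerDer`: copy the construction of `DD` in `Hahn.lean`.
`coeff_aeval`: the monomial `T^μ` goes to `single (wt w μ) (∏ m_i^μ_i)`.
`order_aeval`: by `coeff_aeval` and the injectivity of `aeval m` the coefficient at the least weight
is `aeval m (initForm w p) ≠ 0` and all lower coefficients vanish.
-/

set_option autoImplicit false

namespace Pool.Agent.CLN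

open MvPolynomial Pool.Agent.CLU

variable {M : Type} [Field M] [Algebra ℂ M]

/-- The structure of an algebra over `ℂ` on the Laurent series. -/
noncomputable instance (priority := 2000) instAlgHM : Algebra ℂ (HahnSeries ℤ M) :=
  HahnSeries.instAlgebra

private theorem ls_coef_lin (D : Derivation ℂ M M) : ∃ φ : HahnSeries ℤ M →ₗ[ℂ] HahnSeries ℤ M,
    ∀ (F : HahnSeries ℤ M) (g : ℤ), (φ F).coeff g = D (F.coeff g) :=
  ⟨{ toFun := fun f => ⟨fun g => D (f.coeff g), f.isPWO_support.mono (by
        intro g hg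
        rw [Function.mem_support] at hg
        exact fun h0 => hg (by rw [h0, map_zero]))⟩
     map_add' := fun f f' => by
        ext g
        simp
     map_smul' := fun c f => by
        ext g
        simp }, fun _ _ => rfl⟩

theorem exists_coefDer (D : Derivation ℂ M M) :
    ∃ D' : Derivation ℂ (HahnSeries ℤ M) (HahnSeries ℤ M),
      ∀ (F : HahnSeries ℤ M) (g : ℤ), (D' F).coeff g = D (F.coeff g) := by
  obtain ⟨φ, hφ⟩ := ls_coef_lin D
  refine ⟨Derivation.mk' φ ?_, fun F g => hφ F g⟩
  intro f f'
  ext g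
  rw [hφ, smul_eq_mul, smul_eq_mul, HahnSeries.coeff_add, mul_comm f' (φ f)]
  have hs1 : (φ f').support ⊆ f'.support := by
    intro g hg h0
    exact hg (by rw [hφ, h0, map_zero])
  have hs2 : (φ f).support ⊆ f.support := by
    intro g hg h0
    exact hg (by rw [hφ, h0, map_zero])
  rw [HahnSeries.coeff_mul, HahnSeries.coeff_mul_right' (x := f) f'.isPWO_support hs1,
    HahnSeries.coeff_mul_left' (y := f') f.isPWO_support hs2, map_sum,
    ← Finset.sum_add_distrib]
  refine Finset.sum_congr rfl fun ij hij => ?_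
  rw [hφ, hφ, Derivation.leibniz, smul_eq_mul, smul_eq_mul]
  ring

private theorem ls_eul_lin : ∃ φ : HahnSeries ℤ M →ₗ[ℂ] HahnSeries ℤ M,
    ∀ (F : HahnSeries ℤ M) (g : ℤ), (φ F).coeff g = (g : M) * F.coeff g :=
  ⟨{ toFun := fun f => ⟨fun g => (g : M) * f.coeff g, f.isPWO_support.mono (by
        intro g hg
        rw [Function.mem_support] at hg
        exact fun h0 => hg (by rw [h0, mul_zero]))⟩
     map_add' := fun f f' => by
        ext g
        simp [mul_add]
     map_smul' := fun c f => by
        ext g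
        simp }, fun _ _ => rfl⟩

theorem exists_eulerDer : ∃ E : Derivation ℂ (HahnSeries ℤ M) (HahnSeries ℤ M),
    ∀ (F : HahnSeries ℤ M) (g : ℤ), (E F).coeff g = (g : M) * F.coeff g := by
  obtain ⟨φ, hφ⟩ := ls_eul_lin (M := M)
  refine ⟨Derivation.mk' φ ?_, fun F g => hφ F g⟩
  intro f f'
  ext g
  rw [hφ, smul_eq_mul, smul_eq_mul, HahnSeries.coeff_add, mul_comm f' (φ f)]
  have hs1 : (φ f').support ⊆ f'.support := by
    intro g hg h0
    exact hg (by rw [hφ, h0, mul_zero])
  have hs2 : (φ f).support ⊆ f.support := by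
    intro g hg h0
    exact hg (by rw [hφ, h0, mul_zero])
  rw [HahnSeries.coeff_mul, HahnSeries.coeff_mul_right' (x := f) f'.isPWO_support hs1,
    HahnSeries.coeff_mul_left' (y := f') f.isPWO_support hs2, Finset.mul_sum,
    ← Finset.sum_add_distrib]
  refine Finset.sum_congr rfl fun ij hij => ?_
  have h1 : ij.1 + ij.2 = g := (Finset.mem_antidiagonal.1 hij).2.2
  rw [hφ, hφ, ← h1, Int.cast_add]
  ring

private theorem ls_prod_single (w : Fin 3 → ℤ) (m : Fin 3 → M) (μ : Fin 3 →₀ ℕ) :
    (μ.prod fun i k => (HahnSeries.single (w i) (m i) : HahnSeries ℤ M) ^ k) =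
      HahnSeries.single (wt w μ) (μ.prod fun i k => m i ^ k) := by
  rw [Finsupp.prod_fintype _ _ (fun i => pow_zero _), Finsupp.prod_fintype _ _
    (fun i => pow_zero _)]
  simp only [Fin.prod_univ_three, HahnSeries.single_pow, HahnSeries.single_mul_single, wt,
    Fin.sum_univ_three]
  congr 1
  simp only [nsmul_eq_mul]
  ring_nf

private theorem ls_monomial (w : Fin 3 → ℤ) (m : Fin 3 → M) (μ : Fin 3 →₀ ℕ) (c : ℂ) :
    (aeval (fun i => HahnSeries.single (w i) (m i)) (monomial μ c) : HahnSeries ℤ M) =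
      HahnSeries.single (wt w μ) (aeval m (monomial μ c)) := by
  rw [aeval_monomial, aeval_monomial, ls_prod_single, HahnSeries.algebraMap_apply,
    HahnSeries.C_apply, HahnSeries.single_mul_single, zero_add]

open Classical in
theorem coeff_aeval (w : Fin 3 → ℤ) (m : Fin 3 → M) (p : MvPolynomial (Fin 3) ℂ) (k : ℤ) :
    (aeval (fun i => HahnSeries.single (w i) (m i)) p : HahnSeries ℤ M).coeff k =
      aeval m (∑ μ ∈ p.support.filter (fun μ => wt w μ = k), monomial μ (coeff μ p)) := by
  conv_lhs => rw [← support_sum_monomial_coeff p]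
  rw [map_sum, HahnSeries.coeff_sum, map_sum, Finset.sum_filter]
  refine Finset.sum_congr rfl fun μ hμ => ?_
  rw [ls_monomial, HahnSeries.coeff_single]
  by_cases h : wt w μ = k
  · rw [if_pos h.symm, if_pos h]
  · rw [if_neg (fun h' => h h'.symm), if_neg h]

theorem order_aeval (w : Fin 3 → ℤ) (m : Fin 3 → M)
    (hm : Function.Injective (aeval m : MvPolynomial (Fin 3) ℂ →ₐ[ℂ] M))
    (p : MvPolynomial (Fin 3) ℂ) (hp : p ≠ 0) :
    (aeval (fun i => HahnSeries.single (w i) (m i)) p : HahnSeries ℤ M) ≠ 0 ∧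
    (aeval (fun i => HahnSeries.single (w i) (m i)) p : HahnSeries ℤ M).leadingCoeff =
      aeval m (initForm w p) ∧
    ∀ μ ∈ p.support, (∀ μ' ∈ p.support, wt w μ ≤ wt w μ') →
      (aeval (fun i => HahnSeries.single (w i) (m i)) p : HahnSeries ℤ M).order = wt w μ := by
  classical
  have hne : p.support.Nonempty := by
    rw [Finset.nonempty_iff_ne_empty]
    exact fun h => hp (support_eq_empty.1 h)
  obtain ⟨μ0, hμ0, hmin⟩ := Finset.exists_min_image p.support (wt w) hne
  set F : HahnSeries ℤ M := aeval (fun i => HahnSeries.single (w i) (m i)) p with hF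
  have hlow : ∀ k, k < wt w μ0 → F.coeff k = 0 := by
    intro k hk
    rw [hF, coeff_aeval]
    have : p.support.filter (fun μ => wt w μ = k) = ∅ := by
      rw [Finset.filter_eq_empty_iff]
      intro μ hμ h1
      have := hmin μ hμ
      omega
    rw [this, Finset.sum_empty, map_zero]
  have hfil : p.support.filter (fun μ => wt w μ = wt w μ0) =
      p.support.filter (fun m => ∀ m' ∈ p.support, wt w m ≤ wt w m') := by
    refine Finset.filter_congr fun μ hμ => ?_
    constructor
    · intro h1 m' hm'
      rw [h1]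
      exact hmin m' hm'
    · intro h1
      exact le_antisymm (h1 μ0 hμ0) (hmin μ hμ)
  have htop : F.coeff (wt w μ0) = aeval m (initForm w p) := by
    rw [hF, coeff_aeval, hfil]
    rfl
  have hini : initForm w p ≠ 0 := by
    intro h0
    have h1 : coeff μ0 (initForm w p) = coeff μ0 p := by
      unfold initForm
      rw [coeff_sum]
      simp only [coeff_monomial]
      rw [Finset.sum_ite_eq' (p.support.filter _) μ0, if_pos]
      rw [Finset.mem_filter]
      exact ⟨hμ0, hmin⟩
    rw [h0, coeff_zero] at h1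
    exact (mem_support_iff.1 hμ0) h1.symm
  have htop0 : F.coeff (wt w μ0) ≠ 0 := by
    rw [htop]
    intro h0
    exact hini (hm (by rw [h0, map_zero]))
  have hF0 : F ≠ 0 := by
    intro h0
    rw [h0] at htop0
    exact htop0 rfl
  have hord : F.order = wt w μ0 := by
    refine le_antisymm (HahnSeries.order_le_of_coeff_ne_zero htop0) ?_
    by_contra hlt
    rw [not_le] at hlt
    exact hF0 (HahnSeries.coeff_order_eq_zero.1 (hlow _ hlt))
  refine ⟨hF0, ?_, ?_⟩
  · rw [HahnSeries.leadingCoeff_eq, hord, htop]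
  · intro μ hμ h1
    rw [hord]
    exact le_antisymm (hmin μ hμ) (h1 μ0 hμ0)

theorem injective_single (w : Fin 3 → ℤ) (m : Fin 3 → M)
    (hm : Function.Injective (aeval m : MvPolynomial (Fin 3) ℂ →ₐ[ℂ] M)) :
    Function.Injective (aeval (fun i => HahnSeries.single (w i) (m i)) :
      MvPolynomial (Fin 3) ℂ →ₐ[ℂ] HahnSeries ℤ M) := by
  rw [injective_iff_map_eq_zero]
  intro p hp
  by_contra h0
  exact (order_aeval w m hm p h0).1 hp

end Pool.Agent.CLN
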