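import Pool.Agent.CLN.LogTh
import Pool.Agent.CLN.Indep

/-!
# CLN / Mono: `ord_G` is a monomial valuation of `ℂ(t)`

Claim: if all `m ∈ p.support` have `wt w m ≥ n`, and `wt w m = n` for some `m ∈ p.support`, then
`ord_G p(t) = n`.  First `p(t) ≠ 0` (`injective_aeval`) and `ord_G p(t) ≥ n` (`ordL_sum`).  Suppose
`ord_G p(t) > n`; take such a `p` with the least number of terms.  Terms with `wt w m > n` can be
removed, so all `wt w m = n`.  There are at least two terms (`ord_G` of a monomial), `m ≠ m'`, say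
`m_j ≠ m'_j`.  `p' := X_j ∂_j p - m_j p` has fewer terms, all of weight `n`, and contains `m'`;
`p'(t) = θ_j p(t) - m_j p(t)` has order `> n` by `ord_theta`: contradiction.
-/

set_option autoImplicit false

namespace Pool.Agent.CLN

open MvPolynomial Pool.Agent.CLU

variable {P : Ideal S} {t : Fin 3 → K3} {θ : Fin 3 → Derivation ℂ K3 K3} {b G : S}

theorem coe_aeval (t : Fin 3 → K3) (p : MvPolynomial (Fin 3) ℂ) :
    ((aeval t p : K3) : L) = aeval (fun i => (t i : L)) p :=
  comp_aeval_apply t K3.val p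

theorem coe_ne {a : K3} (ha : a ≠ 0) : (a : L) ≠ 0 := by
  intro h
  exact ha (Subtype.ext h)

theorem mono_ne (ht : ∀ i, t i ≠ 0) (m : Fin 3 →₀ ℕ) (c : ℂ) (hc : c ≠ 0) :
    (aeval (fun i => (t i : L)) (monomial m c) : L) ≠ 0 := by
  rw [aeval_monomial, Finsupp.prod_fintype _ _ fun i => pow_zero _]
  refine mul_ne_zero ?_ (Finset.prod_ne_zero_iff.2 fun i _ => pow_ne_zero _ (coe_ne (ht i)))
  rw [Ne, map_eq_zero]
  exact hc

theorem ord_mono (hG : Irreducible G) (ht : ∀ i, t i ≠ 0) (w : Fin 3 → ℤ)
    (hw : ∀ i, w i = ordL G (t i : L)) (m : Fin 3 →₀ ℕ) (c : ℂ) (hc : c ≠ 0) :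
    ordL G (aeval (fun i => (t i : L)) (monomial m c) : L) = wt w m := by
  have h1 : ∀ i, ((t i : L)) ^ (m i) ≠ 0 := fun i => pow_ne_zero _ (coe_ne (ht i))
  have h2 : algebraMap ℂ L c ≠ 0 := by
    rw [Ne, map_eq_zero]
    exact hc
  rw [aeval_monomial, Finsupp.prod_fintype _ _ fun i => pow_zero _,
    ordL_mul hG _ _ h2 (Finset.prod_ne_zero_iff.2 fun i _ => h1 i), ordL_const hG c hc, zero_add,
    ordL_prod hG _ _ fun i _ => h1 i]
  unfold wt
  refine Finset.sum_congr rfl fun i _ => ?_
  have h3 := ordL_zpow hG (t i : L) (coe_ne (ht i)) (m i : ℤ)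
  rw [zpow_natCast] at h3
  rw [h3, hw, mul_comm]

theorem theta_aeval (hθ : ∀ i j, θ j (t i) = if i = j then t i else 0) (j : Fin 3)
    (p : MvPolynomial (Fin 3) ℂ) : θ j (aeval t p) = aeval t (X j * pderiv j p) := by
  induction p using MvPolynomial.induction_on with
  | C a =>
    rw [pderiv_C, mul_zero, map_zero, aeval_C]
    exact (θ j).map_algebraMap a
  | add p q hp hq => rw [map_add, map_add, map_add, mul_add, map_add, hp, hq]
  | mul_X p i hp =>
    rw [map_mul, aeval_X, Derivation.leibniz, pderiv_mul, hp, hθ]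
    by_cases hij : i = j
    · subst hij
      rw [pderiv_X_self, if_pos rfl]
      simp only [map_mul, map_add, aeval_X, smul_eq_mul, mul_one]
      ring
    · rw [pderiv_X_of_ne hij, if_neg hij]
      simp only [map_mul, aeval_X, smul_eq_mul, mul_zero, add_zero, zero_add]
      ring

theorem coeff_X_mul_pderiv (j : Fin 3) (p : MvPolynomial (Fin 3) ℂ) (m : Fin 3 →₀ ℕ) :
    coeff m (X j * pderiv j p) = (m j : ℂ) * coeff m p := by
  induction p using MvPolynomial.induction_on' with
  | monomial u a =>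
    rw [X_mul_pderiv_monomial, coeff_smul, coeff_monomial, nsmul_eq_mul]
    split_ifs with h
    · rw [h]
    · simp
  | add p q hp hq => rw [map_add, mul_add, coeff_add, hp, hq, coeff_add, mul_add]

theorem le_ord_aeval (hG : Irreducible G) (ht : ∀ i, t i ≠ 0) (w : Fin 3 → ℤ)
    (hw : ∀ i, w i = ordL G (t i : L)) (n : ℤ) (s : Finset (Fin 3 →₀ ℕ)) (p : MvPolynomial (Fin 3) ℂ)
    (hs : ∀ m ∈ s, n ≤ wt w m)
    (h0 : aeval (fun i => (t i : L)) (∑ m ∈ s, monomial m (coeff m p)) ≠ (0 : L)) :
    n ≤ ordL G (aeval (fun i => (t i : L)) (∑ m ∈ s, monomial m (coeff m p)) : L) := by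
  rw [map_sum] at h0 ⊢
  refine ordL_sum hG n s _ (fun m hm hm0 => ?_) h0
  have hc : coeff m p ≠ 0 := by
    intro h
    rw [h, monomial_zero, map_zero] at hm0
    exact hm0 rfl
  rw [ord_mono hG ht w hw m _ hc]
  exact hs m hm

theorem ord_homog (h : ClusterData P t θ) (hb : IsB θ b) (hG : Irreducible G) {g : ℕ}
    (hGh : G.IsHomogeneous g) (hGb : G ∣ b) (w : Fin 3 → ℤ) (hw : ∀ i, w i = ordL G (t i : L))
    (n : ℤ) (k : ℕ) : ∀ (p : MvPolynomial (Fin 3) ℂ), p.support.card = k → p ≠ 0 →
      (∀ m ∈ p.support, wt w m = n) → ordL G (aeval (fun i => (t i : L)) p : L) = n := by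
  have hinj := injective_aeval t θ h.t_ne h.eig
  have hne : ∀ p : MvPolynomial (Fin 3) ℂ, p ≠ 0 → (aeval t p : K3) ≠ 0 := by
    intro p hp h0
    exact hp (hinj (h0.trans (map_zero _).symm))
  induction k using Nat.strong_induction_on with
  | _ k ih =>
    intro p hk hp hn
    have hp1 : (aeval (fun i => (t i : L)) p : L) ≠ 0 := by
      rw [← coe_aeval]
      exact coe_ne (hne p hp)
    have hge : n ≤ ordL G (aeval (fun i => (t i : L)) p : L) := by
      have h1 := le_ord_aeval hG h.t_ne w hw n p.support p (fun m hm => (hn m hm).ge)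
      rw [← p.as_sum] at h1
      exact h1 hp1
    by_contra hcon
    have hgt : n + 1 ≤ ordL G (aeval (fun i => (t i : L)) p : L) := by
      rcases lt_or_eq_of_le hge with h1 | h1
      · exact h1
      · exact absurd h1.symm hcon
    obtain ⟨m, hm⟩ : p.support.Nonempty := support_nonempty.2 hp
    by_cases hall : ∀ m' ∈ p.support, m' = m
    · have h1 : p = monomial m (coeff m p) := by
        ext m'
        rw [coeff_monomial]
        split_ifs with h2
        · rw [h2]
        · by_contra h3
          exact h2 (hall m' (mem_support_iff.2 h3)).symm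
      rw [h1, ord_mono hG h.t_ne w hw m _ (mem_support_iff.1 hm)] at hcon
      exact hcon (hn m hm)
    · push Not at hall
      obtain ⟨m', hm', hne'⟩ := hall
      obtain ⟨j, hj⟩ : ∃ j, m' j ≠ m j := by
        by_contra h1
        push Not at h1
        exact hne' (Finsupp.ext h1)
      set p' : MvPolynomial (Fin 3) ℂ := X j * pderiv j p - C (m j : ℂ) * p with hp'
      have hc : ∀ u, coeff u p' = ((u j : ℂ) - (m j : ℂ)) * coeff u p := by
        intro u
        rw [hp', coeff_sub, coeff_X_mul_pderiv, coeff_C_mul, sub_mul]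
      have hsub : p'.support ⊆ p.support := by
        intro u hu
        rw [mem_support_iff, hc] at hu
        exact mem_support_iff.2 (right_ne_zero_of_mul hu)
      have hmn : m ∉ p'.support := by
        rw [notMem_support_iff, hc, sub_self, zero_mul]
      have hlt : p'.support.card < k := by
        rw [← hk]
        exact Finset.card_lt_card ⟨hsub, fun h1 => hmn (h1 hm)⟩
      have hp'0 : p' ≠ 0 := by
        intro h1
        have h2 := hc m'
        rw [h1, coeff_zero] at h2
        have h3 : ((m' j : ℂ) - (m j : ℂ)) ≠ 0 := by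
          rw [Ne, sub_eq_zero]
          exact_mod_cast hj
        exact mul_ne_zero h3 (mem_support_iff.1 hm') h2.symm
      have h4 := ih _ hlt p' rfl hp'0 fun u hu => hn u (hsub hu)
      have h5 : (aeval (fun i => (t i : L)) p' : L) =
          ((θ j (aeval t p) : K3) : L) + -(algebraMap ℂ L (m j : ℂ) * aeval (fun i => (t i : L)) p) := by
        rw [theta_aeval h.eig, coe_aeval, hp', map_sub, map_mul _ (C _), aeval_C, sub_eq_add_neg]
      have h6 : n + 1 ≤ ordL G (aeval (fun i => (t i : L)) p' : L) := by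
        rw [h5]
        refine ordL_add hG (n + 1) _ _ (fun h7 => ?_) (fun h7 => ?_) ?_
        · have h8 : θ j (aeval t p) ≠ 0 := fun h9 => h7 (by rw [h9]; rfl)
          refine le_trans ?_ (ord_theta h hb hG hGh hGb j (aeval t p) (hne p hp) h8)
          rw [coe_aeval]
          exact hgt
        · rw [neg_ne_zero] at h7
          have h8 := left_ne_zero_of_mul h7
          have h9 : (m j : ℂ) ≠ 0 := by
            rwa [Ne, map_eq_zero] at h8
          rw [ordL_neg hG, ordL_mul hG _ _ h8 hp1, ordL_const hG _ h9, zero_add]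
          exact hgt
        · rw [← h5, ← coe_aeval]
          exact coe_ne (hne p' hp'0)
      omega

theorem ord_aeval (h : ClusterData P t θ) (hb : IsB θ b) (hG : Irreducible G) {g : ℕ}
    (hGh : G.IsHomogeneous g) (hGb : G ∣ b) (w : Fin 3 → ℤ) (hw : ∀ i, w i = ordL G (t i : L))
    (p : MvPolynomial (Fin 3) ℂ) (m : Fin 3 →₀ ℕ) (hm : m ∈ p.support)
    (hmin : ∀ m' ∈ p.support, wt w m ≤ wt w m') :
    ordL G ((aeval t p : K3) : L) = wt w m := by
  classical
  have hinj := injective_aeval t θ h.t_ne h.eig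
  have hne : ∀ p : MvPolynomial (Fin 3) ℂ, p ≠ 0 → (aeval t p : K3) ≠ 0 := by
    intro p hp h0
    exact hp (hinj (h0.trans (map_zero _).symm))
  rw [coe_aeval]
  set n := wt w m with hn
  set A : MvPolynomial (Fin 3) ℂ := ∑ u ∈ p.support.filter (fun u => wt w u = n), monomial u (coeff u p)
    with hA
  set B : MvPolynomial (Fin 3) ℂ := ∑ u ∈ p.support.filter (fun u => ¬ wt w u = n), monomial u (coeff u p)
    with hB
  have hAB : p = A + B := by
    rw [hA, hB, Finset.sum_filter_add_sum_filter_not, ← p.as_sum]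
  have hcA : ∀ u, coeff u A = if u ∈ p.support.filter (fun u => wt w u = n) then coeff u p else 0 := by
    intro u
    rw [hA, coeff_sum]
    simp only [coeff_monomial]
    rw [Finset.sum_ite_eq' _ u]
  have hA0 : A ≠ 0 := by
    intro h1
    have h2 := hcA m
    have h3 : m ∈ p.support.filter (fun u => wt w u = n) := Finset.mem_filter.2 ⟨hm, hn.symm⟩
    rw [h1, coeff_zero, if_pos h3] at h2
    exact mem_support_iff.1 hm h2.symm
  have h1 : ordL G (aeval (fun i => (t i : L)) A : L) = n := by
    refine ord_homog h hb hG hGh hGb w hw n _ A rfl hA0 fun u hu => ?_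
    rw [mem_support_iff, hcA] at hu
    by_contra h2
    have h3 : ¬ u ∈ p.support.filter (fun u => wt w u = n) := fun h3 => h2 (Finset.mem_filter.1 h3).2
    exact hu (if_neg h3)
  have h2 : (aeval (fun i => (t i : L)) A : L) ≠ 0 := by
    rw [← coe_aeval]
    exact coe_ne (hne A hA0)
  rw [hAB, map_add, ← h1]
  refine (ordL_add_eq hG _ _ h2 fun h3 => ?_).2
  rw [h1]
  have h4 := le_ord_aeval hG h.t_ne w hw (n + 1) (p.support.filter (fun u => ¬ wt w u = n)) p
    (fun u hu => by
      obtain ⟨h5, h6⟩ := Finset.mem_filter.1 hu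
      have h7 := hmin u h5
      omega) h3
  exact h4

end Pool.Agent.CLN
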