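import Pool.Agent.CLN.LS
import Pool.Agent.CLN.Mono

/-!
# CLN / LSI: the embedding of `K3` in the Laurent series over a field `M`

`exists_Iota`: `exists_emb` for `single (w i) (m i)` (`injective_single`); `der`, `euler` by `emb_der`
(for `euler`: the derivation `∑ w_j θ_j` of `K3` and the Euler derivation); `ord` for `a = p(t)/q(t)`
by `order_aeval` and `ord_aeval`.
-/

set_option autoImplicit false

namespace Pool.Agent.CLN

open MvPolynomial Pool.Agent.CLU

variable {M : Type} [Field M] [Algebra ℂ M]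

/-- The embedding of `K3` in the Laurent series over `M` attached to the divisor `G`. -/
structure Iota (t : Fin 3 → K3) (θ : Fin 3 → Derivation ℂ K3 K3) (G : S) (w : Fin 3 → ℤ)
    (m : Fin 3 → M) (D : Fin 3 → Derivation ℂ M M) (ι : K3 →ₐ[ℂ] HahnSeries ℤ M) : Prop where
  t_eq : ∀ i, ι (t i) = HahnSeries.single (w i) (m i)
  der : ∀ j a g, (ι (θ j a)).coeff g = D j ((ι a).coeff g)
  euler : ∀ a g, ∑ j, (w j : M) * D j ((ι a).coeff g) = (g : M) * (ι a).coeff g
  ord : ∀ a, a ≠ 0 → (ι a).order = ordL G (a : L)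

private theorem eq_single (w : ℤ) (m : M) (d : ℤ → M → M) (hd : ∀ g, d g 0 = 0)
    (F : HahnSeries ℤ M) (hF : ∀ g, F.coeff g = d g ((HahnSeries.single w m).coeff g)) :
    F = HahnSeries.single w (d w m) := by
  ext g
  rw [hF]
  by_cases hg : g = w
  · subst hg
    rw [HahnSeries.coeff_single_same, HahnSeries.coeff_single_same]
  · rw [HahnSeries.coeff_single_of_ne hg, HahnSeries.coeff_single_of_ne hg, hd]

private theorem ord_poly {P : Ideal S} {t : Fin 3 → K3} {θ : Fin 3 → Derivation ℂ K3 K3} {b G : S}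
    (h : ClusterData P t θ) (hb : IsB θ b) (hG : Irreducible G) {g : ℕ}
    (hGh : G.IsHomogeneous g) (hGb : G ∣ b) (w : Fin 3 → ℤ) (hw : ∀ i, w i = ordL G (t i : L))
    (m : Fin 3 → M) (hm : Function.Injective (aeval m : MvPolynomial (Fin 3) ℂ →ₐ[ℂ] M))
    (ι : K3 →ₐ[ℂ] HahnSeries ℤ M) (hι : ∀ i, ι (t i) = HahnSeries.single (w i) (m i))
    (p : MvPolynomial (Fin 3) ℂ) (hp : p ≠ 0) :
    ι (aeval t p) ≠ 0 ∧ (ι (aeval t p)).order = ordL G ((aeval t p : K3) : L) := by
  have h1 : ι (aeval t p) = aeval (fun i => HahnSeries.single (w i) (m i)) p := by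
    rw [MvPolynomial.comp_aeval_apply]
    congr 2
    funext i
    exact hι i
  obtain ⟨μ, hμ, hmin⟩ := Finset.exists_min_image p.support (wt w) (support_nonempty.2 hp)
  obtain ⟨h2, -, h3⟩ := order_aeval w m hm p hp
  rw [h1]
  refine ⟨h2, ?_⟩
  rw [h3 μ hμ hmin, ord_aeval h hb hG hGh hGb w hw p μ hμ hmin]

theorem exists_Iota {P : Ideal S} {t : Fin 3 → K3} {θ : Fin 3 → Derivation ℂ K3 K3} {b G : S}
    (h : ClusterData P t θ) (hb : IsB θ b) (hG : Irreducible G) {g : ℕ}
    (hGh : G.IsHomogeneous g) (hGb : G ∣ b) (w : Fin 3 → ℤ) (hw : ∀ i, w i = ordL G (t i : L))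
    (m : Fin 3 → M) (hm : Function.Injective (aeval m : MvPolynomial (Fin 3) ℂ →ₐ[ℂ] M))
    (D : Fin 3 → Derivation ℂ M M) (hD : ∀ i j, D j (m i) = if i = j then m i else 0) :
    ∃ ι : K3 →ₐ[ℂ] HahnSeries ℤ M, Iota t θ G w m D ι := by
  classical
  obtain ⟨ι, hι⟩ := exists_emb t (injective_aeval t θ h.t_ne h.eig) h.gen
    (fun i => HahnSeries.single (w i) (m i)) (injective_single w m hm)
  have hder : ∀ j a g, (ι (θ j a)).coeff g = D j ((ι a).coeff g) := by
    intro j a g
    obtain ⟨D', hD'⟩ := exists_coefDer (D j)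
    have h1 : ∀ i, D' (ι (t i)) = ι (θ j (t i)) := by
      intro i
      have h2 := eq_single (w i) (m i) (fun _ => D j) (fun _ => map_zero (D j)) (D' (ι (t i)))
        (fun g => by rw [hD', hι])
      rw [h2, h.eig, hD]
      split_ifs with hij
      · exact (hι i).symm
      · rw [map_zero ι, HahnSeries.single_eq_zero]
    rw [← hD', emb_der t h.gen ι (θ j) D' h1 a]
  refine ⟨ι, hι, hder, ?_, ?_⟩
  · intro a g
    obtain ⟨E, hE⟩ := exists_eulerDer (M := M)
    let θE : Derivation ℂ K3 K3 := (w 0 : K3) • θ 0 + (w 1 : K3) • θ 1 + (w 2 : K3) • θ 2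
    have hθE : ∀ a, θE a = ∑ j, (w j : K3) * θ j a := by
      intro a
      rw [Fin.sum_univ_three]
      rfl
    have hC : ∀ (n : ℤ) (F : HahnSeries ℤ M) (g : ℤ),
        (((n : ℤ) : HahnSeries ℤ M) * F).coeff g = (n : M) * F.coeff g := by
      intro n F g
      have h4 : ((n : ℤ) : HahnSeries ℤ M) = HahnSeries.C ((n : ℤ) : M) :=
        (map_intCast (HahnSeries.C : M →+* HahnSeries ℤ M) n).symm
      rw [h4, HahnSeries.C_mul_eq_smul, HahnSeries.coeff_smul, smul_eq_mul]
    have h1 : ∀ i, E (ι (t i)) = ι (θE (t i)) := by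
      intro i
      have h2 := eq_single (w i) (m i) (fun g x => (g : M) * x) (fun _ => mul_zero _) (E (ι (t i)))
        (fun g => by rw [hE, hι])
      have h3 : θE (t i) = (w i : K3) * t i := by
        rw [hθE, Finset.sum_eq_single i]
        · rw [h.eig, if_pos rfl]
        · intro j _ hj
          rw [h.eig, if_neg (Ne.symm hj), mul_zero]
        · intro hi
          exact absurd (Finset.mem_univ i) hi
      rw [h2, h3, map_mul ι, map_intCast ι, hι]
      ext g
      rw [hC]
      by_cases hg : g = w i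
      · subst hg
        rw [HahnSeries.coeff_single_same, HahnSeries.coeff_single_same]
      · rw [HahnSeries.coeff_single_of_ne hg, HahnSeries.coeff_single_of_ne hg, mul_zero]
    have h5 := emb_der t h.gen ι _ E h1 a
    have h6 : ι (θE a) = ∑ j, ((w j : ℤ) : HahnSeries ℤ M) * ι (θ j a) := by
      rw [hθE, map_sum]
      refine Finset.sum_congr rfl fun j _ => ?_
      rw [map_mul ι, map_intCast ι]
    have h7 : (E (ι a)).coeff g = (g : M) * (ι a).coeff g := hE _ _
    rw [← h7, h5, h6, HahnSeries.coeff_sum]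
    refine Finset.sum_congr rfl fun j _ => ?_
    rw [hC, hder]
  · intro a ha
    have hz : a ∈ IntermediateField.adjoin ℂ (Set.range t) := by rw [h.gen]; trivial
    obtain ⟨r, s, hrs⟩ := (IntermediateField.mem_adjoin_range_iff ℂ t a).mp hz
    have hs' : (aeval t s : K3) ≠ 0 := by
      intro h0
      rw [h0, div_zero] at hrs
      exact ha hrs
    have hr' : (aeval t r : K3) ≠ 0 := by
      intro h0
      rw [h0, zero_div] at hrs
      exact ha hrs
    have hs0 : s ≠ 0 := by
      rintro rfl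
      exact hs' (map_zero _)
    have hr0 : r ≠ 0 := by
      rintro rfl
      exact hr' (map_zero _)
    obtain ⟨i1, o1⟩ := ord_poly h hb hG hGh hGb w hw m hm ι hι s hs0
    obtain ⟨i2, o2⟩ := ord_poly h hb hG hGh hGb w hw m hm ι hι r hr0
    have hmul : a * aeval t s = aeval t r := by
      rw [hrs, div_mul_cancel₀ _ hs']
    have hιa : ι a ≠ 0 := (map_ne_zero ι).2 ha
    have e1 : (ι a).order + (ι (aeval t s)).order = (ι (aeval t r)).order := by
      rw [← hmul, map_mul, HahnSeries.order_mul hιa i1]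
    have e2 : ordL G (a : L) + ordL G ((aeval t s : K3) : L) = ordL G ((aeval t r : K3) : L) := by
      rw [← hmul]
      have hc : ((a * aeval t s : K3) : L) = (a : L) * ((aeval t s : K3) : L) := rfl
      rw [hc, ordL_mul hG]
      · exact fun h0 => ha (Subtype.ext h0)
      · exact fun h0 => hs' (Subtype.ext h0)
    rw [o1, o2] at e1
    linarith

end Pool.Agent.CLN
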