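import Pool.Agent.CLN.Indep

/-!
# CLN / Laurent: elements in the local rings of all torus divisors

`K3` is the fraction field of `ℂ[T_0, T_1, T_2]` via `aeval t` (`injective_aeval`, `h.gen`):
`a = n(t)/d(t)` with `n, d` without common factor, `d ≠ 0`.  Let `q` be an irreducible factor of `d` with
`q ∤ X i` for all `i`: `a = n'(t)/d'(t)` with `q ∤ d'` (note `d' ≠ 0`), so `n d' = n' d`, `q ∣ n`,
contradiction.  So every irreducible factor of `d` divides some `X i`, i.e. is associated to it, and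
`d` is a constant times a monomial; multiply with `(T_0 T_1 T_2)^N`.
`monomial_of`: apply this to numerator and denominator (`a⁻¹ = d(t)/n(t)`).
-/

set_option autoImplicit false

namespace Pool.Agent.CLN

open MvPolynomial Pool.Agent.CLU

/-- `a` is in the local rings of all the torus divisors. -/
def InAll (t : Fin 3 → K3) (a : K3) : Prop :=
  ∀ q : MvPolynomial (Fin 3) ℂ, Irreducible q → (∀ i, ¬ q ∣ X i) → a ∈ torRing t q

variable {P : Ideal S} {t : Fin 3 → K3} {θ : Fin 3 → Derivation ℂ K3 K3}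

private theorem mono_of (D : MvPolynomial (Fin 3) ℂ) : D ≠ 0 →
    (∀ q : MvPolynomial (Fin 3) ℂ, Irreducible q → q ∣ D → ∃ i, q ∣ X i) →
    ∃ (c : ℂ) (m : Fin 3 → ℕ), c ≠ 0 ∧ D = C c * ∏ i, X i ^ m i := by
  classical
  refine UniqueFactorizationMonoid.induction_on_prime
    (P := fun D : MvPolynomial (Fin 3) ℂ => D ≠ 0 →
      (∀ q : MvPolynomial (Fin 3) ℂ, Irreducible q → q ∣ D → ∃ i, q ∣ X i) →
      ∃ (c : ℂ) (m : Fin 3 → ℕ), c ≠ 0 ∧ D = C c * ∏ i, X i ^ m i) D ?_ ?_ ?_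
  · intro h
    exact absurd rfl h
  · intro x hx _ _
    obtain ⟨r, hr, hxr⟩ := MvPolynomial.isUnit_iff_eq_C_of_isReduced.mp hx
    exact ⟨r, 0, hr.ne_zero, by simp [hxr]⟩
  · intro a p ha hp ih _ hq
    obtain ⟨c, m, hc, hm⟩ := ih ha fun q hqi hqa => hq q hqi (hqa.mul_left p)
    obtain ⟨i, hi⟩ := hq p hp.irreducible (dvd_mul_right p a)
    have hXi : Irreducible (X i : MvPolynomial (Fin 3) ℂ) := (MvPolynomial.X_prime (i := i)).irreducible
    have hass : Associated (X i : MvPolynomial (Fin 3) ℂ) p :=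
      (hp.irreducible.associated_of_dvd hXi hi).symm
    obtain ⟨u, hu⟩ := hass
    obtain ⟨r, hr, hur⟩ := MvPolynomial.isUnit_iff_eq_C_of_isReduced.mp u.isUnit
    refine ⟨r * c, fun j => m j + if j = i then 1 else 0, mul_ne_zero hr.ne_zero hc, ?_⟩
    have h1 : (∏ j, (X j : MvPolynomial (Fin 3) ℂ) ^ (m j + if j = i then 1 else 0)) =
        (∏ j, X j ^ m j) * X i := by
      simp_rw [pow_add]
      rw [Finset.prod_mul_distrib]
      congr 1
      rw [Finset.prod_eq_single i]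
      · simp
      · intro b _ hb
        simp [hb]
      · intro hn
        exact absurd (Finset.mem_univ i) hn
    rw [h1, ← hu, hur, hm, map_mul]
    ring

private theorem rep (h : ClusterData P t θ) (a : K3) :
    ∃ N D : MvPolynomial (Fin 3) ℂ, D ≠ 0 ∧ IsRelPrime D N ∧ a = aeval t N / aeval t D := by
  have hinj := injective_aeval t θ h.t_ne h.eig
  have hz : a ∈ IntermediateField.adjoin ℂ (Set.range t) := by rw [h.gen]; trivial
  obtain ⟨r, s, hrs⟩ := (IntermediateField.mem_adjoin_range_iff ℂ t a).mp hz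
  by_cases hs : s = 0
  · refine ⟨0, 1, one_ne_zero, isRelPrime_one_left, ?_⟩
    rw [hrs, hs, map_zero, div_zero, zero_div]
  · obtain ⟨D, N, c, hrel, hD, hN⟩ := UniqueFactorizationMonoid.exists_reduced_factors s hs r
    have hc : c ≠ 0 := by
      rintro rfl
      exact hs (by rw [← hD, zero_mul])
    have hD0 : D ≠ 0 := by
      rintro rfl
      exact hs (by rw [← hD, mul_zero])
    refine ⟨N, D, hD0, hrel, ?_⟩
    have hc' : aeval t c ≠ 0 := fun h0 => hc (hinj (by rw [h0, map_zero]))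
    rw [hrs, ← hD, ← hN, map_mul, map_mul, mul_div_mul_left _ _ hc']

private theorem den_of (h : ClusterData P t θ) {a : K3} (ha : InAll t a)
    {N D : MvPolynomial (Fin 3) ℂ} (hD : D ≠ 0) (hrel : IsRelPrime D N)
    (hND : a = aeval t N / aeval t D) :
    ∃ (c : ℂ) (m : Fin 3 → ℕ), c ≠ 0 ∧ D = C c * ∏ i, X i ^ m i := by
  have hinj := injective_aeval t θ h.t_ne h.eig
  refine mono_of D hD fun q hq hqD => ?_
  by_contra hcon
  push Not at hcon
  obtain ⟨n, d, hqd, had⟩ := ha q hq hcon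
  have hd : d ≠ 0 := by
    rintro rfl
    exact hqd (dvd_zero q)
  have hD' : aeval t D ≠ 0 := fun h0 => hD (hinj (by rw [h0, map_zero]))
  have hd' : aeval t d ≠ 0 := fun h0 => hd (hinj (by rw [h0, map_zero]))
  have h1 : N * d = n * D := by
    apply hinj
    rw [map_mul, map_mul]
    rw [hND, div_eq_div_iff hD' hd'] at had
    exact had
  have h2 : q ∣ N * d := by
    rw [h1]
    exact hqD.mul_left n
  rcases hq.prime.dvd_or_dvd h2 with h3 | h3
  · exact hq.not_isUnit (hrel hqD h3)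
  · exact hqd h3

theorem laurent_of (h : ClusterData P t θ) (a : K3) (ha : InAll t a) :
    ∃ (p : MvPolynomial (Fin 3) ℂ) (n : ℕ), a * (t 0 * t 1 * t 2) ^ n = aeval t p := by
  obtain ⟨N, D, hD, hrel, hND⟩ := rep h a
  obtain ⟨c, m, hc, hm⟩ := den_of h ha hD hrel hND
  refine ⟨N * C c⁻¹ * ∏ i, X i ^ ((∑ j, m j) - m i), ∑ j, m j, ?_⟩
  have ht := h.t_ne
  have hc' : (algebraMap ℂ K3 c) ≠ 0 := by
    rw [Ne, map_eq_zero]
    exact hc
  have h1 : ∀ i, t i ^ (∑ j, m j) = t i ^ ((∑ j, m j) - m i) * t i ^ m i := by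
    intro i
    rw [← pow_add, Nat.sub_add_cancel (Finset.single_le_sum (fun j _ => Nat.zero_le (m j))
      (Finset.mem_univ i))]
  have h2 : (t 0 * t 1 * t 2) ^ (∑ j, m j) =
      (∏ i, t i ^ ((∑ j, m j) - m i)) * ∏ i, t i ^ m i := by
    rw [← Finset.prod_mul_distrib]
    simp_rw [← h1]
    rw [Finset.prod_pow, Fin.prod_univ_three]
  have h3 : (∏ i, t i ^ m i) ≠ 0 := Finset.prod_ne_zero_iff.mpr fun i _ => pow_ne_zero _ (ht i)
  rw [hND, hm, h2]
  simp only [map_mul, map_prod, map_pow, aeval_X, aeval_C, map_inv₀]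
  field_simp

theorem monomial_of (h : ClusterData P t θ) (a : K3) (ha0 : a ≠ 0) (ha : InAll t a)
    (ha' : InAll t a⁻¹) :
    ∃ (k : ℂ) (m : Fin 3 → ℤ), k ≠ 0 ∧ a = algebraMap ℂ K3 k * ∏ i, t i ^ m i := by
  obtain ⟨N, D, hD, hrel, hND⟩ := rep h a
  obtain ⟨c, m, hc, hm⟩ := den_of h ha hD hrel hND
  have hN : N ≠ 0 := by
    rintro rfl
    exact ha0 (by rw [hND, map_zero, zero_div])
  obtain ⟨c', m', hc', hm'⟩ := den_of h ha' hN hrel.symm (by rw [hND, inv_div])
  have ht := h.t_ne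
  refine ⟨c' / c, fun i => (m' i : ℤ) - (m i : ℤ), div_ne_zero hc' hc, ?_⟩
  have h1 : ∀ i, t i ^ ((m' i : ℤ) - (m i : ℤ)) = t i ^ m' i / t i ^ m i := by
    intro i
    rw [zpow_sub₀ (ht i), zpow_natCast, zpow_natCast]
  rw [hND, hm, hm']
  simp only [map_mul, map_prod, map_pow, aeval_X, aeval_C, map_div₀, h1]
  rw [Finset.prod_div_distrib, mul_div_mul_comm]

theorem inAll_monomial (h : ClusterData P t θ) (m : Fin 3 → ℤ) : InAll t (∏ i, t i ^ m i) := by
  intro q hq hqX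
  have ht := h.t_ne
  refine ⟨∏ i, X i ^ (m i).toNat, ∏ i, X i ^ (-m i).toNat, ?_, ?_⟩
  · intro hdvd
    obtain ⟨i, _, hi⟩ := (hq.prime.dvd_finsetProd_iff _).mp hdvd
    exact hqX i (hq.prime.dvd_of_dvd_pow hi)
  · simp only [map_prod, map_pow, aeval_X]
    rw [← Finset.prod_div_distrib]
    refine Finset.prod_congr rfl fun i _ => ?_
    rw [← zpow_natCast, ← zpow_natCast, ← zpow_sub₀ (ht i), Int.toNat_sub_toNat_neg]

end Pool.Agent.CLN
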