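import Pool.Agent.CLN.LSI
import Pool.Agent.CLU.Coord

/-!
# CLN / LeadM: leading coefficients and the generic point of `G = 0`

`lead a := (ι a).leadingCoeff`, `x_i := (ι (X_i / X_3)).coeff 0`.
`X_i / X_3` has order `≥ 0` (`G ∤ X_3`), so `ι` of it has no negative coefficients.
`aeval_pt`: the elements of `HahnSeries ℤ M` without negative coefficients form a subalgebra on which
`F ↦ F.coeff 0` is a homomorphism of algebras (`HahnSeries.coeff_mul`), and
`A / X_3^d = A(X_0/X_3, .., X_3/X_3)` (`A` homogeneous of degree `d`).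
`van`: `A(x) = 0` iff `A = 0` or `ord_G (A / X_3^d) > 0` iff `G ∣ A`.
`Lead.poly`: `order_aeval` (`ι (p(t)) = p(ι t)`; `p = 0`: both sides are `0`).
`Lead.form`: orders are `0`, so leading coefficients are the coefficients at `0`; `A/B` times
`B/X_3^d` is `A/X_3^d`.
-/

set_option autoImplicit false

namespace Pool.Agent.CLN

open MvPolynomial Pool.Agent.CLU

variable {M : Type} [Field M] [Algebra ℂ M]

/-- `A / X_3^d`. -/
noncomputable def fr (A : S) (d : ℕ) (hA : A.IsHomogeneous d) : K3 :=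
  ⟨algebraMap S L A / algebraMap S L (X 3 ^ d), ratio_mem d A (X 3 ^ d) hA (by
    have := (isHomogeneous_X ℂ (3 : Fin 4)).pow d
    rwa [one_mul] at this)⟩

/-- The generic point. -/
noncomputable def pt (ι : K3 →ₐ[ℂ] HahnSeries ℤ M) (i : Fin 4) : M :=
  (ι (fr (X i) 1 (isHomogeneous_X ℂ i))).coeff 0

theorem coeff_neg_of_order {F : HahnSeries ℤ M} (h : F ≠ 0 → 0 ≤ F.order) (g : ℤ) (hg : g < 0) :
    F.coeff g = 0 := by
  rcases eq_or_ne F 0 with h0 | h0
  · rw [h0, HahnSeries.coeff_zero]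
  · exact HahnSeries.coeff_eq_zero_of_lt_order (lt_of_lt_of_le hg (h h0))

private theorem mul_coeff {F F' : HahnSeries ℤ M} (h : ∀ g < 0, F.coeff g = 0)
    (h' : ∀ g < 0, F'.coeff g = 0) :
    (∀ g < 0, (F * F').coeff g = 0) ∧ (F * F').coeff 0 = F.coeff 0 * F'.coeff 0 := by
  constructor
  · intro g hg
    rw [HahnSeries.coeff_mul]
    refine Finset.sum_eq_zero fun x hx => ?_
    rw [Finset.mem_addAntidiagonal] at hx
    rcases lt_or_ge x.1 0 with h1 | h1
    · rw [h _ h1, zero_mul]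
    · rw [h' x.2 (by omega), mul_zero]
  · rw [HahnSeries.coeff_mul]
    refine (Finset.sum_eq_single (0, 0) (fun x hx hne => ?_) (fun hx => ?_)).trans rfl
    · rw [Finset.mem_addAntidiagonal] at hx
      rcases lt_or_ge x.1 0 with h1 | h1
      · rw [h _ h1, zero_mul]
      · rcases lt_or_ge x.2 0 with h2 | h2
        · rw [h' _ h2, mul_zero]
        · exfalso
          apply hne
          have h3 : x.1 = 0 := by omega
          have h4 : x.2 = 0 := by omega
          exact Prod.ext h3 h4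
    · rw [Finset.mem_addAntidiagonal] at hx
      by_contra hne
      apply hx
      refine ⟨?_, ?_, rfl⟩
      · intro h3
        apply hne
        change F.coeff 0 * F'.coeff 0 = 0
        rw [show F.coeff 0 = 0 from h3, zero_mul]
      · intro h3
        apply hne
        change F.coeff 0 * F'.coeff 0 = 0
        rw [show F'.coeff 0 = 0 from h3, mul_zero]

private theorem aeval_coeff (y : Fin 4 → HahnSeries ℤ M) (hy : ∀ i, ∀ g < 0, (y i).coeff g = 0)
    (F : S) : (∀ g < 0, (aeval y F).coeff g = 0) ∧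
      (aeval y F).coeff 0 = aeval (fun i => (y i).coeff 0) F := by
  induction F using MvPolynomial.induction_on with
  | C c =>
    rw [aeval_C, aeval_C]
    have h1 : (algebraMap ℂ (HahnSeries ℤ M) c) = HahnSeries.C (algebraMap ℂ M c) := rfl
    rw [h1]
    refine ⟨fun g hg => ?_, ?_⟩
    · rw [HahnSeries.C_apply, HahnSeries.coeff_single_of_ne hg.ne]
    · rw [HahnSeries.C_apply, HahnSeries.coeff_single_same]
  | add p q hp hq =>
    rw [map_add, map_add]
    refine ⟨fun g hg => ?_, ?_⟩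
    · rw [HahnSeries.coeff_add, hp.1 g hg, hq.1 g hg, add_zero]
    · rw [HahnSeries.coeff_add, hp.2, hq.2]
  | mul_X p i hp =>
    rw [map_mul, map_mul, aeval_X, aeval_X]
    have h1 := mul_coeff hp.1 (hy i)
    exact ⟨h1.1, by rw [h1.2, hp.2]⟩

private theorem fr_ne_zero (A : S) (d : ℕ) (hA : A.IsHomogeneous d) (hA0 : A ≠ 0) :
    fr A d hA ≠ 0 := by
  intro h
  have h1 : algebraMap S L A / algebraMap S L (X 3 ^ d) = 0 := congrArg Subtype.val h
  have h2 : algebraMap S L A ≠ 0 := by simpa using hA0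
  have h3 : algebraMap S L (X 3 ^ d) ≠ 0 := by
    have : (X 3 ^ d : S) ≠ 0 := pow_ne_zero _ (X_ne_zero 3)
    simpa using this
  exact (div_ne_zero h2 h3) h1

private theorem coe_aeval_fr (f : Fin 4 → K3) (F1 : S) :
    ((aeval f F1 : K3) : L) = aeval (fun i => (f i : L)) F1 := by
  have h1 : (K3.val).comp (aeval f) = aeval (fun i => (f i : L)) := by
    apply algHom_ext
    intro i
    rw [AlgHom.comp_apply, aeval_X, aeval_X]
    rfl
  exact DFunLike.congr_fun h1 F1

private theorem aeval_scale (d : ℕ) (G : S) (hG : G.IsHomogeneous d) (c : L) (v : Fin 4 → L) :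
    aeval (fun i => c * v i) G = c ^ d * aeval v G := by
  rw [aeval_def, aeval_def, eval₂_eq', eval₂_eq', Finset.mul_sum]
  refine Finset.sum_congr rfl fun m hm => ?_
  have h1 : ∏ i, (c * v i) ^ m i = c ^ d * ∏ i, v i ^ m i := by
    simp only [mul_pow]
    rw [Finset.prod_mul_distrib, Finset.prod_pow_eq_pow_sum]
    congr 2
    have h2 := hG (mem_support_iff.1 hm)
    rw [← h2]
    simp [Finsupp.weight_apply, Finsupp.sum_fintype]
  rw [h1]
  ring

private theorem fr_aeval (A : S) (d : ℕ) (hA : A.IsHomogeneous d) :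
    aeval (fun i => fr (X i) 1 (isHomogeneous_X ℂ i)) A = fr A d hA := by
  apply Subtype.ext
  change ((aeval (fun i => fr (X i) 1 (isHomogeneous_X ℂ i)) A : K3) : L) = _
  rw [coe_aeval_fr]
  have h1 : (fun i : Fin 4 => ((fr (X i) 1 (isHomogeneous_X ℂ i) : K3) : L)) =
      fun i => (algebraMap S L (X 3))⁻¹ * algebraMap S L (X i) := by
    funext i
    change algebraMap S L (X i) / algebraMap S L (X 3 ^ 1) = _
    rw [pow_one, div_eq_mul_inv, mul_comm]
  rw [h1, aeval_scale d A hA]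
  have h2 : aeval (fun i => algebraMap S L (X i)) A = algebraMap S L A := by
    have h3 : (aeval (fun i => algebraMap S L (X i)) : S →ₐ[ℂ] L) = IsScalarTower.toAlgHom ℂ S L := by
      apply algHom_ext
      intro i
      rw [aeval_X]
      rfl
    exact DFunLike.congr_fun h3 A
  rw [h2]
  change _ = algebraMap S L A / algebraMap S L (X 3 ^ d)
  rw [map_pow, inv_pow, div_eq_mul_inv, mul_comm]

theorem fr_order {t : Fin 3 → K3} {θ : Fin 3 → Derivation ℂ K3 K3} {G : S}
    {w : Fin 3 → ℤ} {m : Fin 3 → M} {D : Fin 3 → Derivation ℂ M M}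
    {ι : K3 →ₐ[ℂ] HahnSeries ℤ M} (hι : Iota t θ G w m D ι) (hG : Irreducible G)
    (hG3 : ¬ G ∣ X 3) (A : S) (d : ℕ) (hA : A.IsHomogeneous d) (hA0 : A ≠ 0) :
    (ι (fr A d hA)).order = (multiplicity G A : ℤ) := by
  have h1 := fr_ne_zero A d hA hA0
  have hp : Prime G := hG.prime
  have h2 : ¬ G ∣ X 3 ^ d := fun h => hG3 (hp.dvd_of_dvd_pow h)
  have h3 : ordL G ((fr A d hA : K3) : L) = (multiplicity G A : ℤ) - multiplicity G (X 3 ^ d : S) :=
    ordL_div hG A (X 3 ^ d) hA0 (pow_ne_zero _ (X_ne_zero 3))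
  rw [hι.ord _ h1, h3, multiplicity_eq_zero.2 h2]
  simp

theorem aeval_pt {t : Fin 3 → K3} {θ : Fin 3 → Derivation ℂ K3 K3} {G : S}
    {w : Fin 3 → ℤ} {m : Fin 3 → M} {D : Fin 3 → Derivation ℂ M M}
    {ι : K3 →ₐ[ℂ] HahnSeries ℤ M} (hι : Iota t θ G w m D ι) (hG : Irreducible G)
    (hG3 : ¬ G ∣ X 3) (A : S) (d : ℕ) (hA : A.IsHomogeneous d) :
    aeval (pt ι) A = (ι (fr A d hA)).coeff 0 := by
  have h1 : ι (fr A d hA) = aeval (fun i => ι (fr (X i) 1 (isHomogeneous_X ℂ i))) A := by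
    rw [← fr_aeval A d hA]
    exact DFunLike.congr_fun (comp_aeval (R := ℂ) (fun i : Fin 4 => fr (X i) 1 (isHomogeneous_X ℂ i)) ι) A
  have h2 := aeval_coeff (fun i => ι (fr (X i) 1 (isHomogeneous_X ℂ i))) (fun i g hg => by
    refine coeff_neg_of_order (fun _ => ?_) g hg
    rw [fr_order hι hG hG3 (X i) 1 (isHomogeneous_X ℂ i) (X_ne_zero i)]
    exact Int.natCast_nonneg _) A
  rw [h1, h2.2]
  rfl

theorem van_pt {t : Fin 3 → K3} {θ : Fin 3 → Derivation ℂ K3 K3} {G : S}
    {w : Fin 3 → ℤ} {m : Fin 3 → M} {D : Fin 3 → Derivation ℂ M M}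
    {ι : K3 →ₐ[ℂ] HahnSeries ℤ M} (hι : Iota t θ G w m D ι) (hG : Irreducible G)
    (hG3 : ¬ G ∣ X 3) (A : S) (d : ℕ) (hA : A.IsHomogeneous d) :
    aeval (pt ι) A = 0 ↔ G ∣ A := by
  rw [aeval_pt hι hG hG3 A d hA]
  rcases eq_or_ne A 0 with h0 | h0
  · subst h0
    have h1 : fr (0 : S) d hA = 0 := by
      apply Subtype.ext
      change algebraMap S L 0 / _ = 0
      rw [map_zero, zero_div]
    rw [h1, map_zero, HahnSeries.coeff_zero]
    simp
  · have h1 := fr_order hι hG hG3 A d hA h0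
    have h2 : ι (fr A d hA) ≠ 0 := (map_ne_zero ι).2 (fr_ne_zero A d hA h0)
    constructor
    · intro h3
      by_contra h4
      rw [multiplicity_eq_zero.2 h4, Nat.cast_zero] at h1
      apply h2
      rw [← HahnSeries.coeff_order_eq_zero, h1]
      exact h3
    · intro h3
      apply HahnSeries.coeff_eq_zero_of_lt_order
      rw [h1]
      have h4 : multiplicity G A ≠ 0 := fun h5 => multiplicity_eq_zero.1 h5 h3
      have h5 : 0 < multiplicity G A := Nat.pos_of_ne_zero h4
      exact_mod_cast h5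

theorem lead_pt {t : Fin 3 → K3} {θ : Fin 3 → Derivation ℂ K3 K3} {G : S}
    {w : Fin 3 → ℤ} {m : Fin 3 → M} {D : Fin 3 → Derivation ℂ M M}
    {ι : K3 →ₐ[ℂ] HahnSeries ℤ M} (hι : Iota t θ G w m D ι)
    (hm : Function.Injective (aeval m : MvPolynomial (Fin 3) ℂ →ₐ[ℂ] M)) (hG : Irreducible G)
    (hG3 : ¬ G ∣ X 3) :
    Lead t G w m (fun a => (ι a).leadingCoeff) (pt ι) := by
  refine ⟨fun a b => ?_, fun a => ?_, fun p => ?_, ?_⟩
  · change (ι (a * b)).leadingCoeff = _
    rw [map_mul, HahnSeries.leadingCoeff_mul]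
  · change (ι a).leadingCoeff = 0 ↔ _
    rw [HahnSeries.leadingCoeff_eq_zero, map_eq_zero_iff ι ι.injective]
  · change (ι (aeval t p)).leadingCoeff = _
    have h1 : ι (aeval t p) = aeval (fun i => HahnSeries.single (w i) (m i)) p := by
      have h2 : (fun i => HahnSeries.single (w i) (m i)) = fun i => ι (t i) :=
        funext fun i => (hι.t_eq i).symm
      rw [h2]
      exact DFunLike.congr_fun (comp_aeval (R := ℂ) t ι) p
    rw [h1]
    rcases eq_or_ne p 0 with h0 | h0
    · subst h0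
      rw [map_zero, HahnSeries.leadingCoeff_zero]
      simp [initForm]
    · exact (order_aeval w m hm p h0).2.1
  · intro d A B hA hB hGA hGB a ha
    have hA0 : A ≠ 0 := fun h => hGA (h ▸ dvd_zero G)
    have hB0 : B ≠ 0 := fun h => hGB (h ▸ dvd_zero G)
    have key : ∀ (E : S) (hE : E.IsHomogeneous d), ¬ G ∣ E → E ≠ 0 →
        (ι (fr E d hE)).leadingCoeff = aeval (pt ι) E := by
      intro E hE hGE hE0
      rw [HahnSeries.leadingCoeff_eq, fr_order hι hG hG3 E d hE hE0, multiplicity_eq_zero.2 hGE,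
        aeval_pt hι hG hG3 E d hE]
      rfl
    have h1 : a * fr B d hB = fr A d hA := by
      apply Subtype.ext
      change (a : L) * (algebraMap S L B / _) = algebraMap S L A / _
      have h2 : algebraMap S L B ≠ 0 := by simpa using hB0
      rw [ha, div_mul_div_comm, mul_comm (algebraMap S L B), mul_div_mul_right _ _ h2]
    rw [← key A hA hGA hA0, ← key B hB hGB hB0]
    change (ι a).leadingCoeff * _ = _
    rw [← h1, map_mul, HahnSeries.leadingCoeff_mul]

end Pool.Agent.CLN
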