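import Pool.Agent.CLU.Defs

/-!
# CLN / LinA: cluster type is invariant under isomorphisms of the function field

`σ : K ≃ₐ[ℂ] K'`, `t' = σ ∘ t`, `θ'_j = σ θ_j σ⁻¹` (a derivation of `K'`), the determinant of
`(θ'_j a_i)` is `σ` of the determinant of `(θ_j σ⁻¹ a_i)`; `adjoin` is mapped by
`IntermediateField.adjoin_map` or by induction; `σ (aeval t n / aeval t d) = aeval t' n / aeval t' d`.
-/

set_option autoImplicit false

namespace Pool.Agent.CLN

open Pool.Agent.CLU

open MvPolynomial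

/-- the transported derivation -/
private noncomputable def tr {K K' : Type} [Field K] [Algebra ℂ K] [Field K'] [Algebra ℂ K']
    (σ : K ≃ₐ[ℂ] K') (D : Derivation ℂ K K) : Derivation ℂ K' K' :=
  Derivation.mk' (σ.toLinearMap ∘ₗ (D : K →ₗ[ℂ] K) ∘ₗ σ.symm.toLinearMap) (by
    intro a b
    change σ (D (σ.symm (a * b))) = a • σ (D (σ.symm b)) + b • σ (D (σ.symm a))
    rw [map_mul, Derivation.leibniz, map_add, smul_eq_mul, smul_eq_mul, map_mul, map_mul,
      AlgEquiv.apply_symm_apply, AlgEquiv.apply_symm_apply, smul_eq_mul, smul_eq_mul])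

theorem isClusterType_equiv {K K' : Type} [Field K] [Algebra ℂ K] [Field K'] [Algebra ℂ K']
    (σ : K ≃ₐ[ℂ] K') (𝒟 : Set (Set K)) (h : IsClusterType 𝒟) :
    IsClusterType {O' : Set K' | ∃ O ∈ 𝒟, O' = σ '' O} := by
  obtain ⟨t, θ, h1, h2, h3, h4, h5⟩ := h
  have htr : ∀ (j : Fin 3) (x : K), tr σ (θ j) (σ x) = σ (θ j x) := by
    intro j x
    change σ (θ j (σ.symm (σ x))) = σ (θ j x)
    rw [AlgEquiv.symm_apply_apply]
  have hae : ∀ n : MvPolynomial (Fin 3) ℂ, aeval (fun i => σ (t i)) n = σ (aeval t n) := by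
    intro n
    have := MvPolynomial.comp_aeval_apply (f := t) (φ := (σ : K →ₐ[ℂ] K')) n
    exact this.symm
  refine ⟨fun i => σ (t i), fun j => tr σ (θ j), ?_, ?_, ?_, ?_, ?_⟩
  · intro i h0
    exact h1 i ((map_eq_zero σ).1 h0)
  · intro i j
    rw [htr, h2]
    split_ifs
    · rfl
    · exact map_zero σ
  · have h6 : Set.range (fun i => σ (t i)) = (σ : K →ₐ[ℂ] K') '' Set.range t := by
      rw [← Set.range_comp]
      rfl
    rw [h6, ← IntermediateField.adjoin_map, h3]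
    rw [eq_top_iff]
    intro y _
    exact ⟨σ.symm y, trivial, AlgEquiv.apply_symm_apply σ y⟩
  · rintro O' ⟨O, hO, rfl⟩ a ha
    choose b hb hab using ha
    refine ⟨_, h4 O hO b hb, ?_⟩
    rw [AlgEquiv.map_det]
    congr 1
    ext i j
    change σ (θ j (b i)) = tr σ (θ j) (a i)
    rw [← hab, htr]
  · intro q hq hqX
    refine ⟨_, h5 q hq hqX, ?_⟩
    ext y
    constructor
    · rintro ⟨n, d, hd, rfl⟩
      refine ⟨aeval t n / aeval t d, ⟨n, d, hd, rfl⟩, ?_⟩
      rw [map_div₀, hae, hae]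
    · rintro ⟨x, ⟨n, d, hd, rfl⟩, rfl⟩
      refine ⟨n, d, hd, ?_⟩
      rw [map_div₀, hae, hae]

end Pool.Agent.CLN
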