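import Pool.Agent.CLN.LinA
import Pool.Agent.CLU.Van
import Pool.Agent.CLU.Coord

/-!
# CLN / LinB: linear changes of coordinates

`l, l'` inverse linear substitutions; `aeval l'` is an automorphism of `S` (inverse `aeval l`), it
extends to an automorphism of `L` (`IsFractionRing` / `IsLocalization.ringEquivOfRingEquiv`,
`FractionRing` algebra equivalence) which maps `K3` onto `K3` (forms to forms of the same degree:
`MvPolynomial.IsHomogeneous.aeval`); let `σ` be the restriction to `K3`.
`σ '' surfRing G = surfRing (aeval l' G)` (`aeval l' G` is irreducible and homogeneous).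
`vanTo_subst`: the iterated partial derivatives of order `k` of `aeval l' F` are linear combinations
of `aeval l'` of those of `F` and conversely (chain rule, `∂_j (l'_i)` constants), so by induction on `m`
(`CLU.vanTo_succ`) `VanTo (comap (aeval l) P) m (aeval l' F) ↔ VanTo P m F`.  So
`σ '' blowRing P = blowRing (comap (aeval l) P)`.
`comap (aeval l) P = {F | aeval l F ∈ P}`.
-/

set_option autoImplicit false

namespace Pool.Agent.CLN

open MvPolynomial Pool.Agent.CLU

private theorem vt_add (P : Ideal S) (m : ℕ) (F G : S) (hF : VanTo P m F) (hG : VanTo P m G) :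
    VanTo P m (F + G) := by
  induction m generalizing F G with
  | zero => exact vanTo_zero P _
  | succ m ih =>
    rw [vanTo_succ] at hF hG ⊢
    refine ⟨P.add_mem hF.1 hG.1, fun j => ?_⟩
    rw [map_add]
    exact ih _ _ (hF.2 j) (hG.2 j)

private theorem vt_C (P : Ideal S) (m : ℕ) (c : ℂ) (F : S) (hF : VanTo P m F) :
    VanTo P m (C c * F) := by
  induction m generalizing F with
  | zero => exact vanTo_zero P _
  | succ m ih =>
    rw [vanTo_succ] at hF ⊢
    refine ⟨P.mul_mem_left _ hF.1, fun j => ?_⟩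
    rw [pderiv_C_mul]
    exact ih _ (hF.2 j)

private theorem vt_zero' (P : Ideal S) (m : ℕ) : VanTo P m (0 : S) := by
  induction m with
  | zero => exact vanTo_zero P _
  | succ m ih =>
    rw [vanTo_succ]
    exact ⟨P.zero_mem, fun j => by rw [map_zero]; exact ih⟩

private theorem vt_sum (P : Ideal S) (m : ℕ) (f : Fin 4 → S) (hF : ∀ i, VanTo P m (f i)) :
    VanTo P m (∑ i, f i) := by
  classical
  have : ∀ s : Finset (Fin 4), VanTo P m (∑ i ∈ s, f i) := by
    intro s
    induction s using Finset.induction_on with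
    | empty => rw [Finset.sum_empty]; exact vt_zero' P m
    | insert a s ha ih =>
      rw [Finset.sum_insert ha]
      exact vt_add P m _ _ (hF a) ih
  exact this _

/-- chain rule -/
private theorem chain (l' : Fin 4 → S) (j : Fin 4) (F : S) :
    pderiv j (aeval l' F) = ∑ i, pderiv j (l' i) * aeval l' (pderiv i F) := by
  induction F using MvPolynomial.induction_on with
  | C a =>
    rw [aeval_C]
    simp
  | add p q hp hq =>
    rw [map_add, map_add, hp, hq, ← Finset.sum_add_distrib]
    refine Finset.sum_congr rfl fun i _ => ?_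
    rw [map_add, map_add, mul_add]
  | mul_X p n hp =>
    rw [map_mul, aeval_X, Derivation.leibniz, hp]
    have h1 : ∀ i, pderiv j (l' i) * aeval l' (pderiv i (p * X n)) =
        l' n * (pderiv j (l' i) * aeval l' (pderiv i p)) +
          (if i = n then pderiv j (l' n) * aeval l' p else 0) := by
      intro i
      rw [Derivation.leibniz, smul_eq_mul, smul_eq_mul, map_add, map_mul, map_mul, aeval_X]
      by_cases h : i = n
      · rw [if_pos h, h, pderiv_X_self, map_one]
        ring
      · rw [if_neg h, pderiv_X_of_ne (Ne.symm h), map_zero]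
        ring
    rw [Finset.sum_congr rfl fun i _ => h1 i, Finset.sum_add_distrib, ← Finset.mul_sum,
      Finset.sum_ite_eq' Finset.univ n, if_pos (Finset.mem_univ n), smul_eq_mul, smul_eq_mul]
    ring

private theorem pd_const {G : S} (hG : G.IsHomogeneous 1) (j : Fin 4) :
    ∃ c : ℂ, pderiv j G = C c := by
  have h1 := hG.pderiv (i := j)
  rw [Nat.sub_self, ← totalDegree_zero_iff_isHomogeneous, totalDegree_eq_zero_iff_eq_C] at h1
  exact ⟨_, h1⟩

private theorem vt_fwd (l l' : Fin 4 → S) (hl' : ∀ i, (l' i).IsHomogeneous 1)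
    (h1 : ∀ F : S, aeval l (aeval l' F) = F) (P : Ideal S) (m : ℕ) (F : S) (hF : VanTo P m F) :
    VanTo (Ideal.comap (aeval l : S →ₐ[ℂ] S) P) m (aeval l' F) := by
  induction m generalizing F with
  | zero => exact vanTo_zero _ _
  | succ m ih =>
    rw [vanTo_succ] at hF ⊢
    refine ⟨?_, fun j => ?_⟩
    · rw [Ideal.mem_comap, h1]
      exact hF.1
    · rw [chain]
      refine vt_sum _ _ _ fun i => ?_
      obtain ⟨c, hc⟩ := pd_const (hl' i) j
      rw [hc]
      exact vt_C _ _ _ _ (ih _ (hF.2 i))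

theorem vanTo_subst (l l' : Fin 4 → S) (hl : ∀ i, (l i).IsHomogeneous 1)
    (hl' : ∀ i, (l' i).IsHomogeneous 1)
    (h1 : ∀ F : S, aeval l (aeval l' F) = F) (h2 : ∀ F : S, aeval l' (aeval l F) = F)
    (P : Ideal S) (m : ℕ) (F : S) :
    VanTo (Ideal.comap (aeval l : S →ₐ[ℂ] S) P) m (aeval l' F) ↔ VanTo P m F := by
  refine ⟨fun h => ?_, vt_fwd l l' hl' h1 P m F⟩
  have h3 := vt_fwd l' l hl h2 _ m _ h
  rw [h1] at h3
  have h4 : Ideal.comap (aeval l' : S →ₐ[ℂ] S) (Ideal.comap (aeval l : S →ₐ[ℂ] S) P) = P := by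
    ext G
    rw [Ideal.mem_comap, Ideal.mem_comap, h1]
  rwa [h4] at h3

/-- The automorphism of `S`. -/
private noncomputable def autS (l l' : Fin 4 → S) (h1 : ∀ F : S, aeval l (aeval l' F) = F)
    (h2 : ∀ F : S, aeval l' (aeval l F) = F) : S ≃ₐ[ℂ] S :=
  AlgEquiv.ofAlgHom (aeval l') (aeval l) (AlgHom.ext h2) (AlgHom.ext h1)

private theorem exists_sigma (l l' : Fin 4 → S) (hl : ∀ i, (l i).IsHomogeneous 1)
    (hl' : ∀ i, (l' i).IsHomogeneous 1)
    (h1 : ∀ F : S, aeval l (aeval l' F) = F) (h2 : ∀ F : S, aeval l' (aeval l F) = F) :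
    ∃ σ : K3 ≃ₐ[ℂ] K3, ∀ (A B : S) (a : K3), (a : L) = algebraMap S L A / algebraMap S L B →
      ((σ a : K3) : L) = algebraMap S L (aeval l' A) / algebraMap S L (aeval l' B) := by
  set e := autS l l' h1 h2 with he
  have hM : Submonoid.map (e : S ≃ₐ[ℂ] S) (nonZeroDivisors S) = nonZeroDivisors S := by
    ext x
    constructor
    · rintro ⟨y, hy, rfl⟩
      have hy' := nonZeroDivisors.ne_zero hy
      refine mem_nonZeroDivisors_of_ne_zero fun h0 => hy' ?_
      exact (map_eq_zero_iff e e.injective).1 h0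
    · intro hx
      refine ⟨e.symm x, mem_nonZeroDivisors_of_ne_zero fun h0 => ?_, e.apply_symm_apply x⟩
      exact nonZeroDivisors.ne_zero hx ((map_eq_zero_iff e.symm e.symm.injective).1 h0)
  set τ : L ≃ₐ[ℂ] L := IsLocalization.algEquivOfAlgEquiv L L e hM with hτ
  have hτe : ∀ A : S, τ (algebraMap S L A) = algebraMap S L (aeval l' A) :=
    fun A => IsLocalization.algEquivOfAlgEquiv_eq hM A
  have hmap : K3.map τ.toAlgHom = K3 := by
    ext x
    constructor
    · rintro ⟨y, hy, rfl⟩
      obtain ⟨d, A, B, hA, hB, hB0, rfl⟩ := hy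
      refine ⟨d, aeval l' A, aeval l' B, ?_, ?_, ?_, ?_⟩
      · have := hA.aeval l' hl'
        rwa [one_mul] at this
      · have := hB.aeval l' hl'
        rwa [one_mul] at this
      · intro h0
        apply hB0
        rw [← h1 B, h0, map_zero]
      · change τ _ = _
        rw [map_div₀, hτe, hτe]
    · rintro ⟨d, A, B, hA, hB, hB0, rfl⟩
      refine ⟨algebraMap S L (aeval l A) / algebraMap S L (aeval l B), ?_, ?_⟩
      · refine ⟨d, aeval l A, aeval l B, ?_, ?_, ?_, rfl⟩
        · have := hA.aeval l hl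
          rwa [one_mul] at this
        · have := hB.aeval l hl
          rwa [one_mul] at this
        · intro h0
          apply hB0
          rw [← h2 B, h0, map_zero]
      · change τ _ = _
        rw [map_div₀, hτe, hτe, h2, h2]
  refine ⟨(IntermediateField.intermediateFieldMap τ K3).trans
    (IntermediateField.equivOfEq hmap), fun A B a ha => ?_⟩
  change τ (a : L) = _
  rw [ha, map_div₀, hτe, hτe]

theorem isClusterType_subst (l l' : Fin 4 → S) (hl : ∀ i, (l i).IsHomogeneous 1)
    (hl' : ∀ i, (l' i).IsHomogeneous 1)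
    (h1 : ∀ F : S, aeval l (aeval l' F) = F) (h2 : ∀ F : S, aeval l' (aeval l F) = F)
    (P : Ideal S) (h : IsClusterType (primeDivisors {P})) :
    IsClusterType (primeDivisors {Ideal.comap (aeval l : S →ₐ[ℂ] S) P}) := by
  obtain ⟨σ, hσ⟩ := exists_sigma l l' hl hl' h1 h2
  have hom : ∀ {d : ℕ} {A : S}, A.IsHomogeneous d → (aeval l A).IsHomogeneous d := by
    intro d A hA
    have := hA.aeval l hl
    rwa [one_mul] at this
  have hom' : ∀ {d : ℕ} {A : S}, A.IsHomogeneous d → (aeval l' A).IsHomogeneous d := by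
    intro d A hA
    have := hA.aeval l' hl'
    rwa [one_mul] at this
  -- the preimage of a quotient
  have hpre : ∀ (d : ℕ) (A B : S) (b : K3), A.IsHomogeneous d → B.IsHomogeneous d →
      (b : L) = algebraMap S L A / algebraMap S L B →
      ∃ a : K3, (a : L) = algebraMap S L (aeval l A) / algebraMap S L (aeval l B) ∧ σ a = b := by
    intro d A B b hA hB hb
    refine ⟨⟨_, ratio_mem d (aeval l A) (aeval l B) (hom hA) (hom hB)⟩, rfl, ?_⟩
    apply Subtype.ext
    rw [hσ (aeval l A) (aeval l B) _ rfl, h2, h2, hb]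
  have hs : ∀ G : S, σ '' surfRing G = surfRing (aeval l' G) := by
    intro G
    ext b
    constructor
    · rintro ⟨a, ⟨d, A, B, hA, hB, hGB, ha⟩, rfl⟩
      refine ⟨d, aeval l' A, aeval l' B, hom' hA, hom' hB, fun hd => hGB ?_, hσ A B a ha⟩
      have := map_dvd (aeval l : S →ₐ[ℂ] S) hd
      rwa [h1, h1] at this
    · rintro ⟨d, A, B, hA, hB, hGB, hb⟩
      obtain ⟨a, ha, rfl⟩ := hpre d A B b hA hB hb
      refine ⟨a, ⟨d, aeval l A, aeval l B, hom hA, hom hB, fun hd => hGB ?_, ha⟩, rfl⟩
      have := map_dvd (aeval l' : S →ₐ[ℂ] S) hd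
      rwa [h2] at this
  have hbl : σ '' blowRing P = blowRing (Ideal.comap (aeval l : S →ₐ[ℂ] S) P) := by
    ext b
    constructor
    · rintro ⟨a, ⟨d, A, B, hA, hB, hB0, hv, ha⟩, rfl⟩
      refine ⟨d, aeval l' A, aeval l' B, hom' hA, hom' hB, fun h0 => hB0 ?_, fun m hm => ?_,
        hσ A B a ha⟩
      · rw [← h1 B, h0, map_zero]
      · rw [vanTo_subst l l' hl hl' h1 h2] at hm ⊢
        exact hv m hm
    · rintro ⟨d, A, B, hA, hB, hB0, hv, hb⟩
      obtain ⟨a, ha, rfl⟩ := hpre d A B b hA hB hb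
      refine ⟨a, ⟨d, aeval l A, aeval l B, hom hA, hom hB, fun h0 => hB0 ?_, fun m hm => ?_,
        ha⟩, rfl⟩
      · rw [← h2 B, h0, map_zero]
      · have h5 := (vanTo_subst l l' hl hl' h1 h2 P m (aeval l B)).2 hm
        rw [h2] at h5
        have h6 := hv m h5
        have h7 := (vanTo_subst l l' hl hl' h1 h2 P m (aeval l A)).1
        rw [h2] at h7
        exact h7 h6
  have hirr : ∀ G : S, Irreducible G → Irreducible (aeval l' G) := by
    intro G hG
    have := (MulEquiv.irreducible_iff (autS l l' h1 h2)).2 hG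
    exact this
  have hirr' : ∀ G : S, Irreducible G → Irreducible (aeval l G) := by
    intro G hG
    have := (MulEquiv.irreducible_iff (autS l l' h1 h2).symm).2 hG
    exact this
  have h3 := isClusterType_equiv σ _ h
  have h4 : {O' : Set K3 | ∃ O ∈ primeDivisors {P}, O' = σ '' O} =
      primeDivisors {Ideal.comap (aeval l : S →ₐ[ℂ] S) P} := by
    ext O'
    constructor
    · rintro ⟨O, hO, rfl⟩
      rcases hO with ⟨d, G, hG, hGh, rfl⟩ | ⟨P', hP', rfl⟩
      · exact Or.inl ⟨d, aeval l' G, hirr G hG, hom' hGh, hs G⟩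
      · rw [Set.mem_singleton_iff] at hP'
        rw [hP']
        exact Or.inr ⟨_, rfl, hbl⟩
    · rintro (⟨d, G, hG, hGh, rfl⟩ | ⟨P', hP', rfl⟩)
      · refine ⟨surfRing (aeval l G), Or.inl ⟨d, aeval l G, hirr' G hG, hom hGh, rfl⟩, ?_⟩
        rw [hs, h2]
      · rw [Set.mem_singleton_iff] at hP'
        rw [hP']
        exact ⟨blowRing P, Or.inr ⟨P, rfl, rfl⟩, hbl.symm⟩
  rwa [h4] at h3

end Pool.Agent.CLN
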