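import Pool.Agent.CLN.C2Defs

/-!
# CLN / Loc: definitions for the local part of the surface lemma

Coordinates `x = X 0`, `y = X 1`, `z = X 2`, `h = X 3`; the surface `xyz + e0 x^3 + e3 y^3 + h q = 0`,
centre `(0, 0, 1, 0)`.
-/

set_option autoImplicit false

namespace Pool.Agent.CLN

open MvPolynomial Pool.Agent.CLU

/-- The cubic form `xyz + e0 x^3 + e3 y^3 + h q`. -/
noncomputable def cub (e0 e3 : ℂ) (q : S) : S :=
  X 0 * X 1 * X 2 + C e0 * X 0 ^ 3 + C e3 * X 1 ^ 3 + X 3 * q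

/-- A point of the surface with centre `(0, 0, 1, 0)`. -/
structure Pt (e0 e3 : ℂ) (q : S) (x : Fin 4 → HH) : Prop where
  q_hom : q.IsHomogeneous 2
  q_z : eval (Pi.single 2 1) q ≠ 0
  x2 : x 2 = 1
  ne0 : x 0 ≠ 0
  ne1 : x 1 ≠ 0
  ne3 : x 3 ≠ 0
  pos0 : 0 < (x 0).order
  pos1 : 0 < (x 1).order
  pos3 : 0 < (x 3).order
  rel : aeval x (cub e0 e3 q) = 0

/-- A point of the surface with the bracket relations. -/
structure Loc (e0 e3 : ℂ) (q : S) (w1 w2 : ℝ →+ ℂ) (x : Fin 4 → HH) : Prop where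
  pt : Pt e0 e3 q x
  q_x : e0 = 0 → eval (Pi.single 0 1) q ≠ 0
  q_y : e3 = 0 → eval (Pi.single 1 1) q ≠ 0
  br01 : ∃ k : ℂ, k ≠ 0 ∧ br (DD w1) (DD w2) (x 0) (x 1) =
    algebraMap ℂ HH k * (x 3 * aeval x (pderiv 3 (cub e0 e3 q)))
  br30 : ∃ k : ℂ, k ≠ 0 ∧ br (DD w1) (DD w2) (x 3) (x 0) =
    algebraMap ℂ HH k * (x 3 * aeval x (pderiv 1 (cub e0 e3 q)))
  br31 : ∃ k : ℂ, k ≠ 0 ∧ br (DD w1) (DD w2) (x 3) (x 1) =
    algebraMap ℂ HH k * (x 3 * aeval x (pderiv 0 (cub e0 e3 q)))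

/-- Orders independent over `ℤ`. -/
def Ind (a b : ℝ) : Prop := ∀ i j : ℤ, (i : ℝ) * a + (j : ℝ) * b = 0 → i = 0 ∧ j = 0

end Pool.Agent.CLN
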