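import Pool.Agent.CLN.LocL

/-!
# CLN / LocForm: the local lemma for forms

`local_form`: put `z = 1`: `F = aeval ![X 0, X 1, 1, X 2] (cub e0 e3 q)`, `B1 = aeval ![X 0, X 1, 1, X 2] B`,
`U = aeval ![..] q` (`U(0) = q(0,0,1,0) ≠ 0`), `K0 = X 0 * X 1 + e0 X 0^3 + e3 X 1^3`; `ξ = (x_0, x_1, x_3)`;
the arc `(y_0, y_1, y_3) / y_2` (`y_2` is a unit of `PowerSeries ℂ`); `B1` of it is `y_2^(-k) B(y)`.
`local_formB` (`e0 = 0`): coordinates `κ = x + e3 y^2`, `y`, `h` (`z = 1`):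
`F = aeval ![X 0 - e3 X 1^2, X 1, 1, X 2] (cub 0 e3 q) = X 1 * X 0 + X 2 * U`,
`U = aeval ![X 0 - e3 X 1^2, X 1, 1, X 2] q`, `K0 = X 0 * X 1`, `ξ = (x_0 + e3 x_1^2, x_1, x_3)`, the arc
`(y_0 / y_2 + e3 (y_1 / y_2)^2, y_1 / y_2, y_3 / y_2)`.
-/

set_option autoImplicit false

namespace Pool.Agent.CLN

open MvPolynomial Pool.Agent.CLU

private theorem lf_smul {A : Type} [CommRing A] [Algebra ℂ A] (F : S) (d : ℕ)
    (hF : F.IsHomogeneous d) (μ : A) (x : Fin 4 → A) :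
    aeval (fun i => μ * x i) F = μ ^ d * aeval x F := by
  rw [aeval_def, aeval_def, eval₂_eq', eval₂_eq', Finset.mul_sum]
  refine Finset.sum_congr rfl fun m hm => ?_
  have h1 : m.degree = d := by
    have h2 := hF (mem_support_iff.1 hm)
    rw [← h2, Finsupp.degree_eq_weight_one]
    rfl
  have h3 : ∏ i, (μ * x i) ^ m i = μ ^ d * ∏ i, x i ^ m i := by
    simp only [mul_pow]
    rw [Finset.prod_mul_distrib, Finset.prod_pow_eq_pow_sum, ← h1, Finsupp.degree_eq_sum]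
  rw [h3]
  ring

private theorem cub_hom (e0 e3 : ℂ) {q : S} (hq : q.IsHomogeneous 2) :
    (cub e0 e3 q).IsHomogeneous 3 := by
  unfold cub
  refine (((?_ : IsHomogeneous _ 3).add ?_).add ?_).add ?_
  · exact ((isHomogeneous_X ℂ 0).mul (isHomogeneous_X ℂ 1)).mul (isHomogeneous_X ℂ 2)
  · have h := (isHomogeneous_C (Fin 4) e0).mul ((isHomogeneous_X ℂ (0 : Fin 4)).pow 3)
    simpa using h
  · have h := (isHomogeneous_C (Fin 4) e3).mul ((isHomogeneous_X ℂ (1 : Fin 4)).pow 3)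
    simpa using h
  · exact (isHomogeneous_X ℂ 3).mul hq

/-- the inverse of the unit `y_2` -/
private theorem exists_inv (y : PowerSeries ℂ) (hy : PowerSeries.constantCoeff y ≠ 0) :
    ∃ μ : PowerSeries ℂ, y * μ = 1 ∧ IsUnit μ := by
  refine ⟨y⁻¹, PowerSeries.mul_inv_cancel y hy, ?_⟩
  exact IsUnit.of_mul_eq_one y (by rw [mul_comm]; exact PowerSeries.mul_inv_cancel y hy)

private theorem constCoeff_sub (g : Fin 4 → R3) (c : Fin 4 → ℂ)
    (hg : ∀ i, constantCoeff (g i) = c i) (q : S) :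
    constantCoeff (aeval g q) = eval c q := by
  have h : ((constantCoeff : R3 →+* ℂ).comp (aeval g : S →ₐ[ℂ] R3).toRingHom) = eval c := by
    refine ringHom_ext ?_ ?_
    · intro a
      simp
    · intro i
      simp [hg i]
  exact congrArg (fun f : S →+* ℂ => f q) h

theorem local_form {e0 e3 : ℂ} {q : S} {x : Fin 4 → HH} (h : Pt e0 e3 q x)
    (hind : Ind (x 0).order (x 1).order) (d : ℕ) (B : S) (hBh : B.IsHomogeneous d)
    (hB : aeval x B ≠ 0)
    (y : Fin 4 → PowerSeries ℂ) (hy0 : PowerSeries.X ∣ y 0) (hy1 : PowerSeries.X ∣ y 1)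
    (hy2 : PowerSeries.constantCoeff (y 2) ≠ 0) (hy3 : PowerSeries.X ∣ y 3)
    (hFy : aeval y (cub e0 e3 q) = 0)
    (k : ℝ) (hk : 0 ≤ k) (n0 n1 : ℕ) (h0 : PowerSeries.X ^ n0 ∣ y 0)
    (h1 : PowerSeries.X ^ n1 ∣ y 1) (hk0 : k * (x 0).order ≤ n0) (hk1 : k * (x 1).order ≤ n1)
    (n : ℕ) (hn : ¬ PowerSeries.X ^ (n + 1) ∣ aeval y B) :
    k * (aeval x B).order ≤ n := by
  obtain ⟨μ, hμ, hμu⟩ := exists_inv (y 2) hy2
  set g : Fin 4 → R3 := ![X 0, X 1, 1, X 2] with hg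
  set ξ : Fin 3 → HH := ![x 0, x 1, x 3] with hξ
  set s : Fin 3 → PowerSeries ℂ := ![μ * y 0, μ * y 1, μ * y 3] with hs
  have eξ : ∀ G : S, aeval ξ (aeval g G) = aeval x G := by
    intro G
    rw [comp_aeval_apply]
    congr 2
    funext i
    fin_cases i
    · simp [hg, hξ]
    · simp [hg, hξ]
    · simp [hg, h.x2]
    · simp [hg, hξ]
  have es : ∀ (m : ℕ) (G : S), G.IsHomogeneous m → aeval s (aeval g G) = μ ^ m * aeval y G := by
    intro m G hG
    rw [comp_aeval_apply, ← lf_smul G m hG]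
    congr 2
    funext i
    fin_cases i
    · simp [hg, hs]
    · simp [hg, hs]
    · simp only [hg]
      change aeval s (1 : R3) = μ * y 2
      rw [map_one, mul_comm, hμ]
    · simp [hg, hs]
  set K0 : MvPolynomial (Fin 2) ℂ := X 0 * X 1 + C e0 * X 0 ^ 3 + C e3 * X 1 ^ 3 with hK0
  have hF : aeval g (cub e0 e3 q) = X 2 * aeval g q + aeval ![(X 0 : R3), X 1] K0 := by
    rw [cub, hK0]
    simp only [map_add, map_mul, map_pow, aeval_X, algHom_C, algebraMap_eq]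
    simp only [hg]
    change X 0 * X 1 * 1 + C e0 * X 0 ^ 3 + C e3 * X 1 ^ 3 + X 2 * aeval _ q =
      X 2 * aeval _ q + (X 0 * X 1 + C e0 * X 0 ^ 3 + C e3 * X 1 ^ 3)
    ring
  have hU : constantCoeff (aeval g q) ≠ 0 := by
    rw [constCoeff_sub g (Pi.single 2 1) (by
      intro i
      fin_cases i
      · simp [hg]
      · simp [hg]
      · simp [hg]
      · simp [hg]) q]
    exact h.q_z
  have hK : constantCoeff K0 = 0 := by
    rw [hK0]
    simp
  set ε : ℝ := min (x 0).order (min (x 1).order (x 3).order) with hε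
  have hε0 : 0 < ε := lt_min h.pos0 (lt_min h.pos1 h.pos3)
  have hGe : ∀ i, Ge ε (ξ i) := by
    intro i
    fin_cases i
    · exact ge_of_le_order (min_le_left _ _)
    · exact ge_of_le_order ((min_le_right _ _).trans (min_le_left _ _))
    · exact ge_of_le_order ((min_le_right _ _).trans (min_le_right _ _))
  have hres := local_lemma (aeval g (cub e0 e3 q)) (aeval g q) K0 hF hU hK ξ ε hε0 hGe h.ne0 h.ne1
    hind (by rw [eξ, h.rel]) (aeval g B) (by rw [eξ]; exact hB) s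
    (by
      intro i
      fin_cases i
      · exact hy0.mul_left μ
      · exact hy1.mul_left μ
      · exact hy3.mul_left μ)
    (by rw [es 3 _ (cub_hom e0 e3 h.q_hom), hFy, mul_zero]) k hk n0 n1
    (h0.mul_left μ) (h1.mul_left μ) hk0 hk1 n
    (by
      rw [es d B hBh]
      intro hd
      exact hn ((hμu.pow d).dvd_mul_left.1 hd))
  rwa [eξ] at hres

theorem local_formB {e3 : ℂ} {q : S} {x : Fin 4 → HH} (h : Pt 0 e3 q x)
    (hκ : x 0 + algebraMap ℂ HH e3 * x 1 ^ 2 ≠ 0)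
    (hind : Ind (x 0 + algebraMap ℂ HH e3 * x 1 ^ 2).order (x 1).order) (d : ℕ) (B : S)
    (hBh : B.IsHomogeneous d) (hB : aeval x B ≠ 0)
    (y : Fin 4 → PowerSeries ℂ) (hy0 : PowerSeries.X ∣ y 0) (hy1 : PowerSeries.X ∣ y 1)
    (hy2 : PowerSeries.constantCoeff (y 2) ≠ 0) (hy3 : PowerSeries.X ∣ y 3)
    (hFy : aeval y (cub 0 e3 q) = 0)
    (k : ℝ) (hk : 0 ≤ k) (n0 n1 : ℕ)
    (h0 : PowerSeries.X ^ n0 ∣ y 0 * y 2 + algebraMap ℂ (PowerSeries ℂ) e3 * y 1 ^ 2)
    (h1 : PowerSeries.X ^ n1 ∣ y 1)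
    (hk0 : k * (x 0 + algebraMap ℂ HH e3 * x 1 ^ 2).order ≤ n0)
    (hk1 : k * (x 1).order ≤ n1)
    (n : ℕ) (hn : ¬ PowerSeries.X ^ (n + 1) ∣ aeval y B) :
    k * (aeval x B).order ≤ n := by
  obtain ⟨μ, hμ, hμu⟩ := exists_inv (y 2) hy2
  set g : Fin 4 → R3 := ![X 0 - C e3 * X 1 ^ 2, X 1, 1, X 2] with hg
  set ξ : Fin 3 → HH := ![x 0 + algebraMap ℂ HH e3 * x 1 ^ 2, x 1, x 3] with hξ
  set s : Fin 3 → PowerSeries ℂ :=
    ![μ * y 0 + algebraMap ℂ (PowerSeries ℂ) e3 * (μ * y 1) ^ 2, μ * y 1, μ * y 3] with hs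
  have eξ : ∀ G : S, aeval ξ (aeval g G) = aeval x G := by
    intro G
    rw [comp_aeval_apply]
    congr 2
    funext i
    fin_cases i
    · change aeval ξ (X 0 - C e3 * X 1 ^ 2 : R3) = x 0
      rw [map_sub, map_mul, map_pow, aeval_X, aeval_X, aeval_C]
      change x 0 + algebraMap ℂ HH e3 * x 1 ^ 2 - algebraMap ℂ HH e3 * x 1 ^ 2 = x 0
      ring
    · simp [hg, hξ]
    · simp [hg, h.x2]
    · simp [hg, hξ]
  have es : ∀ (m : ℕ) (G : S), G.IsHomogeneous m → aeval s (aeval g G) = μ ^ m * aeval y G := by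
    intro m G hG
    rw [comp_aeval_apply, ← lf_smul G m hG]
    congr 2
    funext i
    fin_cases i
    · change aeval s (X 0 - C e3 * X 1 ^ 2 : R3) = μ * y 0
      rw [map_sub, map_mul, map_pow, aeval_X, aeval_X, aeval_C]
      change μ * y 0 + algebraMap ℂ (PowerSeries ℂ) e3 * (μ * y 1) ^ 2 -
        algebraMap ℂ (PowerSeries ℂ) e3 * (μ * y 1) ^ 2 = μ * y 0
      ring
    · simp [hg, hs]
    · change aeval s (1 : R3) = μ * y 2
      rw [map_one, mul_comm, hμ]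
    · simp [hg, hs]
  set K0 : MvPolynomial (Fin 2) ℂ := X 0 * X 1 with hK0
  have hF : aeval g (cub 0 e3 q) = X 2 * aeval g q + aeval ![(X 0 : R3), X 1] K0 := by
    rw [cub, hK0]
    simp only [map_add, map_mul, map_pow, aeval_X, algHom_C, algebraMap_eq]
    simp only [hg]
    change (X 0 - C e3 * X 1 ^ 2) * X 1 * 1 + C 0 * (X 0 - C e3 * X 1 ^ 2) ^ 3 +
      C e3 * X 1 ^ 3 + X 2 * aeval _ q = X 2 * aeval _ q + X 0 * X 1
    rw [C_0]
    ring
  have hU : constantCoeff (aeval g q) ≠ 0 := by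
    rw [constCoeff_sub g (Pi.single 2 1) (by
      intro i
      fin_cases i
      · simp [hg]
      · simp [hg]
      · simp [hg]
      · simp [hg]) q]
    exact h.q_z
  have hK : constantCoeff K0 = 0 := by
    rw [hK0]
    simp
  set ε : ℝ := min (x 0).order (min (x 1).order (x 3).order) with hε
  have hε0 : 0 < ε := lt_min h.pos0 (lt_min h.pos1 h.pos3)
  have hG0 : Ge ε (x 0) := ge_of_le_order (min_le_left _ _)
  have hG1 : Ge ε (x 1) := ge_of_le_order ((min_le_right _ _).trans (min_le_left _ _))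
  have hGe : ∀ i, Ge ε (ξ i) := by
    intro i
    fin_cases i
    · refine hG0.add ?_
      have h2 := (ge_algebraMap e3).mul (hG1.mul hG1)
      rw [← pow_two] at h2
      exact h2.mono (by linarith)
    · exact hG1
    · exact ge_of_le_order ((min_le_right _ _).trans (min_le_right _ _))
  have hs0 : μ * y 0 + algebraMap ℂ (PowerSeries ℂ) e3 * (μ * y 1) ^ 2 =
      μ ^ 2 * (y 0 * y 2 + algebraMap ℂ (PowerSeries ℂ) e3 * y 1 ^ 2) := by
    linear_combination (-(μ * y 0)) * hμ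
  have hres := local_lemma (aeval g (cub 0 e3 q)) (aeval g q) K0 hF hU hK ξ ε hε0 hGe hκ h.ne1
    hind (by rw [eξ, h.rel]) (aeval g B) (by rw [eξ]; exact hB) s
    (by
      intro i
      fin_cases i
      · exact dvd_add (hy0.mul_left μ)
          (Dvd.dvd.mul_left (dvd_pow (hy1.mul_left μ) two_ne_zero) _)
      · exact hy1.mul_left μ
      · exact hy3.mul_left μ)
    (by rw [es 3 _ (cub_hom 0 e3 h.q_hom), hFy, mul_zero]) k hk n0 n1
    (by
      change _ ∣ μ * y 0 + algebraMap ℂ (PowerSeries ℂ) e3 * (μ * y 1) ^ 2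
      rw [hs0]
      exact h0.mul_left _)
    (h1.mul_left μ) hk0 hk1 n
    (by
      rw [es d B hBh]
      intro hd
      exact hn ((hμu.pow d).dvd_mul_left.1 hd))
  rwa [eξ] at hres

end Pool.Agent.CLN
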