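import Pool.Agent.CLN.Loc
import Pool.Agent.CLN.HahnV
import Pool.Agent.CLN.Approx

/-!
# CLN / LocL: the local lemma

`F(ξ) = 0`, `ξ_i` of positive order `≥ ε > 0`, `α = V(ξ_0)`, `β = V(ξ_1)` independent over `ℤ`;
an arc `s` in power series without constant term, `F(s) = 0`, `T^{n0} ∣ s_0`, `T^{n1} ∣ s_1`,
`k α ≤ n0`, `k β ≤ n1`.  Claim: `k V(B(ξ)) ≤ n` if `T^(n+1) ∤ B(s)`.
Proof: suppose `n < k V(B(ξ))`.  Choose `N ≥ n + 1` with `N ε > V(B(ξ))` and `p` by `approx`:
`B = p(u, v) + F C + M`, `M ∈ m^N`.  `M(ξ)` is `Ge (N ε)` (`m^N` is generated by products of `N`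
variables), so `p(ξ_0, ξ_1)` has order `V(B(ξ))`.  The monomials `ξ_0^i ξ_1^j` have the distinct orders
`i α + j β`, so every monomial `(i, j)` in the support of `p` has `i α + j β ≥ V(B(ξ))` (otherwise take
the one of least order: the coefficient of `p(ξ_0, ξ_1)` there is not `0`).  Then
`i n0 + j n1 ≥ k (i α + j β) ≥ k V(B(ξ)) > n`, so `T^(n+1) ∣ s_0^i s_1^j`; hence `T^(n+1)` divides
`p(s_0, s_1)`, `M(s)` and `F(s) = 0`, so it divides `B(s)`, contradiction.
-/

set_option autoImplicit false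

namespace Pool.Agent.CLN

open MvPolynomial

private theorem ge_aeval (ξ : Fin 3 → HH) {ε : ℝ} (hε : 0 < ε) (hξ : ∀ i, Ge ε (ξ i)) (f : R3) :
    Ge 0 (aeval ξ f) := by
  induction f using MvPolynomial.induction_on with
  | C a =>
    rw [aeval_C]
    exact ge_algebraMap a
  | add f g hf hg =>
    rw [map_add]
    exact hf.add hg
  | mul_X f i hf =>
    rw [map_mul, aeval_X]
    have h := hf.mul (hξ i)
    exact h.mono (by linarith)

private theorem ge_ideal (ξ : Fin 3 → HH) {ε : ℝ} (hε : 0 < ε) (hξ : ∀ i, Ge ε (ξ i)) (N : ℕ)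
    (f : R3) (hf : f ∈ Ideal.span {(X 0 : R3), X 1, X 2} ^ N) : Ge (N * ε) (aeval ξ f) := by
  have h1 : ∀ g ∈ Ideal.span {(X 0 : R3), X 1, X 2}, Ge ε (aeval ξ g) := by
    intro g hg
    induction hg using Submodule.span_induction with
    | mem x hx =>
      simp only [Set.mem_insert_iff, Set.mem_singleton_iff] at hx
      rcases hx with rfl | rfl | rfl
      · rw [aeval_X]; exact hξ 0
      · rw [aeval_X]; exact hξ 1
      · rw [aeval_X]; exact hξ 2
    | zero =>
      rw [map_zero]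
      exact ge_zero ε
    | add x y _ _ hx hy =>
      rw [map_add]
      exact hx.add hy
    | smul a x _ hx =>
      rw [smul_eq_mul, map_mul]
      have h := (ge_aeval ξ hε hξ a).mul hx
      exact h.mono (by linarith)
  induction N generalizing f with
  | zero =>
    rw [Nat.cast_zero, zero_mul]
    exact ge_aeval ξ hε hξ f
  | succ N ih =>
    rw [pow_succ] at hf
    induction hf using Submodule.mul_induction_on' with
    | mem_mul_mem a ha b hb =>
      rw [map_mul]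
      have h := (ih a ha).mul (h1 b hb)
      refine h.mono (le_of_eq ?_)
      push_cast
      ring
    | add x _ y _ hx hy =>
      rw [map_add]
      exact hx.add hy

private theorem dvd_ideal (s : Fin 3 → PowerSeries ℂ) (hs : ∀ i, PowerSeries.X ∣ s i) (N : ℕ)
    (f : R3) (hf : f ∈ Ideal.span {(X 0 : R3), X 1, X 2} ^ N) :
    PowerSeries.X ^ N ∣ aeval s f := by
  have h1 : (Ideal.span {(X 0 : R3), X 1, X 2}).map (aeval s).toRingHom ≤
      Ideal.span {(PowerSeries.X : PowerSeries ℂ)} := by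
    rw [Ideal.map_span, Ideal.span_le]
    rintro _ ⟨x, hx, rfl⟩
    simp only [Set.mem_insert_iff, Set.mem_singleton_iff] at hx
    rw [SetLike.mem_coe, Ideal.mem_span_singleton]
    change _ ∣ aeval s x
    rcases hx with rfl | rfl | rfl
    · rw [aeval_X]; exact hs 0
    · rw [aeval_X]; exact hs 1
    · rw [aeval_X]; exact hs 2
  have h2 := Ideal.mem_map_of_mem (aeval s).toRingHom hf
  rw [Ideal.map_pow] at h2
  have h3 := Ideal.pow_right_mono h1 N h2
  rw [Ideal.span_singleton_pow, Ideal.mem_span_singleton] at h3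
  exact h3

private theorem order_le_support (a b : HH) (ha : a ≠ 0) (hb : b ≠ 0)
    (hind : Ind a.order b.order) (p : MvPolynomial (Fin 2) ℂ) (m : Fin 2 →₀ ℕ)
    (hm : m ∈ p.support) :
    (aeval ![a, b] p).order ≤ (m 0 : ℝ) * a.order + (m 1 : ℝ) * b.order := by
  classical
  obtain ⟨m', hm', hmin⟩ := Finset.exists_min_image p.support
    (fun m : Fin 2 →₀ ℕ => (m 0 : ℝ) * a.order + (m 1 : ℝ) * b.order) ⟨m, hm⟩
  refine le_trans ?_ (hmin m hm)
  have hterm : ∀ d : Fin 2 →₀ ℕ, a ^ d 0 * b ^ d 1 ≠ 0 ∧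
      (a ^ d 0 * b ^ d 1).order = (d 0 : ℝ) * a.order + (d 1 : ℝ) * b.order := by
    intro d
    have h1 : a ^ d 0 ≠ 0 := pow_ne_zero _ ha
    have h2 : b ^ d 1 ≠ 0 := pow_ne_zero _ hb
    refine ⟨mul_ne_zero h1 h2, ?_⟩
    rw [HahnSeries.order_mul h1 h2, HahnSeries.order_pow, HahnSeries.order_pow, nsmul_eq_mul,
      nsmul_eq_mul]
  have hsum : aeval ![a, b] p =
      ∑ d ∈ p.support, algebraMap ℂ HH (p.coeff d) * (a ^ d 0 * b ^ d 1) := by
    rw [aeval_def, eval₂_eq']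
    refine Finset.sum_congr rfl fun d _ => ?_
    rw [Fin.prod_univ_two]
    rfl
  have hcoef : (aeval ![a, b] p).coeff ((m' 0 : ℝ) * a.order + (m' 1 : ℝ) * b.order) =
      p.coeff m' * (a ^ m' 0 * b ^ m' 1).coeff ((m' 0 : ℝ) * a.order + (m' 1 : ℝ) * b.order) := by
    rw [hsum, HahnSeries.coeff_sum, Finset.sum_eq_single m']
    · rw [algebraMap_HH, HahnSeries.C_mul_eq_smul, HahnSeries.coeff_smul, smul_eq_mul]
    · intro d hd hne
      rw [algebraMap_HH, HahnSeries.C_mul_eq_smul, HahnSeries.coeff_smul, smul_eq_mul]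
      have h3 : (a ^ d 0 * b ^ d 1).coeff ((m' 0 : ℝ) * a.order + (m' 1 : ℝ) * b.order) = 0 := by
        by_contra hcon
        have h4 := ge_order _ _ hcon
        rw [(hterm d).2] at h4
        have h5 := hmin d hd
        have h6 : ((((d 0 : ℤ) - (m' 0 : ℤ) : ℤ)) : ℝ) * a.order +
            ((((d 1 : ℤ) - (m' 1 : ℤ) : ℤ)) : ℝ) * b.order = 0 := by
          push_cast
          linarith
        obtain ⟨h7, h8⟩ := hind _ _ h6
        apply hne
        ext i
        fin_cases i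
        · simp only [Fin.zero_eta]
          omega
        · simp only [Fin.mk_one]
          omega
      rw [h3, mul_zero]
    · intro hn
      exact absurd hm' hn
  refine HahnSeries.order_le_of_coeff_ne_zero ?_
  rw [hcoef]
  refine mul_ne_zero (mem_support_iff.1 hm') ?_
  rw [← (hterm m').2]
  exact fun h0 => (hterm m').1 (HahnSeries.coeff_order_eq_zero.1 h0)

theorem local_lemma (F U : R3) (K0 : MvPolynomial (Fin 2) ℂ)
    (hF : F = X 2 * U + aeval ![X 0, X 1] K0) (hU : constantCoeff U ≠ 0)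
    (hK : constantCoeff K0 = 0) (ξ : Fin 3 → HH) (ε : ℝ) (hε : 0 < ε) (hξ : ∀ i, Ge ε (ξ i))
    (hξ0 : ξ 0 ≠ 0) (hξ1 : ξ 1 ≠ 0) (hind : Ind (ξ 0).order (ξ 1).order)
    (hFξ : aeval ξ F = 0) (B : R3) (hB : aeval ξ B ≠ 0)
    (s : Fin 3 → PowerSeries ℂ) (hs : ∀ i, PowerSeries.X ∣ s i) (hFs : aeval s F = 0)
    (k : ℝ) (hk : 0 ≤ k) (n0 n1 : ℕ) (h0 : PowerSeries.X ^ n0 ∣ s 0)
    (h1 : PowerSeries.X ^ n1 ∣ s 1) (hk0 : k * (ξ 0).order ≤ n0) (hk1 : k * (ξ 1).order ≤ n1)
    (n : ℕ) (hn : ¬ PowerSeries.X ^ (n + 1) ∣ aeval s B) :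
    k * (aeval ξ B).order ≤ n := by
  by_contra hcon
  push Not at hcon
  set v : ℝ := (aeval ξ B).order with hv
  obtain ⟨N0, hN0⟩ := exists_nat_gt (v / ε)
  set N : ℕ := max N0 (n + 1) with hN
  have hN1 : n + 1 ≤ N := le_max_right _ _
  have hN2 : v < N * ε := by
    have h2 : v / ε < (N : ℝ) := lt_of_lt_of_le hN0 (by exact_mod_cast le_max_left _ _)
    rwa [div_lt_iff₀ hε] at h2
  obtain ⟨p, hp⟩ := approx F U K0 hF hU hK N B
  obtain ⟨y, hy, M, hM, hyM⟩ := Submodule.mem_sup.1 hp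
  obtain ⟨Cc, rfl⟩ := Ideal.mem_span_singleton.1 hy
  have hB' : B = aeval ![(X 0 : R3), X 1] p + F * Cc + M := by
    linear_combination -hyM
  have hξM := ge_ideal ξ hε hξ N M hM
  have hsM := dvd_ideal s hs N M hM
  have e1 : aeval ξ (aeval ![(X 0 : R3), X 1] p) = aeval ![ξ 0, ξ 1] p := by
    rw [comp_aeval_apply]
    congr 2
    funext i
    fin_cases i
    · simp
    · simp
  have e2 : aeval s (aeval ![(X 0 : R3), X 1] p) = aeval ![s 0, s 1] p := by
    rw [comp_aeval_apply]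
    congr 2
    funext i
    fin_cases i
    · simp
    · simp
  have e3 : aeval ![ξ 0, ξ 1] p = aeval ξ B + -(aeval ξ M) := by
    have h2 : aeval ξ B = aeval ![ξ 0, ξ 1] p + aeval ξ M := by
      conv_lhs => rw [hB']
      rw [map_add, map_add, map_mul, hFξ, zero_mul, add_zero, e1]
    rw [h2]
    ring
  have hord : (aeval ![ξ 0, ξ 1] p).order = v := by
    rw [e3]
    exact (order_add_of_Ge hB hN2 hξM.neg).1
  have hdiv : PowerSeries.X ^ (n + 1) ∣ aeval ![s 0, s 1] p := by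
    rw [aeval_def, eval₂_eq']
    refine Finset.dvd_sum fun d hd => ?_
    refine Dvd.dvd.mul_left ?_ _
    rw [Fin.prod_univ_two]
    change _ ∣ s 0 ^ d 0 * s 1 ^ d 1
    have h2 := order_le_support (ξ 0) (ξ 1) hξ0 hξ1 hind p d hd
    rw [hord] at h2
    have h3 : k * v ≤ (d 0 : ℝ) * n0 + (d 1 : ℝ) * n1 := by
      have h4 := mul_le_mul_of_nonneg_left h2 hk
      have h5 := mul_le_mul_of_nonneg_left hk0 (Nat.cast_nonneg (α := ℝ) (d 0))
      have h6 := mul_le_mul_of_nonneg_left hk1 (Nat.cast_nonneg (α := ℝ) (d 1))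
      nlinarith
    have h4 : n + 1 ≤ n0 * d 0 + n1 * d 1 := by
      have h5 : (n : ℝ) < (n0 : ℝ) * d 0 + (n1 : ℝ) * d 1 := by linarith
      have h6 : n < n0 * d 0 + n1 * d 1 := by exact_mod_cast h5
      omega
    refine (pow_dvd_pow _ h4).trans ?_
    rw [pow_add, pow_mul, pow_mul]
    exact mul_dvd_mul (pow_dvd_pow_of_dvd h0 _) (pow_dvd_pow_of_dvd h1 _)
  apply hn
  rw [hB', map_add, map_add, map_mul, hFs, zero_mul, add_zero, e2]
  exact dvd_add hdiv ((pow_dvd_pow _ hN1).trans hsM)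

end Pool.Agent.CLN
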