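import Pool.Agent.CLN.OrdL
import Pool.Agent.CLN.ExtD

/-!
# CLN / LogJac: `ord_G` of `det (θ_j a_i)`

`z = x_k` with `G ∤ x_k`, `z det(θ_j a_i) = J(z, a) b` (`det_ratio`, `IsB`).
`ord_det`: the entries `∂_k a_i` have order `≥ 0` (`ordL_partial`), so `J(z, a)` has; `ordL z = 0`.
`ord_log`: `a_i = G^{n_i} u_i` (`exists_unit`), `∂_k a_i / a_i = n_i ∂_k G / G + v_ik`,
`v_ik = ∂_k u_i / u_i` of order `≥ 0`.  By multilinearity (an identity of `4 × 4` determinants, rows
`e, n_i g / G + v_i`): `G det(e, n_i g/G + v_i) = G det(e, v_1, v_2, v_3) + n_1 det(e, g, v_2, v_3) +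
n_2 det(e, v_1, g, v_3) + n_3 det(e, v_1, v_2, g)` has order `≥ 0`.  So
`ord J(z,a) ≥ ∑ ord a_i - 1`, and `ord b ≥ 1`.
-/

set_option autoImplicit false

namespace Pool.Agent.CLN

open MvPolynomial Pool.Agent.CLU

variable {P : Ideal S} {t : Fin 3 → K3} {θ : Fin 3 → Derivation ℂ K3 K3} {b G : S}

theorem exists_X_not_dvd (hG : Irreducible G) : ∃ k : Fin 4, ¬ G ∣ (X k : S) := by
  by_contra hcon
  push Not at hcon
  have h0 : Irreducible (X 0 : S) := X_prime.irreducible
  have h1 : Associated G (X 0 : S) := hG.associated_of_dvd h0 (hcon 0)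
  have h2 : (X 0 : S) ∣ X 1 := h1.symm.dvd.trans (hcon 1)
  rw [X_dvd_X] at h2
  exact absurd h2 (by decide)

theorem map_ne {A : S} (hA : A ≠ 0) : algebraMap S L A ≠ 0 := by
  rwa [Ne, FaithfulSMul.algebraMap_eq_zero_iff]

/-- The elements of order at least zero along `G = 0`. -/
noncomputable def OG (hG : Irreducible G) : Subring L where
  carrier := {a | a ≠ 0 → 0 ≤ ordL G a}
  mul_mem' := by
    intro a b ha hb hab
    have ha0 := left_ne_zero_of_mul hab
    have hb0 := right_ne_zero_of_mul hab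
    rw [ordL_mul hG a b ha0 hb0]
    exact add_nonneg (ha ha0) (hb hb0)
  one_mem' := fun _ => (ordL_one hG).ge
  add_mem' := fun {a b} ha hb hab => ordL_add hG 0 a b ha hb hab
  zero_mem' := fun h => absurd rfl h
  neg_mem' := by
    intro a ha h
    rw [ordL_neg hG]
    exact ha (neg_ne_zero.1 h)

theorem map_mem_OG (hG : Irreducible G) (A : S) : algebraMap S L A ∈ OG hG := by
  intro h
  refine ordL_map_nonneg hG A ?_
  rintro rfl
  exact h (map_zero _)

theorem partial_mem_OG (hG : Irreducible G) (dL : Fin 4 → Derivation ℂ L L)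
    (hdL : ∀ (j : Fin 4) (F : S), dL j (algebraMap S L F) = algebraMap S L (pderiv j F))
    (j : Fin 4) (a : L) (ha : a ≠ 0 → 0 ≤ ordL G a) : dL j a ∈ OG hG := by
  intro h
  have ha0 : a ≠ 0 := by
    rintro rfl
    exact h (map_zero _)
  exact ordL_partial hG dL hdL j a (ha ha0) h

theorem surf_mem_OG (hG : Irreducible G) {g : ℕ} (hGh : G.IsHomogeneous g) {a : K3}
    (ha : a ∈ surfRing G) : (a : L) ≠ 0 → 0 ≤ ordL G (a : L) := by
  intro h
  have ha0 : a ≠ 0 := by
    rintro rfl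
    exact h rfl
  exact (mem_surfRing_iff hG hGh a ha0).1 ha

theorem det_mem_subring {R : Type*} [CommRing R] (T : Subring R) {n : Type*} [Fintype n]
    [DecidableEq n] (M : Matrix n n R) (h : ∀ i j, M i j ∈ T) : M.det ∈ T := by
  rw [Matrix.det_apply]
  refine T.sum_mem fun σ _ => ?_
  rw [Units.smul_def]
  exact T.zsmul_mem (T.prod_mem fun i _ => h _ _) _

theorem log_rule (D : Derivation ℂ L L) {G u : L} (hG : G ≠ 0) (hu : u ≠ 0) (n : ℤ) :
    D (G ^ n * u) = G ^ n * u * ((n : L) / G * D G + u⁻¹ * D u) := by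
  rw [Derivation.leibniz, Derivation.leibniz_zpow]
  simp only [smul_eq_mul, zsmul_eq_mul]
  rw [zpow_sub_one₀ hG]
  field_simp
  ring

theorem det4 {R : Type*} [CommRing R] (a b c d : Fin 4 → R) : (Matrix.of ![a, b, c, d]).det =
    a 0 * (b 1 * (c 2 * d 3 - c 3 * d 2) - b 2 * (c 1 * d 3 - c 3 * d 1) +
      b 3 * (c 1 * d 2 - c 2 * d 1)) -
    a 1 * (b 0 * (c 2 * d 3 - c 3 * d 2) - b 2 * (c 0 * d 3 - c 3 * d 0) +
      b 3 * (c 0 * d 2 - c 2 * d 0)) +
    a 2 * (b 0 * (c 1 * d 3 - c 3 * d 1) - b 1 * (c 0 * d 3 - c 3 * d 0) +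
      b 3 * (c 0 * d 1 - c 1 * d 0)) -
    a 3 * (b 0 * (c 1 * d 2 - c 2 * d 1) - b 1 * (c 0 * d 2 - c 2 * d 0) +
      b 2 * (c 0 * d 1 - c 1 * d 0)) := by
  rw [Matrix.det_succ_row_zero]
  simp only [Fin.sum_univ_four, Matrix.det_fin_three, Matrix.submatrix_apply, Matrix.of_apply]
  simp [Fin.succAbove]
  ring

theorem det_log {R : Type*} [CommRing R] (e g : Fin 4 → R) (v : Fin 3 → Fin 4 → R)
    (c : Fin 3 → R) :
    (Matrix.of fun i j : Fin 4 => (Fin.cons (e j) (fun i : Fin 3 => c i * g j + v i j) :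
      Fin 4 → R) i).det =
      (Matrix.of ![e, v 0, v 1, v 2]).det + c 0 * (Matrix.of ![e, g, v 1, v 2]).det +
        c 1 * (Matrix.of ![e, v 0, g, v 2]).det + c 2 * (Matrix.of ![e, v 0, v 1, g]).det := by
  have h : (Matrix.of fun i j : Fin 4 => (Fin.cons (e j) (fun i : Fin 3 => c i * g j + v i j) :
      Fin 4 → R) i) = Matrix.of ![e, fun j => c 0 * g j + v 0 j, fun j => c 1 * g j + v 1 j,
        fun j => c 2 * g j + v 2 j] := by
    ext i j
    fin_cases i <;> rfl
  rw [h]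
  simp only [det4]
  ring

theorem ord_det (h : ClusterData P t θ) (hb : IsB θ b) (hG : Irreducible G) {g : ℕ}
    (hGh : G.IsHomogeneous g) (a : Fin 3 → K3) (ha : ∀ i, a i ∈ surfRing G)
    (hd : (Matrix.of fun i j => θ j (a i)).det ≠ 0) :
    (multiplicity G b : ℤ) ≤ ordL G (((Matrix.of fun i j => θ j (a i)).det : K3) : L) := by
  obtain ⟨hb4, hb0, Θ, -, hΘ, hΘb⟩ := hb
  obtain ⟨dL, hdL⟩ := exists_partial
  obtain ⟨k, hk⟩ := exists_X_not_dvd hG
  have h1 := det_ratio θ Θ hΘ dL hdL (X k) (isHomogeneous_X _ _) a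
  rw [hΘb] at h1
  set J : L := (Matrix.of fun i j : Fin 4 => dL j ((Fin.cons (algebraMap S L (X k))
    (fun i => (a i : L)) : Fin 4 → L) i)).det with hJ
  have hz0 : algebraMap S L (X k) ≠ 0 := map_ne (X_ne_zero k)
  have hb0' : algebraMap S L b ≠ 0 := map_ne hb0
  have hd' : (((Matrix.of fun i j => θ j (a i)).det : K3) : L) ≠ 0 := by
    intro h0
    apply hd
    exact Subtype.ext h0
  have hJ0 : J ≠ 0 := by
    intro h0
    rw [h0, zero_mul] at h1
    exact mul_ne_zero hz0 hd' h1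
  have h2 := congrArg (ordL G) h1
  rw [ordL_mul hG _ _ hz0 hd', ordL_mul hG _ _ hJ0 hb0', ordL_map_eq_zero hG _ hk,
    ordL_map hG _ hb0] at h2
  have h3 : J ∈ OG hG := by
    rw [hJ]
    refine det_mem_subring _ _ fun i j => ?_
    rw [Matrix.of_apply]
    refine Fin.cases ?_ (fun i => ?_) i
    · rw [Fin.cons_zero, hdL]
      exact map_mem_OG hG _
    · rw [Fin.cons_succ]
      exact partial_mem_OG hG dL hdL j _ (surf_mem_OG hG hGh (ha i))
  have h4 : 0 ≤ ordL G J := h3 hJ0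
  omega

theorem ord_log (h : ClusterData P t θ) (hb : IsB θ b) (hG : Irreducible G) {g : ℕ}
    (hGh : G.IsHomogeneous g) (hGb : G ∣ b) (a : Fin 3 → K3) (ha : ∀ i, a i ≠ 0)
    (hd : (Matrix.of fun i j => θ j (a i)).det ≠ 0) :
    ordL G (a 0 : L) + ordL G (a 1 : L) + ordL G (a 2 : L) ≤
      ordL G (((Matrix.of fun i j => θ j (a i)).det : K3) : L) := by
  obtain ⟨hb4, hb0, Θ, -, hΘ, hΘb⟩ := hb
  obtain ⟨dL, hdL⟩ := exists_partial
  obtain ⟨k, hk⟩ := exists_X_not_dvd hG
  have h1 := det_ratio θ Θ hΘ dL hdL (X k) (isHomogeneous_X _ _) a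
  rw [hΘb] at h1
  set J : L := (Matrix.of fun i j : Fin 4 => dL j ((Fin.cons (algebraMap S L (X k))
    (fun i => (a i : L)) : Fin 4 → L) i)).det with hJ
  have hz0 : algebraMap S L (X k) ≠ 0 := map_ne (X_ne_zero k)
  have hb0' : algebraMap S L b ≠ 0 := map_ne hb0
  have hG0 : algebraMap S L G ≠ 0 := map_ne hG.ne_zero
  have hd' : (((Matrix.of fun i j => θ j (a i)).det : K3) : L) ≠ 0 := by
    intro h0
    apply hd
    exact Subtype.ext h0
  have hJ0 : J ≠ 0 := by
    intro h0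
    rw [h0, zero_mul] at h1
    exact mul_ne_zero hz0 hd' h1
  have h2 := congrArg (ordL G) h1
  rw [ordL_mul hG _ _ hz0 hd', ordL_mul hG _ _ hJ0 hb0', ordL_map_eq_zero hG _ hk] at h2
  have hb1 := one_le_ordL_map hG b hb0 hGb
  have haL : ∀ i, (a i : L) ≠ 0 := fun i h0 => ha i (Subtype.ext h0)
  choose u hu0 hu hau using fun i => exists_unit hG (a i : L) (haL i)
  -- the logarithmic derivatives
  have hlog : ∀ i j, dL j (a i : L) = (a i : L) *
      ((ordL G (a i : L) : L) / algebraMap S L G * algebraMap S L (pderiv j G) +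
        (u i)⁻¹ * dL j (u i)) := by
    intro i j
    have h3 := log_rule (dL j) hG0 (hu0 i) (ordL G (a i : L))
    rw [← hau i, hdL] at h3
    exact h3
  have hv : ∀ i j, (u i)⁻¹ * dL j (u i) ∈ OG hG := by
    intro i j
    refine (OG hG).mul_mem ?_ ?_
    · intro h0
      rw [ordL_inv hG _ (hu0 i), hu i, neg_zero]
    · exact partial_mem_OG hG dL hdL j _ (fun _ => (hu i).ge)
  set E : L := (Matrix.of fun i j : Fin 4 => (Fin.cons (algebraMap S L (pderiv j (X k)))
    (fun i : Fin 3 => (ordL G (a i : L) : L) / algebraMap S L G * algebraMap S L (pderiv j G) +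
        (u i)⁻¹ * dL j (u i)) : Fin 4 → L) i).det with hE
  have hJE : J = (a 0 : L) * (a 1 : L) * (a 2 : L) * E := by
    have h4 : (Matrix.of fun i j : Fin 4 => dL j ((Fin.cons (algebraMap S L (X k))
        (fun i => (a i : L)) : Fin 4 → L) i)) = Matrix.of fun i j : Fin 4 =>
        (Fin.cons 1 (fun i : Fin 3 => (a i : L)) : Fin 4 → L) i *
        (Matrix.of fun i j : Fin 4 => (Fin.cons (algebraMap S L (pderiv j (X k)))
          (fun i : Fin 3 => (ordL G (a i : L) : L) / algebraMap S L G *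
          algebraMap S L (pderiv j G) + (u i)⁻¹ * dL j (u i)) : Fin 4 → L) i) i j := by
      ext i j
      rw [Matrix.of_apply, Matrix.of_apply, Matrix.of_apply]
      refine Fin.cases ?_ (fun i => ?_) i
      · rw [Fin.cons_zero, Fin.cons_zero, Fin.cons_zero, hdL, one_mul]
      · rw [Fin.cons_succ, Fin.cons_succ, Fin.cons_succ, hlog]
    rw [hJ, h4, Matrix.det_mul_column, ← hE, Fin.prod_univ_succ, Fin.cons_zero, one_mul]
    simp only [Fin.cons_succ, Fin.prod_univ_three]
  have hE0 : E ≠ 0 := by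
    intro h0
    rw [h0, mul_zero] at hJE
    exact hJ0 hJE
  have hGE : algebraMap S L G * E ∈ OG hG := by
    have h5 := det_log (fun j : Fin 4 => algebraMap S L (pderiv j (X k)))
      (fun j : Fin 4 => algebraMap S L (pderiv j G)) (fun i j => (u i)⁻¹ * dL j (u i))
      (fun i => (ordL G (a i : L) : L) / algebraMap S L G)
    rw [hE, h5]
    have h6 : ∀ (n : ℤ) (D : L), algebraMap S L G * ((n : L) / algebraMap S L G * D) =
        (n : L) * D := by
      intro n D
      field_simp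
    rw [mul_add, mul_add, mul_add, h6, h6, h6]
    have hn : ∀ n : ℤ, (n : L) ∈ OG hG := fun n => intCast_mem _ n
    refine (OG hG).add_mem ((OG hG).add_mem ((OG hG).add_mem ?_ ?_) ?_) ?_
    · refine (OG hG).mul_mem (map_mem_OG hG _) (det_mem_subring _ _ fun i j => ?_)
      fin_cases i
      · exact map_mem_OG hG _
      · exact hv _ _
      · exact hv _ _
      · exact hv _ _
    · refine (OG hG).mul_mem (hn _) (det_mem_subring _ _ fun i j => ?_)
      fin_cases i
      · exact map_mem_OG hG _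
      · exact map_mem_OG hG _
      · exact hv _ _
      · exact hv _ _
    · refine (OG hG).mul_mem (hn _) (det_mem_subring _ _ fun i j => ?_)
      fin_cases i
      · exact map_mem_OG hG _
      · exact hv _ _
      · exact map_mem_OG hG _
      · exact hv _ _
    · refine (OG hG).mul_mem (hn _) (det_mem_subring _ _ fun i j => ?_)
      fin_cases i
      · exact map_mem_OG hG _
      · exact hv _ _
      · exact hv _ _
      · exact map_mem_OG hG _
  have h7 : 0 ≤ ordL G (algebraMap S L G * E) := hGE (mul_ne_zero hG0 hE0)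
  rw [ordL_mul hG _ _ hG0 hE0, ordL_self hG] at h7
  have h8 : ordL G J = ordL G (a 0 : L) + ordL G (a 1 : L) + ordL G (a 2 : L) + ordL G E := by
    rw [hJE, ordL_mul hG _ _ (mul_ne_zero (mul_ne_zero (haL 0) (haL 1)) (haL 2)) hE0,
      ordL_mul hG _ _ (mul_ne_zero (haL 0) (haL 1)) (haL 2), ordL_mul hG _ _ (haL 0) (haL 1)]
  omega

end Pool.Agent.CLN
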