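import Pool.Agent.CLN.LogJac
import Pool.Agent.CLN.BForm

/-!
# CLN / LogTh: consequences of `ord_det` and `ord_log`

`ord_theta`: `ord_log` for `t` with `t_j` replaced by `g`: the determinant is
`θ_j g ∏_{i ≠ j} t_i`.
`ord_t_ne`: if all `ord t_i = 0`, then `t_i ∈ surfRing G`, and `det(θ_j t_i) = t_0 t_1 t_2` has order
`0`, contradiction to `ord_det`.
`tor_not_dvd`: `t_i, t_i⁻¹ ∈ torRing t q` (`q ∤ X i`, `1 = ..`), so `ord_G t_i = 0`.
-/

set_option autoImplicit false

namespace Pool.Agent.CLN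

open MvPolynomial Pool.Agent.CLU

variable {P : Ideal S} {t : Fin 3 → K3} {θ : Fin 3 → Derivation ℂ K3 K3} {b G : S}

private theorem coe_ne {a : K3} (ha : a ≠ 0) : (a : L) ≠ 0 := by
  intro h
  exact ha (Subtype.ext h)

/-- The determinant with row `j` replaced by the derivatives of `a`. -/
private theorem det_update (h : ClusterData P t θ) (j : Fin 3) (a : K3) :
    (Matrix.of fun i k => θ k (Function.update t j a i)).det =
      θ j a * ∏ i ∈ Finset.univ.erase j, t i := by
  rw [Matrix.det_fin_three]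
  fin_cases j
  · simp [Function.update, h.eig, show (Finset.univ.erase (0 : Fin 3)) = {1, 2} from by decide]
    ring
  · simp [Function.update, h.eig, show (Finset.univ.erase (1 : Fin 3)) = {0, 2} from by decide]
    ring
  · simp [Function.update, h.eig, show (Finset.univ.erase (2 : Fin 3)) = {0, 1} from by decide]
    ring

theorem ord_theta (h : ClusterData P t θ) (hb : IsB θ b) (hG : Irreducible G) {g : ℕ}
    (hGh : G.IsHomogeneous g) (hGb : G ∣ b) (j : Fin 3) (a : K3) (ha : a ≠ 0)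
    (hd : θ j a ≠ 0) : ordL G (a : L) ≤ ordL G ((θ j a : K3) : L) := by
  have hdet := det_update h j a
  have hprod : (∏ i ∈ Finset.univ.erase j, t i) ≠ 0 := Finset.prod_ne_zero_iff.2 fun i _ => h.t_ne i
  have h1 := ord_log h hb hG hGh hGb (Function.update t j a)
    (by
      intro i
      by_cases hij : i = j
      · subst hij
        simpa using ha
      · rw [Function.update_of_ne hij]
        exact h.t_ne i)
    (by rw [hdet]; exact mul_ne_zero hd hprod)
  rw [hdet] at h1
  have h2 : ((θ j a * ∏ i ∈ Finset.univ.erase j, t i : K3) : L) =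
      ((θ j a : K3) : L) * ∏ i ∈ Finset.univ.erase j, (t i : L) := by
    push_cast
    rfl
  rw [h2, ordL_mul hG _ _ (coe_ne hd) (Finset.prod_ne_zero_iff.2 fun i _ => coe_ne (h.t_ne i)),
    ordL_prod hG _ _ fun i _ => coe_ne (h.t_ne i)] at h1
  have h3 : ordL G ((Function.update t j a 0 : K3) : L) + ordL G ((Function.update t j a 1 : K3) : L)
      + ordL G ((Function.update t j a 2 : K3) : L) =
      ∑ i, ordL G ((Function.update t j a i : K3) : L) := by
    rw [Fin.sum_univ_three]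
  rw [h3, ← Finset.add_sum_erase _ _ (Finset.mem_univ j), Function.update_self] at h1
  have h4 : ∑ i ∈ Finset.univ.erase j, ordL G ((Function.update t j a i : K3) : L) =
      ∑ i ∈ Finset.univ.erase j, ordL G (t i : L) := by
    refine Finset.sum_congr rfl fun i hi => ?_
    rw [Function.update_of_ne (Finset.ne_of_mem_erase hi)]
  rw [h4] at h1
  linarith

theorem ord_t_ne (h : ClusterData P t θ) (hb : IsB θ b) (hG : Irreducible G) {g : ℕ}
    (hGh : G.IsHomogeneous g) (hGb : G ∣ b) : ∃ i, ordL G (t i : L) ≠ 0 := by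
  by_contra hcon
  push Not at hcon
  have hne : t 0 * t 1 * t 2 ≠ 0 := mul_ne_zero (mul_ne_zero (h.t_ne 0) (h.t_ne 1)) (h.t_ne 2)
  have h1 := ord_det h hb hG hGh t
    (fun i => (mem_surfRing_iff hG hGh (t i) (h.t_ne i)).2 (hcon i).ge)
    (by rw [det_theta_t h]; exact hne)
  have hm : (1 : ℤ) ≤ multiplicity G b := by
    have h2 := one_le_ordL_map hG b hb.2.1 hGb
    rwa [ordL_map hG b hb.2.1] at h2
  rw [det_theta_t h] at h1
  have h2 : ((t 0 * t 1 * t 2 : K3) : L) = (t 0 : L) * (t 1 : L) * (t 2 : L) := by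
    push_cast
    rfl
  rw [h2, ordL_mul hG _ _ (mul_ne_zero (coe_ne (h.t_ne 0)) (coe_ne (h.t_ne 1))) (coe_ne (h.t_ne 2)),
    ordL_mul hG _ _ (coe_ne (h.t_ne 0)) (coe_ne (h.t_ne 1)), hcon 0, hcon 1, hcon 2] at h1
  linarith

theorem tor_not_dvd (h : ClusterData P t θ) (hb : IsB θ b) (hG : Irreducible G) {g : ℕ}
    (hGh : G.IsHomogeneous g) (q : MvPolynomial (Fin 3) ℂ) (hq : Irreducible q)
    (hqX : ∀ i, ¬ q ∣ X i) (hO : torRing t q = surfRing G) : ¬ G ∣ b := by
  intro hGb
  obtain ⟨i, hi⟩ := ord_t_ne h hb hG hGh hGb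
  have h1 : t i ∈ surfRing G := by
    rw [← hO]
    refine ⟨X i, 1, fun h1 => hq.not_isUnit (isUnit_of_dvd_one h1), ?_⟩
    rw [map_one, div_one, aeval_X]
  have h2 : (t i)⁻¹ ∈ surfRing G := by
    rw [← hO]
    refine ⟨1, X i, hqX i, ?_⟩
    rw [map_one, one_div, aeval_X]
  rw [mem_surfRing_iff hG hGh _ (h.t_ne i)] at h1
  rw [mem_surfRing_iff hG hGh _ (inv_ne_zero (h.t_ne i))] at h2
  have h3 : (((t i)⁻¹ : K3) : L) = (t i : L)⁻¹ := by
    push_cast
    rfl
  rw [h3, ordL_inv hG _ (coe_ne (h.t_ne i))] at h2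
  apply hi
  linarith

end Pool.Agent.CLN
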