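import Pool.Agent.CLN.Loc
import Pool.Agent.CLU.Coord

/-!
# CLN / NormF: normal form of a diagonal cubic at a point with nonzero coordinates

`f = diag c`, all `c_j ≠ 0`, `f(p) = 0`, all `p_j ≠ 0`, `3 c_j p_j^2 = r l_j`, `r ≠ 0` (so `lf l` is the
tangent plane at `p`: `∑ l_j p_j = 0`).
Let `T = {v : ∑ l_j v_j = 0}`, `Q(u, v) = ∑ c_j p_j u_j v_j` (nondegenerate on `ℂ^4`).
`p ∈ T` and `Q(p, v) = (r/3) ∑ l_j v_j = 0` for `v ∈ T`; `T` is the orthogonal complement of `p`, so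
`Q` is nondegenerate on the plane `T / p`.
Choose `u ∈ T` isotropic, `u ∉ ℂ p` (a binary quadratic form has a zero), then `v' ∈ T` with
`Q(u, v') ≠ 0`, `v = v' - (Q(v', v') / (2 Q(u, v'))) u` isotropic, scale `v` so that `6 Q(u, v) = 1`.
`f(α u + β v + γ p) = α β γ + e0 α^3 + e1 α^2 β + e2 α β^2 + e3 β^3` (`f(p) = 0`, the terms
`3 γ^2 ∑ c_j p_j^2 (..)_j` and `3 γ α^2 Q(u, u)`, `3 γ β^2 Q(v, v)` vanish); replace `u` by `u - e1 p`... :
with `γ = γ' - e1 α - e2 β` the terms `α^2 β`, `α β^2` disappear, i.e. take the basis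
`u + (-e1) p`, `v + (-e2) p` (still isotropic, in `T`).
Let `w ∉ T` with `lf l (w) = 1`; `u, v, p, w` is a basis; let `L_0, .., L_3` be the dual linear forms,
`L_3 = lf l`.  Then `f - (L_0 L_1 L_2 + e0 L_0^3 + e3 L_1^3)` vanishes on `L_3 = 0`, so it is
`L_3 q(L)` with a quadratic form `q`.
`q(0,0,1,0) ≠ 0`: the gradient of `f` at `p` is `q(0,0,1,0)` times that of `L_3`, and `∇f(p) ≠ 0`.
If `e0 = 0`, the gradient of `f` at the point `u` (coordinates `(1,0,0,0)`, it is on `f = 0`) is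
`q(1,0,0,0)` times that of `L_3`, and `∇f(u) = (3 c_j u_j^2) ≠ 0`.  Same for `e3 = 0` and `v`.
-/

set_option autoImplicit false

namespace Pool.Agent.CLN

open MvPolynomial Pool.Agent.CLU

/-- Isotropic vectors of a nondegenerate binary quadratic form. -/
private theorem binary (a b c κ : ℂ) (h : b ^ 2 - a * c ≠ 0) : ∃ y0 y1 z0 z1 : ℂ,
    a * y0 ^ 2 + 2 * b * (y0 * y1) + c * y1 ^ 2 = 0 ∧
    a * z0 ^ 2 + 2 * b * (z0 * z1) + c * z1 ^ 2 = 0 ∧
    a * (y0 * z0) + b * (y0 * z1 + y1 * z0) + c * (y1 * z1) = κ := by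
  obtain ⟨D, hD⟩ := IsAlgClosed.exists_pow_nat_eq (b ^ 2 - a * c) (show 0 < 2 by norm_num)
  have hD0 : D ≠ 0 := by
    rintro rfl
    apply h
    rw [← hD]
    norm_num
  by_cases ha : a = 0
  · subst ha
    have hb : b ≠ 0 := by
      rintro rfl
      apply h
      ring
    refine ⟨1, 0, κ / (2 * b ^ 2) * (-c), κ / (2 * b ^ 2) * (2 * b), by ring, by ring, ?_⟩
    field_simp
    ring
  · refine ⟨-b + D, a, κ / (-2 * a * D ^ 2) * (-b - D), κ / (-2 * a * D ^ 2) * a, ?_, ?_, ?_⟩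
    · linear_combination a * hD
    · linear_combination (κ / (-2 * a * D ^ 2)) ^ 2 * a * hD
    · have e : a * ((-b + D) * (κ / (-2 * a * D ^ 2) * (-b - D))) +
          b * ((-b + D) * (κ / (-2 * a * D ^ 2) * a) + a * (κ / (-2 * a * D ^ 2) * (-b - D))) +
          c * (a * (κ / (-2 * a * D ^ 2) * a)) =
          κ / (-2 * a * D ^ 2) * (a * (-(b ^ 2 - a * c) - D ^ 2)) := by ring
      rw [e, ← hD]
      field_simp
      ring

private theorem uv0 (c p : Fin 4 → ℂ) (hc : ∀ j, c j ≠ 0) (hp : ∀ j, p j ≠ 0)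
    (hf : ∑ j, c j * p j ^ 3 = 0) : ∃ u v : Fin 4 → ℂ,
    ∑ j, c j * p j ^ 2 * u j = 0 ∧ ∑ j, c j * p j ^ 2 * v j = 0 ∧
    ∑ j, c j * p j * u j ^ 2 = 0 ∧ ∑ j, c j * p j * v j ^ 2 = 0 ∧
    ∑ j, c j * p j * (u j * v j) = 1 / 6 := by
  obtain ⟨m0, h0⟩ : ∃ m, m = c 0 * p 0 ^ 3 := ⟨_, rfl⟩
  obtain ⟨m1, h1⟩ : ∃ m, m = c 1 * p 1 ^ 3 := ⟨_, rfl⟩
  obtain ⟨m2, h2⟩ : ∃ m, m = c 2 * p 2 ^ 3 := ⟨_, rfl⟩
  obtain ⟨m3, h3⟩ : ∃ m, m = c 3 * p 3 ^ 3 := ⟨_, rfl⟩
  have n0 : m0 ≠ 0 := h0 ▸ mul_ne_zero (hc 0) (pow_ne_zero _ (hp 0))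
  have n1 : m1 ≠ 0 := h1 ▸ mul_ne_zero (hc 1) (pow_ne_zero _ (hp 1))
  have n2 : m2 ≠ 0 := h2 ▸ mul_ne_zero (hc 2) (pow_ne_zero _ (hp 2))
  have n3 : m3 ≠ 0 := h3 ▸ mul_ne_zero (hc 3) (pow_ne_zero _ (hp 3))
  rw [Fin.sum_univ_four, ← h0, ← h1, ← h2, ← h3] at hf
  have hdisc : (m0 * m1) ^ 2 - (m0 * (m0 + m2)) * (m1 * (m1 + m2)) ≠ 0 := by
    have e : (m0 * m1) ^ 2 - (m0 * (m0 + m2)) * (m1 * (m1 + m2)) = m0 * m1 * m2 * m3 := by
      linear_combination (-(m0 * m1 * m2)) * hf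
    rw [e]
    exact mul_ne_zero (mul_ne_zero (mul_ne_zero n0 n1) n2) n3
  obtain ⟨y0, y1, z0, z1, hy, hz, hyz⟩ := binary _ _ _ (m2 / 6) hdisc
  obtain ⟨y2, hy2⟩ : ∃ y2, m2 * y2 = -(m0 * y0 + m1 * y1) :=
    ⟨-(m0 * y0 + m1 * y1) / m2, by field_simp⟩
  obtain ⟨z2, hz2⟩ : ∃ z2, m2 * z2 = -(m0 * z0 + m1 * z1) :=
    ⟨-(m0 * z0 + m1 * z1) / m2, by field_simp⟩
  refine ⟨![p 0 * y0, p 1 * y1, p 2 * y2, 0], ![p 0 * z0, p 1 * z1, p 2 * z2, 0], ?_, ?_, ?_, ?_,
    ?_⟩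
  · simp only [Fin.sum_univ_four, Matrix.cons_val]
    have e : c 0 * p 0 ^ 2 * (p 0 * y0) + c 1 * p 1 ^ 2 * (p 1 * y1) +
        c 2 * p 2 ^ 2 * (p 2 * y2) + c 3 * p 3 ^ 2 * 0 = m0 * y0 + m1 * y1 + m2 * y2 := by
      rw [h0, h1, h2]
      ring
    rw [e, hy2]
    ring
  · simp only [Fin.sum_univ_four, Matrix.cons_val]
    have e : c 0 * p 0 ^ 2 * (p 0 * z0) + c 1 * p 1 ^ 2 * (p 1 * z1) +
        c 2 * p 2 ^ 2 * (p 2 * z2) + c 3 * p 3 ^ 2 * 0 = m0 * z0 + m1 * z1 + m2 * z2 := by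
      rw [h0, h1, h2]
      ring
    rw [e, hz2]
    ring
  · simp only [Fin.sum_univ_four, Matrix.cons_val]
    have e : c 0 * p 0 * (p 0 * y0) ^ 2 + c 1 * p 1 * (p 1 * y1) ^ 2 +
        c 2 * p 2 * (p 2 * y2) ^ 2 + c 3 * p 3 * 0 ^ 2 =
        m0 * y0 ^ 2 + m1 * y1 ^ 2 + m2 * y2 ^ 2 := by
      rw [h0, h1, h2]
      ring
    rw [e]
    refine (mul_right_injective₀ n2) ?_
    show m2 * (m0 * y0 ^ 2 + m1 * y1 ^ 2 + m2 * y2 ^ 2) = m2 * 0
    linear_combination hy + (m2 * y2 - (m0 * y0 + m1 * y1)) * hy2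
  · simp only [Fin.sum_univ_four, Matrix.cons_val]
    have e : c 0 * p 0 * (p 0 * z0) ^ 2 + c 1 * p 1 * (p 1 * z1) ^ 2 +
        c 2 * p 2 * (p 2 * z2) ^ 2 + c 3 * p 3 * 0 ^ 2 =
        m0 * z0 ^ 2 + m1 * z1 ^ 2 + m2 * z2 ^ 2 := by
      rw [h0, h1, h2]
      ring
    rw [e]
    refine (mul_right_injective₀ n2) ?_
    show m2 * (m0 * z0 ^ 2 + m1 * z1 ^ 2 + m2 * z2 ^ 2) = m2 * 0
    linear_combination hz + (m2 * z2 - (m0 * z0 + m1 * z1)) * hz2
  · simp only [Fin.sum_univ_four, Matrix.cons_val]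
    have e : c 0 * p 0 * (p 0 * y0 * (p 0 * z0)) + c 1 * p 1 * (p 1 * y1 * (p 1 * z1)) +
        c 2 * p 2 * (p 2 * y2 * (p 2 * z2)) + c 3 * p 3 * (0 * 0) =
        m0 * (y0 * z0) + m1 * (y1 * z1) + m2 * (y2 * z2) := by
      rw [h0, h1, h2]
      ring
    rw [e]
    refine (mul_right_injective₀ n2) ?_
    show m2 * (m0 * (y0 * z0) + m1 * (y1 * z1) + m2 * (y2 * z2)) = m2 * (1 / 6)
    linear_combination hyz + (m2 * z2) * hy2 - (m0 * y0 + m1 * y1) * hz2

private theorem uv1 (c p : Fin 4 → ℂ) (hc : ∀ j, c j ≠ 0) (hp : ∀ j, p j ≠ 0)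
    (hf : ∑ j, c j * p j ^ 3 = 0) : ∃ u v : Fin 4 → ℂ,
    ∑ j, c j * p j ^ 2 * u j = 0 ∧ ∑ j, c j * p j ^ 2 * v j = 0 ∧
    ∑ j, c j * p j * u j ^ 2 = 0 ∧ ∑ j, c j * p j * v j ^ 2 = 0 ∧
    ∑ j, c j * p j * (u j * v j) = 1 / 6 ∧ ∑ j, c j * (u j ^ 2 * v j) = 0 ∧
    ∑ j, c j * (u j * v j ^ 2) = 0 := by
  obtain ⟨u, v, hu, hv, huu, hvv, huv⟩ := uv0 c p hc hp hf
  obtain ⟨e1, he1⟩ : ∃ e, e = 3 * ∑ j, c j * (u j ^ 2 * v j) := ⟨_, rfl⟩
  obtain ⟨e2, he2⟩ : ∃ e, e = 3 * ∑ j, c j * (u j * v j ^ 2) := ⟨_, rfl⟩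
  simp only [Fin.sum_univ_four] at hf hu hv huu hvv huv he1 he2
  refine ⟨fun j => u j - e1 * p j, fun j => v j - e2 * p j, ?_, ?_, ?_, ?_, ?_, ?_, ?_⟩ <;>
    simp only [Fin.sum_univ_four]
  · linear_combination hu - e1 * hf
  · linear_combination hv - e2 * hf
  · linear_combination huu - 2 * e1 * hu + e1 ^ 2 * hf
  · linear_combination hvv - 2 * e2 * hv + e2 ^ 2 * hf
  · linear_combination huv - e2 * hu - e1 * hv + e1 * e2 * hf
  · linear_combination (-1 / 3) * he1 - 2 * e1 * huv + e1 ^ 2 * hv - e2 * huu +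
      2 * e1 * e2 * hu - e1 ^ 2 * e2 * hf
  · linear_combination (-1 / 3) * he2 - 2 * e2 * huv + e2 ^ 2 * hu - e1 * hvv +
      2 * e1 * e2 * hv - e2 ^ 2 * e1 * hf

theorem exists_normF (c l p : Fin 4 → ℂ) (hc : ∀ j, c j ≠ 0) (hp : ∀ j, p j ≠ 0)
    (hf : eval p (diag c) = 0) (r : ℂ) (hr : r ≠ 0) (hrl : ∀ j, 3 * c j * p j ^ 2 = r * l j) :
    ∃ (L' : Fin 4 → S) (e0 e3 : ℂ) (q : S), (∀ i, (L' i).IsHomogeneous 1) ∧
      LinearIndependent ℂ L' ∧ L' 3 = lf l ∧ eval p (L' 0) = 0 ∧ eval p (L' 1) = 0 ∧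
      eval p (L' 2) ≠ 0 ∧ q.IsHomogeneous 2 ∧ diag c = aeval L' (cub e0 e3 q) ∧
      eval (Pi.single 2 1) q ≠ 0 ∧ (e0 = 0 → eval (Pi.single 0 1) q ≠ 0) ∧
      (e3 = 0 → eval (Pi.single 1 1) q ≠ 0) := by
  classical
  have hf' : ∑ j, c j * p j ^ 3 = 0 := by
    have h1 := hf
    unfold diag at h1
    rw [map_sum] at h1
    simpa using h1
  obtain ⟨u, v, hu, hv, huu, hvv, huv, huuv, huvv⟩ := uv1 c p hc hp hf'
  -- pairing with the tangent plane
  have hpair : ∀ t : Fin 4 → ℂ, r * ∑ j, l j * t j = 3 * ∑ j, c j * p j ^ 2 * t j := by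
    intro t
    rw [Finset.mul_sum, Finset.mul_sum]
    refine Finset.sum_congr rfl fun j _ => ?_
    rw [← mul_assoc, ← hrl j]
    ring
  have hlz : ∀ t : Fin 4 → ℂ, ∑ j, c j * p j ^ 2 * t j = 0 → ∑ j, l j * t j = 0 := by
    intro t ht
    have := hpair t
    rw [ht, mul_zero] at this
    exact (mul_eq_zero.mp this).resolve_left hr
  have hlu := hlz u hu
  have hlv := hlz v hv
  have hlp : ∑ j, l j * p j = 0 := by
    refine hlz p ?_
    rw [← hf']
    exact Finset.sum_congr rfl fun j _ => by ring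
  have hl0 : l 0 ≠ 0 := by
    intro h0
    have h1 := hrl 0
    rw [h0, mul_zero] at h1
    exact mul_ne_zero (mul_ne_zero (by norm_num) (hc 0)) (pow_ne_zero _ (hp 0)) h1
  obtain ⟨w, hw⟩ : ∃ w : Fin 4 → ℂ, ∑ j, l j * w j = 1 := by
    refine ⟨Pi.single 0 (l 0)⁻¹, ?_⟩
    rw [Finset.sum_eq_single 0]
    · rw [Pi.single_eq_same, mul_inv_cancel₀ hl0]
    · intro j _ hj
      rw [Pi.single_eq_of_ne hj, mul_zero]
    · intro h
      exact absurd (Finset.mem_univ 0) h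
  -- the four vectors are independent
  have hli : LinearIndependent ℂ ![u, v, p, w] := by
    rw [Fintype.linearIndependent_iff]
    intro g hg
    have hj : ∀ j, g 0 * u j + g 1 * v j + g 2 * p j + g 3 * w j = 0 := by
      intro j
      have h1 := congrFun hg j
      simpa [Fin.sum_univ_four] using h1
    have g3 : g 3 = 0 := by
      have h1 : ∑ j, l j * (g 0 * u j + g 1 * v j + g 2 * p j + g 3 * w j) = 0 :=
        Finset.sum_eq_zero fun j _ => by rw [hj, mul_zero]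
      have h2 : ∑ j, l j * (g 0 * u j + g 1 * v j + g 2 * p j + g 3 * w j) =
          g 0 * (∑ j, l j * u j) + g 1 * (∑ j, l j * v j) + g 2 * (∑ j, l j * p j) +
            g 3 * (∑ j, l j * w j) := by
        simp only [Finset.mul_sum, ← Finset.sum_add_distrib]
        exact Finset.sum_congr rfl fun j _ => by ring
      rw [h2, hlu, hlv, hlp, hw] at h1
      simpa using h1
    have g0 : g 0 = 0 := by
      have h1 : ∑ j, c j * p j * v j * (g 0 * u j + g 1 * v j + g 2 * p j + g 3 * w j) = 0 :=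
        Finset.sum_eq_zero fun j _ => by rw [hj, mul_zero]
      have h2 : ∑ j, c j * p j * v j * (g 0 * u j + g 1 * v j + g 2 * p j + g 3 * w j) =
          g 0 * (∑ j, c j * p j * (u j * v j)) + g 1 * (∑ j, c j * p j * v j ^ 2) +
            g 2 * (∑ j, c j * p j ^ 2 * v j) + g 3 * (∑ j, c j * p j * (w j * v j)) := by
        simp only [Finset.mul_sum, ← Finset.sum_add_distrib]
        exact Finset.sum_congr rfl fun j _ => by ring
      rw [h2, huv, hvv, hv, g3] at h1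
      simpa using h1
    have g1 : g 1 = 0 := by
      have h1 : ∑ j, c j * p j * u j * (g 0 * u j + g 1 * v j + g 2 * p j + g 3 * w j) = 0 :=
        Finset.sum_eq_zero fun j _ => by rw [hj, mul_zero]
      have h2 : ∑ j, c j * p j * u j * (g 0 * u j + g 1 * v j + g 2 * p j + g 3 * w j) =
          g 0 * (∑ j, c j * p j * u j ^ 2) + g 1 * (∑ j, c j * p j * (u j * v j)) +
            g 2 * (∑ j, c j * p j ^ 2 * u j) + g 3 * (∑ j, c j * p j * (w j * u j)) := by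
        simp only [Finset.mul_sum, ← Finset.sum_add_distrib]
        exact Finset.sum_congr rfl fun j _ => by ring
      rw [h2, huv, huu, hu, g3] at h1
      simpa using h1
    have g2 : g 2 = 0 := by
      have h1 := hj 0
      rw [g0, g1, g3] at h1
      simp only [zero_mul, zero_add, add_zero] at h1
      exact (mul_eq_zero.mp h1).resolve_right (hp 0)
    intro i
    fin_cases i
    · exact g0
    · exact g1
    · exact g2
    · exact g3
  -- the matrix with the rows `u, v, p, w` and its transpose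
  obtain ⟨Mx, hMx⟩ : ∃ Mx : Matrix (Fin 4) (Fin 4) ℂ, Mx = Matrix.of ![u, v, p, w] := ⟨_, rfl⟩
  have hunit : IsUnit Mx := by
    rw [← Matrix.linearIndependent_rows_iff_isUnit, hMx]
    exact hli
  have hli2 : LinearIndependent ℂ (fun j : Fin 4 => (![u j, v j, p j, w j] : Fin 4 → ℂ)) := by
    have h1 := Matrix.linearIndependent_cols_iff_isUnit.mpr hunit
    have h2 : Mx.col = fun j : Fin 4 => (![u j, v j, p j, w j] : Fin 4 → ℂ) := by
      funext j i
      rw [hMx]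
      fin_cases i <;> rfl
    rwa [h2] at h1
  obtain ⟨l0, hl0d⟩ : ∃ l0 : Fin 4 → S, l0 = fun j => lf ![u j, v j, p j, w j] := ⟨_, rfl⟩
  have hl0h : ∀ i, (l0 i).IsHomogeneous 1 := fun i => by rw [hl0d]; exact lf_hom _
  have hl0i : LinearIndependent ℂ l0 := by
    rw [hl0d]
    exact (li_lf _).mpr hli2
  have hl0e : ∀ j, l0 j = C (u j) * X 0 + C (v j) * X 1 + C (p j) * X 2 + C (w j) * X 3 := by
    intro j
    rw [hl0d]
    show lf ![u j, v j, p j, w j] = _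
    rw [lf_apply, Fin.sum_univ_four]
    rfl
  obtain ⟨L', hL1, hL2, hL3, hL4⟩ := exists_inverse l0 hl0h hl0i
  have hX : ∀ i, aeval l0 (L' i) = X i := by
    intro i
    have := hL3 (X i)
    rwa [aeval_X] at this
  have hev : ∀ i, eval p (L' i) = eval (Pi.single 2 1) (X i : S) := by
    intro i
    rw [← hX i]
    have h1 : ∀ F : S, eval (Pi.single 2 1) (aeval l0 F) = eval p F := by
      intro F
      induction F using MvPolynomial.induction_on with
      | C a => simp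
      | add f g hf hg => rw [map_add, map_add, map_add, hf, hg]
      | mul_X f n hf =>
        rw [map_mul, map_mul, map_mul, hf, aeval_X, eval_X, hl0e]
        simp
    exact (h1 _).symm
  obtain ⟨s, hs⟩ : ∃ s : Fin 4 → S, ∀ j, s j = C (u j) * X 0 + C (v j) * X 1 + C (p j) * X 2 :=
    ⟨_, fun _ => rfl⟩
  obtain ⟨q, hq⟩ : ∃ q : S, q = ∑ j, C (c j) * (C (3 * w j) * s j ^ 2 +
    C (3 * w j ^ 2) * (s j * X 3) + C (w j ^ 3) * X 3 ^ 2) := ⟨_, rfl⟩
  have hsh : ∀ j, (s j).IsHomogeneous 1 := by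
    intro j
    rw [hs]
    exact ((isHomogeneous_C_mul_X _ _).add (isHomogeneous_C_mul_X _ _)).add
      (isHomogeneous_C_mul_X _ _)
  have hqh : q.IsHomogeneous 2 := by
    rw [hq]
    refine IsHomogeneous.sum _ _ _ fun j _ => ?_
    refine IsHomogeneous.C_mul ?_ _
    refine ((IsHomogeneous.C_mul ?_ _).add (IsHomogeneous.C_mul ?_ _)).add
      (IsHomogeneous.C_mul ?_ _)
    · exact (hsh j).pow 2
    · exact (hsh j).mul (isHomogeneous_X _ _)
    · exact (isHomogeneous_X ℂ (3 : Fin 4)).pow 2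
  have hqe : ∀ t : Fin 4 → ℂ, t 3 = 0 → eval t q =
      3 * ∑ j, c j * w j * (u j * t 0 + v j * t 1 + p j * t 2) ^ 2 := by
    intro t ht
    rw [hq, map_sum, Finset.mul_sum]
    refine Finset.sum_congr rfl fun j _ => ?_
    rw [hs]
    simp only [map_mul, map_add, map_pow, eval_C, eval_X, ht]
    ring
  have key : aeval l0 (diag c) = cub (∑ j, c j * u j ^ 3) (∑ j, c j * v j ^ 3) q := by
    have e1 : aeval l0 (diag c) = ∑ j, C (c j) * (s j + C (w j) * X 3) ^ 3 := by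
      unfold diag
      rw [map_sum]
      refine Finset.sum_congr rfl fun j _ => ?_
      rw [map_mul, map_pow, aeval_X, hl0e, hs]
      congr 1
      exact aeval_C _ _
    have e2 : ∑ j, C (c j) * (s j + C (w j) * X 3) ^ 3 = ∑ j, C (c j) * s j ^ 3 + X 3 * q := by
      rw [hq, Finset.mul_sum, ← Finset.sum_add_distrib]
      refine Finset.sum_congr rfl fun j _ => ?_
      simp only [map_mul, map_pow]
      have h3 : (C (3 : ℂ) : S) = 3 := rfl
      rw [h3]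
      ring
    have e3 : ∑ j, C (c j) * s j ^ 3 = C (∑ j, c j * u j ^ 3) * X 0 ^ 3 +
        C (∑ j, c j * v j ^ 3) * X 1 ^ 3 + C (∑ j, c j * p j ^ 3) * X 2 ^ 3 +
        C (3 * ∑ j, c j * (u j ^ 2 * v j)) * (X 0 ^ 2 * X 1) +
        C (3 * ∑ j, c j * (u j * v j ^ 2)) * (X 0 * X 1 ^ 2) +
        C (3 * ∑ j, c j * p j * u j ^ 2) * (X 0 ^ 2 * X 2) +
        C (3 * ∑ j, c j * p j * v j ^ 2) * (X 1 ^ 2 * X 2) +
        C (3 * ∑ j, c j * p j ^ 2 * u j) * (X 0 * X 2 ^ 2) +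
        C (3 * ∑ j, c j * p j ^ 2 * v j) * (X 1 * X 2 ^ 2) +
        C (6 * ∑ j, c j * p j * (u j * v j)) * (X 0 * X 1 * X 2) := by
      simp only [Fin.sum_univ_four, hs, map_mul, map_add, map_pow]
      have h3 : (C (3 : ℂ) : S) = 3 := rfl
      have h6 : (C (6 : ℂ) : S) = 6 := rfl
      rw [h3, h6]
      ring
    rw [e1, e2, e3, hf', huuv, huvv, huu, hvv, hu, hv, huv]
    unfold cub
    simp only [mul_zero, map_zero, zero_mul, add_zero]
    norm_num
    ring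
  refine ⟨L', ∑ j, c j * u j ^ 3, ∑ j, c j * v j ^ 3, q, hL1, hL2, ?_, ?_, ?_, ?_, hqh, ?_, ?_, ?_,
    ?_⟩
  · have h1 : aeval l0 (lf l) = X 3 := by
      rw [lf_apply, map_sum]
      have h2 : ∀ j, aeval l0 (C (l j) * X j : S) = C (l j * u j) * X 0 + C (l j * v j) * X 1 +
          C (l j * p j) * X 2 + C (l j * w j) * X 3 := by
        intro j
        rw [map_mul, aeval_X, hl0e]
        have : aeval l0 (C (l j) : S) = C (l j) := aeval_C _ _
        rw [this]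
        simp only [map_mul]
        ring
      rw [Finset.sum_congr rfl fun j _ => h2 j]
      simp only [Finset.sum_add_distrib, ← Finset.sum_mul, ← map_sum]
      rw [hlu, hlv, hlp, hw]
      simp
    have h2 := hL4 (lf l)
    rw [h1, aeval_X] at h2
    exact h2
  · rw [hev]
    simp
  · rw [hev]
    simp
  · rw [hev]
    simp
  · rw [← key, hL4]
  · rw [hqe _ (by simp)]
    have h1 : ∑ j, c j * w j * (u j * (Pi.single 2 1 : Fin 4 → ℂ) 0 +
        v j * (Pi.single 2 1 : Fin 4 → ℂ) 1 + p j * (Pi.single 2 1 : Fin 4 → ℂ) 2) ^ 2 =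
        ∑ j, c j * p j ^ 2 * w j := by
      refine Finset.sum_congr rfl fun j _ => ?_
      simp
      ring
    rw [h1, ← hpair w, hw, mul_one]
    exact hr
  · intro he0 h0
    rw [hqe _ (by simp)] at h0
    have h1 : ∑ j, c j * w j * (u j * (Pi.single 0 1 : Fin 4 → ℂ) 0 +
        v j * (Pi.single 0 1 : Fin 4 → ℂ) 1 + p j * (Pi.single 0 1 : Fin 4 → ℂ) 2) ^ 2 =
        ∑ j, c j * u j ^ 2 * w j := by
      refine Finset.sum_congr rfl fun j _ => ?_
      simp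
      ring
    rw [h1] at h0
    have h2 : ∑ j, c j * u j ^ 2 * w j = 0 := (mul_eq_zero.mp h0).resolve_left (by norm_num)
    have h3 : Mx.mulVec (fun j => c j * u j ^ 2) = 0 := by
      funext i
      rw [hMx]
      fin_cases i
      · show ∑ j, u j * (c j * u j ^ 2) = 0
        rw [← he0]
        exact Finset.sum_congr rfl fun j _ => by ring
      · show ∑ j, v j * (c j * u j ^ 2) = 0
        rw [← huuv]
        exact Finset.sum_congr rfl fun j _ => by ring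
      · show ∑ j, p j * (c j * u j ^ 2) = 0
        rw [← huu]
        exact Finset.sum_congr rfl fun j _ => by ring
      · show ∑ j, w j * (c j * u j ^ 2) = 0
        rw [← h2]
        exact Finset.sum_congr rfl fun j _ => by ring
    have h4 : (fun j => c j * u j ^ 2) = 0 := by
      have hinj := Matrix.mulVec_injective_iff_isUnit.mpr hunit
      apply hinj
      rw [h3, Matrix.mulVec_zero]
    have h5 : ∀ j, u j = 0 := by
      intro j
      have h6 : c j * u j ^ 2 = 0 := congrFun h4 j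
      exact pow_eq_zero_iff (two_ne_zero) |>.mp ((mul_eq_zero.mp h6).resolve_left (hc j))
    have h7 : ∑ j, c j * p j * (u j * v j) = 0 :=
      Finset.sum_eq_zero fun j _ => by rw [h5 j]; ring
    rw [huv] at h7
    norm_num at h7
  · intro he0 h0
    rw [hqe _ (by simp)] at h0
    have h1 : ∑ j, c j * w j * (u j * (Pi.single 1 1 : Fin 4 → ℂ) 0 +
        v j * (Pi.single 1 1 : Fin 4 → ℂ) 1 + p j * (Pi.single 1 1 : Fin 4 → ℂ) 2) ^ 2 =
        ∑ j, c j * v j ^ 2 * w j := by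
      refine Finset.sum_congr rfl fun j _ => ?_
      simp
      ring
    rw [h1] at h0
    have h2 : ∑ j, c j * v j ^ 2 * w j = 0 := (mul_eq_zero.mp h0).resolve_left (by norm_num)
    have h3 : Mx.mulVec (fun j => c j * v j ^ 2) = 0 := by
      funext i
      rw [hMx]
      fin_cases i
      · show ∑ j, u j * (c j * v j ^ 2) = 0
        rw [← huvv]
        exact Finset.sum_congr rfl fun j _ => by ring
      · show ∑ j, v j * (c j * v j ^ 2) = 0
        rw [← he0]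
        exact Finset.sum_congr rfl fun j _ => by ring
      · show ∑ j, p j * (c j * v j ^ 2) = 0
        rw [← hvv]
        exact Finset.sum_congr rfl fun j _ => by ring
      · show ∑ j, w j * (c j * v j ^ 2) = 0
        rw [← h2]
        exact Finset.sum_congr rfl fun j _ => by ring
    have h4 : (fun j => c j * v j ^ 2) = 0 := by
      have hinj := Matrix.mulVec_injective_iff_isUnit.mpr hunit
      apply hinj
      rw [h3, Matrix.mulVec_zero]
    have h5 : ∀ j, v j = 0 := by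
      intro j
      have h6 : c j * v j ^ 2 = 0 := congrFun h4 j
      exact pow_eq_zero_iff (two_ne_zero) |>.mp ((mul_eq_zero.mp h6).resolve_left (hc j))
    have h7 : ∑ j, c j * p j * (u j * v j) = 0 :=
      Finset.sum_eq_zero fun j _ => by rw [h5 j]; ring
    rw [huv] at h7
    norm_num at h7

end Pool.Agent.CLN
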