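import Pool.Agent.CLN.Defs
import Pool.Agent.KSF.Homg

/-!
# CLN / OrdL: the order along `G = 0`

`S` is a unique factorisation domain, `G` irreducible, hence prime (`Irreducible.prime`);
`multiplicity` of nonzero elements is finite (`FiniteMultiplicity.of_prime_left` or
`FiniteMultiplicity.of_not_isUnit`) and additive (`multiplicity_mul`).
`mem_surfRing_iff`: `a = A / B` with forms of the same degree; cancel the common power of `G` (the
cofactors are forms, `KSF.homog_of_mul`).
-/

set_option autoImplicit false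

namespace Pool.Agent.CLN

open MvPolynomial Pool.Agent.CLU

variable {G : S}

private theorem fm (hG : Irreducible G) {A : S} (hA : A ≠ 0) : FiniteMultiplicity G A :=
  FiniteMultiplicity.of_prime_left hG.prime hA

private theorem mmul (hG : Irreducible G) {A B : S} (hA : A ≠ 0) (hB : B ≠ 0) :
    multiplicity G (A * B) = multiplicity G A + multiplicity G B :=
  multiplicity_mul hG.prime (fm hG (mul_ne_zero hA hB))

private theorem map_ne {A : S} (hA : A ≠ 0) : algebraMap S L A ≠ 0 := by simpa using hA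

private theorem map_inj {A B : S} (h : algebraMap S L A = algebraMap S L B) : A = B :=
  IsFractionRing.injective S L h

private theorem mdvd (hG : Irreducible G) {A : S} (hA : A ≠ 0) :
    ∃ A' : S, A' ≠ 0 ∧ A = G ^ multiplicity G A * A' ∧ ¬ G ∣ A' := by
  obtain ⟨A', h1, h2⟩ := (fm hG hA).exists_eq_pow_mul_and_not_dvd
  refine ⟨A', ?_, h1, h2⟩
  rintro rfl
  exact h2 (dvd_zero G)

theorem ordL_div (hG : Irreducible G) (A B : S) (hA : A ≠ 0) (hB : B ≠ 0) :
    ordL G (algebraMap S L A / algebraMap S L B) = (multiplicity G A : ℤ) - multiplicity G B := by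
  set a : L := algebraMap S L A / algebraMap S L B with ha
  have ha0 : a ≠ 0 := div_ne_zero (map_ne hA) (map_ne hB)
  set n : S := IsFractionRing.num S a with hn
  set d : S := ((IsFractionRing.den S a : nonZeroDivisors S) : S) with hd
  have hd0 : d ≠ 0 := nonZeroDivisors.coe_ne_zero _
  have h1 : algebraMap S L n / algebraMap S L d = a := by
    have h2 := IsFractionRing.mk'_num_den' S a
    exact h2
  have hn0 : n ≠ 0 := by
    intro h
    rw [h, map_zero, zero_div] at h1
    exact ha0 h1.symm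
  have h2 : n * B = A * d := by
    apply map_inj
    rw [map_mul, map_mul]
    rw [ha] at h1
    exact (div_eq_div_iff (map_ne hd0) (map_ne hB)).1 h1
  have h3 : multiplicity G n + multiplicity G B = multiplicity G A + multiplicity G d := by
    rw [← mmul hG hn0 hB, ← mmul hG hA hd0, h2]
  unfold ordL
  rw [← hn, ← hd]
  omega

theorem ordL_map (hG : Irreducible G) (A : S) (hA : A ≠ 0) :
    ordL G (algebraMap S L A) = (multiplicity G A : ℤ) := by
  have h1 := ordL_div hG A 1 hA one_ne_zero
  rw [map_one, div_one] at h1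
  have h2 : multiplicity G (1 : S) = 0 :=
    multiplicity_eq_zero.2 fun h => hG.not_isUnit (isUnit_of_dvd_one h)
  rw [h1, h2]
  simp

private theorem exists_rep (a : L) (ha : a ≠ 0) :
    ∃ A B : S, A ≠ 0 ∧ B ≠ 0 ∧ a = algebraMap S L A / algebraMap S L B := by
  obtain ⟨A, B, hB, h⟩ := IsFractionRing.div_surjective (A := S) a
  refine ⟨A, B, ?_, nonZeroDivisors.ne_zero hB, h.symm⟩
  rintro rfl
  rw [map_zero, zero_div] at h
  exact ha h.symm

private theorem exists_nn (hG : Irreducible G) (a : L) (ha : a ≠ 0) (h : 0 ≤ ordL G a) :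
    ∃ A B : S, A ≠ 0 ∧ ¬ G ∣ B ∧ a = algebraMap S L A / algebraMap S L B := by
  obtain ⟨A, B, hA, hB, rfl⟩ := exists_rep a ha
  rw [ordL_div hG A B hA hB] at h
  obtain ⟨A', hA', h1, h2⟩ := mdvd hG hA
  obtain ⟨B', hB', h3, h4⟩ := mdvd hG hB
  have h5 : multiplicity G B ≤ multiplicity G A := by omega
  obtain ⟨k, hk⟩ := Nat.exists_eq_add_of_le h5
  refine ⟨G ^ k * A', B', mul_ne_zero (pow_ne_zero _ hG.ne_zero) hA', h4, ?_⟩
  rw [div_eq_div_iff (map_ne hB) (map_ne hB'), ← map_mul, ← map_mul]
  congr 1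
  rw [hk] at h1
  calc A * B' = G ^ (multiplicity G B + k) * A' * B' := by rw [← h1]
    _ = G ^ k * A' * (G ^ multiplicity G B * B') := by rw [pow_add]; ring
    _ = G ^ k * A' * B := by rw [← h3]

theorem ordL_map_nonneg (hG : Irreducible G) (A : S) (hA : A ≠ 0) :
    0 ≤ ordL G (algebraMap S L A) := by
  rw [ordL_map hG A hA]
  exact Int.natCast_nonneg _

theorem ordL_map_eq_zero (hG : Irreducible G) (A : S) (hA : ¬ G ∣ A) :
    ordL G (algebraMap S L A) = 0 := by
  have h0 : A ≠ 0 := by
    rintro rfl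
    exact hA (dvd_zero G)
  rw [ordL_map hG A h0, multiplicity_eq_zero.2 hA]
  rfl

theorem one_le_ordL_map (hG : Irreducible G) (A : S) (hA : A ≠ 0) (h : G ∣ A) :
    1 ≤ ordL G (algebraMap S L A) := by
  rw [ordL_map hG A hA]
  have h1 : 1 ≤ multiplicity G A := by
    refine (fm hG hA).le_multiplicity_of_pow_dvd ?_
    rwa [pow_one]
  exact_mod_cast h1

theorem ordL_self (hG : Irreducible G) : ordL G (algebraMap S L G) = 1 := by
  have h : multiplicity G G = 1 := by
    refine multiplicity_eq_of_dvd_of_not_dvd (by rw [pow_one]) ?_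
    intro h
    obtain ⟨c, hc⟩ := h
    refine hG.not_isUnit (IsUnit.of_mul_eq_one c ?_)
    refine mul_left_cancel₀ hG.ne_zero ?_
    rw [mul_one]
    calc G * (G * c) = G ^ (1 + 1) * c := by ring
      _ = G := hc.symm
  rw [ordL_map hG G hG.ne_zero, h]
  rfl

theorem ordL_mul (hG : Irreducible G) (a b : L) (ha : a ≠ 0) (hb : b ≠ 0) :
    ordL G (a * b) = ordL G a + ordL G b := by
  obtain ⟨A, B, hA, hB, rfl⟩ := exists_rep a ha
  obtain ⟨C, D, hC, hD, rfl⟩ := exists_rep b hb
  rw [div_mul_div_comm, ← map_mul, ← map_mul, ordL_div hG _ _ (mul_ne_zero hA hC) (mul_ne_zero hB hD),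
    ordL_div hG A B hA hB, ordL_div hG C D hC hD, mmul hG hA hC, mmul hG hB hD]
  push_cast
  ring

theorem ordL_one (hG : Irreducible G) : ordL G (1 : L) = 0 := by
  have h := ordL_mul hG 1 1 one_ne_zero one_ne_zero
  rw [mul_one] at h
  omega

theorem ordL_inv (hG : Irreducible G) (a : L) (ha : a ≠ 0) : ordL G a⁻¹ = - ordL G a := by
  have h := ordL_mul hG a a⁻¹ ha (inv_ne_zero ha)
  rw [mul_inv_cancel₀ ha, ordL_one hG] at h
  omega

theorem ordL_zpow (hG : Irreducible G) (a : L) (ha : a ≠ 0) (n : ℤ) :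
    ordL G (a ^ n) = n * ordL G a := by
  induction n using Int.induction_on with
  | zero => rw [zpow_zero, ordL_one hG, zero_mul]
  | succ n ih => rw [zpow_add_one₀ ha, ordL_mul hG _ _ (zpow_ne_zero _ ha) ha, ih]; ring
  | pred n ih =>
    rw [zpow_sub_one₀ ha, ordL_mul hG _ _ (zpow_ne_zero _ ha) (inv_ne_zero ha), ih, ordL_inv hG a ha]
    ring

theorem ordL_prod (hG : Irreducible G) {ι : Type*} (s : Finset ι) (f : ι → L)
    (hf : ∀ i ∈ s, f i ≠ 0) : ordL G (∏ i ∈ s, f i) = ∑ i ∈ s, ordL G (f i) := by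
  classical
  induction s using Finset.induction_on with
  | empty => rw [Finset.prod_empty, Finset.sum_empty, ordL_one hG]
  | insert i s hi ih =>
    rw [Finset.prod_insert hi, Finset.sum_insert hi, ordL_mul hG _ _ (hf i (Finset.mem_insert_self i s))
      (Finset.prod_ne_zero_iff.2 fun j hj => hf j (Finset.mem_insert_of_mem hj)),
      ih fun j hj => hf j (Finset.mem_insert_of_mem hj)]

theorem ordL_const (hG : Irreducible G) (c : ℂ) (hc : c ≠ 0) : ordL G (algebraMap ℂ L c) = 0 := by
  have h1 : algebraMap ℂ L c = algebraMap S L (C c) := by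
    rw [IsScalarTower.algebraMap_apply ℂ S L]
    rfl
  rw [h1]
  refine ordL_map_eq_zero hG _ fun h => hG.not_isUnit ?_
  exact isUnit_of_dvd_unit h ((isUnit_iff_ne_zero.2 hc).map (C : ℂ →+* S))

theorem ordL_neg (hG : Irreducible G) (a : L) : ordL G (-a) = ordL G a := by
  rcases eq_or_ne a 0 with rfl | ha
  · rw [neg_zero]
  have h1 := ordL_mul hG (-1) (-1) (neg_ne_zero.2 one_ne_zero) (neg_ne_zero.2 one_ne_zero)
  rw [neg_mul_neg, mul_one, ordL_one hG] at h1
  have h2 := ordL_mul hG (-1) a (neg_ne_zero.2 one_ne_zero) ha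
  rw [neg_one_mul] at h2
  omega

theorem ordL_add (hG : Irreducible G) (n : ℤ) (a b : L) (ha : a ≠ 0 → n ≤ ordL G a)
    (hb : b ≠ 0 → n ≤ ordL G b) (hab : a + b ≠ 0) : n ≤ ordL G (a + b) := by
  rcases eq_or_ne a 0 with rfl | ha0
  · rw [zero_add] at hab ⊢
    exact hb hab
  rcases eq_or_ne b 0 with rfl | hb0
  · rw [add_zero] at hab ⊢
    exact ha hab
  have ha' := ha ha0
  have hb' := hb hb0
  obtain ⟨A, B, hA, hB, rfl⟩ := exists_rep a ha0
  obtain ⟨C, D, hC, hD, rfl⟩ := exists_rep b hb0
  rw [ordL_div hG _ _ hA hB] at ha'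
  rw [ordL_div hG _ _ hC hD] at hb'
  have e : algebraMap S L A / algebraMap S L B + algebraMap S L C / algebraMap S L D =
      algebraMap S L (A * D + B * C) / algebraMap S L (B * D) := by
    rw [div_add_div _ _ (map_ne hB) (map_ne hD), map_add, map_mul, map_mul, map_mul]
  rw [e] at hab ⊢
  have h0 : A * D + B * C ≠ 0 := by
    intro h
    rw [h, map_zero, zero_div] at hab
    exact hab rfl
  rw [ordL_div hG _ _ h0 (mul_ne_zero hB hD), mmul hG hB hD]
  have h1 : min (multiplicity G A + multiplicity G D) (multiplicity G B + multiplicity G C) ≤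
      multiplicity G (A * D + B * C) := by
    refine (fm hG h0).le_multiplicity_of_pow_dvd (dvd_add ?_ ?_)
    · refine (pow_dvd_pow G (min_le_left _ _)).trans ?_
      rw [← mmul hG hA hD]
      exact pow_multiplicity_dvd G _
    · refine (pow_dvd_pow G (min_le_right _ _)).trans ?_
      rw [← mmul hG hB hC]
      exact pow_multiplicity_dvd G _
  push_cast
  omega

theorem ordL_sum (hG : Irreducible G) (n : ℤ) {ι : Type*} (s : Finset ι) (f : ι → L)
    (hf : ∀ i ∈ s, f i ≠ 0 → n ≤ ordL G (f i)) (h : ∑ i ∈ s, f i ≠ 0) :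
    n ≤ ordL G (∑ i ∈ s, f i) := by
  classical
  induction s using Finset.induction_on with
  | empty => exact absurd Finset.sum_empty h
  | insert i s hi ih =>
    rw [Finset.sum_insert hi] at h ⊢
    exact ordL_add hG n _ _ (hf i (Finset.mem_insert_self i s))
      (fun h' => ih (fun j hj => hf j (Finset.mem_insert_of_mem hj)) h') h

theorem ordL_add_eq (hG : Irreducible G) (a b : L) (ha : a ≠ 0)
    (hb : b ≠ 0 → ordL G a < ordL G b) : a + b ≠ 0 ∧ ordL G (a + b) = ordL G a := by
  have h0 : a + b ≠ 0 := by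
    intro h
    have h1 : b = -a := (neg_eq_of_add_eq_zero_right h).symm
    have h2 := hb (by rw [h1]; exact neg_ne_zero.2 ha)
    rw [h1, ordL_neg hG] at h2
    exact lt_irrefl _ h2
  refine ⟨h0, le_antisymm ?_ ?_⟩
  · by_contra hlt
    rw [not_le] at hlt
    have h1 := ordL_add hG (ordL G a + 1) (a + b) (-b) (fun _ => by omega)
      (fun h => by
        rw [ordL_neg hG]
        have := hb (neg_ne_zero.1 h)
        omega) (by rw [add_neg_cancel_right]; exact ha)
    rw [add_neg_cancel_right] at h1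
    omega
  · exact ordL_add hG (ordL G a) a b (fun _ => le_refl _) (fun h => (hb h).le) h0

theorem mem_surfRing_iff (hG : Irreducible G) {g : ℕ} (hGh : G.IsHomogeneous g) (a : K3)
    (ha : a ≠ 0) : a ∈ surfRing G ↔ 0 ≤ ordL G (a : L) := by
  have ha' : (a : L) ≠ 0 := fun h => ha (Subtype.ext h)
  constructor
  · rintro ⟨d, A, B, hA, hB, hGB, h⟩
    have hB0 : B ≠ 0 := by
      rintro rfl
      exact hGB (dvd_zero G)
    have hA0 : A ≠ 0 := by
      rintro rfl
      rw [map_zero, zero_div] at h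
      exact ha' h
    rw [h, ordL_div hG A B hA0 hB0, multiplicity_eq_zero.2 hGB]
    simp
  · intro h
    obtain ⟨d, A, B, hA, hB, hB0, hab⟩ := a.2
    have hab' : (a : L) = algebraMap S L A / algebraMap S L B := hab
    have hA0 : A ≠ 0 := by
      rintro rfl
      rw [map_zero, zero_div] at hab'
      exact ha' hab'
    rw [hab', ordL_div hG A B hA0 hB0] at h
    obtain ⟨A', hA', h1, h2⟩ := mdvd hG hA0
    obtain ⟨B', hB', h3, h4⟩ := mdvd hG hB0
    have h5 : multiplicity G B ≤ multiplicity G A := by omega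
    obtain ⟨k, hk⟩ := Nat.exists_eq_add_of_le h5
    have hGk : (G ^ multiplicity G B).IsHomogeneous (g * multiplicity G B) := hGh.pow _
    have hGk0 : G ^ multiplicity G B ≠ 0 := pow_ne_zero _ hG.ne_zero
    have h6 : A = G ^ multiplicity G B * (G ^ k * A') := by
      calc A = G ^ multiplicity G A * A' := h1
        _ = G ^ multiplicity G B * (G ^ k * A') := by rw [hk, pow_add]; ring
    obtain ⟨i, j, hij, hi, hj⟩ := KSF.homog_of_mul (G ^ multiplicity G B) B' d (by rw [← h3]; exact hB)
      (by rw [← h3]; exact hB0)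
    obtain ⟨i', j', hij', hi', hj'⟩ := KSF.homog_of_mul (G ^ multiplicity G B) (G ^ k * A') d
      (by rw [← h6]; exact hA) (by rw [← h6]; exact hA0)
    have h7 : i = i' := hi.inj_right hi' hGk0
    have h8 : j' = j := by omega
    refine ⟨j, G ^ k * A', B', h8 ▸ hj', hj, h4, ?_⟩
    rw [hab', div_eq_div_iff (map_ne hB0) (map_ne hB'), ← map_mul, ← map_mul]
    congr 1
    calc A * B' = G ^ multiplicity G B * (G ^ k * A') * B' := by rw [← h6]
      _ = G ^ k * A' * (G ^ multiplicity G B * B') := by ring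
      _ = G ^ k * A' * B := by rw [← h3]

theorem zero_mem_surfRing (hG : Irreducible G) : (0 : K3) ∈ surfRing G := by
  refine ⟨0, 0, 1, isHomogeneous_zero _ _ _, isHomogeneous_one _ _,
    fun h => hG.not_isUnit (isUnit_of_dvd_one h), ?_⟩
  simp

/-- `ord_G` of the image of `F` under a partial derivative. -/
theorem ordL_partial (hG : Irreducible G) (dL : Fin 4 → Derivation ℂ L L)
    (hdL : ∀ (j : Fin 4) (F : S), dL j (algebraMap S L F) = algebraMap S L (pderiv j F))
    (j : Fin 4) (a : L) (ha : 0 ≤ ordL G a) (hd : dL j a ≠ 0) : 0 ≤ ordL G (dL j a) := by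
  have ha0 : a ≠ 0 := by
    rintro rfl
    exact hd (map_zero _)
  obtain ⟨A, B, hA, hGB, rfl⟩ := exists_nn hG a ha0 ha
  have hB : B ≠ 0 := by
    rintro rfl
    exact hGB (dvd_zero G)
  have hB' := map_ne hB
  set a : L := algebraMap S L A / algebraMap S L B with hadef
  have h1 : a * algebraMap S L B = algebraMap S L A := div_mul_cancel₀ _ hB'
  have h2 := congrArg (dL j) h1
  rw [Derivation.leibniz, hdL, hdL, smul_eq_mul, smul_eq_mul] at h2
  have h3 : dL j a = algebraMap S L (pderiv j A * B - A * pderiv j B) / algebraMap S L (B * B) := by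
    rw [eq_div_iff (by rw [map_mul]; exact mul_ne_zero hB' hB'), map_sub, map_mul, map_mul, map_mul]
    linear_combination algebraMap S L B * h2 - algebraMap S L (pderiv j B) * h1
  have h4 : pderiv j A * B - A * pderiv j B ≠ 0 := by
    intro h
    rw [h, map_zero, zero_div] at h3
    exact hd h3
  rw [h3, ordL_div hG _ _ h4 (mul_ne_zero hB hB), mmul hG hB hB, multiplicity_eq_zero.2 hGB]
  simp

/-- Every nonzero element of `L` is `G^n` times a unit at `G`. -/
theorem exists_unit (hG : Irreducible G) (a : L) (ha : a ≠ 0) :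
    ∃ u : L, u ≠ 0 ∧ ordL G u = 0 ∧ a = algebraMap S L G ^ ordL G a * u := by
  have hg : algebraMap S L G ≠ 0 := map_ne hG.ne_zero
  have hz : algebraMap S L G ^ ordL G a ≠ 0 := zpow_ne_zero _ hg
  refine ⟨(algebraMap S L G ^ ordL G a)⁻¹ * a, mul_ne_zero (inv_ne_zero hz) ha, ?_, ?_⟩
  · rw [ordL_mul hG _ _ (inv_ne_zero hz) ha, ordL_inv hG _ hz, ordL_zpow hG _ hg, ordL_self hG]
    ring
  · rw [mul_inv_cancel_left₀ hz]

end Pool.Agent.CLN
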