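import Pool.Agent.CLN.LeadM

/-!
# CLN / Star: the determinant formula on the surface `G = 0`

Let `A' = (A_0, A_1, A_2, G)` with degrees `d' = (d_0, d_1, d_2, g)`.  `det_forms` and `IsB`:
`det (d'_i A'_i, Θ_j A'_i) = Jac4 A' * b` in `L`.  As `Θ_j X_3 = 0`, `Θ_j A'_i = X_3^{d'_i} θ_j α_i`,
`α_i = fr A'_i`.  Divide the row `i` by `X_3^{d'_i}` (`deg (b' Jac4 A') = d_0 + d_1 + d_2`): in `K3`
`det (d'_i α_i, θ_j α_i) = fr(b' Jac4 A') γ`, `γ = α_3 = fr G`.  Apply `ι` and take the coefficient at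
`1`: the rows `0, 1, 2` have no negative coefficients, the last row has coefficients only from `1`
on (`ord γ = 1`, `Iota.der`), so with `x = pt ι`, `γ_1 = (ι γ).coeff 1 ≠ 0`:
`det (d_i A_i(x), D_j A_i(x); g γ_1, D_j γ_1) = (b' Jac4 A')(x) γ_1`.
Multiply the column `j0` by `w j0` and add the `w_j` multiples of the other columns `j`: by
`Iota.euler` (with `g = 0`, `g = 1`) it becomes `(0, 0, 0, γ_1)`.  Expand:
`w_{j0} (b' Jac4 A')(x) = ± det (d_i A_i(x), D_{j1} A_i(x), D_{j2} A_i(x))`.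
The statement is for the three choices of `j0` (`(j0, j1, j2)` = `(0, 1, 2)`, `(1, 0, 2)`,
`(2, 0, 1)`).
-/

set_option autoImplicit false

namespace Pool.Agent.CLN

open MvPolynomial Pool.Agent.CLU

variable {M : Type} [Field M] [Algebra ℂ M]

section hahn

private theorem coeff_mul_low {F H : HahnSeries ℤ M} {a b : ℤ} (hF : ∀ g < a, F.coeff g = 0)
    (hH : ∀ g < b, H.coeff g = 0) :
    (∀ g < a + b, (F * H).coeff g = 0) ∧ (F * H).coeff (a + b) = F.coeff a * H.coeff b := by
  constructor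
  · intro g hg
    rw [HahnSeries.coeff_mul]
    refine Finset.sum_eq_zero fun ij hij => ?_
    rw [Finset.mem_antidiagonal] at hij
    rcases lt_or_ge ij.1 a with h | h
    · rw [hF _ h, zero_mul]
    · rw [hH _ (by have := hij.2.2; omega), mul_zero]
  · rw [HahnSeries.coeff_mul, Finset.sum_eq_single (a, b)]
    · intro ij hij hne
      rw [Finset.mem_antidiagonal] at hij
      rcases lt_or_ge ij.1 a with h | h
      · rw [hF _ h, zero_mul]
      · rcases lt_or_ge ij.2 b with h' | h'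
        · rw [hH _ h', mul_zero]
        · exfalso
          apply hne
          have := hij.2.2
          ext
          · change ij.1 = a
            omega
          · change ij.2 = b
            omega
    · intro h
      rw [Finset.mem_antidiagonal] at h
      by_contra hcon
      apply h
      refine ⟨?_, ?_, rfl⟩
      · rw [HahnSeries.mem_support]
        intro h0
        apply hcon
        change F.coeff a * H.coeff b = 0
        rw [h0, zero_mul]
      · rw [HahnSeries.mem_support]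
        intro h0
        apply hcon
        change F.coeff a * H.coeff b = 0
        rw [h0, mul_zero]

private theorem coeff_prod_low {κ : Type*} (s : Finset κ) (f : κ → HahnSeries ℤ M) (v : κ → ℤ)
    (hf : ∀ i ∈ s, ∀ g < v i, (f i).coeff g = 0) :
    (∀ g < ∑ i ∈ s, v i, (∏ i ∈ s, f i).coeff g = 0) ∧
      (∏ i ∈ s, f i).coeff (∑ i ∈ s, v i) = ∏ i ∈ s, (f i).coeff (v i) := by
  classical
  induction s using Finset.induction_on with
  | empty =>
    refine ⟨fun g hg => ?_, ?_⟩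
    · rw [Finset.sum_empty] at hg
      rw [Finset.prod_empty, HahnSeries.coeff_one, if_neg hg.ne]
    · rw [Finset.sum_empty, Finset.prod_empty, Finset.prod_empty, HahnSeries.coeff_one, if_pos rfl]
  | insert a s ha ih =>
    have h1 := ih fun i hi => hf i (Finset.mem_insert_of_mem hi)
    have h2 := coeff_mul_low (hf a (Finset.mem_insert_self _ _)) h1.1
    rw [Finset.sum_insert ha, Finset.prod_insert ha, Finset.prod_insert ha]
    exact ⟨h2.1, by rw [h2.2, h1.2]⟩

private theorem coeff_det_low {n : ℕ} (N : Matrix (Fin n) (Fin n) (HahnSeries ℤ M)) (v : Fin n → ℤ)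
    (hN : ∀ i j, ∀ g < v i, (N i j).coeff g = 0) :
    N.det.coeff (∑ i, v i) = (Matrix.of fun i j => (N i j).coeff (v i)).det := by
  rw [Matrix.det_apply, Matrix.det_apply, HahnSeries.coeff_sum]
  refine Finset.sum_congr rfl fun σ _ => ?_
  have h1 := (coeff_prod_low Finset.univ (fun i => N (σ i) i) (fun i => v (σ i))
    fun i _ => hN (σ i) i).2
  rw [Equiv.sum_comp σ v] at h1
  have h2 : ∀ (F : HahnSeries ℤ M) (g : ℤ), (Equiv.Perm.sign σ • F).coeff g =
      Equiv.Perm.sign σ • F.coeff g := by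
    intro F g
    have h3 := map_zsmul (HahnSeries.coeff.addMonoidHom (R := M) g)
      ((Equiv.Perm.sign σ : ℤˣ) : ℤ) F
    exact h3
  rw [h2, h1]
  rfl

end hahn

private theorem jac4_homog {A : Fin 4 → S} {d : Fin 4 → ℕ} (hA : ∀ i, (A i).IsHomogeneous (d i)) (n : ℕ)
    (hn : n + 4 = ∑ i, d i) : (Jac4 A).IsHomogeneous n := by
  unfold Jac4
  by_cases h0 : ∃ i, d i = 0
  · obtain ⟨i, hi⟩ := h0
    have h1 : (Matrix.of fun i j => pderiv j (A i)).det = 0 := by
      refine Matrix.det_eq_zero_of_row_eq_zero i fun j => ?_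
      have h2 := hA i
      rw [hi] at h2
      have h3 : (A i).totalDegree = 0 := (totalDegree_zero_iff_isHomogeneous (Fin 4)).2 h2
      rw [totalDegree_eq_zero_iff_eq_C] at h3
      change pderiv j (A i) = 0
      rw [h3, pderiv_C]
    rw [h1]
    exact isHomogeneous_zero _ _ _
  · push Not at h0
    rw [Matrix.det_apply]
    refine IsHomogeneous.sum _ _ _ fun σ _ => ?_
    have h1 : (∏ i, (Matrix.of fun i j => pderiv j (A i)) (σ i) i).IsHomogeneous n := by
      have h2 := IsHomogeneous.prod (Finset.univ : Finset (Fin 4))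
        (fun i => (Matrix.of fun i j => pderiv j (A i)) (σ i) i) (fun i => d (σ i) - 1)
        fun i _ => (hA (σ i)).pderiv
      have h3 : ∑ i, (d (σ i) - 1) = n := by
        rw [Equiv.sum_comp σ fun i => d i - 1]
        rw [Fin.sum_univ_four] at hn ⊢
        have := h0 0
        have := h0 1
        have := h0 2
        have := h0 3
        omega
      rwa [h3] at h2
    rcases Int.units_eq_one_or (Equiv.Perm.sign σ) with h | h
    · rw [h, one_smul]
      exact h1
    · rw [h, Units.neg_smul, one_smul]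
      exact h1.neg

private theorem det_K3 (Θ : Fin 3 → Derivation ℂ L L) (θ : Fin 3 → Derivation ℂ K3 K3)
    (h3 : ∀ j, Θ j (algebraMap S L (X 3)) = 0)
    (hΘ : ∀ j (a : K3), Θ j (a : L) = ((θ j a : K3) : L))
    (A : Fin 4 → S) (d : Fin 4 → ℕ) (hA : ∀ i, (A i).IsHomogeneous (d i)) :
    (thMat Θ (fun i => (d i : L) * algebraMap S L (A i)) (fun i => algebraMap S L (A i))).det =
      algebraMap S L (X 3) ^ (∑ i, d i) *
        (((thMat θ (fun i => (d i : K3) * fr (A i) (d i) (hA i))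
          (fun i => fr (A i) (d i) (hA i))).det : K3) : L) := by
  have hx : algebraMap S L (X 3) ≠ 0 := by
    rw [Ne, FaithfulSMul.algebraMap_eq_zero_iff]
    exact X_ne_zero _
  have hfr : ∀ i, algebraMap S L (A i) =
      algebraMap S L (X 3) ^ d i * ((fr (A i) (d i) (hA i) : K3) : L) := by
    intro i
    change _ = _ * (algebraMap S L (A i) / algebraMap S L (X 3 ^ d i))
    rw [map_pow, mul_div_cancel₀]
    exact pow_ne_zero _ hx
  have hp : ∀ j n, Θ j (algebraMap S L (X 3) ^ n) = 0 := by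
    intro j n
    induction n with
    | zero => rw [pow_zero, Derivation.map_one_eq_zero]
    | succ n ih => rw [pow_succ, Derivation.leibniz, ih, h3, smul_zero, smul_zero, add_zero]
  have hT : ∀ j i, Θ j (algebraMap S L (A i)) =
      algebraMap S L (X 3) ^ d i * ((θ j (fr (A i) (d i) (hA i)) : K3) : L) := by
    intro j i
    rw [hfr i, Derivation.leibniz, hp, smul_zero, add_zero, hΘ, smul_eq_mul]
  have e1 : thMat Θ (fun i => (d i : L) * algebraMap S L (A i)) (fun i => algebraMap S L (A i)) =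
      Matrix.of fun i j => algebraMap S L (X 3) ^ d i *
        ((algebraMap K3 L).mapMatrix (thMat θ (fun i => (d i : K3) * fr (A i) (d i) (hA i))
          (fun i => fr (A i) (d i) (hA i)))) i j := by
    ext i j
    refine Fin.cases ?_ (fun j => ?_) j
    · change (d i : L) * algebraMap S L (A i) = algebraMap S L (X 3) ^ d i *
        algebraMap K3 L ((d i : K3) * fr (A i) (d i) (hA i))
      rw [map_mul, map_natCast, hfr i]
      change (d i : L) * (_ * ((fr (A i) (d i) (hA i) : K3) : L)) = _ * (_ * ((fr (A i) (d i) (hA i) : K3) : L))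
      ring
    · change Θ j (algebraMap S L (A i)) = algebraMap S L (X 3) ^ d i *
        algebraMap K3 L (θ j (fr (A i) (d i) (hA i)))
      rw [hT]
      rfl
  rw [e1, Matrix.det_mul_column, Finset.prod_pow_eq_pow_sum, ← RingHom.map_det]
  rfl

private theorem det4_eq (p q r s : Fin 4 → M) :
    (Matrix.of fun i : Fin 4 => ![p i, q i, r i, s i]).det =
      - q 0 * (p 1 * (r 2 * s 3 - r 3 * s 2) - r 1 * (p 2 * s 3 - p 3 * s 2) +
        s 1 * (p 2 * r 3 - p 3 * r 2)) +
      q 1 * (p 0 * (r 2 * s 3 - r 3 * s 2) - r 0 * (p 2 * s 3 - p 3 * s 2) +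
        s 0 * (p 2 * r 3 - p 3 * r 2)) -
      q 2 * (p 0 * (r 1 * s 3 - r 3 * s 1) - r 0 * (p 1 * s 3 - p 3 * s 1) +
        s 0 * (p 1 * r 3 - p 3 * r 1)) +
      q 3 * (p 0 * (r 1 * s 2 - r 2 * s 1) - r 0 * (p 1 * s 2 - p 2 * s 1) +
        s 0 * (p 1 * r 2 - p 2 * r 1)) := by
  rw [Matrix.det_succ_row_zero]
  simp only [Fin.sum_univ_succ, Matrix.det_fin_three, Matrix.submatrix_apply, Matrix.of_apply]
  simp [Fin.succAbove]
  ring

/-- expansion of a determinant along a column which is a combination of the others -/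
private theorem det4_expand (p q r s : Fin 4 → M) (u v w x : M)
    (h0 : u * q 0 + v * r 0 + w * s 0 = 0) (h1 : u * q 1 + v * r 1 + w * s 1 = 0)
    (h2 : u * q 2 + v * r 2 + w * s 2 = 0) (h3 : u * q 3 + v * r 3 + w * s 3 = x) :
    u * (Matrix.of fun i : Fin 4 => ![p i, q i, r i, s i]).det =
      x * (p 0 * (r 1 * s 2 - r 2 * s 1) - r 0 * (p 1 * s 2 - p 2 * s 1) +
        s 0 * (p 1 * r 2 - p 2 * r 1)) := by
  rw [det4_eq]
  linear_combination
    -(p 1 * (r 2 * s 3 - r 3 * s 2) - r 1 * (p 2 * s 3 - p 3 * s 2) +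
        s 1 * (p 2 * r 3 - p 3 * r 2)) * h0 +
      (p 0 * (r 2 * s 3 - r 3 * s 2) - r 0 * (p 2 * s 3 - p 3 * s 2) +
        s 0 * (p 2 * r 3 - p 3 * r 2)) * h1 -
      (p 0 * (r 1 * s 3 - r 3 * s 1) - r 0 * (p 1 * s 3 - p 3 * s 1) +
        s 0 * (p 1 * r 3 - p 3 * r 1)) * h2 +
      (p 0 * (r 1 * s 2 - r 2 * s 1) - r 0 * (p 1 * s 2 - p 2 * s 1) +
        s 0 * (p 1 * r 2 - p 2 * r 1)) * h3

theorem star_pt {t : Fin 3 → K3} {θ : Fin 3 → Derivation ℂ K3 K3} {b b' G : S}
    (hb : IsB θ b) {w : Fin 3 → ℤ} {m : Fin 3 → M} {D : Fin 3 → Derivation ℂ M M}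
    {ι : K3 →ₐ[ℂ] HahnSeries ℤ M} (hι : Iota t θ G w m D ι) (hG : Irreducible G) {g : ℕ}
    (hGh : G.IsHomogeneous g) (hG3 : ¬ G ∣ X 3) (hbG : b = G * b')
    (j0 j1 j2 : Fin 3) (hj : (j0 = 0 ∧ j1 = 1 ∧ j2 = 2) ∨ (j0 = 1 ∧ j1 = 0 ∧ j2 = 2) ∨
      (j0 = 2 ∧ j1 = 0 ∧ j2 = 1)) (hw : w j0 ≠ 0) :
    ∃ c : ℂ, c ≠ 0 ∧ ∀ (A : Fin 3 → S) (d : Fin 3 → ℕ), (∀ i, (A i).IsHomogeneous (d i)) →
      (Matrix.of fun i : Fin 3 => ![(d i : M) * aeval (pt ι) (A i), D j1 (aeval (pt ι) (A i)),
        D j2 (aeval (pt ι) (A i))]).det =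
      algebraMap ℂ M c * aeval (pt ι) (b' * Jac4 ![A 0, A 1, A 2, G]) := by
  obtain ⟨hb4, hb0, Θ, hΘ3, hΘ, hdetb⟩ := hb
  have hG0 : G ≠ 0 := hG.ne_zero
  let γ : K3 := fr G g hGh
  have hγord : (ι γ).order = 1 := by
    have h1 := fr_order hι hG hG3 G g hGh hG0
    rw [multiplicity_self] at h1
    exact h1
  have hγlow : ∀ k < (1 : ℤ), (ι γ).coeff k = 0 := fun k hk =>
    HahnSeries.coeff_eq_zero_of_lt_order (by rw [hγord]; exact hk)
  have hγ0 : ι γ ≠ 0 := by
    intro h
    rw [h, HahnSeries.order_zero] at hγord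
    omega
  have hγ1 : (ι γ).coeff 1 ≠ 0 := by
    intro h
    rw [← hγord] at h
    exact hγ0 (HahnSeries.coeff_order_eq_zero.1 h)
  have hlow : ∀ (A : S) (d : ℕ) (hA : A.IsHomogeneous d), ∀ k < (0 : ℤ),
      (ι (fr A d hA)).coeff k = 0 := by
    intro A d hA k hk
    refine coeff_neg_of_order (fun h => ?_) k hk
    rw [fr_order hι hG hG3 A d hA]
    · exact Int.natCast_nonneg _
    · rintro rfl
      apply h
      have h1 : fr 0 d hA = 0 := by
        apply Subtype.ext
        change algebraMap S L 0 / algebraMap S L (X 3 ^ d) = 0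
        rw [map_zero, zero_div]
      rw [h1, map_zero]
  -- the degree of the cofactor
  obtain ⟨e, he, hb'⟩ : ∃ e, g + e = 4 ∧ b'.IsHomogeneous e := by
    rw [hbG] at hb4 hb0
    obtain ⟨i, j, hij, h1, h2⟩ := Pool.Agent.KSF.homog_of_mul G b' 4 hb4 hb0
    have h3 : i = g := h1.inj_right hGh hG0
    exact ⟨j, by omega, h2⟩
  -- the determinant
  let P : (Fin 3 → S) → (Fin 3 → ℕ) → Fin 4 → M := fun A d =>
    ![(d 0 : M) * aeval (pt ι) (A 0), d 1 * aeval (pt ι) (A 1), d 2 * aeval (pt ι) (A 2),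
      g * (ι γ).coeff 1]
  let Q : (Fin 3 → S) → Fin 3 → Fin 4 → M := fun A j =>
    ![D j (aeval (pt ι) (A 0)), D j (aeval (pt ι) (A 1)), D j (aeval (pt ι) (A 2)),
      D j ((ι γ).coeff 1)]
  have key : ∀ (A : Fin 3 → S) (d : Fin 3 → ℕ), (∀ i, (A i).IsHomogeneous (d i)) →
      (Matrix.of fun i : Fin 4 => ![P A d i, Q A 0 i, Q A 1 i, Q A 2 i]).det =
        aeval (pt ι) (b' * Jac4 ![A 0, A 1, A 2, G]) * (ι γ).coeff 1 := by
    intro A d hA
    let A' : Fin 4 → S := ![A 0, A 1, A 2, G]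
    let d' : Fin 4 → ℕ := ![d 0, d 1, d 2, g]
    have hA' : ∀ i, (A' i).IsHomogeneous (d' i) := by
      intro i
      fin_cases i
      · exact hA 0
      · exact hA 1
      · exact hA 2
      · exact hGh
    have hsum : ∑ i, d' i = d 0 + d 1 + d 2 + g := by
      rw [Fin.sum_univ_four]
      rfl
    have hB : (b' * Jac4 A').IsHomogeneous (d 0 + d 1 + d 2) := by
      by_cases h4 : 4 ≤ ∑ i, d' i
      · have h1 := hb'.mul (jac4_homog hA' (∑ i, d' i - 4) (by omega))
        have h2 : e + (∑ i, d' i - 4) = d 0 + d 1 + d 2 := by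
          rw [hsum] at h4 ⊢
          omega
        rwa [h2] at h1
      · have h5 : Jac4 A' = 0 := by
          have h6 : ∃ i, d' i = 0 := by
            by_contra hcon
            push Not at hcon
            apply h4
            rw [Fin.sum_univ_four]
            have := hcon 0
            have := hcon 1
            have := hcon 2
            have := hcon 3
            omega
          obtain ⟨i, hi⟩ := h6
          unfold Jac4
          refine Matrix.det_eq_zero_of_row_eq_zero i fun j => ?_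
          have h2 := hA' i
          rw [hi] at h2
          have h3 : (A' i).totalDegree = 0 := (totalDegree_zero_iff_isHomogeneous (Fin 4)).2 h2
          rw [totalDegree_eq_zero_iff_eq_C] at h3
          change pderiv j (A' i) = 0
          rw [h3, pderiv_C]
        rw [h5, mul_zero]
        exact isHomogeneous_zero _ _ _
    -- the determinant in K3
    let MK : Matrix (Fin 4) (Fin 4) K3 := thMat θ
      (fun i => (d' i : K3) * fr (A' i) (d' i) (hA' i)) (fun i => fr (A' i) (d' i) (hA' i))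
    have hx : algebraMap S L (X 3) ≠ 0 := by
      rw [Ne, FaithfulSMul.algebraMap_eq_zero_iff]
      exact X_ne_zero _
    have hMK : MK.det = fr (b' * Jac4 A') _ hB * γ := by
      apply Subtype.ext
      have h1 := det_K3 Θ θ hΘ3 hΘ A' d' hA'
      rw [det_forms Θ A' d' hA', hdetb, hbG, hsum] at h1
      change (MK.det : L) = algebraMap S L (b' * Jac4 A') / algebraMap S L (X 3 ^ (d 0 + d 1 + d 2)) *
        (algebraMap S L G / algebraMap S L (X 3 ^ g))
      have h2 : algebraMap S L (X 3) ^ (d 0 + d 1 + d 2) ≠ 0 := pow_ne_zero _ hx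
      have h3 : algebraMap S L (X 3) ^ g ≠ 0 := pow_ne_zero _ hx
      rw [div_mul_div_comm, eq_div_iff (by rw [map_pow, map_pow]; exact mul_ne_zero h2 h3)]
      rw [map_pow, map_pow, ← pow_add, map_mul, mul_comm]
      refine h1.symm.trans ?_
      rw [map_mul]
      ring
    have h4 := congrArg (fun a => (ι a).coeff 1) hMK
    change (ι MK.det).coeff 1 = (ι (fr (b' * Jac4 A') _ hB * γ)).coeff 1 at h4
    have h5 : (ι (fr (b' * Jac4 A') _ hB * γ)).coeff 1 =
        aeval (pt ι) (b' * Jac4 A') * (ι γ).coeff 1 := by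
      rw [map_mul, aeval_pt hι hG hG3 _ _ hB]
      have h6 := (coeff_mul_low (hlow _ _ hB) hγlow).2
      rwa [zero_add] at h6
    rw [h5] at h4
    refine Eq.trans ?_ h4
    let v : Fin 4 → ℤ := ![0, 0, 0, 1]
    have hv : ∑ i, v i = 1 := by
      rw [Fin.sum_univ_four]
      rfl
    let N : Matrix (Fin 4) (Fin 4) (HahnSeries ℤ M) := (ι : K3 →+* HahnSeries ℤ M).mapMatrix MK
    have hN : N.det = ι MK.det := ((ι : K3 →+* HahnSeries ℤ M).map_det MK).symm
    have hnat : ∀ (n : ℕ) (a : K3) (k : ℤ), (ι ((n : K3) * a)).coeff k = (n : M) * (ι a).coeff k := by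
      intro n a k
      rw [← nsmul_eq_mul, map_nsmul, ← nsmul_eq_mul]
      exact map_nsmul (HahnSeries.coeff.addMonoidHom (R := M) k) n (ι a)
    have hN0 : ∀ i k, (N i 0).coeff k = (d' i : M) * (ι (fr (A' i) (d' i) (hA' i))).coeff k := by
      intro i k
      exact hnat _ _ _
    have hN1 : ∀ i (j : Fin 3) k, (N i j.succ).coeff k =
        D j ((ι (fr (A' i) (d' i) (hA' i))).coeff k) := by
      intro i j k
      exact hι.der j _ k
    have hlow' : ∀ i, ∀ k < v i, (ι (fr (A' i) (d' i) (hA' i))).coeff k = 0 := by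
      intro i
      fin_cases i
      · exact hlow _ _ _
      · exact hlow _ _ _
      · exact hlow _ _ _
      · exact hγlow
    have hNlow : ∀ i j, ∀ k < v i, (N i j).coeff k = 0 := by
      intro i j k hk
      refine Fin.cases ?_ (fun j => ?_) j
      · rw [hN0, hlow' i k hk, mul_zero]
      · rw [hN1, hlow' i k hk, map_zero]
    have h7 := coeff_det_low N v hNlow
    rw [hv, hN] at h7
    rw [h7]
    congr 1
    have hc : ∀ i, (ι (fr (A' i) (d' i) (hA' i))).coeff (v i) =
        (![aeval (pt ι) (A 0), aeval (pt ι) (A 1), aeval (pt ι) (A 2), (ι γ).coeff 1] :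
          Fin 4 → M) i := by
      intro i
      fin_cases i
      · exact (aeval_pt hι hG hG3 (A 0) (d 0) (hA 0)).symm
      · exact (aeval_pt hι hG hG3 (A 1) (d 1) (hA 1)).symm
      · exact (aeval_pt hι hG hG3 (A 2) (d 2) (hA 2)).symm
      · rfl
    ext i j
    change _ = (N i j).coeff (v i)
    refine Fin.cases ?_ (fun j => ?_) j
    · rw [hN0, hc]
      fin_cases i <;> rfl
    · rw [hN1, hc]
      fin_cases j <;> fin_cases i <;> rfl
  have hE0 : ∀ (A : S) (d : ℕ), A.IsHomogeneous d →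
      (w 0 : M) * D 0 (aeval (pt ι) A) + (w 1 : M) * D 1 (aeval (pt ι) A) +
        (w 2 : M) * D 2 (aeval (pt ι) A) = 0 := by
    intro A d hA
    have h1 := hι.euler (fr A d hA) 0
    rw [Int.cast_zero, zero_mul, ← aeval_pt hι hG hG3 A d hA, Fin.sum_univ_three] at h1
    exact h1
  have hE1 : (w 0 : M) * D 0 ((ι γ).coeff 1) + (w 1 : M) * D 1 ((ι γ).coeff 1) +
        (w 2 : M) * D 2 ((ι γ).coeff 1) = (ι γ).coeff 1 := by
    have h1 := hι.euler γ 1
    rwa [Int.cast_one, one_mul, Fin.sum_univ_three] at h1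
  have hc3 : ∀ (A : Fin 3 → S) (d : Fin 3 → ℕ) (j k : Fin 3),
      (Matrix.of fun i : Fin 3 => ![(d i : M) * aeval (pt ι) (A i), D j (aeval (pt ι) (A i)),
        D k (aeval (pt ι) (A i))]).det =
      P A d 0 * (Q A j 1 * Q A k 2 - Q A j 2 * Q A k 1) -
        Q A j 0 * (P A d 1 * Q A k 2 - P A d 2 * Q A k 1) +
        Q A k 0 * (P A d 1 * Q A j 2 - P A d 2 * Q A j 1) := by
    intro A d j k
    rw [Matrix.det_fin_three]
    change (d 0 : M) * aeval (pt ι) (A 0) * D j (aeval (pt ι) (A 1)) * D k (aeval (pt ι) (A 2)) -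
      (d 0 : M) * aeval (pt ι) (A 0) * D k (aeval (pt ι) (A 1)) * D j (aeval (pt ι) (A 2)) -
      D j (aeval (pt ι) (A 0)) * ((d 1 : M) * aeval (pt ι) (A 1)) * D k (aeval (pt ι) (A 2)) +
      D j (aeval (pt ι) (A 0)) * D k (aeval (pt ι) (A 1)) * ((d 2 : M) * aeval (pt ι) (A 2)) +
      D k (aeval (pt ι) (A 0)) * ((d 1 : M) * aeval (pt ι) (A 1)) * D j (aeval (pt ι) (A 2)) -
      D k (aeval (pt ι) (A 0)) * D j (aeval (pt ι) (A 1)) * ((d 2 : M) * aeval (pt ι) (A 2)) =
      ((d 0 : M) * aeval (pt ι) (A 0)) * (D j (aeval (pt ι) (A 1)) * D k (aeval (pt ι) (A 2)) -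
        D j (aeval (pt ι) (A 2)) * D k (aeval (pt ι) (A 1))) -
      D j (aeval (pt ι) (A 0)) * (((d 1 : M) * aeval (pt ι) (A 1)) * D k (aeval (pt ι) (A 2)) -
        ((d 2 : M) * aeval (pt ι) (A 2)) * D k (aeval (pt ι) (A 1))) +
      D k (aeval (pt ι) (A 0)) * (((d 1 : M) * aeval (pt ι) (A 1)) * D j (aeval (pt ι) (A 2)) -
        ((d 2 : M) * aeval (pt ι) (A 2)) * D j (aeval (pt ι) (A 1)))
    ring
  have r0 : ∀ (A : Fin 3 → S) (d : Fin 3 → ℕ), (∀ i, (A i).IsHomogeneous (d i)) →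
      (w 0 : M) * Q A 0 0 + (w 1 : M) * Q A 1 0 + (w 2 : M) * Q A 2 0 = 0 :=
    fun A d hA => hE0 _ _ (hA 0)
  have r1 : ∀ (A : Fin 3 → S) (d : Fin 3 → ℕ), (∀ i, (A i).IsHomogeneous (d i)) →
      (w 0 : M) * Q A 0 1 + (w 1 : M) * Q A 1 1 + (w 2 : M) * Q A 2 1 = 0 :=
    fun A d hA => hE0 _ _ (hA 1)
  have r2 : ∀ (A : Fin 3 → S) (d : Fin 3 → ℕ), (∀ i, (A i).IsHomogeneous (d i)) →
      (w 0 : M) * Q A 0 2 + (w 1 : M) * Q A 1 2 + (w 2 : M) * Q A 2 2 = 0 :=
    fun A d hA => hE0 _ _ (hA 2)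
  have r3 : ∀ (A : Fin 3 → S),
      (w 0 : M) * Q A 0 3 + (w 1 : M) * Q A 1 3 + (w 2 : M) * Q A 2 3 = (ι γ).coeff 1 :=
    fun A => hE1
  rcases hj with ⟨rfl, rfl, rfl⟩ | ⟨rfl, rfl, rfl⟩ | ⟨rfl, rfl, rfl⟩
  · refine ⟨(w 0 : ℂ), by exact_mod_cast hw, fun A d hA => ?_⟩
    have e := det4_expand (P A d) (Q A 0) (Q A 1) (Q A 2) (w 0) (w 1) (w 2) ((ι γ).coeff 1)
      (hE0 _ _ (hA 0)) (hE0 _ _ (hA 1)) (hE0 _ _ (hA 2)) hE1
    rw [key A d hA] at e
    rw [hc3, map_intCast]
    apply mul_right_cancel₀ hγ1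
    linear_combination -e
  · refine ⟨-(w 1 : ℂ), by simpa using hw, fun A d hA => ?_⟩
    have e := det4_expand (P A d) (Q A 1) (Q A 0) (Q A 2) (w 1) (w 0) (w 2) ((ι γ).coeff 1)
      (by linear_combination r0 A d hA) (by linear_combination r1 A d hA)
      (by linear_combination r2 A d hA) (by linear_combination r3 A)
    have k : (Matrix.of fun i : Fin 4 => ![P A d i, Q A 1 i, Q A 0 i, Q A 2 i]).det =
        - (Matrix.of fun i : Fin 4 => ![P A d i, Q A 0 i, Q A 1 i, Q A 2 i]).det := by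
      rw [det4_eq, det4_eq]
      ring
    rw [k, key A d hA] at e
    rw [hc3, map_neg, map_intCast]
    apply mul_right_cancel₀ hγ1
    linear_combination -e
  · refine ⟨(w 2 : ℂ), by exact_mod_cast hw, fun A d hA => ?_⟩
    have e := det4_expand (P A d) (Q A 2) (Q A 0) (Q A 1) (w 2) (w 0) (w 1) ((ι γ).coeff 1)
      (by linear_combination r0 A d hA) (by linear_combination r1 A d hA)
      (by linear_combination r2 A d hA) (by linear_combination r3 A)
    have k : (Matrix.of fun i : Fin 4 => ![P A d i, Q A 2 i, Q A 0 i, Q A 1 i]).det =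
        (Matrix.of fun i : Fin 4 => ![P A d i, Q A 0 i, Q A 1 i, Q A 2 i]).det := by
      rw [det4_eq, det4_eq]
      ring
    rw [k, key A d hA] at e
    rw [hc3, map_intCast]
    apply mul_right_cancel₀ hγ1
    linear_combination -e

end Pool.Agent.CLN
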