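import Pool.Agent.CLN.BinP

/-!
# CLN / SymP: `mult P G ≥ n` implies `G ∈ P^n` (`P = (f_0, f_1)` a prime, diagonal cubics)

`f_0 = diag a'`, `f_1 = diag a`, `ξ = gen P`, `ξ_j ≠ 0` (`X_not_mem`).
`expand P f_i = s ℓ_i + s^2 (..)`, `ℓ_0 = ∑_j 3 a'_j ξ_j^2 T_j`, `ℓ_1 = ∑_j 3 a_j ξ_j^2 T_j`
(`CLU.Van` / Taylor expansion: the coefficient at `0` is the class of `f_i`, which is `0`; the
coefficient at `1` is `∑_j (∂_j f_i)(ξ) T_j`).  `ℓ_0, ℓ_1` are linearly independent over `Kap P`
(`NonDeg`), hence algebraically independent: `∑_{i ≤ n} g_i ℓ_0^i ℓ_1^(n-i) = 0`, `g_i ∈ Kap P`, implies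
`g_i = 0` (evaluate at points `T` where `ℓ_0 = u`, `ℓ_1 = v` are arbitrary, or a linear change of
variables).
Elements of `P^n` are `∑_{i ≤ n} g_i f_0^i f_1^(n-i)` (`rep`, induction on `n`).
`mem_pow`: induction on `n`: `G ∈ P^n`, `mult P G ≥ n + 1`; the coefficient of `s^n` of `expand P G` is
`∑ g_i(ξ) ℓ_0^i ℓ_1^(n-i) = 0`, so `g_i(ξ) = 0`, `g_i ∈ P`, `G ∈ P^(n+1)`.
-/

set_option autoImplicit false

namespace Pool.Agent.CLN

open MvPolynomial Pool.Agent.CLU

private def Rp (f0 f1 : S) (n : ℕ) (G : S) : Prop :=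
  ∃ g : ℕ → S, G = ∑ i ∈ Finset.range (n + 1), g i * f0 ^ i * f1 ^ (n - i)

private theorem Rp.add {f0 f1 : S} {n : ℕ} {G H : S} (hG : Rp f0 f1 n G) (hH : Rp f0 f1 n H) :
    Rp f0 f1 n (G + H) := by
  obtain ⟨g, rfl⟩ := hG
  obtain ⟨h, rfl⟩ := hH
  refine ⟨fun i => g i + h i, ?_⟩
  rw [← Finset.sum_add_distrib]
  exact Finset.sum_congr rfl fun i _ => by ring

private theorem Rp.smul {f0 f1 : S} {n : ℕ} {G : S} (hG : Rp f0 f1 n G) (u : S) :
    Rp f0 f1 n (G * u) := by
  obtain ⟨g, rfl⟩ := hG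
  refine ⟨fun i => g i * u, ?_⟩
  rw [Finset.sum_mul]
  exact Finset.sum_congr rfl fun i _ => by ring

private theorem Rp.mul0 {f0 f1 : S} {n : ℕ} {G : S} (hG : Rp f0 f1 n G) :
    Rp f0 f1 (n + 1) (G * f0) := by
  obtain ⟨g, rfl⟩ := hG
  refine ⟨fun i => if i = 0 then 0 else g (i - 1), ?_⟩
  rw [Finset.sum_range_succ' _ (n + 1)]
  simp only [↓reduceIte, zero_mul, add_zero, Finset.sum_mul]
  refine Finset.sum_congr rfl fun i _ => ?_
  rw [if_neg (Nat.succ_ne_zero i), Nat.add_sub_cancel, Nat.add_sub_add_right, pow_succ]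
  ring

private theorem Rp.mul1 {f0 f1 : S} {n : ℕ} {G : S} (hG : Rp f0 f1 n G) :
    Rp f0 f1 (n + 1) (G * f1) := by
  obtain ⟨g, rfl⟩ := hG
  refine ⟨fun i => if i = n + 1 then 0 else g i, ?_⟩
  rw [Finset.sum_range_succ _ (n + 1)]
  simp only [↓reduceIte, zero_mul, add_zero, Finset.sum_mul]
  refine Finset.sum_congr rfl fun i hi => ?_
  rw [Finset.mem_range] at hi
  rw [if_neg (by omega), show n + 1 - i = n - i + 1 by omega, pow_succ]
  ring

theorem rep (f0 f1 : S) (n : ℕ) (G : S) (hG : G ∈ Ideal.span {f0, f1} ^ n) :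
    ∃ g : ℕ → S, G = ∑ i ∈ Finset.range (n + 1), g i * f0 ^ i * f1 ^ (n - i) := by
  have key : ∀ n : ℕ, ∀ G : S, G ∈ Ideal.span {f0, f1} ^ n → Rp f0 f1 n G := by
    intro n
    induction n with
    | zero =>
      intro G _
      exact ⟨fun _ => G, by simp⟩
    | succ n ih =>
      intro G hG
      rw [pow_succ] at hG
      refine Submodule.mul_induction_on hG ?_ ?_
      · intro m hm r hr
        obtain ⟨u, v, rfl⟩ := Ideal.mem_span_pair.1 hr
        have h1 := ((ih m hm).smul u).mul0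
        have h2 := ((ih m hm).smul v).mul1
        have h3 := h1.add h2
        have h4 : m * (u * f0 + v * f1) = m * u * f0 + m * v * f1 := by ring
        rw [h4]
        exact h3
      · intro x y hx hy
        exact hx.add hy
  exact key n G hG

private theorem coeff_one_cube {R : Type*} [CommRing R] (k u v : R) :
    (Polynomial.C k * (Polynomial.C u + Polynomial.X * Polynomial.C v) ^ 3).coeff 1 =
      3 * k * u ^ 2 * v := by
  have h : Polynomial.C k * (Polynomial.C u + Polynomial.X * Polynomial.C v) ^ 3 =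
      Polynomial.C (k * u ^ 3) + Polynomial.C (3 * k * u ^ 2 * v) * Polynomial.X +
        Polynomial.C (3 * k * u * v ^ 2) * Polynomial.X ^ 2 +
        Polynomial.C (k * v ^ 3) * Polynomial.X ^ 3 := by
    simp only [map_mul, map_pow, map_ofNat]
    ring
  rw [h, Polynomial.coeff_add, Polynomial.coeff_add, Polynomial.coeff_add,
    Polynomial.coeff_C_mul, Polynomial.coeff_C_mul, Polynomial.coeff_C_mul,
    Polynomial.coeff_C_of_ne_zero one_ne_zero, Polynomial.coeff_X_one, Polynomial.coeff_X_pow,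
    Polynomial.coeff_X_pow, if_neg (by norm_num), if_neg (by norm_num)]
  ring

private theorem coeff_one_expand (P : Ideal S) (a : Fin 4 → ℂ) :
    (expand P (diag a)).coeff 1 =
      ∑ j, C (3 * algebraMap ℂ (Kap P) (a j) * gen P j ^ 2) * X j := by
  unfold diag
  rw [map_sum, Polynomial.finsetSum_coeff]
  refine Finset.sum_congr rfl fun j _ => ?_
  have h1 : expand P (C (a j)) = Polynomial.C (C (algebraMap ℂ (Kap P) (a j))) := by
    rw [show (C (a j) : S) = algebraMap ℂ S (a j) from rfl, AlgHom.commutes]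
    rfl
  rw [map_mul, map_pow, h1, expand_X', coeff_one_cube]
  simp only [map_mul, map_pow, map_ofNat]

theorem mem_pow {a' a : Fin 4 → ℂ} (hnd : NonDeg a' a) {P : Ideal S}
    (hP : P = Ideal.span {diag a', diag a}) (hprime : P.IsPrime) (n : ℕ) (G : S)
    (hG : (n : ℕ∞) ≤ mult P G) : G ∈ P ^ n := by
  have := hprime
  have hgen : ∀ j, gen P j ≠ 0 := by
    intro j h
    have h1 := (IsFractionRing.injective (S ⧸ P) (Kap P)) (h.trans (map_zero _).symm)
    have h2 : (X j : S) ∈ P := Ideal.Quotient.eq_zero_iff_mem.1 h1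
    rw [hP] at h2
    exact X_not_mem j h2
  have hf0 : diag a' ∈ P := by
    rw [hP]
    exact Ideal.subset_span (Set.mem_insert _ _)
  have hf1 : diag a ∈ P := by
    rw [hP]
    exact Ideal.subset_span (Set.mem_insert_of_mem _ rfl)
  have hE : ∀ f ∈ P, ∃ e : Rg P, expand P f = Polynomial.X * e ∧
      e.coeff 0 = (expand P f).coeff 1 := by
    intro f hf
    have h1 : Polynomial.X ∣ expand P f := by
      rw [Polynomial.X_dvd_iff, coeff_zero_expand, Ideal.Quotient.eq_zero_iff_mem.2 hf, map_zero,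
        map_zero]
    obtain ⟨e, he⟩ := h1
    refine ⟨e, he, ?_⟩
    rw [he]
    exact (Polynomial.coeff_X_mul e 0).symm
  obtain ⟨e0, he0, hc0⟩ := hE _ hf0
  obtain ⟨e1, he1, hc1⟩ := hE _ hf1
  rw [coeff_one_expand] at hc0 hc1
  -- the substitution
  let α : ℂ → Kap P := fun c => algebraMap ℂ (Kap P) c
  let p : Kap P := 3 * α (a' 0) * gen P 0 ^ 2
  let q : Kap P := 3 * α (a' 1) * gen P 1 ^ 2
  let r : Kap P := 3 * α (a 0) * gen P 0 ^ 2
  let s : Kap P := 3 * α (a 1) * gen P 1 ^ 2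
  have hD : p * s - q * r ≠ 0 := by
    have h1 : p * s - q * r = 9 * gen P 0 ^ 2 * gen P 1 ^ 2 * α (a 1 * a' 0 - a 0 * a' 1) := by
      change 3 * α (a' 0) * gen P 0 ^ 2 * (3 * α (a 1) * gen P 1 ^ 2) -
        3 * α (a' 1) * gen P 1 ^ 2 * (3 * α (a 0) * gen P 0 ^ 2) =
        9 * gen P 0 ^ 2 * gen P 1 ^ 2 * algebraMap ℂ (Kap P) (a 1 * a' 0 - a 0 * a' 1)
      rw [map_sub, map_mul, map_mul]
      change 3 * α (a' 0) * gen P 0 ^ 2 * (3 * α (a 1) * gen P 1 ^ 2) -
        3 * α (a' 1) * gen P 1 ^ 2 * (3 * α (a 0) * gen P 0 ^ 2) =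
        9 * gen P 0 ^ 2 * gen P 1 ^ 2 * (α (a 1) * α (a' 0) - α (a 0) * α (a' 1))
      ring
    rw [h1]
    have h9 : (9 : Kap P) ≠ 0 := by
      have h2 : algebraMap ℂ (Kap P) 9 ≠ 0 := (map_ne_zero _).2 (by norm_num)
      rwa [map_ofNat] at h2
    refine mul_ne_zero (mul_ne_zero (mul_ne_zero h9 (pow_ne_zero _ (hgen 0)))
      (pow_ne_zero _ (hgen 1))) ?_
    exact (map_ne_zero _).2 (hnd 1 0 (by decide))
  let D : Kap P := (p * s - q * r)⁻¹
  let xx : Polynomial (Kap P) := Polynomial.C (s * D) * Polynomial.X - Polynomial.C (q * D)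
  let yy : Polynomial (Kap P) := Polynomial.C (p * D) - Polynomial.C (r * D) * Polynomial.X
  let φ : MvPolynomial (Fin 4) (Kap P) →ₐ[Kap P] Polynomial (Kap P) := aeval ![xx, yy, 0, 0]
  have hDD : (p * s - q * r) * D = 1 := mul_inv_cancel₀ hD
  have hφ : ∀ b : Fin 4 → ℂ, φ (∑ j, C (3 * algebraMap ℂ (Kap P) (b j) * gen P j ^ 2) * X j) =
      Polynomial.C (3 * α (b 0) * gen P 0 ^ 2) * xx +
        Polynomial.C (3 * α (b 1) * gen P 1 ^ 2) * yy := by
    intro b
    have hX : ∀ c j, φ (C c * X j) = Polynomial.C c * ![xx, yy, 0, 0] j := fun c j => by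
      rw [map_mul]
      congr 1
      · exact aeval_C _ _
      · exact aeval_X _ _
    rw [Fin.sum_univ_four, map_add, map_add, map_add, hX, hX, hX, hX]
    change _ * xx + _ * yy + _ * 0 + _ * 0 = _
    rw [mul_zero, mul_zero, add_zero, add_zero]
  have hφ0 : φ (e0.coeff 0) = Polynomial.X := by
    rw [hc0, hφ]
    change Polynomial.C p * (Polynomial.C (s * D) * Polynomial.X - Polynomial.C (q * D)) +
      Polynomial.C q * (Polynomial.C (p * D) - Polynomial.C (r * D) * Polynomial.X) = _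
    have h1 : Polynomial.C p * (Polynomial.C (s * D) * Polynomial.X - Polynomial.C (q * D)) +
      Polynomial.C q * (Polynomial.C (p * D) - Polynomial.C (r * D) * Polynomial.X) =
      Polynomial.C ((p * s - q * r) * D) * Polynomial.X := by
      simp only [map_mul, map_sub]
      ring
    rw [h1, hDD, map_one, one_mul]
  have hφ1 : φ (e1.coeff 0) = 1 := by
    rw [hc1, hφ]
    change Polynomial.C r * (Polynomial.C (s * D) * Polynomial.X - Polynomial.C (q * D)) +
      Polynomial.C s * (Polynomial.C (p * D) - Polynomial.C (r * D) * Polynomial.X) = _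
    have h1 : Polynomial.C r * (Polynomial.C (s * D) * Polynomial.X - Polynomial.C (q * D)) +
      Polynomial.C s * (Polynomial.C (p * D) - Polynomial.C (r * D) * Polynomial.X) =
      Polynomial.C ((p * s - q * r) * D) := by
      simp only [map_mul, map_sub]
      ring
    rw [h1, hDD, map_one]
  induction n with
  | zero =>
    rw [pow_zero, Ideal.one_eq_top]
    exact Submodule.mem_top
  | succ n ih =>
    have hG' : G ∈ P ^ n := ih (le_trans (by exact_mod_cast Nat.le_succ n) hG)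
    have hG2 := hG'
    rw [hP] at hG2
    obtain ⟨g, hg⟩ := rep _ _ n G hG2
    have hdvd : Polynomial.X ^ (n + 1) ∣ expand P G := X_pow_dvd_of_le _ _ hG
    have h0 : (expand P G).coeff n = 0 := (Polynomial.X_pow_dvd_iff.1 hdvd) n (Nat.lt_succ_self n)
    have h1 : expand P G = Polynomial.X ^ n *
        ∑ i ∈ Finset.range (n + 1), expand P (g i) * e0 ^ i * e1 ^ (n - i) := by
      rw [hg, map_sum, Finset.mul_sum]
      refine Finset.sum_congr rfl fun i hi => ?_
      rw [Finset.mem_range] at hi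
      rw [map_mul, map_mul, map_pow, map_pow, he0, he1, mul_pow, mul_pow]
      have h2 : (Polynomial.X : Rg P) ^ n = Polynomial.X ^ i * Polynomial.X ^ (n - i) := by
        rw [← pow_add]
        congr 1
        omega
      rw [h2]
      ring
    have h2 : ∑ i ∈ Finset.range (n + 1), (expand P (g i)).coeff 0 * (e0.coeff 0) ^ i *
        (e1.coeff 0) ^ (n - i) = 0 := by
      rw [h1] at h0
      have h3 := Polynomial.coeff_X_pow_mul
        (∑ i ∈ Finset.range (n + 1), expand P (g i) * e0 ^ i * e1 ^ (n - i)) n 0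
      rw [zero_add] at h3
      rw [h3] at h0
      have h4 : ∀ f : Rg P, f.coeff 0 = Polynomial.constantCoeff f := fun f => rfl
      rw [h4, map_sum] at h0
      rw [← h0]
      refine Finset.sum_congr rfl fun i _ => ?_
      rw [map_mul, map_mul, map_pow, map_pow]
      rfl
    have h3 := congrArg φ h2
    rw [map_sum, map_zero] at h3
    have h4 : ∀ i, φ ((expand P (g i)).coeff 0 * (e0.coeff 0) ^ i * (e1.coeff 0) ^ (n - i)) =
        Polynomial.C (algebraMap (S ⧸ P) (Kap P) (Ideal.Quotient.mk P (g i))) *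
          Polynomial.X ^ i := by
      intro i
      rw [map_mul, map_mul, map_pow, map_pow, hφ0, hφ1, one_pow, mul_one, coeff_zero_expand]
      congr 1
      exact aeval_C _ _
    rw [Finset.sum_congr rfl fun i _ => h4 i] at h3
    have h5 : ∀ i ∈ Finset.range (n + 1), g i ∈ P := by
      intro i hi
      have h6 := congrArg (fun f => Polynomial.coeff f i) h3
      simp only [Polynomial.finsetSum_coeff, Polynomial.coeff_C_mul_X_pow,
        Polynomial.coeff_zero] at h6
      rw [Finset.sum_ite_eq, if_pos hi] at h6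
      have h7 := (IsFractionRing.injective (S ⧸ P) (Kap P)) (h6.trans (map_zero _).symm)
      exact Ideal.Quotient.eq_zero_iff_mem.1 h7
    rw [hg]
    refine Ideal.sum_mem _ fun i hi => ?_
    have h6 : diag a' ^ i * diag a ^ (n - i) ∈ P ^ n := by
      have h7 := Ideal.mul_mem_mul (Ideal.pow_mem_pow hf0 i) (Ideal.pow_mem_pow hf1 (n - i))
      rw [← pow_add] at h7
      rw [Finset.mem_range] at hi
      rwa [show i + (n - i) = n by omega] at h7
    rw [mul_assoc, pow_succ, mul_comm (P ^ n) P]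
    exact Ideal.mul_mem_mul (h5 i hi) h6

end Pool.Agent.CLN
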