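import Pool.Agent.CLN.NormF
import Pool.Agent.CLN.Cone

/-!
# CLN / ToLoc: from `NSurf` to `Loc`

`center_smooth`, `exists_normF` with `p_i = (x i).coeff 0` give `L'`; let `l'` be the inverse
substitution (`CLU.exists_inverse`).  `Surf.transport` (with `l := L'`): the point
`y_i = aeval x (L' i)` satisfies `Surf (aeval l' (diag c)) (aeval l' (lf l))`, and
`aeval l' (diag c) = cub e0 e3 q`, `aeval l' (lf l) = X 3`.  By `coeff_form` `y_2` has order `0`
(`eval p (L' 2) ≠ 0`), `y_0, y_1, y_3` have coefficient `0` at `0` and are `Ge 0`; they are not zero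
(`cub ∤ X i`: `Surf.van`; `cub` is not zero of degree `3`), so they have positive order.  `Surf.scale`
with `μ = y_2⁻¹`.
Brackets: `star` for `(X i, X j, X 2)`: the matrix has the last row `(1, 0, 0)`, so the determinant is
`br (y_i) (y_j)`; `Jac4 ![X i, X j, X 2, F] = ± ∂_m F` for `{i, j, 2, m}` = all indices.
Last claim: a form `B` of degree `k` in the old coordinates is `B' = aeval l' B` in the new ones:
`aeval x B = aeval y B'`, then scaling by `μ` multiplies by `μ^k`, and `lf l` becomes `X 3`.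
-/

set_option autoImplicit false

namespace Pool.Agent.CLN

open MvPolynomial Pool.Agent.CLU

private theorem ord_mul {f g : HH} (hf : f ≠ 0) (hg : g ≠ 0) :
    (f * g).order = f.order + g.order := HahnSeries.order_mul hf hg

private theorem comp_aeval (x : Fin 4 → HH) (L' : Fin 4 → S) (F : S) :
    aeval (fun i => aeval x (L' i)) F = aeval x (aeval L' F) := by
  have h1 : (aeval x : S →ₐ[ℂ] HH).comp (aeval L') = aeval (fun i => aeval x (L' i)) := by
    apply algHom_ext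
    intro i
    rw [AlgHom.comp_apply, aeval_X, aeval_X]
  exact (DFunLike.congr_fun h1 F).symm

private theorem jac012 (G : S) : Jac4 ![X 0, X 1, X 2, G] = pderiv 3 G := by
  have h : (Matrix.of fun i j => pderiv j ((![X 0, X 1, X 2, G] : Fin 4 → S) i)) =
      !![1, 0, 0, 0; 0, 1, 0, 0; 0, 0, 1, 0; pderiv 0 G, pderiv 1 G, pderiv 2 G, pderiv 3 G] := by
    ext1 i j
    fin_cases i <;> fin_cases j <;> simp [pderiv_X]
  unfold Jac4
  rw [h]
  simp [Matrix.det_succ_row_zero, Fin.sum_univ_succ, Fin.succAbove]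

private theorem jac302 (G : S) : Jac4 ![X 3, X 0, X 2, G] = pderiv 1 G := by
  have h : (Matrix.of fun i j => pderiv j ((![X 3, X 0, X 2, G] : Fin 4 → S) i)) =
      !![0, 0, 0, 1; 1, 0, 0, 0; 0, 0, 1, 0; pderiv 0 G, pderiv 1 G, pderiv 2 G, pderiv 3 G] := by
    ext1 i j
    fin_cases i <;> fin_cases j <;> simp [pderiv_X]
  unfold Jac4
  rw [h]
  simp [Matrix.det_succ_row_zero, Fin.sum_univ_succ, Fin.succAbove]
  ring

private theorem jac312 (G : S) : Jac4 ![X 3, X 1, X 2, G] = -pderiv 0 G := by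
  have h : (Matrix.of fun i j => pderiv j ((![X 3, X 1, X 2, G] : Fin 4 → S) i)) =
      !![0, 0, 0, 1; 0, 1, 0, 0; 0, 0, 1, 0; pderiv 0 G, pderiv 1 G, pderiv 2 G, pderiv 3 G] := by
    ext1 i j
    fin_cases i <;> fin_cases j <;> simp [pderiv_X]
  unfold Jac4
  rw [h]
  simp [Matrix.det_succ_row_zero, Fin.sum_univ_succ, Fin.succAbove]
  ring

private theorem br_of_star {G b' : S} {D1 D2 : Derivation ℂ HH HH} {y : Fin 4 → HH}
    (hS : Surf G b' D1 D2 y) (hy2 : y 2 = 1) : ∃ k : ℂ, k ≠ 0 ∧ ∀ a b : Fin 4,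
      br D1 D2 (y a) (y b) = algebraMap ℂ HH k *
        (aeval y b' * aeval y (Jac4 ![X a, X b, X 2, G])) := by
  obtain ⟨k, hk, h⟩ := hS.star
  refine ⟨k, hk, fun a b => ?_⟩
  have h1 := h ![X a, X b, X 2] (fun _ => 1) (by
    intro i
    fin_cases i
    · exact isHomogeneous_X _ _
    · exact isHomogeneous_X _ _
    · exact isHomogeneous_X _ _)
  have h2 : (Matrix.of fun i : Fin 3 => ![((1 : ℕ) : HH) * aeval y ((![X a, X b, X 2] :
      Fin 3 → S) i), D1 (aeval y ((![X a, X b, X 2] : Fin 3 → S) i)),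
      D2 (aeval y ((![X a, X b, X 2] : Fin 3 → S) i))]).det = br D1 D2 (y a) (y b) := by
    rw [Matrix.det_fin_three]
    have r0 : aeval y ((![X a, X b, X 2] : Fin 3 → S) 0) = y a := aeval_X _ _
    have r1 : aeval y ((![X a, X b, X 2] : Fin 3 → S) 1) = y b := aeval_X _ _
    have r2 : aeval y ((![X a, X b, X 2] : Fin 3 → S) 2) = 1 := (aeval_X _ _).trans hy2
    simp only [Matrix.of_apply, Matrix.cons_val_zero, Matrix.cons_val_one, Matrix.cons_val]
    simp only [Matrix.cons_val_zero, Matrix.cons_val_one, Matrix.cons_val] at r0 r1 r2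
    rw [r0, r1, r2, Derivation.map_one_eq_zero, Derivation.map_one_eq_zero]
    unfold br
    simp
  rw [h2] at h1
  rw [h1, map_mul]
  rfl

private theorem cub_hom (e0 e3 : ℂ) {q : S} (hq : q.IsHomogeneous 2) :
    (cub e0 e3 q).IsHomogeneous 3 := by
  unfold cub
  refine ((IsHomogeneous.add ?_ ?_).add ?_).add ?_
  · exact ((isHomogeneous_X ℂ (0 : Fin 4)).mul (isHomogeneous_X _ _)).mul (isHomogeneous_X _ _)
  · exact IsHomogeneous.C_mul ((isHomogeneous_X ℂ (0 : Fin 4)).pow 3) _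
  · exact IsHomogeneous.C_mul ((isHomogeneous_X ℂ (1 : Fin 4)).pow 3) _
  · exact (isHomogeneous_X ℂ (3 : Fin 4)).mul hq

theorem exists_loc {c l : Fin 4 → ℂ} {w1 w2 : ℝ →+ ℂ} {x : Fin 4 → HH} {κ : Fin 4}
    (h : NSurf c l w1 w2 x κ) : ∃ (e0 e3 : ℂ) (q : S) (y : Fin 4 → HH), Loc e0 e3 q w1 w2 y ∧
      ∀ (k : ℕ) (B : S), B.IsHomogeneous k → aeval x B ≠ 0 → ∃ B' : S, B'.IsHomogeneous k ∧
        aeval y B' ≠ 0 ∧ (aeval x B).order - k * (aeval x (lf l)).order =
          (aeval y B').order - k * (y 3).order := by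
  classical
  have hc : ∀ j, c j ≠ 0 := fun j => not_cone h j
  obtain ⟨hf, hp, r, hr, hrl⟩ := center_smooth h
  obtain ⟨L', e0, e3, q, hL1, hLi, hL3, hp0, hp1, hp2, hq, hdiag, qz, qx, qy⟩ :=
    exists_normF c l _ hc hp hf r hr hrl
  obtain ⟨l', hl', -, h1, h2⟩ := exists_inverse L' hL1 hLi
  have hG : (cub e0 e3 q).IsHomogeneous 3 := cub_hom e0 e3 hq
  have hG0 : cub e0 e3 q ≠ 0 := by
    intro h0
    have h3 : diag c = 0 := by rw [hdiag, h0, map_zero]
    have h4 := congrArg (eval (Pi.single 0 1)) h3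
    unfold diag at h4
    rw [map_sum, Finset.sum_eq_single 0] at h4
    · simp at h4
      exact hc 0 h4
    · intro j _ hj
      simp [Pi.single_eq_of_ne hj]
    · intro hh
      exact absurd (Finset.mem_univ 0) hh
  have hS0 := Surf.transport h.surf L' l' hL1 hl' h1 h2
  rw [hdiag, h2, ← hL3] at hS0
  have hX3 : aeval l' (L' 3) = X 3 := by
    have := h2 (X 3)
    rwa [aeval_X] at this
  rw [hX3] at hS0
  obtain ⟨y0, hy0⟩ : ∃ y0 : Fin 4 → HH, y0 = fun i => aeval x (L' i) := ⟨_, rfl⟩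
  have hy0i : ∀ i, y0 i = aeval x (L' i) := fun i => by rw [hy0]
  rw [← hy0] at hS0
  have hge : ∀ i, Ge 0 (y0 i) := fun i => by
    rw [hy0i]
    exact (coeff_form x h.ge (L' i)).1
  have hco : ∀ i, (y0 i).coeff 0 = eval (fun i => (x i).coeff 0) (L' i) := fun i => by
    rw [hy0i]
    exact (coeff_form x h.ge (L' i)).2
  have hp3 : eval (fun i => (x i).coeff 0) (L' 3) = 0 := by
    rw [hL3, eval_lf, dotProduct]
    have h3 : r * ∑ j, l j * (x j).coeff 0 = 0 := by
      have h4 : eval (fun i => (x i).coeff 0) (diag c) = ∑ j, c j * (x j).coeff 0 ^ 3 := by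
        unfold diag
        rw [map_sum]
        exact Finset.sum_congr rfl fun j _ => by simp
      rw [h4] at hf
      rw [Finset.mul_sum]
      have h5 : ∑ j, r * (l j * (x j).coeff 0) = 3 * ∑ j, c j * (x j).coeff 0 ^ 3 := by
        rw [Finset.mul_sum]
        refine Finset.sum_congr rfl fun j _ => ?_
        rw [← mul_assoc, ← hrl j]
        ring
      rw [h5, hf, mul_zero]
    exact (mul_eq_zero.mp h3).resolve_left hr
  have hne : ∀ i, y0 i ≠ 0 := by
    intro i h0
    have h3 := (hS0.van 1 (X i) (isHomogeneous_X _ _)).mp (by rw [aeval_X]; exact h0)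
    obtain ⟨k, hk⟩ := h3
    have hk0 : k ≠ 0 := by
      rintro rfl
      rw [mul_zero] at hk
      exact X_ne_zero i hk
    have h4 := congrArg totalDegree hk
    rw [totalDegree_mul_of_isDomain hG0 hk0, hG.totalDegree hG0, totalDegree_X] at h4
    omega
  have hpos : ∀ i, eval (fun i => (x i).coeff 0) (L' i) = 0 → 0 < (y0 i).order := by
    intro i hi
    have h3 := (hge i).le_order (hne i)
    refine lt_of_le_of_ne h3 fun h4 => ?_
    have h5 := hco i
    rw [hi, h4] at h5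
    exact hne i (HahnSeries.coeff_order_eq_zero.mp h5)
  have hord2 : (y0 2).order = 0 := by
    refine le_antisymm ?_ ((hge 2).le_order (hne 2))
    refine HahnSeries.order_le_of_coeff_ne_zero ?_
    rw [hco]
    exact hp2
  obtain ⟨μ, hμ⟩ : ∃ μ : HH, μ = (y0 2)⁻¹ := ⟨_, rfl⟩
  have hμ2 : μ * y0 2 = 1 := by rw [hμ, inv_mul_cancel₀ (hne 2)]
  have hμ0 : μ ≠ 0 := by rw [hμ]; exact inv_ne_zero (hne 2)
  have hμo : μ.order = 0 := by
    have h3 := ord_mul hμ0 (hne 2)
    rw [hμ2, hord2, add_zero, HahnSeries.order_one] at h3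
    exact h3.symm
  have hμk : ∀ k : ℕ, (μ ^ k).order = 0 := by
    intro k
    induction k with
    | zero => rw [pow_zero, HahnSeries.order_one]
    | succ k ih => rw [pow_succ, ord_mul (pow_ne_zero _ hμ0) hμ0, ih, hμo, add_zero]
  have hS := Surf.scale hS0 hG (isHomogeneous_X ℂ (3 : Fin 4)) (by norm_num) (by norm_num) μ hμ0
  obtain ⟨y, hy⟩ : ∃ y : Fin 4 → HH, y = fun i => μ * y0 i := ⟨_, rfl⟩
  have hyi : ∀ i, y i = μ * y0 i := fun i => by rw [hy]
  rw [← hy] at hS
  have hyne : ∀ i, y i ≠ 0 := fun i => by rw [hyi]; exact mul_ne_zero hμ0 (hne i)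
  have hyo : ∀ i, (y i).order = (y0 i).order := fun i => by
    rw [hyi, ord_mul hμ0 (hne i), hμo, zero_add]
  have hy2 : y 2 = 1 := by rw [hyi, hμ2]
  obtain ⟨k, hk, hbr⟩ := br_of_star hS hy2
  have hy3 : aeval y (X 3 : S) = y 3 := aeval_X _ _
  refine ⟨e0, e3, q, y, ⟨⟨hq, qz, hy2, hyne 0, hyne 1, hyne 3, ?_, ?_, ?_, ?_⟩, qx, qy, ?_, ?_, ?_⟩,
    ?_⟩
  · rw [hyo]
    exact hpos 0 hp0
  · rw [hyo]
    exact hpos 1 hp1
  · rw [hyo]
    exact hpos 3 hp3
  · exact (hS.van 3 _ hG).mpr dvd_rfl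
  · refine ⟨k, hk, ?_⟩
    rw [hbr, jac012, hy3]
  · refine ⟨k, hk, ?_⟩
    rw [hbr, jac302, hy3]
  · refine ⟨-k, neg_ne_zero.mpr hk, ?_⟩
    rw [hbr, jac312, hy3, map_neg, map_neg]
    ring
  · intro n B hB hBx
    have hB' : (aeval l' B : S).IsHomogeneous n := by
      have := hB.aeval l' hl'
      simpa using this
    have h3 : aeval y0 (aeval l' B) = aeval x B := by
      rw [hy0, comp_aeval, h1]
    have h4 : aeval y (aeval l' B) = μ ^ n * aeval x B := by
      rw [hy, aeval_smul_form _ n hB', h3]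
    refine ⟨aeval l' B, hB', ?_, ?_⟩
    · rw [h4]
      exact mul_ne_zero (pow_ne_zero _ hμ0) hBx
    · rw [h4, ord_mul (pow_ne_zero _ hμ0) hBx, hμk, zero_add, hyo, hy0i, hL3]

end Pool.Agent.CLN
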